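import Pool.Agent.Work.MP_bb0df9_an.Basic

/-!
# MP_bb0df9_an : arc length
-/

open MeasureTheory Set Filter Topology
open scoped ENNReal NNReal ContDiff

namespace CNEDRem

variable {n : ℕ}

/-- The arc length function is continuous. -/
theorem Arc_cont {γ : ℝ → V n} (hc : ContinuousOn γ (Icc 0 1))
    (hv : eVariationOn γ (Icc 0 1) ≠ ⊤) :
    ContinuousOn (variationOnFromTo γ (Icc 0 1) 0) (Icc 0 1) := by
  have hbv : LocallyBoundedVariationOn γ (Icc (0 : ℝ) 1) :=
    BoundedVariationOn.locallyBoundedVariationOn hv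
  have h0 : (0 : ℝ) ∈ Icc (0 : ℝ) 1 := ⟨le_rfl, zero_le_one⟩
  intro b hb
  have h1 : ContinuousWithinAt (variationOnFromTo γ (Icc 0 1) 0) (Icc 0 1 ∩ Iio b) b := by
    have h := variationOnFromTo.tendsto_left (f := γ) (l := γ b) h0 hb hbv
      ((hc b hb).mono inter_subset_left)
    rw [dist_self, sub_zero] at h
    exact h
  have h2 : ContinuousWithinAt (variationOnFromTo γ (Icc 0 1) 0) (Icc 0 1 ∩ Ioi b) b := by
    have h := variationOnFromTo.tendsto_right (f := γ) (l := γ b) h0 hb hbv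
      ((hc b hb).mono inter_subset_left)
    rw [dist_self, add_zero] at h
    exact h
  have h3 : ContinuousWithinAt (variationOnFromTo γ (Icc 0 1) 0) {b} b :=
    continuousWithinAt_singleton
  refine ((h1.union h2).union h3).mono ?_
  intro x hx
  rcases lt_trichotomy x b with h | h | h
  · exact Or.inl (Or.inl ⟨hx, h⟩)
  · exact Or.inr h
  · exact Or.inl (Or.inr ⟨hx, h⟩)

theorem Arc_zero (γ : ℝ → V n) : variationOnFromTo γ (Icc 0 1) 0 0 = 0 :=
  variationOnFromTo.self _ _ _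

theorem Arc_one (γ : ℝ → V n) :
    variationOnFromTo γ (Icc 0 1) 0 1 = (eVariationOn γ (Icc 0 1)).toReal := by
  rw [variationOnFromTo.eq_of_le _ _ zero_le_one, inter_self]

/-- The arc length function is onto. -/
theorem Arc_image {γ : ℝ → V n} (hc : ContinuousOn γ (Icc 0 1))
    (hv : eVariationOn γ (Icc 0 1) ≠ ⊤) :
    variationOnFromTo γ (Icc 0 1) 0 '' Icc 0 1 = Icc 0 (eVariationOn γ (Icc 0 1)).toReal := by
  have hbv : LocallyBoundedVariationOn γ (Icc (0 : ℝ) 1) :=
    BoundedVariationOn.locallyBoundedVariationOn hv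
  have h0 : (0 : ℝ) ∈ Icc (0 : ℝ) 1 := ⟨le_rfl, zero_le_one⟩
  have h1 : (1 : ℝ) ∈ Icc (0 : ℝ) 1 := ⟨zero_le_one, le_rfl⟩
  apply Subset.antisymm
  · rintro _ ⟨t, ht, rfl⟩
    refine ⟨?_, ?_⟩
    · exact (Arc_zero γ).symm.le.trans (variationOnFromTo.monotoneOn hbv h0 h0 ht ht.1)
    · exact (variationOnFromTo.monotoneOn hbv h0 ht h1 ht.2).trans (Arc_one γ).le
  · have h := intermediate_value_Icc (zero_le_one' ℝ) (Arc_cont hc hv)
    rwa [Arc_zero, Arc_one] at h

/-- The natural parametrisation is Lipschitz on the interval. -/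
theorem Arc_lip {γ : ℝ → V n} (hc : ContinuousOn γ (Icc 0 1))
    (hv : eVariationOn γ (Icc 0 1) ≠ ⊤) :
    LipschitzOnWith 1 (naturalParameterization γ (Icc 0 1) 0)
      (Icc 0 (eVariationOn γ (Icc 0 1)).toReal) := by
  have hbv : LocallyBoundedVariationOn γ (Icc (0 : ℝ) 1) :=
    BoundedVariationOn.locallyBoundedVariationOn hv
  have h0 : (0 : ℝ) ∈ Icc (0 : ℝ) 1 := ⟨le_rfl, zero_le_one⟩
  have hu := has_unit_speed_naturalParameterization γ hbv h0
  rw [Arc_image hc hv] at hu
  have key : ∀ x ∈ Icc 0 (eVariationOn γ (Icc 0 1)).toReal,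
      ∀ y ∈ Icc 0 (eVariationOn γ (Icc 0 1)).toReal, x ≤ y →
      edist (naturalParameterization γ (Icc 0 1) 0 x) (naturalParameterization γ (Icc 0 1) 0 y)
        ≤ edist x y := by
    intro x hx y hy hxy
    have h := hu hx hy
    have h2 := eVariationOn.edist_le (naturalParameterization γ (Icc 0 1) 0)
      (s := Icc 0 (eVariationOn γ (Icc 0 1)).toReal ∩ Icc x y) (x := x) (y := y)
      ⟨hx, le_rfl, hxy⟩ ⟨hy, hxy, le_rfl⟩
    refine h2.trans (h.le.trans (le_of_eq ?_))
    rw [NNReal.coe_one, one_mul, edist_comm, edist_dist, Real.dist_eq,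
      abs_of_nonneg (sub_nonneg.2 hxy)]
  intro x hx y hy
  rw [ENNReal.coe_one, one_mul]
  rcases le_total x y with h | h
  · exact key x hx y hy h
  · rw [edist_comm, edist_comm x y]
    exact key y hy x hx h

/-- The Lipschitz extension of the natural parametrisation. -/
noncomputable def Arc_beta (γ : ℝ → V n) (s : ℝ) : V n :=
  naturalParameterization γ (Icc 0 1) 0
    (projIcc 0 (eVariationOn γ (Icc 0 1)).toReal ENNReal.toReal_nonneg s : ℝ)

theorem Arc_beta_eq (γ : ℝ → V n) {s : ℝ} (hs : s ∈ Icc 0 (eVariationOn γ (Icc 0 1)).toReal) :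
    Arc_beta γ s = naturalParameterization γ (Icc 0 1) 0 s := by
  unfold Arc_beta
  rw [projIcc_of_mem _ hs]

theorem Arc_beta_lip {γ : ℝ → V n} (hc : ContinuousOn γ (Icc 0 1))
    (hv : eVariationOn γ (Icc 0 1) ≠ ⊤) : LipschitzWith 1 (Arc_beta γ) := by
  intro x y
  have h := Arc_lip hc hv
    (projIcc 0 (eVariationOn γ (Icc 0 1)).toReal ENNReal.toReal_nonneg x).2
    (projIcc 0 (eVariationOn γ (Icc 0 1)).toReal ENNReal.toReal_nonneg y).2
  refine h.trans ?_
  gcongr
  have h2 := LipschitzWith.projIcc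
    (ENNReal.toReal_nonneg : (0 : ℝ) ≤ (eVariationOn γ (Icc 0 1)).toReal) x y
  rw [ENNReal.coe_one, one_mul] at h2
  exact h2

theorem Arc_beta_len {γ : ℝ → V n} (hc : ContinuousOn γ (Icc 0 1))
    (hv : eVariationOn γ (Icc 0 1) ≠ ⊤) {t : ℝ} (ht : t ∈ Icc (0 : ℝ) 1) :
    Arc_beta γ (variationOnFromTo γ (Icc 0 1) 0 t) = γ t := by
  have hbv : LocallyBoundedVariationOn γ (Icc (0 : ℝ) 1) :=
    BoundedVariationOn.locallyBoundedVariationOn hv
  have h0 : (0 : ℝ) ∈ Icc (0 : ℝ) 1 := ⟨le_rfl, zero_le_one⟩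
  rw [Arc_beta_eq]
  · exact edist_eq_zero.1 (edist_naturalParameterization_eq_zero hbv h0 ht)
  · rw [← Arc_image hc hv]
    exact mem_image_of_mem _ ht

theorem Arc_lineInt {γ : ℝ → V n} (hv : eVariationOn γ (Icc 0 1) ≠ ⊤) (ρ : V n → ℝ≥0∞) :
    lineInt ρ γ = ∫⁻ t in Icc 0 (eVariationOn γ (Icc 0 1)).toReal, ρ (Arc_beta γ t) := by
  unfold lineInt
  rw [if_neg hv]
  apply setLIntegral_congr_fun measurableSet_Icc
  intro s hs
  simp only
  rw [Arc_beta_eq γ hs]

theorem thmArc2 : StmtArc2 := by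
  intro n γ hc hv
  have h0 : (0 : ℝ) ∈ Icc (0 : ℝ) 1 := ⟨le_rfl, zero_le_one⟩
  have h1 : (1 : ℝ) ∈ Icc (0 : ℝ) 1 := ⟨zero_le_one, le_rfl⟩
  refine ⟨(eVariationOn γ (Icc 0 1)).toReal, Arc_beta γ, ENNReal.toReal_nonneg,
    Arc_beta_lip hc hv, ?_, ?_, ?_, Arc_lineInt hv⟩
  · have h := Arc_beta_len hc hv h0
    rwa [Arc_zero] at h
  · have h := Arc_beta_len hc hv h1
    rwa [Arc_one] at h
  · rw [← Arc_image hc hv, image_image]
    exact image_congr fun t ht => Arc_beta_len hc hv ht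

/-- The arc length function of a Lipschitz curve. -/
theorem Arc_len_lip {γ : ℝ → V n} {M : ℝ≥0} (hγ : LipschitzWith M γ)
    (hv : eVariationOn γ (Icc 0 1) ≠ ⊤) :
    LipschitzOnWith M (variationOnFromTo γ (Icc 0 1) 0) (Icc 0 1) := by
  have hbv : LocallyBoundedVariationOn γ (Icc (0 : ℝ) 1) :=
    BoundedVariationOn.locallyBoundedVariationOn hv
  have h0 : (0 : ℝ) ∈ Icc (0 : ℝ) 1 := ⟨le_rfl, zero_le_one⟩
  have key : ∀ s ∈ Icc (0 : ℝ) 1, ∀ t ∈ Icc (0 : ℝ) 1, s ≤ t →
      dist (variationOnFromTo γ (Icc 0 1) 0 s) (variationOnFromTo γ (Icc 0 1) 0 t)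
        ≤ M * dist s t := by
    intro s hs t ht hst
    have h1 := variationOnFromTo.add hbv h0 hs ht
    have h2 : variationOnFromTo γ (Icc 0 1) s t ≤ M * (t - s) := by
      rw [variationOnFromTo.eq_of_le _ _ hst]
      have h3 : eVariationOn γ (Icc 0 1 ∩ Icc s t) ≤ M * eVariationOn id (Icc s t) := by
        have h4 := LipschitzOnWith.comp_eVariationOn_le (f := γ) (C := M) (t := univ)
          (hγ.lipschitzOnWith) (g := (id : ℝ → ℝ)) (s := Icc s t) (fun _ _ => mem_univ _)
        exact (eVariationOn.mono γ inter_subset_right).trans h4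
      rw [eVariationOn_id_Icc] at h3
      have h5 := ENNReal.toReal_mono (ENNReal.mul_ne_top ENNReal.coe_ne_top
        ENNReal.ofReal_ne_top) h3
      rwa [ENNReal.toReal_mul, ENNReal.coe_toReal,
        ENNReal.toReal_ofReal (sub_nonneg.2 hst)] at h5
    have h3 : 0 ≤ variationOnFromTo γ (Icc 0 1) s t := variationOnFromTo.nonneg_of_le _ _ hst
    rw [Real.dist_eq, Real.dist_eq, ← h1, abs_sub_comm, add_sub_cancel_left, abs_of_nonneg h3,
      abs_sub_comm, abs_of_nonneg (sub_nonneg.2 hst)]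
    exact h2
  apply LipschitzOnWith.of_dist_le_mul
  intro s hs t ht
  rcases le_total s t with h | h
  · exact key s hs t ht h
  · rw [dist_comm, dist_comm s t]
    exact key t ht s hs h

/-- Change of variables for Lipschitz functions of one variable. -/
theorem Arc_change {l : ℝ → ℝ} {M : ℝ≥0} {a : ℝ} (hl : LipschitzOnWith M l (Icc 0 1))
    (him : l '' Icc 0 1 = Icc 0 a) {h : ℝ → ℝ≥0∞} (hh : Measurable h) :
    ∫⁻ s in Icc 0 a, h s ≤ M * ∫⁻ t in Icc 0 1, h (l t) := by
  set l' : ℝ → ℝ := fun t => l (projIcc 0 1 zero_le_one t : ℝ) with hl'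
  have hcont : Continuous l' := by
    have h1 : ContinuousOn l (Icc 0 1) := hl.continuousOn
    exact continuousOn_iff_continuous_domRestrict.1 h1 |>.comp continuous_projIcc
  have heq : ∀ t ∈ Icc (0 : ℝ) 1, l' t = l t := by
    intro t ht
    simp only [hl']
    rw [projIcc_of_mem _ ht]
  have hle : (volume.restrict (Icc 0 a) : Measure ℝ) ≤
      (M : ℝ≥0∞) • Measure.map l' (volume.restrict (Icc 0 1)) := by
    apply Measure.le_iff.2
    intro A hA
    rw [Measure.restrict_apply hA, Measure.smul_apply, Measure.map_apply hcont.measurable hA,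
      Measure.restrict_apply (hcont.measurable hA), smul_eq_mul]
    have h1 : A ∩ Icc 0 a = l '' (l' ⁻¹' A ∩ Icc 0 1) := by
      ext s
      constructor
      · rintro ⟨hs, hs'⟩
        rw [← him] at hs'
        obtain ⟨t, ht, rfl⟩ := hs'
        exact ⟨t, ⟨by rw [mem_preimage, heq t ht]; exact hs, ht⟩, rfl⟩
      · rintro ⟨t, ⟨h1, h2⟩, rfl⟩
        refine ⟨?_, ?_⟩
        · rw [mem_preimage, heq t h2] at h1
          exact h1
        · rw [← him]
          exact mem_image_of_mem _ h2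
    rw [h1]
    have h2 := (hl.mono (inter_subset_right (s := l' ⁻¹' A))).hausdorffMeasure_image_le
      (d := 1) zero_le_one
    rw [hausdorffMeasure_real, ENNReal.rpow_one] at h2
    exact h2
  calc ∫⁻ s in Icc 0 a, h s
      ≤ ∫⁻ s, h s ∂((M : ℝ≥0∞) • Measure.map l' (volume.restrict (Icc 0 1))) :=
        lintegral_mono' hle le_rfl
    _ = M * ∫⁻ t in Icc 0 1, h (l' t) := by
        rw [lintegral_smul_measure, lintegral_map hh hcont.measurable, smul_eq_mul]
    _ = M * ∫⁻ t in Icc 0 1, h (l t) := by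
        congr 1
        apply setLIntegral_congr_fun measurableSet_Icc
        intro t ht
        simp only
        rw [heq t ht]

/-- Linear change of variables. -/
theorem Arc_scale {L : ℝ} (hL : 0 < L) {F : ℝ → ℝ≥0∞} (hF : Measurable F) :
    ∫⁻ t in Icc 0 L, F t = ENNReal.ofReal L * ∫⁻ t in Icc 0 1, F (L * t) := by
  rw [← lintegral_indicator measurableSet_Icc, ← lintegral_indicator measurableSet_Icc]
  conv_lhs => rw [← Real.smul_map_volume_mul_left hL.ne']
  rw [lintegral_smul_measure, lintegral_map (hF.indicator measurableSet_Icc)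
    (measurable_const_mul L), smul_eq_mul, abs_of_pos hL]
  congr 1
  apply lintegral_congr
  intro t
  by_cases ht : t ∈ Icc (0 : ℝ) 1
  · have h2 : L * t ∈ Icc 0 L := ⟨mul_nonneg hL.le ht.1, by nlinarith [ht.2]⟩
    rw [indicator_of_mem ht, indicator_of_mem h2]
  · have h2 : L * t ∉ Icc 0 L := by
      rintro ⟨h3, h4⟩
      apply ht
      refine ⟨?_, ?_⟩
      · by_contra hneg
        push Not at hneg
        nlinarith
      · by_contra hneg
        push Not at hneg
        nlinarith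
    rw [indicator_of_notMem ht, indicator_of_notMem h2]

theorem thmArc : StmtArc := by
  intro n ρ hρ L Λ β hL hβ
  set g : ℝ → V n := fun t => β (L * t) with hg
  have hgL : LipschitzWith (Λ * L.toNNReal) g := by
    have h1 : LipschitzWith L.toNNReal (fun t : ℝ => L * t) := by
      apply LipschitzWith.of_dist_le_mul
      intro s t
      rw [Real.dist_eq, Real.dist_eq, ← mul_sub, abs_mul, abs_of_nonneg hL,
        Real.coe_toNNReal _ hL]
    exact hβ.comp h1
  have hgc : ContinuousOn g (Icc 0 1) := hgL.continuous.continuousOn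
  have hv : eVariationOn g (Icc 0 1) ≠ ⊤ := by
    have h4 := LipschitzOnWith.comp_eVariationOn_le (f := g) (C := Λ * L.toNNReal) (t := univ)
      (hgL.lipschitzOnWith) (g := (id : ℝ → ℝ)) (s := Icc 0 1) (fun _ _ => mem_univ _)
    rw [eVariationOn_id_Icc] at h4
    exact ne_top_of_le_ne_top (ENNReal.mul_ne_top ENNReal.coe_ne_top ENNReal.ofReal_ne_top) h4
  rw [Arc_lineInt hv]
  have h1 := Arc_change (Arc_len_lip hgL hv) (Arc_image hgc hv)
    (h := fun s => ρ (Arc_beta g s)) (hρ.comp (Arc_beta_lip hgc hv).continuous.measurable)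
  refine h1.trans ?_
  have h2 : ∫⁻ t in Icc 0 1, ρ (Arc_beta g (variationOnFromTo g (Icc 0 1) 0 t)) =
      ∫⁻ t in Icc 0 1, ρ (β (L * t)) := by
    apply setLIntegral_congr_fun measurableSet_Icc
    intro t ht
    simp only
    rw [Arc_beta_len hgc hv ht]
  rw [h2]
  rcases hL.eq_or_lt with h0 | hpos
  · rw [← h0]
    simp
  · have h3 := Arc_scale hpos (F := fun t => ρ (β t)) (hρ.comp hβ.continuous.measurable)
    rw [h3, ← mul_assoc, ENNReal.coe_mul]
    exact le_of_eq rfl

end CNEDRem
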