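import Pool.Agent.Work.MP_bb0df9_an.Basic

/-!
# MP_bb0df9_an : variable scale averages of Sobolev functions (StmtAvg)
-/

open MeasureTheory Set Filter Topology
open scoped ENNReal NNReal ContDiff Convolution

namespace CNEDRem

variable {n : ℕ}

/-- Change of variables. -/
theorem Avg_cov (ρ : V n → ℝ≥0∞) (hρ : Measurable ρ) (p : V n) {r : ℝ} (hr : 0 < r) :
    ∫⁻ z in Metric.closedBall (0 : V n) 1, ρ (p + r • z) =
      ENNReal.ofReal (r ^ n)⁻¹ * ∫⁻ y in Metric.closedBall p r, ρ y := by
  have h1 : ∀ z : V n, (Metric.closedBall (0 : V n) 1).indicator (fun z => ρ (p + r • z)) z =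
      (Metric.closedBall p r).indicator ρ (p + r • z) := by
    intro z
    by_cases hz : z ∈ Metric.closedBall (0 : V n) 1
    · have hz' : p + r • z ∈ Metric.closedBall p r := by
        rw [mem_closedBall_iff_norm] at hz ⊢
        rw [add_sub_cancel_left, norm_smul, Real.norm_of_nonneg hr.le]
        rw [sub_zero] at hz
        nlinarith
      rw [indicator_of_mem hz, indicator_of_mem hz']
    · have hz' : p + r • z ∉ Metric.closedBall p r := by
        intro h
        apply hz
        rw [mem_closedBall_iff_norm] at h ⊢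
        rw [add_sub_cancel_left, norm_smul, Real.norm_of_nonneg hr.le] at h
        rw [sub_zero]
        by_contra hcon
        push Not at hcon
        nlinarith
      rw [indicator_of_notMem hz, indicator_of_notMem hz']
  rw [← lintegral_indicator Metric.isClosed_closedBall.measurableSet,
    ← lintegral_indicator Metric.isClosed_closedBall.measurableSet]
  simp_rw [h1]
  set h : V n → ℝ≥0∞ := (Metric.closedBall p r).indicator ρ with hh
  have hhm : Measurable h := hρ.indicator Metric.isClosed_closedBall.measurableSet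
  have h2 : ∫⁻ z, h (p + r • z) = ∫⁻ w, h (p + w) ∂(Measure.map (r • ·) (volume : Measure (V n))) := by
    have hhm' : Measurable (fun w => h (p + w)) := hhm.comp (measurable_const_add p)
    rw [lintegral_map hhm' (measurable_const_smul r)]
  rw [h2, Measure.map_addHaar_smul _ hr.ne', lintegral_smul_measure, finrank_euclideanSpace,
    Fintype.card_fin, abs_of_pos (by positivity), lintegral_add_left_eq_self, smul_eq_mul]

/-- Upper semicontinuity of the averages. -/
theorem Avg_usc (ρ : V n → ℝ≥0∞) (hρ : Measurable ρ) (x : V n) (r0 : ℝ) (hr0 : 0 < r0) (R : ℝ)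
    (hR : r0 < R) (hfin : ∫⁻ y in Metric.closedBall x R, ρ y ≠ ⊤) (N : ℝ≥0∞)
    (hN : ∫⁻ z in Metric.closedBall (0 : V n) 1, ρ (x + r0 • z) < N) :
    ∃ η : ℝ, 0 < η ∧ η < r0 ∧ ∀ (p : V n) (r : ℝ), dist p x ≤ η → |r - r0| ≤ η →
      ∫⁻ z in Metric.closedBall (0 : V n) 1, ρ (p + r • z) ≤ N := by
  set ν : Measure (V n) := volume.withDensity ρ with hν
  have hνb : ∀ (p : V n) (r : ℝ), ν (Metric.closedBall p r) = ∫⁻ y in Metric.closedBall p r, ρ y := by
    intro p r
    rw [hν, withDensity_apply _ Metric.isClosed_closedBall.measurableSet]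
  have h1 : Tendsto (ν ∘ fun r => Metric.closedBall x r) (𝓝[>] r0)
      (𝓝 (ν (⋂ r > r0, Metric.closedBall x r))) := by
    apply tendsto_measure_biInter_gt
    · intro r _
      exact Metric.isClosed_closedBall.measurableSet.nullMeasurableSet
    · intro i j _ hij
      exact Metric.closedBall_subset_closedBall hij
    · exact ⟨R, hR, by rw [hνb]; exact hfin⟩
  rw [Metric.biInter_gt_closedBall] at h1
  have h2 : Tendsto (fun η : ℝ => r0 + 2 * η) (𝓝[>] 0) (𝓝[>] r0) := by
    apply tendsto_nhdsWithin_of_tendsto_nhds_of_eventually_within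
    · have : Tendsto (fun η : ℝ => r0 + 2 * η) (𝓝 0) (𝓝 (r0 + 2 * 0)) := by
        apply Continuous.tendsto
        fun_prop
      rw [mul_zero, add_zero] at this
      exact this.mono_left nhdsWithin_le_nhds
    · filter_upwards [self_mem_nhdsWithin] with η hη
      have : (0 : ℝ) < η := hη
      show r0 < r0 + 2 * η
      linarith
  have h3 : Tendsto (fun η : ℝ => ENNReal.ofReal ((r0 - η) ^ n)⁻¹) (𝓝[>] 0)
      (𝓝 (ENNReal.ofReal (r0 ^ n)⁻¹)) := by
    apply ENNReal.tendsto_ofReal
    have h4 : Tendsto (fun η : ℝ => ((r0 - η) ^ n)⁻¹) (𝓝 0) (𝓝 ((r0 - 0) ^ n)⁻¹) := by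
      apply Tendsto.inv₀
      · apply Continuous.tendsto
        fun_prop
      · rw [sub_zero]
        positivity
    rw [sub_zero] at h4
    exact h4.mono_left nhdsWithin_le_nhds
  have h5 : Tendsto (fun η : ℝ => ENNReal.ofReal ((r0 - η) ^ n)⁻¹ *
      ν (Metric.closedBall x (r0 + 2 * η))) (𝓝[>] 0)
      (𝓝 (ENNReal.ofReal (r0 ^ n)⁻¹ * ν (Metric.closedBall x r0))) := by
    apply ENNReal.Tendsto.mul h3
    · right
      rw [hνb]
      refine ne_top_of_le_ne_top hfin ?_
      exact lintegral_mono_set (Metric.closedBall_subset_closedBall hR.le)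
    · exact h1.comp h2
    · right
      exact ENNReal.ofReal_ne_top
  rw [Avg_cov ρ hρ x hr0, ← hνb] at hN
  have h6 := h5.eventually (gt_mem_nhds hN)
  have h7 : ∀ᶠ η : ℝ in 𝓝[>] 0, η < r0 := by
    apply Filter.Eventually.filter_mono nhdsWithin_le_nhds
    exact gt_mem_nhds hr0
  obtain ⟨η, ⟨hη1, hη2⟩, hη3⟩ := ((h6.and h7).and self_mem_nhdsWithin).exists
  have hη0 : (0 : ℝ) < η := hη3
  refine ⟨η, hη0, hη2, ?_⟩
  intro p r hp hr
  rw [abs_le] at hr
  have hr' : 0 < r0 - η := by linarith
  have hrpos : 0 < r := by linarith [hr.1]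
  rw [Avg_cov ρ hρ p hrpos]
  refine le_trans ?_ hη1.le
  rw [hνb]
  apply mul_le_mul'
  · apply ENNReal.ofReal_le_ofReal
    apply inv_anti₀ (by positivity)
    exact pow_le_pow_left₀ hr'.le (by linarith [hr.1]) n
  · apply lintegral_mono_set
    apply Metric.closedBall_subset_closedBall'
    linarith [hr.2]

/-- Mean value inequality on a segment. -/
theorem Avg_seg (f : V n → ℝ) (hf : ContDiff ℝ 1 f) (a b : V n) :
    ‖f b - f a‖ₑ ≤ ∫⁻ s in Icc (0 : ℝ) 1, ‖fderiv ℝ f (a + s • (b - a)) (b - a)‖ₑ := by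
  have hd : ∀ s ∈ uIcc (0 : ℝ) 1, HasDerivAt (fun s : ℝ => f (a + s • (b - a)))
      (fderiv ℝ f (a + s • (b - a)) (b - a)) s := by
    intro s _
    have h1 : HasFDerivAt f (fderiv ℝ f (a + s • (b - a))) (a + s • (b - a)) :=
      ((hf.differentiable one_ne_zero) _).hasFDerivAt
    have h2 : HasDerivAt (fun s : ℝ => a + s • (b - a)) (b - a) s := by
      have h3 : HasDerivAt (fun s : ℝ => s • (b - a)) ((1 : ℝ) • (b - a)) s :=
        (hasDerivAt_id s).smul_const (b - a)
      rw [one_smul] at h3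
      exact h3.const_add a
    exact h1.comp_hasDerivAt s h2
  have hc : Continuous (fun s : ℝ => fderiv ℝ f (a + s • (b - a)) (b - a)) := by
    have h4 : Continuous (fderiv ℝ f) := hf.continuous_fderiv one_ne_zero
    have h5 : Continuous (fun s : ℝ => a + s • (b - a)) := by fun_prop
    exact (h4.comp h5).clm_apply continuous_const
  have h6 := intervalIntegral.integral_eq_sub_of_hasDerivAt hd (hc.intervalIntegrable _ _)
  simp only [one_smul, zero_smul, add_zero, add_sub_cancel] at h6
  rw [← h6, intervalIntegral.integral_of_le zero_le_one]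
  refine (enorm_integral_le_lintegral_enorm _).trans ?_
  exact lintegral_mono_set Ioc_subset_Icc_self

/-- The gradient of a mollification. -/
theorem Avg_grad (Z : Set (V n)) (v : V n → ℝ) (g : V n → V n) (hv : Continuous v)
    (hg : Measurable g) (hgZ : IsWeakGrad Zᶜ v g) (φ : ContDiffBump (0 : V n)) (q : V n)
    (hq : Metric.closedBall q φ.rOut ⊆ Zᶜ)
    (hint : ∫⁻ y in Metric.closedBall q φ.rOut, ‖g y‖ₑ ≠ ⊤) (h : V n) :
    ‖fderiv ℝ (φ.normed volume ⋆[ContinuousLinearMap.lsmul ℝ ℝ, volume] v) q h‖ₑ ≤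
      ‖h‖ₑ * ∫⁻ t, ‖g (q - t)‖ₑ * ENNReal.ofReal (φ.normed volume t) := by
  set f : V n → ℝ := φ.normed volume with hf
  have hfc : ContDiff ℝ ∞ f := φ.contDiff_normed
  have hfs : HasCompactSupport f := φ.hasCompactSupport_normed
  have hts : tsupport f = Metric.closedBall 0 φ.rOut := φ.tsupport_normed_eq
  have hD : HasFDerivAt (f ⋆[ContinuousLinearMap.lsmul ℝ ℝ, volume] v)
      ((fderiv ℝ f ⋆[(ContinuousLinearMap.lsmul ℝ ℝ).precompL (V n), volume] v) q) q :=
    hfs.hasFDerivAt_convolution_left _ (hfc.of_le (by simp)) hv.locallyIntegrable q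
  rw [hD.fderiv]
  have hDc : Continuous (fderiv ℝ f) := hfc.continuous_fderiv (by simp)
  have hDs : HasCompactSupport (fderiv ℝ f) := hfs.fderiv (𝕜 := ℝ)
  -- the derivative applied to a vector
  have h1 : ∀ k : V n, ((fderiv ℝ f ⋆[(ContinuousLinearMap.lsmul ℝ ℝ).precompL (V n), volume] v) q) k =
      ∫ y, fderiv ℝ f (q - y) k * v y := by
    intro k
    have hI : Integrable (fun t => ((ContinuousLinearMap.lsmul ℝ ℝ).precompL (V n))
        (fderiv ℝ f t) (v (q - t))) := by
      have h0 := hDs.convolutionExists_left (μ := volume)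
        ((ContinuousLinearMap.lsmul ℝ ℝ).precompL (V n)) hDc hv.locallyIntegrable q
      exact h0
    rw [convolution_def, ContinuousLinearMap.integral_apply hI]
    simp only [ContinuousLinearMap.precompL_apply, ContinuousLinearMap.lsmul_apply, smul_eq_mul]
    rw [← integral_sub_left_eq_self _ volume q]
    simp only [sub_sub_cancel]
  -- the test function
  set ψ : V n → ℝ := fun y => f (q - y) with hψ
  have hψc : ContDiff ℝ ∞ ψ := hfc.comp (contDiff_const.sub contDiff_id)
  have hψs : HasCompactSupport ψ := hfs.comp_homeomorph (Homeomorph.subLeft q)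
  have hψ0 : ∀ y, y ∉ Metric.closedBall q φ.rOut → ψ y = 0 := by
    intro y hy
    by_contra hne
    apply hy
    have : q - y ∈ tsupport f := subset_tsupport f hne
    rw [hts, mem_closedBall_zero_iff] at this
    rw [mem_closedBall_iff_norm, ← norm_neg, neg_sub]
    exact this
  have hψt : tsupport ψ ⊆ Metric.closedBall q φ.rOut := by
    apply closure_minimal _ Metric.isClosed_closedBall
    intro y hy
    by_contra hcon
    exact hy (hψ0 y hcon)
  have hψd : ∀ y k, fderiv ℝ ψ y k = -fderiv ℝ f (q - y) k := by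
    intro y k
    have h2 : HasFDerivAt f (fderiv ℝ f (q - y)) (q - y) :=
      ((hfc.differentiable (by simp)) _).hasFDerivAt
    have h3 : HasFDerivAt (fun y : V n => q - y) (-ContinuousLinearMap.id ℝ (V n)) y :=
      (hasFDerivAt_id y).const_sub q
    have h4 : HasFDerivAt ψ ((fderiv ℝ f (q - y)).comp (-ContinuousLinearMap.id ℝ (V n))) y :=
      h2.comp y h3
    rw [h4.fderiv]
    simp
  have h2 : ∀ i : Fin n, ∫ y, fderiv ℝ f (q - y) (EuclideanSpace.single i 1) * v y =
      ∫ y in Zᶜ, g y i * ψ y := by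
    intro i
    have h3 := hgZ ψ hψc hψs (hψt.trans hq) i
    have h4 : ∫ x in Zᶜ, v x * fderiv ℝ ψ x (EuclideanSpace.single i 1) =
        ∫ x, v x * fderiv ℝ ψ x (EuclideanSpace.single i 1) := by
      apply setIntegral_eq_integral_of_forall_compl_eq_zero
      intro y hy
      have h5 : y ∉ tsupport ψ := fun h => hy ((hψt.trans hq) h)
      have h6 : fderiv ℝ ψ y = 0 := by
        have := support_fderiv_subset ℝ (f := ψ)
        by_contra hne
        exact h5 (this hne)
      rw [h6]
      simp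
    rw [h4] at h3
    have h7 : ∫ x, v x * fderiv ℝ ψ x (EuclideanSpace.single i 1) =
        -∫ y, fderiv ℝ f (q - y) (EuclideanSpace.single i 1) * v y := by
      rw [← integral_neg]
      apply integral_congr_ae
      filter_upwards with y
      rw [hψd]
      ring
    rw [h7] at h3
    exact neg_injective h3
  have hIg : IntegrableOn g (Metric.closedBall q φ.rOut) := by
    refine ⟨hg.aestronglyMeasurable, ?_⟩
    exact lt_top_iff_ne_top.mpr hint
  have hIi : ∀ i : Fin n, Integrable (fun y => g y i * ψ y) := by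
    intro i
    have h3 : IntegrableOn (fun y => g y i) (Metric.closedBall q φ.rOut) := by
      exact (EuclideanSpace.proj (𝕜 := ℝ) i).integrable_comp hIg
    have h4 : IntegrableOn (fun y => g y i * ψ y) (Metric.closedBall q φ.rOut) :=
      h3.mul_continuousOn hψc.continuous.continuousOn (isCompact_closedBall _ _)
    rw [integrableOn_iff_integrable_of_support_subset] at h4
    · exact h4
    · intro y hy
      by_contra hcon
      apply hy
      simp only [hψ0 y hcon, mul_zero]
  have h3 : ((fderiv ℝ f ⋆[(ContinuousLinearMap.lsmul ℝ ℝ).precompL (V n), volume] v) q) h =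
      ∫ y in Zᶜ, inner ℝ (g y) h * ψ y := by
    have h4 : h = ∑ i, h i • EuclideanSpace.single i (1 : ℝ) := by
      ext j
      simp [Finset.sum_apply, Pi.single_apply]
    conv_lhs => rw [h4]
    rw [map_sum]
    simp_rw [map_smul, h1, h2, smul_eq_mul]
    have h5 : ∀ i : Fin n, h i * ∫ y in Zᶜ, g y i * ψ y = ∫ y in Zᶜ, h i * (g y i * ψ y) := by
      intro i
      rw [integral_const_mul]
    simp_rw [h5]
    rw [← integral_finsetSum]
    · apply integral_congr_ae
      filter_upwards with y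
      rw [PiLp.inner_apply, Finset.sum_mul]
      apply Finset.sum_congr rfl
      intro i _
      simp
      ring
    · intro i _
      exact ((hIi i).const_mul _).integrableOn
  rw [h3]
  calc ‖∫ y in Zᶜ, inner ℝ (g y) h * ψ y‖ₑ ≤ ∫⁻ y in Zᶜ, ‖inner ℝ (g y) h * ψ y‖ₑ :=
        enorm_integral_le_lintegral_enorm _
    _ ≤ ∫⁻ y, ‖inner ℝ (g y) h * ψ y‖ₑ := setLIntegral_le_lintegral _ _
    _ ≤ ∫⁻ y, ‖h‖ₑ * (‖g y‖ₑ * ENNReal.ofReal (ψ y)) := by
        apply lintegral_mono
        intro y
        change ‖inner ℝ (g y) h * ψ y‖ₑ ≤ ‖h‖ₑ * (‖g y‖ₑ * ENNReal.ofReal (ψ y))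
        rw [enorm_mul]
        have h6 : ‖ψ y‖ₑ = ENNReal.ofReal (ψ y) := Real.enorm_of_nonneg (φ.nonneg_normed _)
        have h7 : ‖inner ℝ (g y) h‖ₑ ≤ ‖g y‖ₑ * ‖h‖ₑ := by
          rw [← ofReal_norm, ← ofReal_norm, ← ofReal_norm, ← ENNReal.ofReal_mul (norm_nonneg _)]
          exact ENNReal.ofReal_le_ofReal (norm_inner_le_norm _ _)
        rw [h6]
        calc ‖inner ℝ (g y) h‖ₑ * ENNReal.ofReal (ψ y) ≤ (‖g y‖ₑ * ‖h‖ₑ) * ENNReal.ofReal (ψ y) :=
              mul_le_mul' h7 le_rfl
          _ = _ := by ring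
    _ = ‖h‖ₑ * ∫⁻ y, ‖g y‖ₑ * ENNReal.ofReal (ψ y) := by
        rw [lintegral_const_mul' _ _ enorm_ne_top]
    _ = ‖h‖ₑ * ∫⁻ t, ‖g (q - t)‖ₑ * ENNReal.ofReal (f t) := by
        congr 1
        rw [← lintegral_sub_left_eq_self (fun y => ‖g y‖ₑ * ENNReal.ofReal (ψ y)) q]
        simp only [hψ, sub_sub_cancel]

/-- The averaged bound for a mollification. -/
theorem Avg_moll (Z : Set (V n)) (v : V n → ℝ) (g : V n → V n) (hv : Continuous v)
    (hg : Measurable g) (hgZ : IsWeakGrad Zᶜ v g) (φ : ContDiffBump (0 : V n)) (x y : V n)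
    (r0 r1 η R : ℝ) (hr0 : 0 ≤ r0) (hR : Metric.closedBall x R ⊆ Zᶜ)
    (hint : ∫⁻ y in Metric.closedBall x R, ‖g y‖ₑ ≠ ⊤) (N : ℝ≥0∞)
    (hN : ∀ (p : V n) (r : ℝ), dist p x ≤ η → |r - r0| ≤ η →
      ∫⁻ z in Metric.closedBall (0 : V n) 1, ‖g (p + r • z)‖ₑ ≤ N)
    (h1 : dist y x + φ.rOut ≤ η) (h2 : |r1 - r0| ≤ dist y x)
    (h3 : r0 + 2 * dist y x + φ.rOut ≤ R) (Λ : ℝ≥0∞)
    (hΛ : ∀ z : V n, ‖z‖ ≤ 1 → ‖(y + r1 • z) - (x + r0 • z)‖ₑ ≤ Λ) :
    ∫⁻ z in Metric.closedBall (0 : V n) 1,
      ‖(φ.normed volume ⋆[ContinuousLinearMap.lsmul ℝ ℝ, volume] v) (y + r1 • z) -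
        (φ.normed volume ⋆[ContinuousLinearMap.lsmul ℝ ℝ, volume] v) (x + r0 • z)‖ₑ ≤ Λ * N := by
  have hfc : ContDiff ℝ ∞ (φ.normed volume) := φ.contDiff_normed
  have hfs : HasCompactSupport (φ.normed volume) := φ.hasCompactSupport_normed
  have hvm : ContDiff ℝ 1 (φ.normed volume ⋆[ContinuousLinearMap.lsmul ℝ ℝ, volume] v) :=
    hfs.contDiff_convolution_left _ (hfc.of_le (by simp)) hv.locallyIntegrable
  set vm : V n → ℝ := (φ.normed volume ⋆[ContinuousLinearMap.lsmul ℝ ℝ, volume] v) with hvmdef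
  set f : V n → ℝ := φ.normed volume with hf
  obtain ⟨H, hH⟩ : ∃ H : V n → ℝ → V n → ℝ≥0∞, H = fun z s t =>
    ‖g ((x + s • (y - x)) - t + (r0 + s * (r1 - r0)) • z)‖ₑ * ENNReal.ofReal (f t) := ⟨_, rfl⟩
  have hfm : Measurable f := hfc.continuous.measurable
  have hHm : Measurable (fun p : (V n × ℝ) × V n => H p.1.1 p.1.2 p.2) := by
    have hm1 : Measurable (fun p : (V n × ℝ) × V n =>
        ‖g ((x + p.1.2 • (y - x)) - p.2 + (r0 + p.1.2 * (r1 - r0)) • p.1.1)‖ₑ) := by
      apply Measurable.enorm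
      apply hg.comp
      fun_prop
    rw [hH]
    exact hm1.mul (hfm.comp measurable_snd).ennreal_ofReal
  have hGm : Measurable (fun p : V n × ℝ => ∫⁻ t, H p.1 p.2 t) := hHm.lintegral_prod_right'
  have hGm2 : Measurable (fun z : V n => ∫⁻ s in Icc (0 : ℝ) 1, ∫⁻ t, H z s t) :=
    Measurable.lintegral_prod_right' (ν := volume.restrict (Icc (0 : ℝ) 1))
      (f := fun p : V n × ℝ => ∫⁻ t, H p.1 p.2 t) hGm
  have hstep : ∀ z ∈ Metric.closedBall (0 : V n) 1, ‖vm (y + r1 • z) - vm (x + r0 • z)‖ₑ ≤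
      Λ * ∫⁻ s in Icc (0 : ℝ) 1, ∫⁻ t, H z s t := by
    intro z hz
    rw [mem_closedBall_zero_iff] at hz
    refine (Avg_seg vm hvm _ _).trans ?_
    have hz1 : Measurable (fun s : ℝ => ((z, s) : V n × ℝ)) := measurable_prodMk_left
    have hz2 : Measurable (fun s : ℝ => ∫⁻ t, H z s t) := hGm.comp hz1
    rw [← lintegral_const_mul _ hz2]
    · apply setLIntegral_mono' measurableSet_Icc
      intro s hs
      have e1 : (x + r0 • z) + s • ((y + r1 • z) - (x + r0 • z)) =
          (x + s • (y - x)) + (r0 + s * (r1 - r0)) • z := by module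
      rw [e1]
      have hq : Metric.closedBall ((x + s • (y - x)) + (r0 + s * (r1 - r0)) • z) φ.rOut ⊆
          Metric.closedBall x R := by
        apply Metric.closedBall_subset_closedBall'
        rw [dist_eq_norm]
        have e2 : (x + s • (y - x)) + (r0 + s * (r1 - r0)) • z - x =
            s • (y - x) + (r0 + s * (r1 - r0)) • z := by module
        rw [e2]
        have e3 : ‖s • (y - x)‖ ≤ dist y x := by
          rw [norm_smul, Real.norm_of_nonneg hs.1, dist_eq_norm]
          have := norm_nonneg (y - x)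
          nlinarith [hs.2]
        have e4 : ‖(r0 + s * (r1 - r0)) • z‖ ≤ r0 + dist y x := by
          rw [norm_smul]
          have e5 : ‖r0 + s * (r1 - r0)‖ ≤ r0 + dist y x := by
            rw [Real.norm_eq_abs]
            refine (abs_add_le _ _).trans ?_
            rw [abs_of_nonneg hr0, abs_mul, abs_of_nonneg hs.1]
            have := abs_nonneg (r1 - r0)
            have := hs.2
            have : s * |r1 - r0| ≤ 1 * |r1 - r0| := mul_le_mul_of_nonneg_right hs.2 (abs_nonneg _)
            linarith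
          have e6 : 0 ≤ r0 + dist y x := by positivity
          calc ‖r0 + s * (r1 - r0)‖ * ‖z‖ ≤ (r0 + dist y x) * 1 :=
                mul_le_mul e5 hz (norm_nonneg _) e6
            _ = _ := mul_one _
        have := norm_add_le (s • (y - x)) ((r0 + s * (r1 - r0)) • z)
        linarith
      refine (Avg_grad Z v g hv hg hgZ φ _ (hq.trans hR) ?_ _).trans ?_
      · exact ne_top_of_le_ne_top hint (lintegral_mono_set hq)
      · apply mul_le_mul' (hΛ z hz)
        apply lintegral_mono
        intro t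
        simp only [hH]
        apply le_of_eq
        congr 4
        module
  have hf1 : ∫⁻ t, ENNReal.ofReal (f t) = 1 := by
    rw [← ofReal_integral_eq_lintegral_ofReal φ.integrable_normed
      (Eventually.of_forall φ.nonneg_normed), φ.integral_normed, ENNReal.ofReal_one]
  have hsw2 : ∀ s : ℝ, ∫⁻ z in Metric.closedBall (0 : V n) 1, ∫⁻ t, H z s t =
      ∫⁻ t, ∫⁻ z in Metric.closedBall (0 : V n) 1, H z s t := by
    intro s
    have hm3 : Measurable (fun p : V n × V n => H p.1 s p.2) :=
      hHm.comp ((measurable_fst.prodMk measurable_const).prodMk measurable_snd)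
    exact lintegral_lintegral_swap (f := fun z t => H z s t) hm3.aemeasurable
  have hsw1 : ∫⁻ z in Metric.closedBall (0 : V n) 1, ∫⁻ s in Icc (0 : ℝ) 1, ∫⁻ t, H z s t =
      ∫⁻ s in Icc (0 : ℝ) 1, ∫⁻ z in Metric.closedBall (0 : V n) 1, ∫⁻ t, H z s t :=
    lintegral_lintegral_swap (f := fun z s => ∫⁻ t, H z s t) hGm.aemeasurable
  have hcm : ∫⁻ z in Metric.closedBall (0 : V n) 1, Λ * ∫⁻ s in Icc (0 : ℝ) 1, ∫⁻ t, H z s t =
      Λ * ∫⁻ z in Metric.closedBall (0 : V n) 1, ∫⁻ s in Icc (0 : ℝ) 1, ∫⁻ t, H z s t :=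
    lintegral_const_mul Λ hGm2
  calc ∫⁻ z in Metric.closedBall (0 : V n) 1, ‖vm (y + r1 • z) - vm (x + r0 • z)‖ₑ
      ≤ ∫⁻ z in Metric.closedBall (0 : V n) 1, Λ * ∫⁻ s in Icc (0 : ℝ) 1, ∫⁻ t, H z s t :=
        setLIntegral_mono' Metric.isClosed_closedBall.measurableSet hstep
    _ = Λ * ∫⁻ s in Icc (0 : ℝ) 1, ∫⁻ t, ∫⁻ z in Metric.closedBall (0 : V n) 1, H z s t := by
        rw [hcm, hsw1]
        simp_rw [hsw2]
    _ ≤ Λ * ∫⁻ s in Icc (0 : ℝ) 1, ∫⁻ t, N * ENNReal.ofReal (f t) := by
        apply mul_le_mul' le_rfl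
        apply setLIntegral_mono' measurableSet_Icc
        intro s hs
        apply lintegral_mono
        intro t
        simp only [hH]
        rw [lintegral_mul_const' _ _ ENNReal.ofReal_ne_top]
        by_cases ht : ‖t‖ ≤ φ.rOut
        · apply mul_le_mul' _ le_rfl
          apply hN
          · rw [dist_eq_norm]
            have e2 : x + s • (y - x) - t - x = s • (y - x) - t := by module
            rw [e2]
            have e3 : ‖s • (y - x)‖ ≤ dist y x := by
              rw [norm_smul, Real.norm_of_nonneg hs.1, dist_eq_norm]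
              have := norm_nonneg (y - x)
              nlinarith [hs.2]
            have := norm_sub_le (s • (y - x)) t
            linarith
          · have e7 : r0 + s * (r1 - r0) - r0 = s * (r1 - r0) := by ring
            rw [e7, abs_mul, abs_of_nonneg hs.1]
            have : s * |r1 - r0| ≤ 1 * |r1 - r0| := mul_le_mul_of_nonneg_right hs.2 (abs_nonneg _)
            have := φ.rOut_pos
            linarith
        · have hft : f t = 0 := by
            by_contra hne
            apply ht
            have : t ∈ tsupport f := subset_tsupport f hne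
            rw [hf, φ.tsupport_normed_eq, mem_closedBall_zero_iff] at this
            exact this
          rw [hft]
          simp
    _ = Λ * N := by
        rw [lintegral_const_mul _ hfm.ennreal_ofReal, hf1]
        simp

/-- Local Lipschitz bound of the averages. -/
theorem Avg_main (Z : Set (V n)) (κ : ℝ) (hZ : IsClosed Z) (hZn : Z.Nonempty)
    (hκ0 : 0 < κ) (hκ1 : κ < 1) (hn : 1 ≤ n) (v : V n → ℝ) (g : V n → V n) (hv : Continuous v)
    (hgL : MemLp g n (volume.restrict Zᶜ)) (hg : Measurable g) (hgZ : IsWeakGrad Zᶜ v g)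
    (x : V n) (hx : x ∈ Zᶜ) (M : ℝ≥0∞)
    (hM : ENNReal.ofReal (1 + κ) * sg Z κ (fun y => ‖g y‖ₑ) x < M) :
    ∀ᶠ y in 𝓝 x, ENNReal.ofReal |sgr Z κ v y - sgr Z κ v x| ≤ M * ENNReal.ofReal (dist y x) := by
  have hB0 : volume (Metric.closedBall (0 : V n) 1) ≠ 0 :=
    (Metric.measure_closedBall_pos volume 0 one_pos).ne'
  have hBt : volume (Metric.closedBall (0 : V n) 1) ≠ ⊤ := measure_closedBall_lt_top.ne
  set c : ℝ≥0∞ := (volume (Metric.closedBall (0 : V n) 1))⁻¹ with hc
  have hc0 : c ≠ 0 := ENNReal.inv_ne_zero.mpr hBt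
  have hct : c ≠ ⊤ := ENNReal.inv_ne_top.mpr hB0
  set d0 : ℝ := Metric.infDist x Z with hd0
  have hd0p : 0 < d0 := (hZ.notMem_iff_infDist_pos hZn).mp hx
  set A : ℝ≥0∞ := ENNReal.ofReal (1 + κ) * c with hA
  have hA0 : A ≠ 0 := mul_ne_zero (by simp; linarith) hc0
  have hAt : A ≠ ⊤ := ENNReal.mul_ne_top ENNReal.ofReal_ne_top hct
  have hN : ∫⁻ z in Metric.closedBall (0 : V n) 1, ‖g (x + (κ * d0) • z)‖ₑ < M / A := by
    rw [ENNReal.lt_div_iff_mul_lt (Or.inl hA0) (Or.inl hAt), mul_comm, hA, mul_assoc]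
    exact hM
  set N : ℝ≥0∞ := M / A with hNdef
  -- integrability
  set R : ℝ := (1 + κ) / 2 * d0 with hR
  have hRZ : Metric.closedBall x R ⊆ Zᶜ := by
    intro y hy hyZ
    have h1 : d0 ≤ dist x y := Metric.infDist_le_dist_of_mem hyZ
    rw [Metric.mem_closedBall, dist_comm] at hy
    have : R < d0 := by
      rw [hR]
      nlinarith
    linarith
  have hint : ∫⁻ y in Metric.closedBall x R, ‖g y‖ₑ ≠ ⊤ := by
    have h1 : MemLp g n (volume.restrict (Metric.closedBall x R)) :=
      hgL.mono_measure (Measure.restrict_mono hRZ le_rfl)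
    have : IsFiniteMeasure (volume.restrict (Metric.closedBall x R)) :=
      ⟨by rw [Measure.restrict_apply_univ]; exact measure_closedBall_lt_top⟩
    have h2 : Integrable g (volume.restrict (Metric.closedBall x R)) :=
      h1.integrable (by exact_mod_cast hn)
    exact h2.hasFiniteIntegral.ne
  have hr0 : 0 < κ * d0 := by positivity
  have hrR : κ * d0 < R := by
    rw [hR]
    nlinarith
  obtain ⟨η, hη0, hη1, hη⟩ := Avg_usc (fun y => ‖g y‖ₑ) hg.enorm x (κ * d0) hr0 R hrR hint N hN
  -- radii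
  set ε0 : ℝ := min (η / 2) ((R - κ * d0) / 2) with hε0
  have hε0p : 0 < ε0 := lt_min (by linarith) (by linarith)
  set δ : ℝ := min (η / 2) ((R - κ * d0) / 4) with hδ
  have hδp : 0 < δ := lt_min (by linarith) (by linarith)
  filter_upwards [Metric.ball_mem_nhds x hδp] with y hy
  rw [Metric.mem_ball] at hy
  have hyη : dist y x < η / 2 := hy.trans_le (min_le_left _ _)
  have hyR : dist y x < (R - κ * d0) / 4 := hy.trans_le (min_le_right _ _)
  -- the mollifiers
  let φ : ℕ → ContDiffBump (0 : V n) := fun m =>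
    { rIn := ε0 / (m + 1) / 2
      rOut := ε0 / (m + 1)
      rIn_pos := by positivity
      rIn_lt_rOut := by
        have : 0 < ε0 / (m + 1) := by positivity
        linarith }
  have hφ : Tendsto (fun m => (φ m).rOut) atTop (𝓝 0) := by
    have : (fun m => (φ m).rOut) = fun m : ℕ => ε0 / ((m : ℝ) + 1) := rfl
    rw [this]
    have h0 := (tendsto_one_div_add_atTop_nhds_zero_nat (𝕜 := ℝ)).const_mul ε0
    rw [mul_zero] at h0
    refine h0.congr fun m => ?_
    ring
  have hφle : ∀ m, (φ m).rOut ≤ ε0 := by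
    intro m
    show ε0 / ((m : ℝ) + 1) ≤ ε0
    apply div_le_self hε0p.le
    have : (0 : ℝ) ≤ m := Nat.cast_nonneg m
    linarith
  have hdd : |κ * Metric.infDist y Z - κ * d0| ≤ dist y x := by
    rw [← mul_sub, abs_mul, abs_of_pos hκ0]
    have h1 : |Metric.infDist y Z - d0| ≤ dist y x := by
      have := (Metric.lipschitz_infDist_pt Z).dist_le_mul y x
      rw [Real.dist_eq, NNReal.coe_one, one_mul] at this
      exact this
    have := abs_nonneg (Metric.infDist y Z - d0)
    nlinarith
  have hΛ : ∀ z : V n, ‖z‖ ≤ 1 → ‖(y + (κ * Metric.infDist y Z) • z) - (x + (κ * d0) • z)‖ₑ ≤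
      ENNReal.ofReal ((1 + κ) * dist y x) := by
    intro z hz
    rw [← ofReal_norm]
    apply ENNReal.ofReal_le_ofReal
    have e1 : (y + (κ * Metric.infDist y Z) • z) - (x + (κ * d0) • z) =
        (y - x) + (κ * (Metric.infDist y Z - d0)) • z := by module
    rw [e1]
    refine (norm_add_le _ _).trans ?_
    rw [norm_smul, Real.norm_eq_abs, abs_mul, abs_of_pos hκ0, ← dist_eq_norm]
    have h1 : |Metric.infDist y Z - d0| ≤ dist y x := by
      have := (Metric.lipschitz_infDist_pt Z).dist_le_mul y x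
      rw [Real.dist_eq, NNReal.coe_one, one_mul] at this
      exact this
    have h2 : κ * |Metric.infDist y Z - d0| * ‖z‖ ≤ κ * dist y x * 1 := by
      apply mul_le_mul _ hz (norm_nonneg _) (by positivity)
      exact mul_le_mul_of_nonneg_left h1 hκ0.le
    linarith
  -- the mollified functions
  set F : ℕ → V n → ℝ := fun m =>
    ((φ m).normed volume ⋆[ContinuousLinearMap.lsmul ℝ ℝ, volume] v) with hF
  have hbd : ∀ m, ∫⁻ z in Metric.closedBall (0 : V n) 1,
      ‖F m (y + (κ * Metric.infDist y Z) • z) - F m (x + (κ * d0) • z)‖ₑ ≤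
        ENNReal.ofReal ((1 + κ) * dist y x) * N := by
    intro m
    apply Avg_moll Z v g hv hg hgZ (φ m) x y (κ * d0) (κ * Metric.infDist y Z) η R hr0.le hRZ hint
      N hη _ hdd _ _ hΛ
    · have := hφle m
      have h5 : ε0 ≤ η / 2 := min_le_left _ _
      linarith
    · have := hφle m
      have h5 : ε0 ≤ (R - κ * d0) / 2 := min_le_right _ _
      linarith
  have hFc : ∀ m, Continuous (F m) := by
    intro m
    have hfc : ContDiff ℝ ∞ ((φ m).normed volume) := (φ m).contDiff_normed
    have hfs : HasCompactSupport ((φ m).normed volume) := (φ m).hasCompactSupport_normed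
    have h1 : ContDiff ℝ 1 ((φ m).normed volume ⋆[ContinuousLinearMap.lsmul ℝ ℝ, volume] v) :=
      hfs.contDiff_convolution_left _ (hfc.of_le (by simp)) hv.locallyIntegrable
    exact h1.continuous
  have hFt : ∀ q : V n, Tendsto (fun m => F m q) atTop (𝓝 (v q)) := fun q =>
    ContDiffBump.convolution_tendsto_right_of_continuous hφ hv q
  -- Fatou
  have hfat : ∫⁻ z in Metric.closedBall (0 : V n) 1,
      ‖v (y + (κ * Metric.infDist y Z) • z) - v (x + (κ * d0) • z)‖ₑ ≤
        ENNReal.ofReal ((1 + κ) * dist y x) * N := by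
    have h1 : ∀ z : V n, ‖v (y + (κ * Metric.infDist y Z) • z) - v (x + (κ * d0) • z)‖ₑ =
        liminf (fun m => ‖F m (y + (κ * Metric.infDist y Z) • z) - F m (x + (κ * d0) • z)‖ₑ)
          atTop := by
      intro z
      symm
      apply Tendsto.liminf_eq
      exact (((hFt _).sub (hFt _)).enorm)
    simp_rw [h1]
    refine (lintegral_liminf_le ?_).trans ?_
    · intro m
      apply Measurable.enorm
      apply Continuous.measurable
      have := hFc m
      fun_prop
    · refine (liminf_le_liminf (Eventually.of_forall hbd)).trans ?_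
      rw [liminf_const]
  -- conclusion
  have hfin : ENNReal.ofReal |sgr Z κ v y - sgr Z κ v x| ≤
      c * ∫⁻ z in Metric.closedBall (0 : V n) 1,
        ‖v (y + (κ * Metric.infDist y Z) • z) - v (x + (κ * d0) • z)‖ₑ := by
    have hI : ∀ q : V n, ∀ r : ℝ, IntegrableOn (fun z => v (q + r • z))
        (Metric.closedBall (0 : V n) 1) := by
      intro q r
      apply ContinuousOn.integrableOn_compact (isCompact_closedBall _ _)
      apply Continuous.continuousOn
      fun_prop
    have e2 : sgr Z κ v y - sgr Z κ v x = c.toReal * ∫ z in Metric.closedBall (0 : V n) 1,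
        (v (y + (κ * Metric.infDist y Z) • z) - v (x + (κ * d0) • z)) := by
      rw [integral_sub (hI _ _) (hI _ _), mul_sub, hc, ENNReal.toReal_inv]
      rfl
    rw [e2, abs_mul, abs_of_nonneg ENNReal.toReal_nonneg,
      ENNReal.ofReal_mul ENNReal.toReal_nonneg, ENNReal.ofReal_toReal hct]
    apply mul_le_mul' le_rfl
    rw [← Real.norm_eq_abs, ofReal_norm]
    exact enorm_integral_le_lintegral_enorm _
  refine hfin.trans ((mul_le_mul' le_rfl hfat).trans ?_)
  rw [ENNReal.ofReal_mul (by linarith)]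
  calc c * (ENNReal.ofReal (1 + κ) * ENNReal.ofReal (dist y x) * N)
      = A * N * ENNReal.ofReal (dist y x) := by
        rw [hA]
        ring
    _ ≤ M * ENNReal.ofReal (dist y x) := by
        apply mul_le_mul' _ le_rfl
        rw [hNdef]
        exact ENNReal.mul_div_le

theorem thmAvg : StmtAvg := by
  intro n hn Z κ hZ hZn hκ0 hκ1 v g hv hgL hg hgZ
  refine ⟨?_, ?_, ?_⟩
  · unfold sgr
    apply Continuous.mul continuous_const
    have hc : Continuous (Function.uncurry fun (x z : V n) => v (tz Z κ z x)) := by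
      apply hv.comp
      unfold tz
      have := Metric.continuous_infDist_pt Z
      fun_prop
    exact continuous_parametric_integral_of_continuous hc (isCompact_closedBall 0 1)
  · intro x hx
    have hB0 : volume (Metric.closedBall (0 : V n) 1) ≠ 0 :=
      (Metric.measure_closedBall_pos volume 0 one_pos).ne'
    have hBt : volume (Metric.closedBall (0 : V n) 1) ≠ ⊤ := measure_closedBall_lt_top.ne
    have h1 : ∀ z : V n, tz Z κ z x = x := by
      intro z
      unfold tz
      rw [Metric.infDist_zero_of_mem hx]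
      simp
    unfold sgr
    simp_rw [h1]
    rw [setIntegral_const, smul_eq_mul, ← mul_assoc, Measure.real,
      inv_mul_cancel₀ (ENNReal.toReal_ne_zero.mpr ⟨hB0, hBt⟩), one_mul]
  · intro x hx M hM
    exact Avg_main Z κ hZ hZn hκ0 hκ1 hn v g hv hgL hg hgZ x hx M hM

end CNEDRem
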