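import Pool.Agent.Work.MP_bb0df9_an.Basic

/-!
# MP_bb0df9_an : the key step of the one-jump lemma
-/

open MeasureTheory Set Filter Topology
open scoped ENNReal NNReal ContDiff

namespace CNEDRem

variable {n : ℕ} {U : Set (V n)} {w w' : V n → ℝ≥0∞} {A B : Set (V n)}

theorem ClaimA_srcMono {U U' P : Set (V n)} (h : Src U A P) (hU : U ⊆ U') : Src U' A P := by
  rcases h with h | ⟨x, hx, h⟩
  · exact Or.inl h
  · exact Or.inr ⟨x, hU hx, h⟩

theorem ClaimA_srcCompact {P : Set (V n)} (h : Src U A P) :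
    ∃ K : Set (V n), IsCompact K ∧ K ⊆ U ∧ Src K A P := by
  rcases h with h | ⟨x, hx, h⟩
  · exact ⟨∅, isCompact_empty, empty_subset _, Or.inl h⟩
  · exact ⟨{x}, isCompact_singleton, by simpa using hx, Or.inr ⟨x, rfl, h⟩⟩

theorem ClaimA_sdSymm (hS : StmtWdSymm) (U : Set (V n)) (w : V n → ℝ≥0∞) (A B : Set (V n)) :
    sd U w A B = sd U w B A := by
  apply le_antisymm
  · exact le_sd fun b hb a ha => by rw [hS]; exact sd_le ha hb
  · exact le_sd fun b hb a ha => by rw [hS]; exact sd_le ha hb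

theorem ClaimA_int {C : Set (V n)} {M : ℕ} (hM : ∀ z, z ∉ C → (1 + (M : ℝ≥0∞)) * w z ≤ w' z)
    {L : ℝ} {α : ℝ → V n} (hc : cost w' L α ≤ 1) {S : Set ℝ} (hS : S ⊆ Icc 0 L)
    (hSm : MeasurableSet S) (hSC : ∀ t ∈ S, α t ∉ C) :
    ∫⁻ t in S, w (α t) ≤ (1 + (M : ℝ≥0∞))⁻¹ := by
  rw [ENNReal.le_inv_iff_mul_le, mul_comm]
  rw [← lintegral_const_mul' _ _ (by simp)]
  calc ∫⁻ t in S, (1 + (M : ℝ≥0∞)) * w (α t) ≤ ∫⁻ t in S, w' (α t) :=
        setLIntegral_mono' hSm fun t ht => hM _ (hSC t ht)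
    _ ≤ ∫⁻ t in Icc 0 L, w' (α t) := lintegral_mono_set hS
    _ ≤ 1 := hc

theorem ClaimA_side (hSub : StmtWdSub) {C P : Set (V n)} {M : ℕ}
    (hw : ∀ z, w z ≤ w' z) (hM : ∀ z, z ∉ C → (1 + (M : ℝ≥0∞)) * w z ≤ w' z)
    (hC : IsCompact C) {a x : V n} {L : ℝ} {α : ℝ → V n} (ha : a ∈ P) (hα : IsP U a x L α)
    (hc : cost w' L α ≤ 1) :
    ∃ P' : Set (V n), (P' = P ∨ ∃ z ∈ C, P' = {z}) ∧ sd U w P P' ≤ cost w' L α ∧
      ∃ p ∈ P', wd U w p x ≤ (1 + (M : ℝ≥0∞))⁻¹ := by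
  set T : Set ℝ := Icc 0 L ∩ α ⁻¹' C with hT
  have hTc : IsCompact T := isCompact_Icc.inter_right (hC.isClosed.preimage hα.lip.continuous)
  rcases T.eq_empty_or_nonempty with h0 | h0
  · refine ⟨P, Or.inl rfl, ?_, a, ha, ?_⟩
    · rw [sd_self ha ha]; exact bot_le
    · refine (wd_le_cost hα).trans ?_
      refine ClaimA_int hM hc (S := Icc 0 L) le_rfl measurableSet_Icc fun t ht htC => ?_
      have : t ∈ T := ⟨ht, htC⟩
      rw [h0] at this
      exact this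
  · obtain ⟨t1, ht1, hmax⟩ := hTc.exists_isGreatest h0
    have h0t : 0 ≤ t1 := ht1.1.1
    have htL : t1 ≤ L := ht1.1.2
    refine ⟨{α t1}, Or.inr ⟨α t1, ht1.2, rfl⟩, ?_, α t1, rfl, ?_⟩
    · refine (sd_le ha (mem_singleton _)).trans ?_
      have h1 := hSub n U w a x L α hα 0 t1 le_rfl h0t htL
      rw [hα.left] at h1
      refine h1.trans ?_
      calc ∫⁻ t in Icc 0 t1, w (α t) ≤ ∫⁻ t in Icc 0 L, w (α t) :=
            lintegral_mono_set (Icc_subset_Icc_right htL)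
        _ ≤ ∫⁻ t in Icc 0 L, w' (α t) := lintegral_mono fun t => hw _
    · have h1 := hSub n U w a x L α hα t1 L h0t htL le_rfl
      rw [hα.right] at h1
      refine h1.trans ?_
      rw [setLIntegral_congr (Ioc_ae_eq_Icc (a := t1) (b := L)).symm]
      refine ClaimA_int hM hc (S := Ioc t1 L) (fun t ht => ⟨h0t.trans ht.1.le, ht.2⟩)
        measurableSet_Ioc fun t ht htC => ?_
      have : t ∈ T := ⟨⟨h0t.trans ht.1.le, ht.2⟩, htC⟩
      exact absurd (hmax this) (not_le.2 ht.1)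

theorem thmClaimA (hDini : StmtDini) (hSymm : StmtWdSymm) (hLb : StmtWdLb)
    (hSub : StmtWdSub) : StmtClaimA := by
  intro n U δ w hU hw hδ A B hR P Q hP hQ ε hε hlt τ hτ
  -- the constants
  set δ' : ℝ≥0∞ := min δ 1 with hδ'
  have hδ0 : δ' ≠ 0 := by
    rw [hδ']
    exact (lt_min (pos_iff_ne_zero.2 hδ) one_pos).ne'
  have hδt : δ' ≠ ⊤ := ne_top_of_le_ne_top ENNReal.one_ne_top (min_le_right _ _)
  have hδw : ∀ x, δ' ≤ w x := fun x => (min_le_left _ _).trans (hw.lb x)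
  have hτ4 : ENNReal.ofReal (τ / 4) ≠ 0 := by
    simp only [ne_eq, ENNReal.ofReal_eq_zero, not_le]; linarith
  obtain ⟨M, hM⟩ := ENNReal.exists_inv_nat_lt
    (a := min (ENNReal.ofReal (τ / 4)) (δ' * ENNReal.ofReal (τ / 4)))
    (lt_min (pos_iff_ne_zero.2 hτ4) (ENNReal.mul_pos hδ0 hτ4)).ne'
  have hMth : (1 + (M : ℝ≥0∞))⁻¹ ≤ (M : ℝ≥0∞)⁻¹ := ENNReal.inv_le_inv.2 le_add_self
  have hth1 : (1 + (M : ℝ≥0∞))⁻¹ ≤ ENNReal.ofReal (τ / 4) :=
    hMth.trans (hM.le.trans (min_le_left _ _))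
  have hth2 : (1 + (M : ℝ≥0∞))⁻¹ ≤ δ' * ENNReal.ofReal (τ / 4) :=
    hMth.trans (hM.le.trans (min_le_right _ _))
  have hεt : ε ≠ ⊤ := fun h => by simp [h] at hlt
  have hψt : psi U w P Q ≠ ⊤ := fun h => by simp [h] at hlt
  -- robustness
  obtain ⟨C, hC, hCU, w', hw'm, hww', hMw', hpsi⟩ := hR P Q hP hQ M (ε / 2)
    (ENNReal.half_pos hε.ne')
  have hpsi' : psi U w' P Q < psi U w P Q + ε := by
    have h1 : min (psi U w P Q) 1 + ε / 2 < psi U w P Q + ε := by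
      refine lt_of_le_of_lt (add_le_add_left (min_le_left _ _) _) ?_
      exact ENNReal.add_lt_add_left hψt (ENNReal.half_lt_self hε.ne' hεt)
    have h2 : min (psi U w' P Q) 1 < psi U w P Q + ε := lt_of_le_of_lt hpsi h1
    rcases min_lt_iff.1 h2 with h | h
    · exact h
    · exact absurd (h.trans hlt) (lt_irrefl _)
  -- Dini
  obtain ⟨KP, hKP, hKPU, hsP⟩ := ClaimA_srcCompact hP
  obtain ⟨KQ, hKQ, hKQU, hsQ⟩ := ClaimA_srcCompact hQ
  obtain ⟨s₀, hs₀, hD⟩ := hDini n U δ w hU hw A B (C ∪ KP ∪ KQ) ((hC.union hKP).union hKQ)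
    (union_subset (union_subset hCU hKPU) hKQU) (ENNReal.ofReal (τ / 2)) (ENNReal.ofReal τ)
    ((ENNReal.ofReal_lt_ofReal_iff hτ).2 (by linarith))
  set s : ℝ := min s₀ (τ / 4) with hs
  have hs0 : 0 < s := lt_min hs₀ (by linarith)
  obtain ⟨x, y, hxy, hxy2⟩ := exists_of_ps_lt (lt_of_le_of_lt (ps_le_psi hs0) hpsi')
  rw [ClaimA_sdSymm hSymm U w' {y} Q] at hxy2
  obtain ⟨r, hr, hr2⟩ := ENNReal.lt_iff_exists_add_pos_lt.1 hxy2
  have hu : sd U w' P {x} ≠ ⊤ := fun h => by simp [h] at hxy2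
  have hv : sd U w' Q {y} ≠ ⊤ := fun h => by simp [h] at hxy2
  have hr0 : ((r : ℝ≥0∞) / 2) ≠ 0 := (ENNReal.half_pos (by simpa using hr.ne')).ne'
  obtain ⟨a, ha, x', hx', hax⟩ := exists_of_sd_lt (ENNReal.lt_add_right hu hr0)
  obtain ⟨b, hb, y', hy', hby⟩ := exists_of_sd_lt (ENNReal.lt_add_right hv hr0)
  rw [mem_singleton_iff] at hx' hy'
  subst hx' hy'
  obtain ⟨L₁, α, hα, hcα⟩ := exists_path_of_wd_lt hax
  obtain ⟨L₂, β, hβ, hcβ⟩ := exists_path_of_wd_lt hby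
  have hsum : cost w' L₁ α + cost w' L₂ β < psi U w P Q + ε := by
    refine lt_trans (ENNReal.add_lt_add hcα hcβ) ?_
    refine lt_of_le_of_lt (le_of_eq ?_) hr2
    rw [add_add_add_comm, ENNReal.add_halves]
  have hα1 : cost w' L₁ α ≤ 1 := (le_self_add.trans hsum.le).trans hlt.le
  have hβ1 : cost w' L₂ β ≤ 1 := (le_add_self.trans hsum.le).trans hlt.le
  obtain ⟨P', hP', hsd1, p, hp, hpx⟩ := ClaimA_side hSub hww' hMw' hC ha hα hα1
  obtain ⟨Q', hQ', hsd2, q, hq, hqy⟩ := ClaimA_side hSub hww' hMw' hC hb hβ hβ1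
  have hdist : ∀ p x : V n, wd U w p x ≤ (1 + (M : ℝ≥0∞))⁻¹ → dist p x ≤ τ / 4 := by
    intro p x h
    have h1 := ((hLb n U w δ' hδw p x).trans h).trans hth2
    have h2 : ENNReal.ofReal (dist p x) ≤ ENNReal.ofReal (τ / 4) :=
      (ENNReal.mul_le_mul_iff_right hδ0 hδt).1 h1
    exact (ENNReal.ofReal_le_ofReal_iff (by linarith)).1 h2
  refine ⟨P', Q', ?_, ?_, ?_, ?_, p, hp, q, hq, ?_⟩
  · rcases hP' with h | ⟨z, hz, h⟩
    · exact Or.inl h
    · exact Or.inr ⟨z, hCU hz, h⟩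
  · rcases hQ' with h | ⟨z, hz, h⟩
    · exact Or.inl h
    · exact Or.inr ⟨z, hCU hz, h⟩
  · rw [ClaimA_sdSymm hSymm U w Q' Q]
    exact (add_le_add hsd1 hsd2).trans hsum.le
  · refine hD P' Q' ?_ ?_ ?_
    · rcases hP' with h | ⟨z, hz, h⟩
      · rw [h]; exact ClaimA_srcMono hsP (fun t ht => Or.inl (Or.inr ht))
      · exact Or.inr ⟨z, Or.inl (Or.inl hz), h⟩
    · rcases hQ' with h | ⟨z, hz, h⟩
      · rw [h]; exact ClaimA_srcMono hsQ (fun t ht => Or.inr ht)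
      · exact Or.inr ⟨z, Or.inl (Or.inl hz), h⟩
    · refine (ps_le (hxy.trans (min_le_left _ _))).trans ?_
      rw [ClaimA_sdSymm hSymm U w {_} Q']
      have e : ENNReal.ofReal (τ / 2) = ENNReal.ofReal (τ / 4) + ENNReal.ofReal (τ / 4) := by
        rw [← ENNReal.ofReal_add (by linarith) (by linarith)]; congr 1; ring
      rw [e]
      exact add_le_add (((sd_le hp (mem_singleton _)).trans hpx).trans hth1)
        (((sd_le hq (mem_singleton _)).trans hqy).trans hth1)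
  · have h1 := hdist _ _ hpx
    have h2 := hdist _ _ hqy
    have h3 := hxy.trans (min_le_right _ _)
    have h4 := dist_triangle4 p x' y' q
    rw [dist_comm y' q] at h4
    linarith

end CNEDRem
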