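import Pool.Agent.Work.MP_bb0df9_an.Basic

open MeasureTheory Set Filter Topology
open scoped ENNReal NNReal ContDiff

namespace CNEDRem

variable {n : ℕ}

/-- Restriction of weak gradients to smaller sets. -/
theorem CR_mono {Ω Ω' : Set (V n)} {u : V n → ℝ} {g : V n → V n} (h : IsWeakGrad Ω u g)
    (hs : Ω' ⊆ Ω) : IsWeakGrad Ω' u g := by
  intro φ hφ hc ht i
  have h1 := h φ hφ hc (ht.trans hs) i
  have e1 : ∀ A : Set (V n), tsupport φ ⊆ A →
      ∫ x in A, u x * fderiv ℝ φ x (EuclideanSpace.single i 1) =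
        ∫ x, u x * fderiv ℝ φ x (EuclideanSpace.single i 1) := by
    intro A hA
    apply setIntegral_eq_integral_of_forall_compl_eq_zero
    intro x hx
    have : fderiv ℝ φ x = 0 := by
      have : x ∉ tsupport (fderiv ℝ φ) := fun h2 => hx (hA (tsupport_fderiv_subset ℝ h2))
      exact image_eq_zero_of_notMem_tsupport this
    rw [this]; simp
  have e2 : ∀ A : Set (V n), tsupport φ ⊆ A →
      ∫ x in A, g x i * φ x = ∫ x, g x i * φ x := by
    intro A hA
    apply setIntegral_eq_integral_of_forall_compl_eq_zero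
    intro x hx
    have : φ x = 0 := image_eq_zero_of_notMem_tsupport (fun h2 => hx (hA h2))
    rw [this]; simp
  rw [e1 _ ht, e2 _ ht]
  rw [e1 _ (ht.trans hs), e2 _ (ht.trans hs)] at h1
  exact h1

/-- Changing the gradient on the complement. -/
theorem CR_congr {Ω : Set (V n)} {u : V n → ℝ} {g g' : V n → V n} (h : IsWeakGrad Ω u g)
    (hg : ∀ x ∈ Ω, g' x = g x) : IsWeakGrad Ω u g' := by
  intro φ hφ hc ht i
  rw [h φ hφ hc ht i]
  congr 1
  have e2 : ∀ f : V n → V n, ∫ x in Ω, f x i * φ x = ∫ x, f x i * φ x := by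
    intro f
    apply setIntegral_eq_integral_of_forall_compl_eq_zero
    intro x hx
    have : φ x = 0 := image_eq_zero_of_notMem_tsupport (fun h2 => hx (ht h2))
    rw [this]; simp
  rw [e2, e2]
  congr 1
  ext x
  by_cases hx : x ∈ Ω
  · rw [hg x hx]
  · have : φ x = 0 := image_eq_zero_of_notMem_tsupport (fun h2 => hx (ht h2))
    rw [this]; simp

theorem CR_coord {μ : Measure (V n)} {g : V n → V n} {p : ℝ≥0∞} (hg : MemLp g p μ) (i : Fin n) :
    MemLp (fun x => g x i) p μ := by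
  have hm : AEStronglyMeasurable (fun x => g x i) μ :=
    (EuclideanSpace.proj i : V n →L[ℝ] ℝ).continuous.comp_aestronglyMeasurable hg.1
  refine hg.mono hm (Filter.Eventually.of_forall fun x => ?_)
  exact PiLp.norm_apply_le (g x) i

theorem CR_int {Ω : Set (V n)} {g : V n → V n} (hn : 1 ≤ n)
    (hg : MemLp g n (volume.restrict Ω))
    {ψ : V n → ℝ} (hψ : Continuous ψ) (hc : HasCompactSupport ψ) (i : Fin n) :
    Integrable (fun x => g x i * ψ x) (volume.restrict Ω) := by
  have h1 := CR_coord hg i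
  have h2 : MemLp ψ (ENNReal.conjExponent (n : ℝ≥0∞)) (volume.restrict Ω) :=
    (hψ.memLp_of_hasCompactSupport hc (μ := volume)).restrict Ω
  have : ENNReal.HolderConjugate (n : ℝ≥0∞) (ENNReal.conjExponent (n : ℝ≥0∞)) :=
    ENNReal.HolderConjugate.conjExponent (by exact_mod_cast hn)
  exact h1.integrable_mul h2

/-- Linear combinations of weak gradients. -/
theorem CR_lin {Ω : Set (V n)} (hn : 1 ≤ n) {u v : V n → ℝ} {g h : V n → V n}
    (hu : Continuous u) (hv : Continuous v) (hg : MemLp g n (volume.restrict Ω))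
    (hh : MemLp h n (volume.restrict Ω)) (h1 : IsWeakGrad Ω u g) (h2 : IsWeakGrad Ω v h)
    (t : ℝ) : IsWeakGrad Ω (fun x => u x + t * v x) (fun x => g x + t • h x) := by
  intro φ hφ hc ht i
  have hd : Continuous fun x => fderiv ℝ φ x (EuclideanSpace.single i 1) :=
    (hφ.continuous_fderiv (by simp)).clm_apply continuous_const
  have hdc : HasCompactSupport fun x => fderiv ℝ φ x (EuclideanSpace.single i 1) :=
    hc.fderiv_apply (𝕜 := ℝ) _
  have i1 : Integrable (fun x => u x * fderiv ℝ φ x (EuclideanSpace.single i 1))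
      (volume.restrict Ω) :=
    ((hu.mul hd).integrable_of_hasCompactSupport hdc.mul_left).restrict
  have i2 : Integrable (fun x => v x * fderiv ℝ φ x (EuclideanSpace.single i 1))
      (volume.restrict Ω) :=
    ((hv.mul hd).integrable_of_hasCompactSupport hdc.mul_left).restrict
  have j1 := CR_int hn hg hφ.continuous hc i
  have j2 := CR_int hn hh hφ.continuous hc i
  have e1 : ∫ x in Ω, (u x + t * v x) * fderiv ℝ φ x (EuclideanSpace.single i 1) =
      (∫ x in Ω, u x * fderiv ℝ φ x (EuclideanSpace.single i 1)) +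
        t * ∫ x in Ω, v x * fderiv ℝ φ x (EuclideanSpace.single i 1) := by
    rw [← integral_const_mul, ← integral_add i1 (i2.const_mul t)]
    congr 1; ext x; ring
  have e2 : ∫ x in Ω, (g x + t • h x) i * φ x =
      (∫ x in Ω, g x i * φ x) + t * ∫ x in Ω, h x i * φ x := by
    rw [← integral_const_mul, ← integral_add j1 (j2.const_mul t)]
    congr 1; ext x; simp; ring
  rw [e1, e2, h1 φ hφ hc ht i, h2 φ hφ hc ht i]; ring


/-! ### The ring function -/

/-- `w₀`. -/
noncomputable def CRw (x₀ : V n) (a b : ℝ) (x : V n) : ℝ :=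
  min 1 (Real.log (max ‖x - x₀‖ a / a) / Real.log (b / a))

/-- Its gradient in the ring. -/
noncomputable def CRg (x₀ : V n) (a b : ℝ) (x : V n) : V n :=
  (‖x - x₀‖ ^ 2 * Real.log (b / a))⁻¹ • (x - x₀)

/-- The open ring. -/
def CRr (x₀ : V n) (a b : ℝ) : Set (V n) := {x | a < dist x x₀ ∧ dist x x₀ < b}

section
variable {x₀ : V n} {a b : ℝ}

theorem CR_logpos (ha : 0 < a) (hab : a < b) : 0 < Real.log (b / a) :=
  Real.log_pos ((one_lt_div ha).2 hab)

theorem CRw_cont (ha : 0 < a) : Continuous (CRw x₀ a b) := by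
  unfold CRw
  refine continuous_const.min (Continuous.div_const ?_ _)
  refine Continuous.log (((continuous_id.sub continuous_const).norm.max continuous_const).div_const a)
    fun x => ?_
  have : 0 < max ‖id x - x₀‖ a := lt_max_of_lt_right ha
  positivity

theorem CRw_zero (ha : 0 < a) {x : V n} (hx : dist x x₀ ≤ a) : CRw x₀ a b x = 0 := by
  unfold CRw
  rw [← dist_eq_norm, max_eq_right hx, div_self ha.ne']
  simp

theorem CRw_one (ha : 0 < a) (hab : a < b) {x : V n} (hx : b ≤ dist x x₀) : CRw x₀ a b x = 1 := by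
  unfold CRw
  rw [← dist_eq_norm, max_eq_left (hab.le.trans hx)]
  apply min_eq_left
  rw [le_div_iff₀ (CR_logpos ha hab), one_mul]
  apply Real.log_le_log (by have := ha.trans hab; positivity)
  gcongr

theorem CRr_open : IsOpen (CRr x₀ a b) := by
  unfold CRr
  exact (isOpen_lt continuous_const (continuous_id.dist continuous_const)).inter
    (isOpen_lt (continuous_id.dist continuous_const) continuous_const)

theorem CRw_deriv (ha : 0 < a) (hab : a < b) {x : V n} (hx : x ∈ CRr x₀ a b) :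
    HasGradientAt (CRw x₀ a b) (CRg x₀ a b x) x := by
  obtain ⟨hx1, hx2⟩ := hx
  have hr : 0 < ‖x - x₀‖ := by rw [← dist_eq_norm]; linarith
  have hl := CR_logpos ha hab
  have he : CRw x₀ a b =ᶠ[𝓝 x] fun y =>
      (1 / 2 * Real.log (‖y - x₀‖ ^ 2) - Real.log a) / Real.log (b / a) := by
    filter_upwards [(CRr_open (x₀ := x₀) (a := a) (b := b)).mem_nhds ⟨hx1, hx2⟩] with y hy
    obtain ⟨hy1, hy2⟩ := hy
    rw [dist_eq_norm] at hy1 hy2
    unfold CRw
    rw [max_eq_left hy1.le, Real.log_div (by linarith) ha.ne', Real.log_pow]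
    have h1 : Real.log ‖y - x₀‖ - Real.log a ≤ Real.log (b / a) := by
      rw [Real.log_div (by linarith) ha.ne']
      have := Real.log_le_log (by linarith) hy2.le
      linarith
    rw [min_eq_right]
    · push_cast; ring
    · rw [div_le_one hl]; exact h1
  have h1 : HasFDerivAt (fun y : V n => ‖y - x₀‖ ^ 2) (2 • (innerSL ℝ (x - x₀))) x := by
    have := ((hasFDerivAt_id x).sub_const x₀).norm_sq
    simpa using this
  have h2 : HasFDerivAt (fun y : V n => Real.log (‖y - x₀‖ ^ 2))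
      ((‖x - x₀‖ ^ 2)⁻¹ • (2 • (innerSL ℝ (x - x₀)))) x := h1.log (by positivity)
  have h3 := ((h2.const_mul (1 / 2)).sub_const (Real.log a)).mul_const (Real.log (b / a))⁻¹
  have h4 : HasFDerivAt (CRw x₀ a b) ((Real.log (b / a))⁻¹ • ((1 / 2 : ℝ) •
      ((‖x - x₀‖ ^ 2)⁻¹ • (2 • (innerSL ℝ (x - x₀)))))) x := by
    refine HasFDerivAt.congr_of_eventuallyEq ?_ he
    simpa [div_eq_mul_inv] using h3
  rw [hasGradientAt_iff_hasFDerivAt]
  have e : InnerProductSpace.toDual ℝ (V n) (CRg x₀ a b x) = (Real.log (b / a))⁻¹ •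
      ((1 / 2 : ℝ) • ((‖x - x₀‖ ^ 2)⁻¹ • (2 • (innerSL ℝ (x - x₀))))) := by
    refine ContinuousLinearMap.ext fun y => ?_
    have e1 : InnerProductSpace.toDual ℝ (V n) (CRg x₀ a b x) y =
        (‖x - x₀‖ ^ 2 * Real.log (b / a))⁻¹ * inner ℝ (x - x₀) y := by
      rw [InnerProductSpace.toDual_apply_apply, CRg, real_inner_smul_left]
    rw [e1]
    simp only [smul_apply, innerSL_apply_apply, smul_eq_mul, nsmul_eq_mul]
    push_cast
    field_simp
  rw [e]; exact h4

theorem CRw_lip (ha : 0 < a) (hab : a < b) {x : V n} (hx : x ∈ CRr x₀ a b) :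
    ∃ r : ℝ, 0 < r ∧ ∃ K : ℝ≥0, LipschitzOnWith K (CRw x₀ a b) (Metric.ball x r) := by
  obtain ⟨hx1, hx2⟩ := hx
  have hr : 0 < ‖x - x₀‖ := by rw [← dist_eq_norm]; linarith
  have hl := CR_logpos ha hab
  have he : CRw x₀ a b =ᶠ[𝓝 x] fun y =>
      (1 / 2 * Real.log (‖y - x₀‖ ^ 2) - Real.log a) / Real.log (b / a) := by
    filter_upwards [(CRr_open (x₀ := x₀) (a := a) (b := b)).mem_nhds ⟨hx1, hx2⟩] with y hy
    obtain ⟨hy1, hy2⟩ := hy
    rw [dist_eq_norm] at hy1 hy2
    unfold CRw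
    rw [max_eq_left hy1.le, Real.log_div (by linarith) ha.ne', Real.log_pow]
    have h1 : Real.log ‖y - x₀‖ - Real.log a ≤ Real.log (b / a) := by
      rw [Real.log_div (by linarith) ha.ne']
      have := Real.log_le_log (by linarith) hy2.le
      linarith
    rw [min_eq_right]
    · push_cast; ring
    · rw [div_le_one hl]; exact h1
  have hc : ContDiffAt ℝ 1 (fun y : V n =>
      (1 / 2 * Real.log (‖y - x₀‖ ^ 2) - Real.log a) / Real.log (b / a)) x := by
    refine ContDiffAt.div_const (ContDiffAt.sub (contDiffAt_const.mul ?_) contDiffAt_const) _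
    refine ContDiffAt.log ?_ (by positivity)
    exact (contDiffAt_id.sub contDiffAt_const).norm_sq ℝ
  have hc' := hc.congr_of_eventuallyEq he
  obtain ⟨K, t, ht, hK⟩ := hc'.exists_lipschitzOnWith
  obtain ⟨r, hr0, hrt⟩ := Metric.mem_nhds_iff.1 ht
  exact ⟨r, hr0, K, hK.mono hrt⟩

theorem CRg_meas : Measurable (CRg x₀ a b) := by
  unfold CRg
  fun_prop

theorem CRg_norm (ha : 0 < a) (hab : a < b) {x : V n} (hx : x ∈ CRr x₀ a b) :
    ‖CRg x₀ a b x‖ = 1 / (dist x x₀ * Real.log (b / a)) := by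
  obtain ⟨hx1, hx2⟩ := hx
  have hr : 0 < ‖x - x₀‖ := by rw [← dist_eq_norm]; linarith
  have hl := CR_logpos ha hab
  rw [CRg, norm_smul, dist_eq_norm, Real.norm_of_nonneg (by positivity)]
  field_simp

theorem CRg_enorm (ha : 0 < a) (hab : a < b) {x : V n} (hx : x ∈ CRr x₀ a b) :
    ‖CRg x₀ a b x‖ₑ = ENNReal.ofReal (1 / (dist x x₀ * Real.log (b / a))) := by
  rw [← CRg_norm ha hab hx, ofReal_norm]

theorem CRr_bdd : CRr x₀ a b ⊆ Metric.closedBall x₀ b := fun _ hx =>
  Metric.mem_closedBall.2 hx.2.le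

theorem CRg_memLp (ha : 0 < a) (hab : a < b) {S : Set (V n)} (hS : S ⊆ CRr x₀ a b)
    (hm : MeasurableSet S) : MemLp (CRg x₀ a b) n (volume.restrict S) := by
  have hfin : volume S < ⊤ :=
    (measure_mono (hS.trans CRr_bdd)).trans_lt (isCompact_closedBall x₀ b).measure_lt_top
  have : IsFiniteMeasure (volume.restrict S) := ⟨by simpa using hfin⟩
  refine MemLp.of_bound CRg_meas.aestronglyMeasurable (1 / (a * Real.log (b / a))) ?_
  refine (ae_restrict_iff' hm).2 (Filter.Eventually.of_forall fun x hx => ?_)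
  rw [CRg_norm ha hab (hS hx)]
  have hl := CR_logpos ha hab
  have := (hS hx).1
  gcongr

theorem CRw_weak (hLoc : StmtLoc) (ha : 0 < a) (hab : a < b) :
    IsWeakGrad (CRr x₀ a b) (CRw x₀ a b) (CRg x₀ a b) := by
  refine CR_congr (hLoc n _ _ CRr_open fun x hx => CRw_lip ha hab hx) fun x hx => ?_
  exact (CRw_deriv ha hab hx).gradient.symm

theorem CR_main (hRing : StmtRing) (hUpper : StmtUpper) (hn : 2 ≤ n) {E : Set (V n)}
    (hE : IsClosed E) (hC : CNED E) (ha : 0 < a) (hab : a < b) {v : V n → ℝ} {G : V n → V n}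
    (hv : Continuous v) (h0 : ∀ x, dist x x₀ ≤ a → v x = 0) (h1 : ∀ x, b ≤ dist x x₀ → v x = 1)
    (hG : MemLp G n (volume.restrict (CRr x₀ a b \ E))) (hGm : Measurable G)
    (hw : IsWeakGrad (CRr x₀ a b \ E) v G) :
    ∫⁻ x in CRr x₀ a b, ‖CRg x₀ a b x‖ₑ ^ n ≤ ∫⁻ x in CRr x₀ a b \ E, ‖G x‖ₑ ^ n := by
  have hop : IsOpen (CRr x₀ a b \ E) := CRr_open.sdiff hE
  have hnt : ∀ x ∈ (CRr x₀ a b \ E)ᶜ \ E, v x = 0 ∨ v x = 1 := by
    intro x hx
    have hx' : x ∉ CRr x₀ a b := fun h => hx.1 ⟨h, hx.2⟩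
    by_cases h : dist x x₀ ≤ a
    · exact Or.inl (h0 x h)
    · push Not at h
      right
      apply h1
      by_contra h2
      push Not at h2
      exact hx' ⟨h, h2⟩
  have hcount : (v '' ((CRr x₀ a b \ E)ᶜ \ E)).Countable := by
    refine (Set.Finite.countable (s := {0, 1}) (by simp)).mono ?_
    rintro _ ⟨x, hx, rfl⟩
    rcases hnt x hx with h | h <;> simp [h]
  have hx0 : x₀ ∈ (CRr x₀ a b \ E)ᶜ := by
    intro h
    have := h.1.1
    simp at this
    linarith
  have hU := hUpper n (by omega) E (Metric.closedBall x₀ a) (Metric.sphere x₀ b)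
    (CRr x₀ a b \ E)ᶜ hop.isClosed_compl ⟨x₀, hx0⟩ (fun x hx h => h.2 hx)
    (fun x hx h => absurd h.1.1 (not_lt.2 (Metric.mem_closedBall.1 hx)))
    (fun x hx h => absurd h.1.2 (not_lt.2 (Metric.mem_sphere.1 hx).ge)) v G hv hcount
    (fun x hx => h0 x (Metric.mem_closedBall.1 hx)) (fun x hx => h1 x (Metric.mem_sphere.1 hx).ge)
    (by rw [compl_compl]; exact hG) hGm (by rw [compl_compl]; exact hw)
  rw [compl_compl] at hU
  have hb : 0 < b := ha.trans hab
  have hcont : IsContinuum (Metric.closedBall x₀ a) :=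
    ⟨isCompact_closedBall x₀ a, ⟨x₀, Metric.mem_closedBall_self ha.le⟩,
      (convex_closedBall x₀ a).isPreconnected⟩
  have hsph : IsContinuum (Metric.sphere x₀ b) := by
    refine ⟨isCompact_sphere x₀ b, isConnected_sphere ?_ x₀ hb.le⟩
    rw [← Module.finrank_eq_rank, finrank_euclideanSpace_fin]
    exact_mod_cast (by omega : 1 < n)
  have hdis : Disjoint (Metric.closedBall x₀ a) (Metric.sphere x₀ b) := by
    rw [Set.disjoint_left]
    intro x hx1 hx2
    rw [Metric.mem_closedBall] at hx1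
    rw [Metric.mem_sphere] at hx2
    linarith
  have hR := hRing n hn x₀ a b ha hab
  rw [hC _ _ hcont hsph hdis] at hR
  refine le_trans (le_of_eq ?_) (hR.trans hU)
  exact setLIntegral_congr_fun CRr_open.measurableSet fun x hx => by
    simp only [CRg_enorm ha hab hx]

theorem CR_fin (ha : 0 < a) (hab : a < b) (hn : 1 ≤ n) :
    ∫⁻ x in CRr x₀ a b, ‖CRg x₀ a b x‖ₑ ^ n ≠ ⊤ := by
  have h := (CRg_memLp (x₀ := x₀) (n := n) ha hab (le_refl _) CRr_open.measurableSet)
  have := h.eLpNorm_lt_top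
  have h2 := lintegral_rpow_enorm_lt_top_of_eLpNorm_lt_top (p := (n : ℝ≥0∞)) (by simp; omega) (by simp) this
  simpa using h2.ne

theorem CR_null_ring (hRing : StmtRing) (hUpper : StmtUpper) (hLoc : StmtLoc) (hn : 2 ≤ n)
    {E : Set (V n)} (hE : IsClosed E) (hC : CNED E) (ha : 0 < a) (hab : a < b) :
    volume (E ∩ CRr x₀ a b) = 0 := by
  have hop : IsOpen (CRr x₀ a b \ E) := CRr_open.sdiff hE
  have h := CR_main (x₀ := x₀) hRing hUpper hn hE hC ha hab (CRw_cont ha)
    (fun x hx => CRw_zero ha hx) (fun x hx => CRw_one ha hab hx)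
    (CRg_memLp ha hab sdiff_subset hop.measurableSet) CRg_meas
    (CR_mono (CRw_weak hLoc ha hab) sdiff_subset)
  have hfin := CR_fin (x₀ := x₀) (n := n) ha hab (by omega)
  have hsplit := lintegral_inter_add_sdiff (μ := volume) (fun x => ‖CRg x₀ a b x‖ₑ ^ n)
    (CRr x₀ a b) hE.measurableSet
  rw [← hsplit] at h hfin
  have hz : ∫⁻ x in CRr x₀ a b ∩ E, ‖CRg x₀ a b x‖ₑ ^ n = 0 := by
    have h3 : ∫⁻ x in CRr x₀ a b \ E, ‖CRg x₀ a b x‖ₑ ^ n ≠ ⊤ := fun h4 => hfin (by rw [h4]; simp)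
    by_contra h5
    have h6 := ENNReal.lt_add_right h3 h5
    rw [add_comm] at h6
    exact absurd h (not_le.2 h6)
  have hm : MeasurableSet (CRr x₀ a b ∩ E) := CRr_open.measurableSet.inter hE.measurableSet
  rw [setLIntegral_eq_zero_iff hm (CRg_meas.enorm.pow_const n)] at hz
  rw [inter_comm]
  refine measure_mono_null ?_ hz
  intro x hx h2
  have h3 := h2 hx
  have h4 : ‖CRg x₀ a b x‖ₑ = 0 := by
    simpa using (pow_eq_zero_iff (by omega : n ≠ 0)).1 h3
  rw [enorm_eq_zero, ← norm_eq_zero, CRg_norm ha hab hx.1] at h4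
  have hl := CR_logpos ha hab
  have h5 := hx.1.1
  have : 0 < dist x x₀ := by linarith
  have : 0 < 1 / (dist x x₀ * Real.log (b / a)) := by positivity
  linarith

end

theorem CR_null (hRing : StmtRing) (hUpper : StmtUpper) (hLoc : StmtLoc) (hn : 2 ≤ n)
    {E : Set (V n)} (hE : IsClosed E) (hC : CNED E) : volume E = 0 := by
  have : Nonempty (Fin n) := ⟨⟨0, by omega⟩⟩
  have : Nontrivial (V n) := inferInstance
  have hsub : E ⊆ {0} ∪ ⋃ k : ℕ, E ∩ CRr (0 : V n) (1 / ((k : ℝ) + 1)) (k + 2) := by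
    intro x hx
    by_cases h0 : x = 0
    · left; exact h0
    · right
      have hd : 0 < dist x 0 := dist_pos.2 h0
      obtain ⟨k, hk⟩ := exists_nat_gt (max (dist x 0) (1 / dist x 0))
      rw [max_lt_iff] at hk
      refine mem_iUnion.2 ⟨k, hx, ?_, ?_⟩
      · rw [div_lt_iff₀ (by positivity)]
        rw [div_lt_iff₀ hd] at hk
        nlinarith [hk.2]
      · show dist x 0 < _
        linarith [hk.1]
  refine measure_mono_null hsub ((measure_union_null_iff).2 ⟨measure_singleton _, ?_⟩)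
  refine measure_iUnion_null fun k => ?_
  refine CR_null_ring hRing hUpper hLoc hn hE hC (by positivity) ?_
  have h1 : 1 / ((k : ℝ) + 1) ≤ 1 := by
    rw [div_le_one (by positivity)]; linarith [(Nat.cast_nonneg k : (0 : ℝ) ≤ k)]
  linarith [(Nat.cast_nonneg k : (0 : ℝ) ≤ k)]

theorem CR_grad_cont {φ : V n → ℝ} (hφ : ContDiff ℝ ∞ φ) : Continuous (gradient φ) := by
  unfold gradient
  exact (InnerProductSpace.toDual ℝ (V n)).symm.continuous.comp (hφ.continuous_fderiv (by simp))

theorem CR_grad_zero {φ : V n → ℝ} {x : V n} (hx : x ∉ tsupport φ) : gradient φ x = 0 := by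
  have : x ∉ tsupport (fderiv ℝ φ) := fun h2 => hx (tsupport_fderiv_subset ℝ h2)
  unfold gradient
  rw [image_eq_zero_of_notMem_tsupport this, map_zero]

theorem CR_G_memLp {S : Set (V n)} {u φ : V n → ℝ} {g : V n → V n} (hu : Continuous u)
    (hg : MemLp g n (volume.restrict S)) (hφ : ContDiff ℝ ∞ φ) (hc : HasCompactSupport φ) :
    MemLp (fun x => φ x • g x + u x • gradient φ x) n (volume.restrict S) := by
  refine MemLp.add ?_ ?_
  · obtain ⟨C, hC⟩ := hφ.continuous.bounded_above_of_compact_support hc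
    refine hg.of_le_mul (c := C) (hφ.continuous.aestronglyMeasurable.smul hg.1)
      (Filter.Eventually.of_forall fun x => ?_)
    rw [norm_smul]
    gcongr
    exact hC x
  · have h1 : HasCompactSupport (gradient φ) := by
      refine HasCompactSupport.intro hc fun x hx => CR_grad_zero hx
    exact ((hu.smul (CR_grad_cont hφ)).memLp_of_hasCompactSupport h1.smul_left
      (μ := volume)).restrict S

/-- Item CnedRing. -/
theorem thmCnedRing (hRing : StmtRing) (hUpper : StmtUpper) (hProd : StmtProd) (hVar : StmtVar)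
    (hLoc : StmtLoc) : StmtCnedRing := by
  intro n hn E hE hC
  refine ⟨CR_null hRing hUpper hLoc hn hE hC, ?_⟩
  intro u φ g hu hg hgm hw hφ hφc x₀ hx₀
  -- choose the ring
  obtain ⟨a, ha, hball⟩ : ∃ a, 0 < a ∧ ∀ x, dist x x₀ ≤ a → x ∉ tsupport φ := by
    obtain ⟨ε, hε, h⟩ := Metric.isOpen_iff.1 (isClosed_tsupport φ).isOpen_compl x₀ hx₀
    exact ⟨ε / 2, by positivity, fun x hx => h (Metric.mem_ball.2 (by linarith))⟩
  obtain ⟨b, hab, hbig⟩ : ∃ b, a < b ∧ ∀ x, b ≤ dist x x₀ → x ∉ tsupport φ := by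
    obtain ⟨r, hr⟩ := hφc.isBounded.subset_ball x₀
    refine ⟨max r (a + 1), lt_max_of_lt_right (by linarith), fun x hx h => ?_⟩
    have := Metric.mem_ball.1 (hr h)
    have := le_max_left r (a + 1)
    linarith
  have hts : tsupport φ ⊆ CRr x₀ a b := by
    intro x hx
    constructor
    · by_contra h
      exact hball x (not_lt.1 h) hx
    · by_contra h
      exact hbig x (not_lt.1 h) hx
  set S : Set (V n) := CRr x₀ a b \ E with hS
  have hop : IsOpen S := CRr_open.sdiff hE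
  set G : V n → V n := fun x => φ x • g x + u x • gradient φ x with hG
  have hGm : Measurable G :=
    (hφ.continuous.measurable.smul hgm).add (hu.measurable.smul (CR_grad_cont hφ).measurable)
  have hSE : S ⊆ Eᶜ := fun x hx => hx.2
  have hGE : MemLp G n (volume.restrict Eᶜ) := CR_G_memLp hu hg hφ hφc
  have hGS : MemLp G n (volume.restrict S) := hGE.mono_measure (Measure.restrict_mono hSE le_rfl)
  have hGw : IsWeakGrad S (fun x => u x * φ x) G :=
    CR_mono (hProd n Eᶜ u φ g (by omega) hE.isOpen_compl hu hg hw hφ hφc) hSE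
  have hg0 : MemLp (CRg x₀ a b) n (volume.restrict S) := CRg_memLp ha hab sdiff_subset hop.measurableSet
  have hw0 : IsWeakGrad S (CRw x₀ a b) (CRg x₀ a b) := CR_mono (CRw_weak hLoc ha hab) sdiff_subset
  have hcu : Continuous fun x => u x * φ x := hu.mul hφ.continuous
  have hφ0 : ∀ x, x ∉ tsupport φ → φ x = 0 := fun x hx => image_eq_zero_of_notMem_tsupport hx
  have key : ∀ t : ℝ, ∫⁻ x in S, ‖CRg x₀ a b x‖ₑ ^ n ≤
      ∫⁻ x in S, ‖CRg x₀ a b x + t • G x‖ₑ ^ n := by
    intro t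
    refine (lintegral_mono_set sdiff_subset).trans ?_
    refine CR_main (x₀ := x₀) hRing hUpper hn hE hC ha hab
      (v := fun x => CRw x₀ a b x + t * (u x * φ x)) ((CRw_cont ha).add (continuous_const.mul hcu))
      ?_ ?_ (hg0.add (hGS.const_smul t)) (CRg_meas.add (hGm.const_smul t))
      (CR_lin (by omega) (CRw_cont ha) hcu hg0 hGS hw0 hGw t)
    · intro x hx
      rw [CRw_zero ha hx, hφ0 x (hball x hx)]; simp
    · intro x hx
      rw [CRw_one ha hab hx, hφ0 x (hbig x hx)]; simp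
  have hv := hVar n hn (volume.restrict S) (CRg x₀ a b) G hg0 hGS key
  have hl := CR_logpos ha hab
  have e1 : ∫ x in S, ‖CRg x₀ a b x‖ ^ (n - 2) * inner ℝ (CRg x₀ a b x) (G x) =
      ((Real.log (b / a)) ^ (n - 1))⁻¹ * ∫ x in S, (‖x - x₀‖ ^ n)⁻¹ * inner ℝ (x - x₀) (G x) := by
    rw [← integral_const_mul]
    refine setIntegral_congr_fun hop.measurableSet fun x hx => ?_
    have hr : 0 < ‖x - x₀‖ := by
      rw [← dist_eq_norm]; linarith [hx.1.1]
    show ‖CRg x₀ a b x‖ ^ (n - 2) * inner ℝ (CRg x₀ a b x) (G x) = _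
    rw [CRg_norm ha hab hx.1, dist_eq_norm, CRg, real_inner_smul_left]
    obtain ⟨m, rfl⟩ : ∃ m, n = m + 2 := ⟨n - 2, by omega⟩
    simp only [Nat.add_sub_cancel, show m + 2 - 1 = m + 1 by omega]
    rw [one_div, inv_pow, mul_pow]
    field_simp
    ring
  rw [e1] at hv
  have hv2 : ∫ x in S, (‖x - x₀‖ ^ n)⁻¹ * inner ℝ (x - x₀) (G x) = 0 := by
    rcases mul_eq_zero.1 hv with h | h
    · exfalso
      have : 0 < ((Real.log (b / a)) ^ (n - 1))⁻¹ := by positivity
      linarith
    · exact h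
  rw [← hv2]
  refine setIntegral_eq_of_subset_of_forall_sdiff_eq_zero hE.isOpen_compl.measurableSet hSE
    fun x hx => ?_
  have hx' : x ∉ tsupport φ := fun h => hx.2 ⟨hts h, hx.1⟩
  rw [hφ0 x hx', CR_grad_zero hx']
  simp

end CNEDRem
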