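import Pool.Agent.Work.MP_bb0df9_an.Basic

/-!
# MP_bb0df9_an : countable concatenation of paths
-/

open MeasureTheory Set Filter Topology
open scoped ENNReal NNReal ContDiff

namespace CNEDRem

/-- Clamping to `[0,l]`. -/
noncomputable def Concat_cl (l t : ℝ) : ℝ := min (max t 0) l

theorem Concat_cl_of_le {l t : ℝ} (hl : 0 ≤ l) (ht : t ≤ 0) : Concat_cl l t = 0 := by
  unfold Concat_cl
  rw [max_eq_right ht, min_eq_left hl]

theorem Concat_cl_of_ge {l t : ℝ} (hl : 0 ≤ l) (ht : l ≤ t) : Concat_cl l t = l := by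
  unfold Concat_cl
  rw [max_eq_left (hl.trans ht), min_eq_right ht]

theorem Concat_cl_of_mem {l t : ℝ} (ht : t ∈ Icc 0 l) : Concat_cl l t = t := by
  unfold Concat_cl
  rw [max_eq_left ht.1, min_eq_left ht.2]

theorem Concat_cl_mono (l : ℝ) : Monotone (Concat_cl l) := fun _ _ h =>
  min_le_min (max_le_max h le_rfl) le_rfl

theorem Concat_cl_mem {l : ℝ} (hl : 0 ≤ l) (t : ℝ) : Concat_cl l t ∈ Icc 0 l :=
  ⟨le_min (le_max_right _ _) hl, min_le_right _ _⟩

theorem Concat_cl_add {T l : ℝ} (hT : 0 ≤ T) (hl : 0 ≤ l) (t : ℝ) :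
    Concat_cl T t + Concat_cl l (t - T) = Concat_cl (T + l) t := by
  rcases le_total t 0 with h | h
  · rw [Concat_cl_of_le hT h, Concat_cl_of_le hl (by linarith), Concat_cl_of_le (by linarith) h,
      add_zero]
  rcases le_total t T with h1 | h1
  · rw [Concat_cl_of_mem ⟨h, h1⟩, Concat_cl_of_le hl (by linarith),
      Concat_cl_of_mem ⟨h, by linarith⟩, add_zero]
  rcases le_total t (T + l) with h2 | h2
  · rw [Concat_cl_of_ge hT h1, Concat_cl_of_mem ⟨by linarith, by linarith⟩,
      Concat_cl_of_mem ⟨h, h2⟩]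
    ring
  · rw [Concat_cl_of_ge hT h1, Concat_cl_of_ge hl (by linarith), Concat_cl_of_ge (by linarith) h2]

theorem Concat_cl_sub_le {l : ℝ} {s t : ℝ} (h : s ≤ t) : Concat_cl l t - Concat_cl l s ≤ t - s := by
  unfold Concat_cl
  rcases le_total t 0 with h1 | h1 <;> rcases le_total s 0 with h2 | h2
  · rw [max_eq_right h1, max_eq_right h2]; linarith
  · rw [max_eq_right h1, max_eq_left h2]
    have : s = 0 := by linarith
    subst this
    simp; exact h
  · rw [max_eq_left h1, max_eq_right h2]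
    rcases le_total t l with h3 | h3
    · rw [min_eq_left h3, min_eq_left (h1.trans h3)]; linarith
    · rw [min_eq_right h3]
      rcases le_total 0 l with h4 | h4
      · rw [min_eq_left h4]; linarith
      · rw [min_eq_right h4]; linarith
  · rw [max_eq_left h1, max_eq_left h2]
    rcases le_total t l with h3 | h3
    · rw [min_eq_left h3, min_eq_left (h.trans h3)]
    · rw [min_eq_right h3]
      rcases le_total s l with h4 | h4
      · rw [min_eq_left h4]; linarith
      · rw [min_eq_right h4]; linarith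

section
variable {n : ℕ} (a : ℕ → V n) (L : ℕ → ℝ) (γ : ℕ → ℝ → V n)

/-- partial sums of the lengths -/
noncomputable def Concat_T (k : ℕ) : ℝ := ∑ i ∈ Finset.range k, L i

/-- increments -/
noncomputable def Concat_inc (i : ℕ) (t : ℝ) : V n :=
  γ i (Concat_cl (L i) (t - Concat_T L i)) - a i

/-- the concatenated path -/
noncomputable def Concat_G (t : ℝ) : V n := a 0 + ∑' i, Concat_inc a L γ i t

variable {a L γ} {U : Set (V n)} (hp : ∀ i, IsP U (a i) (a (i + 1)) (L i) (γ i))

theorem Concat_T_succ (k : ℕ) : Concat_T L (k + 1) = Concat_T L k + L k := by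
  unfold Concat_T; rw [Finset.sum_range_succ]

include hp

theorem Concat_T_mono : Monotone (Concat_T L) :=
  monotone_nat_of_le_succ fun k => by
    rw [Concat_T_succ]; linarith [(hp k).nonneg]

theorem Concat_T_nonneg (k : ℕ) : 0 ≤ Concat_T L k := by
  have := Concat_T_mono hp (Nat.zero_le k)
  simpa [Concat_T] using this

theorem Concat_inc_zero {i : ℕ} {t : ℝ} (h : t ≤ Concat_T L i) : Concat_inc a L γ i t = 0 := by
  unfold Concat_inc
  rw [Concat_cl_of_le (hp i).nonneg (by linarith), (hp i).left, sub_self]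

theorem Concat_inc_full {i : ℕ} {t : ℝ} (h : Concat_T L (i + 1) ≤ t) :
    Concat_inc a L γ i t = a (i + 1) - a i := by
  unfold Concat_inc
  rw [Concat_T_succ] at h
  rw [Concat_cl_of_ge (hp i).nonneg (by linarith), (hp i).right]

theorem Concat_inc_norm (i : ℕ) (t : ℝ) : ‖Concat_inc a L γ i t‖ ≤ L i := by
  have h := Concat_cl_mem (hp i).nonneg (t - Concat_T L i)
  have h2 := (hp i).lip.dist_le_mul (Concat_cl (L i) (t - Concat_T L i)) 0
  rw [(hp i).left, dist_eq_norm] at h2
  unfold Concat_inc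
  refine h2.trans ?_
  simp only [NNReal.coe_one, one_mul, dist_zero_right, Real.norm_eq_abs]
  rw [abs_of_nonneg h.1]
  exact h.2

theorem Concat_summable (hL : Summable L) (t : ℝ) : Summable fun i => Concat_inc a L γ i t :=
  Summable.of_norm_bounded hL fun i => Concat_inc_norm hp i t

theorem Concat_sum_cl (k : ℕ) (t : ℝ) :
    ∑ i ∈ Finset.range k, Concat_cl (L i) (t - Concat_T L i) = Concat_cl (Concat_T L k) t := by
  induction k with
  | zero =>
    simp only [Finset.range_zero, Finset.sum_empty, Concat_T]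
    unfold Concat_cl
    rw [min_eq_right (le_max_right _ _)]
  | succ k ih =>
    rw [Finset.sum_range_succ, ih, Concat_T_succ, Concat_cl_add (Concat_T_nonneg hp k) (hp k).nonneg]

theorem Concat_partial_lip (k : ℕ) {s t : ℝ} (h : s ≤ t) :
    ‖∑ i ∈ Finset.range k, Concat_inc a L γ i t - ∑ i ∈ Finset.range k, Concat_inc a L γ i s‖
      ≤ t - s := by
  rw [← Finset.sum_sub_distrib]
  refine (norm_sum_le _ _).trans ?_
  have h1 : ∀ i ∈ Finset.range k, ‖Concat_inc a L γ i t - Concat_inc a L γ i s‖ ≤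
      Concat_cl (L i) (t - Concat_T L i) - Concat_cl (L i) (s - Concat_T L i) := by
    intro i _
    have h2 := (hp i).lip.dist_le_mul (Concat_cl (L i) (t - Concat_T L i))
      (Concat_cl (L i) (s - Concat_T L i))
    have h3 : Concat_inc a L γ i t - Concat_inc a L γ i s =
        γ i (Concat_cl (L i) (t - Concat_T L i)) - γ i (Concat_cl (L i) (s - Concat_T L i)) := by
      unfold Concat_inc; abel
    rw [h3, ← dist_eq_norm]
    refine h2.trans ?_
    rw [NNReal.coe_one, one_mul, Real.dist_eq, abs_of_nonneg]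
    exact sub_nonneg.2 (Concat_cl_mono _ (by linarith))
  refine (Finset.sum_le_sum h1).trans ?_
  rw [Finset.sum_sub_distrib, Concat_sum_cl hp, Concat_sum_cl hp]
  exact Concat_cl_sub_le h

theorem Concat_lip (hL : Summable L) : LipschitzWith 1 (Concat_G a L γ) := by
  have key : ∀ s t : ℝ, s ≤ t → dist (Concat_G a L γ t) (Concat_G a L γ s) ≤ t - s := by
    intro s t h
    have h1 := (Concat_summable hp hL t).hasSum.tendsto_sum_nat
    have h2 := (Concat_summable hp hL s).hasSum.tendsto_sum_nat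
    have h3 := (h1.sub h2).norm
    have h4 := le_of_tendsto' h3 (fun k => Concat_partial_lip hp k h)
    rw [dist_eq_norm]
    have h5 : Concat_G a L γ t - Concat_G a L γ s =
        ∑' i, Concat_inc a L γ i t - ∑' i, Concat_inc a L γ i s := by
      unfold Concat_G; abel
    rw [h5]
    exact h4
  refine LipschitzWith.of_dist_le_mul fun s t => ?_
  rw [NNReal.coe_one, one_mul]
  rcases le_total s t with h | h
  · rw [dist_comm, Real.dist_eq, abs_sub_comm, abs_of_nonneg (sub_nonneg.2 h)]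
    exact key s t h
  · rw [Real.dist_eq, abs_of_nonneg (sub_nonneg.2 h)]
    exact key t s h

theorem Concat_G_eq {k : ℕ} {t : ℝ} (h1 : Concat_T L k ≤ t) (h2 : t ≤ Concat_T L (k + 1)) :
    Concat_G a L γ t = γ k (t - Concat_T L k) := by
  unfold Concat_G
  have h3 : ∑' i, Concat_inc a L γ i t = ∑ i ∈ Finset.range (k + 1), Concat_inc a L γ i t := by
    refine tsum_eq_sum fun i hi => ?_
    rw [Finset.mem_range, not_lt] at hi
    exact Concat_inc_zero hp (h2.trans (Concat_T_mono hp hi))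
  rw [h3, Finset.sum_range_succ]
  have h4 : ∑ i ∈ Finset.range k, Concat_inc a L γ i t = a k - a 0 := by
    rw [← Finset.sum_range_sub]
    refine Finset.sum_congr rfl fun i hi => ?_
    rw [Finset.mem_range] at hi
    exact Concat_inc_full hp ((Concat_T_mono hp hi).trans h1)
  rw [h4]
  unfold Concat_inc
  rw [Concat_T_succ] at h2
  rw [Concat_cl_of_mem ⟨by linarith, by linarith⟩]
  abel

theorem Concat_tendsto (hL : Summable L) :
    Tendsto a atTop (𝓝 (Concat_G a L γ (∑' i, L i))) := by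
  have h1 := (Concat_summable hp hL (∑' i, L i)).hasSum.tendsto_sum_nat
  have h2 := h1.const_add (a 0)
  refine h2.congr fun k => ?_
  have h4 : ∑ i ∈ Finset.range k, Concat_inc a L γ i (∑' i, L i) = a k - a 0 := by
    rw [← Finset.sum_range_sub]
    refine Finset.sum_congr rfl fun i hi => ?_
    refine Concat_inc_full hp ?_
    exact hL.sum_le_tsum _ (fun j _ => (hp j).nonneg)
  rw [h4]
  abel

omit hp in
theorem Concat_find (hL : Summable L) {t : ℝ} (h0 : 0 ≤ t) (h1 : t < ∑' i, L i) :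
    ∃ k, Concat_T L k ≤ t ∧ t < Concat_T L (k + 1) := by
  classical
  have h2 : ∃ k, t < Concat_T L k := by
    have := hL.hasSum.tendsto_sum_nat.eventually (lt_mem_nhds h1)
    exact this.exists
  have h3 := Nat.find_spec h2
  have h4 := fun m => Nat.find_min (H := h2) (m := m)
  obtain ⟨k, hk⟩ : ∃ k, Nat.find h2 = k + 1 := by
    refine Nat.exists_eq_succ_of_ne_zero fun h => ?_
    rw [h] at h3
    simp only [Concat_T, Finset.range_zero, Finset.sum_empty] at h3
    linarith
  refine ⟨k, not_lt.1 (h4 k (by omega)), ?_⟩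
  rw [hk] at h3
  exact h3

theorem Concat_isP (hL : Summable L) :
    IsP U (a 0) (Concat_G a L γ (∑' i, L i)) (∑' i, L i) (Concat_G a L γ) := by
  refine ⟨tsum_nonneg fun i => (hp i).nonneg, Concat_lip hp hL, ?_, rfl, ?_⟩
  · have h := Concat_G_eq hp (k := 0) (t := 0) (by simp [Concat_T])
      (by simpa [Concat_T] using (hp 0).nonneg)
    rw [h]
    simp [Concat_T, (hp 0).left]
  · refine Set.Countable.mono (s₂ := (⋃ k, (γ k '' Icc 0 (L k) \ U)) ∪
      {Concat_G a L γ (∑' i, L i)}) ?_ ?_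
    · rintro _ ⟨⟨t, ⟨h0, h1⟩, rfl⟩, hU⟩
      rcases h1.eq_or_lt with h | h
      · right; rw [h]; rfl
      · left
        obtain ⟨k, hk1, hk2⟩ := Concat_find hL h0 h
        refine mem_iUnion.2 ⟨k, ?_, hU⟩
        rw [Concat_G_eq hp hk1 hk2.le]
        rw [Concat_T_succ] at hk2
        exact ⟨_, ⟨by linarith, by linarith⟩, rfl⟩
    · exact (Set.countable_iUnion fun k => (hp k).countable).union (Set.countable_singleton _)

theorem Concat_cost (hL : Summable L) (w : V n → ℝ≥0∞) :
    cost w (∑' i, L i) (Concat_G a L γ) ≤ ∑' i, cost w (L i) (γ i) := by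
  unfold cost
  have h1 : ∫⁻ t in Icc 0 (∑' i, L i), w (Concat_G a L γ t) =
      ∫⁻ t in Ico 0 (∑' i, L i), w (Concat_G a L γ t) := by
    rw [Measure.restrict_congr_set Ico_ae_eq_Icc]
  rw [h1]
  have h2 : Ico 0 (∑' i, L i) ⊆ ⋃ k, Icc (Concat_T L k) (Concat_T L k + L k) := by
    intro t ht
    obtain ⟨k, hk1, hk2⟩ := Concat_find hL ht.1 ht.2
    rw [Concat_T_succ] at hk2
    exact mem_iUnion.2 ⟨k, hk1, hk2.le⟩
  refine (lintegral_mono_set h2).trans ((lintegral_iUnion_le _ _).trans ?_)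
  refine ENNReal.tsum_le_tsum fun k => ?_
  have h3 : ∫⁻ t in Icc (Concat_T L k) (Concat_T L k + L k), w (Concat_G a L γ t) =
      ∫⁻ t in Icc (Concat_T L k) (Concat_T L k + L k), w (γ k (t - Concat_T L k)) := by
    refine setLIntegral_congr_fun measurableSet_Icc fun t ht => ?_
    rw [Concat_G_eq hp ht.1 (by rw [Concat_T_succ]; exact ht.2)]
  rw [h3]
  have h4 := (measurePreserving_sub_right volume (Concat_T L k)).setLIntegral_comp_preimage_emb
    (MeasurableEquiv.subRight (Concat_T L k)).measurableEmbedding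
    (fun t => w (γ k t)) (Icc 0 (L k))
  have h5 : (fun x : ℝ => x - Concat_T L k) ⁻¹' Icc 0 (L k) =
      Icc (Concat_T L k) (Concat_T L k + L k) := by
    ext t
    simp only [mem_preimage, mem_Icc]
    constructor <;> rintro ⟨h, h'⟩ <;> constructor <;> linarith
  rw [h5] at h4
  exact h4.le

end

theorem Concat_eps {n : ℕ} {U : Set (V n)} {δ : ℝ≥0∞} {w : V n → ℝ≥0∞} (hδ : δ ≠ 0)
    (hw : ∀ x, δ ≤ w x) {a : ℕ → V n} (hs : (∑' i, wd U w (a i) (a (i + 1))) ≠ ⊤)
    {ε : ℝ≥0∞} (hε : ε ≠ 0) :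
    ∃ x : V n, Tendsto a atTop (𝓝 x) ∧ wd U w (a 0) x ≤ (∑' i, wd U w (a i) (a (i + 1))) + ε := by
  wlog hε' : ε ≠ ⊤ generalizing ε
  · obtain ⟨x, hx, -⟩ := this (ε := 1) one_ne_zero ENNReal.one_ne_top
    refine ⟨x, hx, ?_⟩
    rw [not_ne_iff] at hε'
    rw [hε']
    simp
  obtain ⟨ε', hε1, hε2⟩ := ENNReal.exists_pos_sum_of_countable hε ℕ
  have h1 : ∀ i, ∃ L γ, IsP U (a i) (a (i + 1)) L γ ∧
      cost w L γ < wd U w (a i) (a (i + 1)) + ε' i := by
    intro i
    refine exists_path_of_wd_lt (ENNReal.lt_add_right (ENNReal.ne_top_of_tsum_ne_top hs i) ?_)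
    exact_mod_cast (hε1 i).ne'
  choose L γ hp hc using h1
  have hsum : ∑' i, cost w (L i) (γ i) ≤ (∑' i, wd U w (a i) (a (i + 1))) + ε := by
    refine (ENNReal.tsum_le_tsum fun i => (hc i).le).trans ?_
    rw [ENNReal.tsum_add]
    exact add_le_add le_rfl hε2.le
  have hfin : ∑' i, cost w (L i) (γ i) ≠ ⊤ :=
    (hsum.trans_lt (ENNReal.add_lt_top.2 ⟨lt_top_iff_ne_top.2 hs, lt_top_iff_ne_top.2 hε'⟩)).ne
  have hlen : ∑' i, ENNReal.ofReal (L i) ≠ ⊤ := by
    intro h
    have h2 : δ * ∑' i, ENNReal.ofReal (L i) ≤ ∑' i, cost w (L i) (γ i) := by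
      rw [← ENNReal.tsum_mul_left]
      refine ENNReal.tsum_le_tsum fun i => ?_
      unfold cost
      calc δ * ENNReal.ofReal (L i) = ∫⁻ t in Icc 0 (L i), δ := by
            rw [setLIntegral_const, Real.volume_Icc, sub_zero]
        _ ≤ _ := lintegral_mono fun t => hw _
    rw [h, ENNReal.mul_top hδ] at h2
    exact hfin (top_le_iff.1 h2)
  have hL : Summable L := by
    have h3 : (fun i => (ENNReal.ofReal (L i)).toReal) = L := by
      funext i
      exact ENNReal.toReal_ofReal (hp i).nonneg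
    rw [← h3]
    exact ENNReal.summable_toReal hlen
  exact ⟨_, Concat_tendsto hp hL, (wd_le_cost (Concat_isP hp hL)).trans
    ((Concat_cost hp hL w).trans hsum)⟩

theorem thmConcat : StmtConcat := by
  intro n U δ w hδ _ hw a hs
  obtain ⟨x, hx, -⟩ := Concat_eps (U := U) hδ hw hs one_ne_zero
  refine ⟨x, hx, ?_⟩
  refine ENNReal.le_of_forall_pos_le_add fun ε hε _ => ?_
  obtain ⟨y, hy, h⟩ := Concat_eps (U := U) (ε := ε) hδ hw hs (by exact_mod_cast hε.ne')
  rw [tendsto_nhds_unique hx hy]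
  exact h

end CNEDRem
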