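import Pool.Agent.Work.MP_bb0df9_an.Basic

/-!
# Item Cutoff: logarithmic cutoff
-/

open MeasureTheory Set Filter Topology
open scoped ENNReal NNReal ContDiff

namespace CNEDRem

theorem Cutoff_log {a b : ℝ} (ha : 0 < a) (hb : 0 < b) :
    |Real.log b - Real.log a| ≤ |b - a| / min a b := by
  have hm : 0 < min a b := lt_min ha hb
  rw [le_div_iff₀ hm]
  have aux : ∀ x y : ℝ, 0 < x → 0 < y → (Real.log y - Real.log x) * min x y ≤ |y - x| := by
    intro x y hx hy
    rcases le_total y x with h | h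
    · have h1 : Real.log y ≤ Real.log x := Real.log_le_log hy h
      have h2 : 0 < min x y := lt_min hx hy
      have : (Real.log y - Real.log x) * min x y ≤ 0 :=
        mul_nonpos_of_nonpos_of_nonneg (by linarith) h2.le
      exact this.trans (abs_nonneg _)
    · rw [min_eq_left h, abs_of_nonneg (by linarith), ← Real.log_div hy.ne' hx.ne']
      have h1 := Real.log_le_sub_one_of_pos (div_pos hy hx)
      calc Real.log (y / x) * x ≤ (y / x - 1) * x := by gcongr
        _ = y - x := by field_simp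
  rcases abs_cases (Real.log b - Real.log a) with h | h
  · rw [h.1]
    exact aux a b ha hb
  · rw [h.1, abs_sub_comm, min_comm]
    have := aux b a hb ha
    linarith

theorem Cutoff_F (hM : StmtMVI) {n : ℕ} {R₀ l : ℝ} (hR : 0 < R₀) (hl : 0 < l)
    (L : ℝ) (γ : ℝ → V n) (hL : 0 ≤ L) (hγ : LipschitzWith 1 γ) (h0 : ‖γ 0‖ ≤ R₀)
    (h1 : l ≤ Real.log (‖γ L‖ / R₀)) (h1' : R₀ ≤ ‖γ L‖) :
    1 ≤ ∫⁻ t in Icc 0 L, ENNReal.ofReal (1 / (max ‖γ t‖ R₀ * l)) := by
  have hmpos : ∀ x : V n, 0 < max ‖x‖ R₀ := fun x => lt_max_of_lt_right hR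
  have key := hM n univ (fun x => Real.log (max ‖x‖ R₀) / l)
    (fun x => ENNReal.ofReal (1 / (max ‖x‖ R₀ * l))) isOpen_univ
    (by
      apply Continuous.div_const
      exact Continuous.log (by fun_prop) (fun x => (hmpos x).ne'))
    (by
      apply Continuous.continuousOn
      apply ENNReal.continuous_ofReal.comp
      exact continuous_const.div (by fun_prop) (fun x => (mul_pos (hmpos x) hl).ne'))
    (fun x _ => ENNReal.ofReal_ne_top)
    (by
      intro x _ M hxM
      have hc : ContinuousAt (fun y : V n =>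
          ENNReal.ofReal (1 / (min (max ‖x‖ R₀) (max ‖y‖ R₀) * l))) x := by
        apply Continuous.continuousAt
        apply ENNReal.continuous_ofReal.comp
        exact continuous_const.div (by fun_prop)
          (fun y => (mul_pos (lt_min (hmpos x) (hmpos y)) hl).ne')
      have hlt : ENNReal.ofReal (1 / (min (max ‖x‖ R₀) (max ‖x‖ R₀) * l)) < M := by
        rw [min_self]
        exact hxM
      have hev := hc.eventually (gt_mem_nhds hlt)
      filter_upwards [hev] with y hy
      have hm := lt_min (hmpos x) (hmpos y)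
      have h2 : |Real.log (max ‖y‖ R₀) / l - Real.log (max ‖x‖ R₀) / l| ≤
          1 / (min (max ‖x‖ R₀) (max ‖y‖ R₀) * l) * dist y x := by
        rw [← sub_div, abs_div, abs_of_pos hl]
        have h3 := Cutoff_log (hmpos x) (hmpos y)
        have h4 : |max ‖y‖ R₀ - max ‖x‖ R₀| ≤ dist y x := by
          refine (abs_max_sub_max_le_abs _ _ _).trans ?_
          rw [dist_eq_norm]
          exact abs_norm_sub_norm_le y x
        calc |Real.log (max ‖y‖ R₀) - Real.log (max ‖x‖ R₀)| / l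
            ≤ (dist y x / min (max ‖x‖ R₀) (max ‖y‖ R₀)) / l := by
              gcongr
              exact h3.trans (by gcongr)
          _ = _ := by field_simp
      calc ENNReal.ofReal |Real.log (max ‖y‖ R₀) / l - Real.log (max ‖x‖ R₀) / l|
          ≤ ENNReal.ofReal (1 / (min (max ‖x‖ R₀) (max ‖y‖ R₀) * l) * dist y x) :=
            ENNReal.ofReal_le_ofReal h2
        _ = ENNReal.ofReal (1 / (min (max ‖x‖ R₀) (max ‖y‖ R₀) * l)) *
            ENNReal.ofReal (dist y x) := ENNReal.ofReal_mul (by positivity)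
        _ ≤ M * ENNReal.ofReal (dist y x) := by gcongr)
    0 L γ hL hγ (fun _ _ => mem_univ _)
  refine le_trans ?_ key
  rw [ENNReal.one_le_ofReal]
  rw [max_eq_right h0, max_eq_left h1']
  rw [Real.log_div (by linarith) hR.ne'] at h1
  have h5 : 1 ≤ Real.log ‖γ L‖ / l - Real.log R₀ / l := by
    rw [← sub_div, one_le_div hl]
    exact h1
  exact h5.trans (le_abs_self _)

theorem Cutoff_shell {n k : ℕ} {R₀ l : ℝ} (hR : 0 < R₀) (hl : 0 < l) {x : V n}
    (hx : x ∈ Metric.ball (0 : V n) (2 ^ k * R₀)) :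
    ENNReal.ofReal (1 / (max ‖x‖ R₀ * l)) ^ (n : ℝ) ≤
      ∑ i ∈ Finset.range (k + 1), (Metric.ball (0 : V n) (2 ^ i * R₀)).indicator
        (fun _ => ENNReal.ofReal (2 / (2 ^ i * R₀ * l)) ^ (n : ℝ)) x := by
  classical
  have hex : ∃ i, ‖x‖ < 2 ^ i * R₀ := ⟨k, by simpa using hx⟩
  set i := Nat.find hex with hi
  have h1 : ‖x‖ < 2 ^ i * R₀ := Nat.find_spec hex
  have h2 : i ≤ k := Nat.find_min' hex (by simpa using hx)
  have hxi : x ∈ Metric.ball (0 : V n) (2 ^ i * R₀) := by simpa using h1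
  have h3 : ENNReal.ofReal (1 / (max ‖x‖ R₀ * l)) ^ (n : ℝ) ≤
      (Metric.ball (0 : V n) (2 ^ i * R₀)).indicator
        (fun _ => ENNReal.ofReal (2 / (2 ^ i * R₀ * l)) ^ (n : ℝ)) x := by
    rw [indicator_of_mem hxi]
    apply ENNReal.rpow_le_rpow _ (Nat.cast_nonneg n)
    apply ENNReal.ofReal_le_ofReal
    have h4 : 2 ^ i * R₀ / 2 ≤ max ‖x‖ R₀ := by
      rcases Nat.eq_zero_or_pos i with h0 | h0
      · rw [h0]
        have := le_max_right ‖x‖ R₀
        linarith
      · obtain ⟨j, hj⟩ : ∃ j, i = j + 1 := ⟨i - 1, by omega⟩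
        have h5 : ¬ ‖x‖ < 2 ^ j * R₀ := Nat.find_min hex (by omega)
        push Not at h5
        have := le_max_left ‖x‖ R₀
        rw [hj, pow_succ]
        linarith
    have h6 : 2 / (2 ^ i * R₀ * l) = 1 / ((2 ^ i * R₀ / 2) * l) := by field_simp
    rw [h6]
    gcongr
  refine h3.trans ?_
  exact Finset.single_le_sum (f := fun i => (Metric.ball (0 : V n) (2 ^ i * R₀)).indicator
        (fun _ => ENNReal.ofReal (2 / (2 ^ i * R₀ * l)) ^ (n : ℝ)) x)
    (fun _ _ => zero_le) (Finset.mem_range.2 (by omega))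

theorem Cutoff_int {n k : ℕ} {R₀ l : ℝ} (hR : 0 < R₀) (hl : 0 < l) :
    ∫⁻ x in Metric.ball (0 : V n) (2 ^ k * R₀),
      ENNReal.ofReal (1 / (max ‖x‖ R₀ * l)) ^ (n : ℝ) ≤
      volume (Metric.ball (0 : V n) 1) * ENNReal.ofReal ((k + 1) * (2 / l) ^ n) := by
  have h1 : ∫⁻ x in Metric.ball (0 : V n) (2 ^ k * R₀),
      ENNReal.ofReal (1 / (max ‖x‖ R₀ * l)) ^ (n : ℝ) ≤
      ∫⁻ x, ∑ i ∈ Finset.range (k + 1), (Metric.ball (0 : V n) (2 ^ i * R₀)).indicator
        (fun _ => ENNReal.ofReal (2 / (2 ^ i * R₀ * l)) ^ (n : ℝ)) x := by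
    refine le_trans ?_ (setLIntegral_le_lintegral (Metric.ball (0 : V n) (2 ^ k * R₀)) _)
    exact setLIntegral_mono' measurableSet_ball (fun x hx => Cutoff_shell hR hl hx)
  refine h1.trans ?_
  rw [lintegral_finsetSum _ (fun i _ => measurable_const.indicator measurableSet_ball)]
  have h2 : ∀ i ∈ Finset.range (k + 1), ∫⁻ x, (Metric.ball (0 : V n) (2 ^ i * R₀)).indicator
        (fun _ => ENNReal.ofReal (2 / (2 ^ i * R₀ * l)) ^ (n : ℝ)) x =
        ENNReal.ofReal ((2 / l) ^ n) * volume (Metric.ball (0 : V n) 1) := by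
    intro i _
    rw [lintegral_indicator_const measurableSet_ball, Measure.addHaar_ball_of_pos _ _ (by positivity)]
    rw [← mul_assoc]
    congr 1
    rw [ENNReal.ofReal_rpow_of_nonneg (by positivity) (Nat.cast_nonneg n), Real.rpow_natCast,
      ← ENNReal.ofReal_mul (by positivity)]
    congr 1
    simp only [finrank_euclideanSpace, Fintype.card_fin]
    rw [← mul_pow]
    congr 1
    field_simp
  rw [Finset.sum_congr rfl h2, Finset.sum_const, Finset.card_range, nsmul_eq_mul,
    ENNReal.ofReal_mul (by positivity)]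
  have h3 : ENNReal.ofReal ((k : ℝ) + 1) = ((k + 1 : ℕ) : ℝ≥0∞) := by
    rw [← ENNReal.ofReal_natCast]
    push_cast
    rfl
  rw [h3]
  apply le_of_eq
  ring

theorem thmCutoff (hM : StmtMVI) : StmtCutoff := by
  intro n hn R₀ ε hR hε
  have hlog : 0 < Real.log 2 := Real.log_pos (by norm_num)
  have hlog' : 2 / 3 ≤ Real.log 2 := by have := Real.log_two_gt_d9; linarith
  set c := volume (Metric.ball (0 : V n) 1) with hc
  have hcfin : c ≠ ⊤ := measure_ball_lt_top.ne
  have ht : Tendsto (fun k : ℕ => c * ENNReal.ofReal (8 / (k * Real.log 2 ^ 2))) atTop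
      (𝓝 (c * ENNReal.ofReal 0)) := by
    apply ENNReal.Tendsto.const_mul _ (Or.inr hcfin)
    apply ENNReal.tendsto_ofReal
    exact tendsto_const_nhds.div_atTop
      (tendsto_natCast_atTop_atTop.atTop_mul_const (by positivity))
  rw [ENNReal.ofReal_zero, mul_zero] at ht
  have hεn : 0 < ε ^ (n : ℝ) := by
    rcases eq_or_ne ε ⊤ with h | h
    · rw [h, ENNReal.top_rpow_of_pos (by exact_mod_cast (by omega : 0 < n))]
      exact ENNReal.coe_lt_top
    · exact ENNReal.rpow_pos hε h
  obtain ⟨k, hk1, hk2⟩ := ((ht.eventually (gt_mem_nhds hεn)).and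
    (eventually_ge_atTop 3)).exists
  have hk3 : (3 : ℝ) ≤ k := by exact_mod_cast hk2
  set l : ℝ := k * Real.log 2 with hl
  have hl0 : 0 < l := by positivity
  have hl2 : 2 ≤ l := by
    rw [hl]
    nlinarith
  refine ⟨2 ^ k * R₀, ?_, fun x => ENNReal.ofReal (1 / (max ‖x‖ R₀ * l)), ?_, ?_, ?_, ?_⟩
  · have : (1 : ℝ) < 2 ^ k := one_lt_pow₀ (by norm_num) (by omega)
    nlinarith
  · apply ENNReal.continuous_ofReal.comp
    exact continuous_const.div (by fun_prop)
      (fun x => (mul_pos (lt_max_of_lt_right hR) hl0).ne')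
  · exact fun x => ENNReal.ofReal_ne_top
  · unfold lpn
    rw [one_div, ENNReal.rpow_inv_le_iff (by exact_mod_cast (by omega : 0 < n))]
    refine (Cutoff_int hR hl0).trans (le_trans ?_ hk1.le)
    rw [← hc]
    gcongr
    have h1 : (2 / l) ^ n ≤ (2 / l) ^ 2 := by
      apply pow_le_pow_of_le_one (by positivity) _ hn
      rw [div_le_one hl0]
      exact hl2
    calc ((k : ℝ) + 1) * (2 / l) ^ n ≤ (2 * k) * (2 / l) ^ 2 := by
          gcongr
          linarith
      _ = 8 / (k * Real.log 2 ^ 2) := by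
          rw [hl]
          field_simp
          norm_num
  · intro L γ hL hγ h0 h1
    have h2 : (1 : ℝ) ≤ 2 ^ k := one_le_pow₀ (by norm_num)
    apply Cutoff_F hM hR hl0 L γ hL hγ h0
    · rw [hl, ← Real.log_pow]
      apply Real.log_le_log (by positivity)
      rw [le_div_iff₀ hR]
      exact h1
    · nlinarith

end CNEDRem
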