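import Pool.Agent.Work.MP_bb0df9_an.Basic

/-!
# MP_bb0df9_an : compactness (Dini)
-/

set_option autoImplicit false

open MeasureTheory Set Filter Topology
open scoped ENNReal NNReal ContDiff

namespace CNEDRem

/-- `P x'` and `P x` are close for `x'` near `x ∈ C`. -/
def Dini_near {n : ℕ} (U : Set (V n)) (w : V n → ℝ≥0∞) (C : Set (V n)) (P : V n → Set (V n)) :
    Prop :=
  ∀ x ∈ C, ∀ ε : ℝ≥0, 0 < ε → ∃ r : ℝ, 0 < r ∧ ∀ x' ∈ Metric.ball x r, ∀ R : Set (V n),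
    sd U w (P x) R ≤ sd U w (P x') R + ε ∧ sd U w (P x') R ≤ sd U w (P x) R + ε

theorem Dini_sd_symm (hS : StmtWdSymm) {n : ℕ} {U : Set (V n)} {w : V n → ℝ≥0∞}
    (A B : Set (V n)) : sd U w A B = sd U w B A := by
  apply le_antisymm
  · exact le_sd fun b hb a ha => (sd_le ha hb).trans (hS n U w a b).le
  · exact le_sd fun a ha b hb => (sd_le hb ha).trans (hS n U w b a).le

theorem Dini_ps (hS : StmtWdSymm) {n : ℕ} {U : Set (V n)} {w : V n → ℝ≥0∞}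
    {P P' Q Q' : Set (V n)} {ε : ℝ≥0∞} (hP : ∀ R, sd U w P' R ≤ sd U w P R + ε)
    (hQ : ∀ R, sd U w Q' R ≤ sd U w Q R + ε) (s : ℝ) :
    ps U w s P' Q' ≤ ps U w s P Q + (ε + ε) := by
  rw [← tsub_le_iff_right]
  refine le_ps fun x y hxy => ?_
  rw [tsub_le_iff_right]
  refine (ps_le hxy).trans ?_
  have h1 := hP {x}
  have h2 := hQ {y}
  rw [Dini_sd_symm hS Q', Dini_sd_symm hS Q] at h2
  calc sd U w P' {x} + sd U w {y} Q' ≤ (sd U w P {x} + ε) + (sd U w {y} Q + ε) :=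
        add_le_add h1 h2
    _ = _ := by ring

theorem Dini_psi (hS : StmtWdSymm) {n : ℕ} {U : Set (V n)} {w : V n → ℝ≥0∞}
    {P P' Q Q' : Set (V n)} {ε : ℝ≥0∞} (hP : ∀ R, sd U w P' R ≤ sd U w P R + ε)
    (hQ : ∀ R, sd U w Q' R ≤ sd U w Q R + ε) :
    psi U w P' Q' ≤ psi U w P Q + (ε + ε) :=
  psi_le fun s hs => (Dini_ps hS hP hQ s).trans (by gcongr; exact ps_le_psi hs)

theorem Dini_gen (hS : StmtWdSymm) {n : ℕ} {U : Set (V n)} {w : V n → ℝ≥0∞}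
    {C₁ C₂ : Set (V n)} (h1 : IsCompact C₁) (h2 : IsCompact C₂) {P Q : V n → Set (V n)}
    (hP : Dini_near U w C₁ P) (hQ : Dini_near U w C₂ Q) {θ τ : ℝ≥0∞} (hθ : θ < τ) :
    ∃ s : ℝ, 0 < s ∧ ∀ x ∈ C₁, ∀ y ∈ C₂, ps U w s (P x) (Q y) ≤ θ →
      psi U w (P x) (Q y) ≤ τ := by
  suffices h : ∃ s : ℝ, 0 < s ∧ ∀ z ∈ C₁ ×ˢ C₂, ps U w s (P z.1) (Q z.2) ≤ θ →
      psi U w (P z.1) (Q z.2) ≤ τ by
    obtain ⟨s, hs, h⟩ := h
    exact ⟨s, hs, fun x hx y hy => h (x, y) ⟨hx, hy⟩⟩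
  obtain ⟨e, he, heτ⟩ := ENNReal.lt_iff_exists_add_pos_lt.1 hθ
  refine (h1.prod h2).induction_on (p := fun S => ∃ s : ℝ, 0 < s ∧ ∀ z ∈ S,
    ps U w s (P z.1) (Q z.2) ≤ θ → psi U w (P z.1) (Q z.2) ≤ τ) ?_ ?_ ?_ ?_
  · exact ⟨1, one_pos, fun z hz => absurd hz (notMem_empty z)⟩
  · rintro S T hST ⟨s, hs, h⟩
    exact ⟨s, hs, fun z hz => h z (hST hz)⟩
  · rintro S T ⟨s, hs, h⟩ ⟨s', hs', h'⟩
    refine ⟨min s s', lt_min hs hs', ?_⟩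
    rintro z (hz | hz) hz'
    · exact h z hz ((ps_anti (min_le_left _ _)).trans hz')
    · exact h' z hz ((ps_anti (min_le_right _ _)).trans hz')
  · rintro ⟨p, q⟩ ⟨hp, hq⟩
    simp only at hp hq
    have he4 : 0 < e / 4 := div_pos he (by norm_num)
    obtain ⟨r, hr, hr'⟩ := hP p hp (e / 4) he4
    obtain ⟨t, ht, ht'⟩ := hQ q hq (e / 4) he4
    refine ⟨Metric.ball p r ×ˢ Metric.ball q t,
      mem_nhdsWithin_of_mem_nhds (prod_mem_nhds (Metric.ball_mem_nhds _ hr)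
        (Metric.ball_mem_nhds _ ht)), ?_⟩
    have hsum : θ + (((e / 4 : ℝ≥0) : ℝ≥0∞) + ((e / 4 : ℝ≥0) : ℝ≥0∞)) +
        (((e / 4 : ℝ≥0) : ℝ≥0∞) + ((e / 4 : ℝ≥0) : ℝ≥0∞)) ≤ τ := by
      refine le_trans (le_of_eq ?_) heτ.le
      rw [add_assoc, ← ENNReal.coe_add, ← ENNReal.coe_add]
      congr 2
      rw [← add_div, ← add_div]
      field_simp
      norm_num
    by_cases hc : psi U w (P p) (Q q) ≤ θ + (((e / 4 : ℝ≥0) : ℝ≥0∞) + ((e / 4 : ℝ≥0) : ℝ≥0∞))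
    · refine ⟨1, one_pos, ?_⟩
      rintro ⟨x, y⟩ ⟨hx, hy⟩ -
      refine (Dini_psi hS (fun R => (hr' x hx R).2) (fun R => (ht' y hy R).2)).trans ?_
      refine le_trans ?_ hsum
      gcongr
    · obtain ⟨s, hs, hs'⟩ := exists_of_lt_psi (not_le.1 hc)
      refine ⟨s, hs, ?_⟩
      rintro ⟨x, y⟩ ⟨hx, hy⟩ hxy
      have h3 := Dini_ps hS (fun R => (hr' x hx R).1) (fun R => (ht' y hy R).1) s
      refine absurd (hs'.trans_le (h3.trans ?_)) (lt_irrefl _)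
      gcongr

theorem Dini_near_const {n : ℕ} {U : Set (V n)} {w : V n → ℝ≥0∞} {C : Set (V n)}
    (A : Set (V n)) : Dini_near U w C (fun _ => A) :=
  fun _ _ _ _ => ⟨1, one_pos, fun _ _ _ => ⟨le_self_add, le_self_add⟩⟩

theorem Dini_sd_single (hT : StmtWdTri) {n : ℕ} {U : Set (V n)} {w : V n → ℝ≥0∞}
    {x y : V n} {ε : ℝ≥0∞} (h : wd U w x y ≤ ε) (R : Set (V n)) :
    sd U w {x} R ≤ sd U w {y} R + ε := by
  rw [← tsub_le_iff_right]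
  refine le_sd fun a ha b hb => ?_
  rw [mem_singleton_iff.1 ha, tsub_le_iff_right]
  refine (sd_le (mem_singleton x) hb).trans ((hT n U w x y b).trans ?_)
  rw [add_comm]
  gcongr

theorem Dini_near_single (hT : StmtWdTri) (hS : StmtWdSymm) (hL : StmtWdLoc) {n : ℕ}
    {U : Set (V n)} {δ : ℝ≥0∞} {w : V n → ℝ≥0∞} (hU : IsOpen U) (hw : IsWt U δ w)
    {C : Set (V n)} (hC : C ⊆ U) : Dini_near U w C (fun x => {x}) := by
  intro x hx ε hε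
  have hfin := hw.fin x (hC hx)
  obtain ⟨M, hM⟩ : ∃ M : ℝ≥0, (M : ℝ≥0∞) = w x := ⟨_, ENNReal.coe_toNNReal hfin⟩
  have hlt : w x < ((M + 1 : ℝ≥0) : ℝ≥0∞) := by
    rw [← hM, ENNReal.coe_lt_coe]
    exact lt_add_one M
  obtain ⟨r, hr, -, -, hb⟩ := hL n U δ w hU hw x (hC hx) _ hlt
  have hM1 : (0 : ℝ) < ((M + 1 : ℝ≥0) : ℝ) := by positivity
  refine ⟨min r (ε / (M + 1 : ℝ≥0)), lt_min hr (by positivity), fun x' hx' R => ?_⟩
  rw [Metric.mem_ball, lt_min_iff] at hx'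
  have h1 : wd U w x x' ≤ ε := by
    refine (hb x (Metric.mem_ball_self hr) x' (Metric.mem_ball.2 hx'.1)).trans ?_
    rw [dist_comm, ← ENNReal.ofReal_coe_nnreal, ← ENNReal.ofReal_mul hM1.le,
      ← ENNReal.ofReal_coe_nnreal (p := ε)]
    refine ENNReal.ofReal_le_ofReal ?_
    have h2 := (lt_div_iff₀ hM1).1 hx'.2
    linarith [mul_comm (dist x' x) ((M + 1 : ℝ≥0) : ℝ)]
  have h2 : wd U w x' x ≤ ε := by rw [hS]; exact h1
  exact ⟨Dini_sd_single hT h1 R, Dini_sd_single hT h2 R⟩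

theorem thmDini (hT : StmtWdTri) (hS : StmtWdSymm) (hL : StmtWdLoc) : StmtDini := by
  intro n U δ w hU hw A B C hC hCU θ τ hθ
  have hs := Dini_near_single hT hS hL hU hw hCU
  have h0 : IsCompact ({0} : Set (V n)) := isCompact_singleton
  obtain ⟨s₁, p₁, h₁⟩ := Dini_gen hS h0 h0 (Dini_near_const (U := U) (w := w) A)
    (Dini_near_const B) hθ
  obtain ⟨s₂, p₂, h₂⟩ := Dini_gen hS h0 hC (Dini_near_const (U := U) (w := w) A) hs hθ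
  obtain ⟨s₃, p₃, h₃⟩ := Dini_gen hS hC h0 hs (Dini_near_const (U := U) (w := w) B) hθ
  obtain ⟨s₄, p₄, h₄⟩ := Dini_gen hS hC hC hs hs hθ
  refine ⟨min (min s₁ s₂) (min s₃ s₄), lt_min (lt_min p₁ p₂) (lt_min p₃ p₄), ?_⟩
  have m₁ : min (min s₁ s₂) (min s₃ s₄) ≤ s₁ := (min_le_left _ _).trans (min_le_left _ _)
  have m₂ : min (min s₁ s₂) (min s₃ s₄) ≤ s₂ := (min_le_left _ _).trans (min_le_right _ _)
  have m₃ : min (min s₁ s₂) (min s₃ s₄) ≤ s₃ := (min_le_right _ _).trans (min_le_left _ _)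
  have m₄ : min (min s₁ s₂) (min s₃ s₄) ≤ s₄ := (min_le_right _ _).trans (min_le_right _ _)
  rintro P Q (rfl | ⟨x, hx, rfl⟩) (rfl | ⟨y, hy, rfl⟩) h
  · exact h₁ 0 rfl 0 rfl ((ps_anti m₁).trans h)
  · exact h₂ 0 rfl y hy ((ps_anti m₂).trans h)
  · exact h₃ x hx 0 rfl ((ps_anti m₃).trans h)
  · exact h₄ x hx y hy ((ps_anti m₄).trans h)

end CNEDRem
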