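import Pool.Agent.Work.MP_bb0df9_an.Basic

/-!
# MP_bb0df9_an : functions with an upper gradient inequality are locally Lipschitz
-/

open MeasureTheory Set Filter Topology
open scoped ENNReal NNReal ContDiff

namespace CNEDRem

theorem Grad_le_wd {n : ℕ} {U : Set (V n)} {w : V n → ℝ≥0∞} {c : ℝ} {u : V n → ℝ}
    (h : UG U w c u) (x y : V n) : ENNReal.ofReal (c * (u y - u x)) ≤ wd U w x y :=
  le_iInf fun L => le_iInf fun γ => le_iInf fun hγ => h x y L γ hγ

theorem Grad_loc (hL : StmtWdLoc) {n : ℕ} {U : Set (V n)} {δ : ℝ≥0∞} {w : V n → ℝ≥0∞}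
    (hU : IsOpen U) (hw : IsWt U δ w) {c : ℝ} {u : V n → ℝ} (hc : 0 < c) (h : UG U w c u)
    {x : V n} (hx : x ∈ U) {M : ℝ≥0∞} (hM : w x < M) (hM' : M ≠ ⊤) :
    ∃ r : ℝ, 0 < r ∧ ∀ y ∈ Metric.ball x r, ∀ z ∈ Metric.ball x r,
      |u y - u z| ≤ M.toReal / c * dist y z := by
  obtain ⟨r, hr, _, _, hwd⟩ := hL n U δ w hU hw x hx M hM
  refine ⟨r, hr, ?_⟩
  have key : ∀ y ∈ Metric.ball x r, ∀ z ∈ Metric.ball x r,
      u z - u y ≤ M.toReal / c * dist y z := by
    intro y hy z hz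
    have h1 : ENNReal.ofReal (c * (u z - u y)) ≤ M * ENNReal.ofReal (dist y z) :=
      (Grad_le_wd h y z).trans (hwd y hy z hz)
    have h2 : M * ENNReal.ofReal (dist y z) = ENNReal.ofReal (M.toReal * dist y z) := by
      rw [ENNReal.ofReal_mul ENNReal.toReal_nonneg, ENNReal.ofReal_toReal hM']
    rw [h2] at h1
    have h3 : c * (u z - u y) ≤ M.toReal * dist y z :=
      (ENNReal.ofReal_le_ofReal_iff (mul_nonneg ENNReal.toReal_nonneg dist_nonneg)).1 h1
    rw [div_mul_eq_mul_div, le_div_iff₀ hc]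
    linarith
  intro y hy z hz
  rw [abs_le]
  constructor
  · have := key y hy z hz
    linarith
  · have := key z hz y hy
    rw [dist_comm] at this
    linarith

theorem thmGrad (hL : StmtWdLoc) : StmtGrad := by
  intro n U δ w hU hw c u hc h
  refine ⟨?_, ?_⟩
  · intro x hx
    have hfin : w x < w x + 1 := ENNReal.lt_add_right (hw.fin x hx) one_ne_zero
    have hfin' : w x + 1 ≠ ⊤ := ENNReal.add_ne_top.2 ⟨hw.fin x hx, ENNReal.one_ne_top⟩
    obtain ⟨r, hr, hlip⟩ := Grad_loc hL hU hw hc h hx hfin hfin'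
    refine ⟨r, hr, Real.toNNReal ((w x + 1).toReal / c), ?_⟩
    refine LipschitzOnWith.of_dist_le_mul fun y hy z hz => ?_
    rw [Real.dist_eq, Real.coe_toNNReal _ (div_nonneg ENNReal.toReal_nonneg hc.le)]
    exact hlip y hy z hz
  · intro x hx
    refine le_of_forall_gt_imp_ge_of_dense fun M hM => ?_
    rcases eq_or_ne M ⊤ with rfl | hM'
    · exact le_top
    obtain ⟨r, hr, hlip⟩ := Grad_loc hL hU hw hc h hx hM hM'
    have hfd : ‖fderiv ℝ u x‖ ≤ M.toReal / c := by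
      refine norm_fderiv_le_of_lip' ℝ (div_nonneg ENNReal.toReal_nonneg hc.le) ?_
      filter_upwards [Metric.ball_mem_nhds x hr] with y hy
      rw [Real.norm_eq_abs, ← dist_eq_norm]
      exact hlip y hy x (Metric.mem_ball_self hr)
    rw [le_div_iff₀ hc] at hfd
    refine (ENNReal.ofReal_le_ofReal (by linarith : c * ‖fderiv ℝ u x‖ ≤ M.toReal)).trans ?_
    exact ENNReal.ofReal_toReal_le

end CNEDRem
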