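import Pool.Agent.Work.MP_bb0df9_an.Basic

/-!
# MP_bb0df9_an : the product rule for weak gradients
-/

open MeasureTheory Set Filter Topology
open scoped ENNReal NNReal ContDiff

namespace CNEDRem

theorem Prod_grad_coord {n : ℕ} (φ : V n → ℝ) (x : V n) (i : Fin n) :
    (gradient φ x) i = fderiv ℝ φ x (EuclideanSpace.single i 1) := by
  have h : inner ℝ (gradient φ x) (EuclideanSpace.single i (1 : ℝ)) =
      fderiv ℝ φ x (EuclideanSpace.single i 1) := by
    unfold gradient
    rw [InnerProductSpace.toDual_symm_apply]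
  rw [← h, EuclideanSpace.inner_single_right]
  simp

theorem Prod_coord_memLp {n : ℕ} {μ : Measure (V n)} {p : ℝ≥0∞} {g : V n → V n}
    (hg : MemLp g p μ) (i : Fin n) : MemLp (fun x => g x i) p μ :=
  (EuclideanSpace.proj (𝕜 := ℝ) i).comp_memLp' hg

theorem Prod_integrable_mul {n : ℕ} (hn : 1 ≤ n) {μ : Measure (V n)} [IsFiniteMeasureOnCompacts μ]
    {f ψ : V n → ℝ} (hf : MemLp f n μ) (hψ : Continuous ψ) (hψc : HasCompactSupport ψ) :
    Integrable (fun x => f x * ψ x) μ := by
  have h1 : (1 : ℝ≥0∞) ≤ n := by exact_mod_cast hn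
  have h2 : ENNReal.HolderConjugate (n : ℝ≥0∞) (ENNReal.conjExponent n) :=
    ENNReal.HolderConjugate.conjExponent h1
  have h3 : MemLp ψ (ENNReal.conjExponent n) μ := hψ.memLp_of_hasCompactSupport hψc
  exact hf.integrable_mul h3

theorem thmProd : StmtProd := by
  intro n Ω u φ g hn hΩ hu hg hw hφ hφc ψ hψ hψc hψs i
  have hφψ : ContDiff ℝ ∞ (fun x => φ x * ψ x) := hφ.mul hψ
  have hc : HasCompactSupport (fun x => φ x * ψ x) := hψc.mul_left
  have hs : tsupport (fun x => φ x * ψ x) ⊆ Ω := (tsupport_mul_subset_right).trans hψs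
  have key := hw _ hφψ hc hs i
  have dφ : Differentiable ℝ φ := hφ.differentiable (by simp)
  have dψ : Differentiable ℝ ψ := hψ.differentiable (by simp)
  have hfd : ∀ x, fderiv ℝ (fun x => φ x * ψ x) x (EuclideanSpace.single i 1) =
      φ x * fderiv ℝ ψ x (EuclideanSpace.single i 1) +
        ψ x * fderiv ℝ φ x (EuclideanSpace.single i 1) := by
    intro x
    have h := fderiv_fun_mul (dφ x) (dψ x)
    rw [h]
    simp
  have cψ' : Continuous fun x => fderiv ℝ ψ x (EuclideanSpace.single i 1) :=
    (hψ.continuous_fderiv (by simp)).clm_apply continuous_const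
  have cφ' : Continuous fun x => fderiv ℝ φ x (EuclideanSpace.single i 1) :=
    (hφ.continuous_fderiv (by simp)).clm_apply continuous_const
  have sψ' : HasCompactSupport fun x => fderiv ℝ ψ x (EuclideanSpace.single i 1) :=
    hψc.fderiv_apply ℝ _
  have i1 : Integrable (fun x => u x * φ x * fderiv ℝ ψ x (EuclideanSpace.single i 1))
      (volume.restrict Ω) :=
    (((hu.mul hφ.continuous).mul cψ').integrable_of_hasCompactSupport sψ'.mul_left).restrict
  have i2 : Integrable (fun x => u x * fderiv ℝ φ x (EuclideanSpace.single i 1) * ψ x)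
      (volume.restrict Ω) :=
    (((hu.mul cφ').mul hψ.continuous).integrable_of_hasCompactSupport hψc.mul_left).restrict
  have i3 : Integrable (fun x => g x i * (φ x * ψ x)) (volume.restrict Ω) :=
    Prod_integrable_mul hn (Prod_coord_memLp hg i) (hφ.continuous.mul hψ.continuous) hc
  have e1 : ∫ x in Ω, u x * fderiv ℝ (fun x => φ x * ψ x) x (EuclideanSpace.single i 1) =
      (∫ x in Ω, u x * φ x * fderiv ℝ ψ x (EuclideanSpace.single i 1)) +
        ∫ x in Ω, u x * fderiv ℝ φ x (EuclideanSpace.single i 1) * ψ x := by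
    rw [← integral_add i1 i2]
    congr 1
    ext x
    rw [hfd]; ring
  have e2 : ∫ x in Ω, (φ x • g x + u x • gradient φ x) i * ψ x =
      (∫ x in Ω, g x i * (φ x * ψ x)) +
        ∫ x in Ω, u x * fderiv ℝ φ x (EuclideanSpace.single i 1) * ψ x := by
    rw [← integral_add i3 i2]
    congr 1
    ext x
    have : (φ x • g x + u x • gradient φ x) i = φ x * g x i + u x * (gradient φ x) i := by
      simp
    rw [this, Prod_grad_coord]; ring
  rw [e2]
  rw [e1] at key
  linarith

end CNEDRem
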