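import Pool.Agent.Work.MP_bb0df9_an.Basic
import Pool.Agent.Work.MP_bb0df9_an.Prod

/-!
# MP_bb0df9_an : CNED implies removable (from the ring identities)
-/

open MeasureTheory Set Filter Topology
open scoped ENNReal NNReal ContDiff

namespace CNEDRem

/-- The kernel seen from far away in the direction `-e`. -/
noncomputable def Half2_H {n : ℕ} (e y : V n) : V n := (‖y + e‖ ^ n)⁻¹ • (y + e)

theorem Half2_scale {n : ℕ} (e x : V n) {k : ℝ} (hk : 0 < k) :
    (‖x - -(k • e)‖ ^ n)⁻¹ • (x - -(k • e)) = (k ^ n)⁻¹ • k • Half2_H e (k⁻¹ • x) := by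
  have e1 : x - -(k • e) = k • (k⁻¹ • x + e) := by
    rw [smul_add, smul_inv_smul₀ hk.ne', sub_neg_eq_add]
  rw [e1, norm_smul, Real.norm_of_nonneg hk.le, mul_pow, mul_inv]
  unfold Half2_H
  rw [smul_smul, smul_smul, smul_smul]
  congr 1
  ring

theorem Half2_bound {n : ℕ} {e y : V n} (he : ‖e‖ = 1) (hy : ‖y‖ ≤ 1 / 2) :
    ‖Half2_H e y‖ ≤ 2 ^ n * 2 := by
  unfold Half2_H
  rw [norm_smul, norm_inv, norm_pow, norm_norm]
  have h1 : (1 : ℝ) / 2 ≤ ‖y + e‖ := by
    have := norm_sub_le (y + e) y
    rw [add_sub_cancel_left, he] at this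
    linarith
  have h2 : ‖y + e‖ ≤ 2 := by
    have := norm_add_le y e
    rw [he] at this
    linarith
  have h3 : (‖y + e‖ ^ n)⁻¹ ≤ 2 ^ n := by
    have h4 : (1 / 2 : ℝ) ^ n ≤ ‖y + e‖ ^ n := pow_le_pow_left₀ (by norm_num) h1 n
    have h5 := inv_anti₀ (by positivity : (0 : ℝ) < (1 / 2) ^ n) h4
    calc _ ≤ ((1 / 2 : ℝ) ^ n)⁻¹ := h5
      _ = 2 ^ n := by rw [one_div, inv_pow, inv_inv]
  exact mul_le_mul h3 h2 (norm_nonneg _) (by positivity)

theorem Half2_lim {n : ℕ} {e x : V n} (he : ‖e‖ = 1) :
    Tendsto (fun k : ℕ => Half2_H e ((k : ℝ)⁻¹ • x)) atTop (𝓝 e) := by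
  have h1 : Tendsto (fun k : ℕ => (k : ℝ)⁻¹ • x + e) atTop (𝓝 e) := by
    have h2 : Tendsto (fun k : ℕ => ((k : ℝ)⁻¹)) atTop (𝓝 0) :=
      tendsto_inv_atTop_zero.comp tendsto_natCast_atTop_atTop
    have h3 := (h2.smul_const x).add_const e
    simpa using h3
  have h4 : Tendsto (fun k : ℕ => (‖(k : ℝ)⁻¹ • x + e‖ ^ n)⁻¹) atTop (𝓝 1) := by
    have h5 := ((h1.norm).pow n).inv₀ (by rw [he]; simp)
    simpa [he] using h5
  have h6 := h4.smul h1
  simpa [Half2_H] using h6

theorem Half2_contH {n : ℕ} (e : V n) {k : ℝ} : Measurable fun x : V n => Half2_H e (k • x) := by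
  unfold Half2_H
  exact (((((measurable_id.const_smul k).add_const e).norm).pow_const n).inv).smul
    ((measurable_id.const_smul k).add_const e)

/-- A vector field orthogonal on average to all far kernels has mean zero. -/
theorem Half2_mean {n : ℕ} {G : V n → V n} {R : ℝ} (hG : Integrable G)
    (hs : ∀ x, R < ‖x‖ → G x = 0) {e : V n} (he : ‖e‖ = 1)
    (h : ∀ k : ℕ, R < k → ∫ x, inner ℝ (Half2_H e ((k : ℝ)⁻¹ • x)) (G x) = 0) :
    ∫ x, inner ℝ e (G x) = 0 := by
  have hlim : Tendsto (fun k : ℕ => ∫ x, inner ℝ (Half2_H e ((k : ℝ)⁻¹ • x)) (G x)) atTop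
      (𝓝 (∫ x, inner ℝ e (G x))) := by
    apply tendsto_integral_filter_of_dominated_convergence (fun x => 2 ^ n * 2 * ‖G x‖)
    · exact Eventually.of_forall fun k =>
        (Half2_contH e).aestronglyMeasurable.inner hG.aestronglyMeasurable
    · filter_upwards [eventually_gt_atTop ⌈2 * max R 1⌉₊] with k hk
      have hk1 : 2 * max R 1 < k := lt_of_le_of_lt (Nat.le_ceil _) (by exact_mod_cast hk)
      have hk0 : (0 : ℝ) < k := by
        have := le_max_right R 1
        linarith
      refine Eventually.of_forall fun x => ?_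
      by_cases hx : R < ‖x‖
      · rw [hs x hx]; simp
      · push Not at hx
        refine (norm_inner_le_norm _ _).trans ?_
        apply mul_le_mul_of_nonneg_right _ (norm_nonneg _)
        apply Half2_bound he
        rw [norm_smul, norm_inv, Real.norm_of_nonneg hk0.le, inv_mul_le_iff₀ hk0]
        have := le_max_left R 1
        linarith
    · exact hG.norm.const_mul _
    · exact Eventually.of_forall fun x => (Half2_lim he).inner tendsto_const_nhds
  have hz : Tendsto (fun k : ℕ => ∫ x, inner ℝ (Half2_H e ((k : ℝ)⁻¹ • x)) (G x)) atTop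
      (𝓝 0) := by
    apply tendsto_const_nhds.congr'
    filter_upwards [eventually_gt_atTop ⌈R⌉₊] with k hk
    exact (h k (lt_of_le_of_lt (Nat.le_ceil _) (by exact_mod_cast hk))).symm
  exact tendsto_nhds_unique hlim hz

theorem thmHalf2 (hR : StmtCnedRing) : StmtHalf2 := by
  intro n hn E hE hC u hu hW
  obtain ⟨hvol, hring⟩ := hR n hn E hE hC
  obtain ⟨hu1, g0, hg0, hw0⟩ := hW
  have hres : volume.restrict Eᶜ = (volume : Measure (V n)) := by
    apply Measure.restrict_eq_self_of_ae_mem
    rw [ae_iff]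
    simpa using hvol
  -- a measurable version of the gradient
  obtain ⟨g, hgm, hgae⟩ := hg0.aestronglyMeasurable
  have hg1 : MemLp g n (volume.restrict Eᶜ) := (memLp_congr_ae hgae).mp hg0
  have hwg : IsWeakGrad Eᶜ u g := by
    intro φ h1 h2 h3 i
    rw [hw0 φ h1 h2 h3 i]
    congr 1
    apply integral_congr_ae
    filter_upwards [hgae] with x hx
    rw [hx]
  rw [hres] at hu1
  have hg2 : MemLp g n volume := by rwa [hres] at hg1
  refine ⟨by rwa [Measure.restrict_univ], g, by rwa [Measure.restrict_univ], ?_⟩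
  intro φ hφ hφc _ i
  rw [Measure.restrict_univ]
  have hn1 : 1 ≤ n := by omega
  have e1 : ‖(EuclideanSpace.single i (1 : ℝ) : V n)‖ = 1 := by simp
  -- the vector field
  have i1 : Integrable (fun x => φ x • g x) := by
    have h1 : Integrable (fun x => ‖g x‖ * ‖φ x‖) :=
      Prod_integrable_mul hn1 hg2.norm hφ.continuous.norm hφc.norm
    refine Integrable.mono' h1 (hφ.continuous.aestronglyMeasurable.smul hg2.1) ?_
    exact Eventually.of_forall fun x => by rw [norm_smul, mul_comm]
  have cgrad : Continuous (gradient φ) := by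
    unfold gradient
    exact (LinearIsometryEquiv.continuous _).comp (hφ.continuous_fderiv (by simp))
  have sgrad : HasCompactSupport (gradient φ) := by
    unfold gradient
    exact (hφc.fderiv (𝕜 := ℝ)).comp_left (map_zero _)
  have i2 : Integrable (fun x => u x • gradient φ x) :=
    (hu.smul cgrad).integrable_of_hasCompactSupport sgrad.smul_left
  obtain ⟨R, hRs⟩ := hφc.isCompact.isBounded.subset_closedBall (0 : V n)
  have hsupp : ∀ x, R < ‖x‖ → φ x • g x + u x • gradient φ x = 0 := by
    intro x hx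
    have hxn : x ∉ tsupport φ := fun h => by
      have := hRs h
      rw [mem_closedBall_zero_iff] at this
      linarith
    have h1 : φ x = 0 := image_eq_zero_of_notMem_tsupport hxn
    have h2 : fderiv ℝ φ x = 0 := by
      have : x ∉ tsupport (fderiv ℝ φ) := fun h => hxn (tsupport_fderiv_subset ℝ h)
      exact image_eq_zero_of_notMem_tsupport this
    unfold gradient
    rw [h1, h2]
    simp
  have hmean := Half2_mean (i1.add i2) (R := R) hsupp e1 (by
    intro k hk
    have hR0 : 0 ≤ k := Nat.zero_le k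
    rcases Nat.eq_zero_or_pos k with h0 | h0
    · subst h0
      -- then the field vanishes
      have hz : ∀ x : V n, φ x • g x + u x • gradient φ x = 0 := fun x =>
        hsupp x (lt_of_lt_of_le (by simpa using hk) (norm_nonneg x))
      simp only [Pi.add_apply, hz, inner_zero_right, integral_zero]
    · have hk0 : (0 : ℝ) < k := by exact_mod_cast h0
      have hx0 : -((k : ℝ) • (EuclideanSpace.single i (1 : ℝ) : V n)) ∉ tsupport φ := by
        intro h
        have := hRs h
        rw [mem_closedBall_zero_iff, norm_neg, norm_smul, e1, mul_one,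
          Real.norm_of_nonneg hk0.le] at this
        linarith
      have h1 := hring u φ g hu hg1 hgm.measurable hwg hφ hφc _ hx0
      rw [hres] at h1
      have h2 : ∀ x : V n, (‖x - -((k : ℝ) • (EuclideanSpace.single i (1 : ℝ) : V n))‖ ^ n)⁻¹ *
          inner ℝ (x - -((k : ℝ) • (EuclideanSpace.single i (1 : ℝ) : V n)))
            (φ x • g x + u x • gradient φ x) =
          ((k : ℝ) ^ n)⁻¹ * k * inner ℝ (Half2_H (EuclideanSpace.single i (1 : ℝ)) ((k : ℝ)⁻¹ • x))
            (φ x • g x + u x • gradient φ x) := by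
        intro x
        rw [← real_inner_smul_left, Half2_scale _ _ hk0, real_inner_smul_left,
          real_inner_smul_left, mul_assoc]
      simp only [h2] at h1
      rw [integral_const_mul] at h1
      have h3 : ((k : ℝ) ^ n)⁻¹ * k ≠ 0 := by positivity
      exact (mul_eq_zero.mp h1).resolve_left h3)
  have h5 : ∀ x : V n, inner ℝ (EuclideanSpace.single i (1 : ℝ) : V n)
      (((fun x => φ x • g x) + fun x => u x • gradient φ x) x) =
      g x i * φ x + u x * fderiv ℝ φ x (EuclideanSpace.single i 1) := by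
    intro x
    have : (φ x • g x + u x • gradient φ x) i = φ x * g x i + u x * (gradient φ x) i := by
      simp
    rw [Pi.add_apply, EuclideanSpace.inner_single_left]
    rw [this, Prod_grad_coord]
    simp
    ring
  simp only [h5] at hmean
  have j1 : Integrable (fun x => g x i * φ x) :=
    Prod_integrable_mul hn1 (Prod_coord_memLp hg2 i) hφ.continuous hφc
  have j2 : Integrable (fun x => u x * fderiv ℝ φ x (EuclideanSpace.single i 1)) :=
    (hu.mul ((hφ.continuous_fderiv (by simp)).clm_apply continuous_const)).integrable_of_hasCompactSupport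
      (hφc.fderiv_apply ℝ _).mul_left
  rw [integral_add j1 j2] at hmean
  linarith

end CNEDRem
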