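import Pool.Agent.Work.MP_bb0df9_an.Basic

/-!
# MP_bb0df9_an : a countable image contributes nothing
-/

open MeasureTheory Set Filter Topology
open scoped ENNReal NNReal

namespace CNEDRem

lemma Img_piece {f : ℝ → ℝ} {k : ℝ → ℝ≥0∞} {a b : ℝ}
    (h : ∀ x y, a ≤ x → x ≤ y → y ≤ b → ENNReal.ofReal |f y - f x| ≤ ∫⁻ t in Icc x y, k t) :
    volume (f '' Icc a b) ≤ ∫⁻ t in Ico a b, k t := by
  have e : ∫⁻ t in Ico a b, k t = ∫⁻ t in Icc a b, k t := setLIntegral_congr Ico_ae_eq_Icc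
  rw [e]
  refine (Real.volume_le_diam _).trans ?_
  refine Metric.ediam_le ?_
  rintro _ ⟨x, hx, rfl⟩ _ ⟨y, hy, rfl⟩
  rw [edist_dist, Real.dist_eq]
  rcases le_total x y with hxy | hxy
  · rw [abs_sub_comm]
    exact (h x y hx.1 hxy hy.2).trans (lintegral_mono_set (Icc_subset_Icc hx.1 hy.2))
  · exact (h y x hy.1 hxy hx.2).trans (lintegral_mono_set (Icc_subset_Icc hy.1 hx.2))

/-- The grid points. -/
noncomputable def Img_g (L : ℝ) (m i : ℕ) : ℝ := L * i / 2 ^ m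

lemma Img_g_succ (L : ℝ) (m i : ℕ) : Img_g L (m + 1) (2 * i) = Img_g L m i := by
  unfold Img_g
  rw [pow_succ]
  push_cast
  field_simp

lemma Img_g_mono {L : ℝ} (hL : 0 ≤ L) (m : ℕ) {i j : ℕ} (hij : i ≤ j) :
    Img_g L m i ≤ Img_g L m j := by
  unfold Img_g
  have : (i : ℝ) ≤ j := by exact_mod_cast hij
  gcongr

lemma Img_g_zero (L : ℝ) (m : ℕ) : Img_g L m 0 = 0 := by
  simp [Img_g]

lemma Img_g_last (L : ℝ) (m : ℕ) : Img_g L m (2 ^ m) = L := by
  unfold Img_g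
  push_cast
  field_simp

open Classical in
/-- The indices of the grid intervals disjoint from `K`. -/
noncomputable def Img_F (L : ℝ) (K : Set ℝ) (m : ℕ) : Finset ℕ :=
  (Finset.range (2 ^ m)).filter (fun i => Disjoint (Icc (Img_g L m i) (Img_g L m (i + 1))) K)

lemma Img_mem_F {L : ℝ} {K : Set ℝ} {m i : ℕ} : i ∈ Img_F L K m ↔
    i < 2 ^ m ∧ Disjoint (Icc (Img_g L m i) (Img_g L m (i + 1))) K := by
  classical
  unfold Img_F
  rw [Finset.mem_filter, Finset.mem_range]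

/-- The union of the grid intervals disjoint from `K`. -/
noncomputable def Img_D (L : ℝ) (K : Set ℝ) (m : ℕ) : Set ℝ :=
  ⋃ i ∈ Img_F L K m, Icc (Img_g L m i) (Img_g L m (i + 1))

lemma Img_D_mono {L : ℝ} (hL : 0 ≤ L) (K : Set ℝ) : Monotone (Img_D L K) := by
  refine monotone_nat_of_le_succ (fun m t ht => ?_)
  unfold Img_D at ht ⊢
  simp only [mem_iUnion] at ht ⊢
  obtain ⟨i, hi, ht⟩ := ht
  obtain ⟨hi1, hi2⟩ := Img_mem_F.mp hi
  have e1 : Img_g L (m + 1) (2 * i) = Img_g L m i := Img_g_succ L m i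
  have e2 : Img_g L (m + 1) (2 * i + 1 + 1) = Img_g L m (i + 1) := by
    rw [show 2 * i + 1 + 1 = 2 * (i + 1) by ring]
    exact Img_g_succ L m (i + 1)
  have g1 := Img_g_mono hL (m + 1) (Nat.le_succ (2 * i))
  have g2 := Img_g_mono hL (m + 1) (Nat.le_succ (2 * i + 1))
  have hp : 2 ^ (m + 1) = 2 * 2 ^ m := by ring
  by_cases h : t ≤ Img_g L (m + 1) (2 * i + 1)
  · refine ⟨2 * i, Img_mem_F.mpr ⟨by omega, hi2.mono_left ?_⟩, ?_⟩
    · exact Icc_subset_Icc e1.ge (g2.trans e2.le)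
    · exact ⟨e1.le.trans ht.1, h⟩
  · refine ⟨2 * i + 1, Img_mem_F.mpr ⟨by omega, hi2.mono_left ?_⟩, ?_⟩
    · exact Icc_subset_Icc (e1.ge.trans g1) e2.le
    · exact ⟨(not_le.mp h).le, ht.2.trans e2.ge⟩

lemma Img_D_cover {L : ℝ} (hL : 0 < L) {K : Set ℝ} (hK : IsClosed K) {t : ℝ} (h0 : 0 ≤ t)
    (h1 : t < L) (htK : t ∉ K) : ∃ m, t ∈ Img_D L K m := by
  obtain ⟨r, hr, hball⟩ := Metric.isOpen_iff.mp hK.isOpen_compl t htK
  obtain ⟨m, hm⟩ := exists_nat_gt (L / r)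
  have hm2 : L / 2 ^ m < r := by
    have h2 : (m : ℝ) < 2 ^ m := by exact_mod_cast Nat.lt_two_pow_self
    rw [div_lt_iff₀ (by positivity)]
    rw [div_lt_iff₀ hr] at hm
    nlinarith
  have hpos : (0 : ℝ) < 2 ^ m := by positivity
  have hq : 0 ≤ t * 2 ^ m / L := by positivity
  have hfl := Nat.floor_le hq
  have hlt := Nat.lt_floor_add_one (t * 2 ^ m / L)
  rw [le_div_iff₀ hL] at hfl
  rw [div_lt_iff₀ hL] at hlt
  have a1 : Img_g L m ⌊t * 2 ^ m / L⌋₊ ≤ t := by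
    unfold Img_g
    rw [div_le_iff₀ hpos]
    linarith
  have a2 : t < Img_g L m (⌊t * 2 ^ m / L⌋₊ + 1) := by
    unfold Img_g
    rw [lt_div_iff₀ hpos]
    push_cast
    linarith
  have a3 : Img_g L m (⌊t * 2 ^ m / L⌋₊ + 1) = Img_g L m ⌊t * 2 ^ m / L⌋₊ + L / 2 ^ m := by
    unfold Img_g
    push_cast
    ring
  refine ⟨m, ?_⟩
  unfold Img_D
  simp only [mem_iUnion]
  refine ⟨⌊t * 2 ^ m / L⌋₊, Img_mem_F.mpr ⟨?_, ?_⟩, ⟨a1, a2.le⟩⟩
  · have : (⌊t * 2 ^ m / L⌋₊ : ℝ) < 2 ^ m := by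
      have : (⌊t * 2 ^ m / L⌋₊ : ℝ) * L < 2 ^ m * L := by nlinarith
      exact lt_of_mul_lt_mul_right this hL.le
    exact_mod_cast this
  · rw [Set.disjoint_left]
    intro s hs hsK
    refine hball ?_ hsK
    rw [Metric.mem_ball, Real.dist_eq, abs_lt]
    have := hs.1
    have := hs.2
    constructor <;> linarith

/-- A countable image contributes nothing. -/
theorem thmImg : StmtImg := by
  intro L f K k hL hf hK hk hc h
  rcases hL.eq_or_lt with rfl | hL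
  · simp
  have hmeas : MeasurableSet (Icc 0 L \ K) := measurableSet_Icc.diff hK.measurableSet
  have hD : ∀ m, volume (f '' Img_D L K m) ≤ ∫⁻ t in Icc 0 L \ K, k t := by
    intro m
    have hb : ∀ i ∈ Img_F L K m, 0 ≤ Img_g L m i ∧ Img_g L m (i + 1) ≤ L := by
      intro i hi
      obtain ⟨hi1, hi2⟩ := Img_mem_F.mp hi
      refine ⟨?_, ?_⟩
      · rw [← Img_g_zero L m]
        exact Img_g_mono hL.le m (Nat.zero_le _)
      · conv_rhs => rw [← Img_g_last L m]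
        exact Img_g_mono hL.le m (by omega)
    unfold Img_D
    rw [image_iUnion₂]
    refine (measure_biUnion_finset_le _ _).trans ?_
    have h1 : ∀ i ∈ Img_F L K m, volume (f '' Icc (Img_g L m i) (Img_g L m (i + 1))) ≤
        ∫⁻ t in Ico (Img_g L m i) (Img_g L m (i + 1)), k t := by
      intro i hi
      obtain ⟨hi1, hi2⟩ := Img_mem_F.mp hi
      refine Img_piece (fun x y hx hxy hy => ?_)
      refine h x y ((hb i hi).1.trans hx) hxy (hy.trans (hb i hi).2) ?_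
      exact hi2.mono_left (Icc_subset_Icc hx hy)
    refine (Finset.sum_le_sum h1).trans ?_
    rw [← lintegral_biUnion_finset]
    · refine lintegral_mono_set ?_
      intro t ht
      simp only [mem_iUnion] at ht
      obtain ⟨i, hi, ht⟩ := ht
      obtain ⟨hi1, hi2⟩ := Img_mem_F.mp hi
      refine ⟨⟨(hb i hi).1.trans ht.1, ht.2.le.trans (hb i hi).2⟩, ?_⟩
      exact Set.disjoint_left.mp hi2 ⟨ht.1, ht.2.le⟩
    · intro i _ j _ hij
      rcases lt_or_gt_of_ne hij with hlt | hlt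
      · refine Set.disjoint_left.mpr (fun t ht ht' => ?_)
        have := Img_g_mono hL.le m (show i + 1 ≤ j from hlt)
        linarith [ht.2, ht'.1]
      · refine Set.disjoint_left.mpr (fun t ht ht' => ?_)
        have := Img_g_mono hL.le m (show j + 1 ≤ i from hlt)
        linarith [ht.1, ht'.2]
    · intro i _
      exact measurableSet_Ico
  have hU : volume (⋃ m, f '' Img_D L K m) ≤ ∫⁻ t in Icc 0 L \ K, k t := by
    rw [(show Monotone (fun m => f '' Img_D L K m) from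
      fun a b hab => image_mono (Img_D_mono hL.le K hab)).measure_iUnion]
    exact iSup_le hD
  have hsub : f '' Icc 0 L ⊆ (f '' (K ∩ Icc 0 L) ∪ {f L}) ∪ ⋃ m, f '' Img_D L K m := by
    rintro _ ⟨t, ht, rfl⟩
    by_cases htK : t ∈ K
    · exact Or.inl (Or.inl ⟨t, ⟨htK, ht⟩, rfl⟩)
    rcases ht.2.eq_or_lt with heq | hlt
    · exact Or.inl (Or.inr (by rw [heq]; exact mem_singleton _))
    · obtain ⟨m, hm⟩ := Img_D_cover hL hK ht.1 hlt htK
      exact Or.inr (mem_iUnion.mpr ⟨m, ⟨t, hm, rfl⟩⟩)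
  have hz : volume (f '' (K ∩ Icc 0 L) ∪ {f L}) = 0 :=
    (hc.union (countable_singleton _)).measure_zero _
  have hv : ENNReal.ofReal |f L - f 0| ≤ volume (f '' Icc 0 L) := by
    have h1 : uIcc (f 0) (f L) ⊆ f '' uIcc 0 L := intermediate_value_uIcc hf.continuousOn
    rw [uIcc_of_le hL.le] at h1
    refine le_trans (le_of_eq ?_) (measure_mono h1)
    rw [Real.volume_interval]
  calc ENNReal.ofReal |f L - f 0| ≤ volume (f '' Icc 0 L) := hv
    _ ≤ volume ((f '' (K ∩ Icc 0 L) ∪ {f L}) ∪ ⋃ m, f '' Img_D L K m) := measure_mono hsub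
    _ ≤ volume (f '' (K ∩ Icc 0 L) ∪ {f L}) + volume (⋃ m, f '' Img_D L K m) := measure_union_le _ _
    _ ≤ ∫⁻ t in Icc 0 L \ K, k t := by
      rw [hz, zero_add]
      exact hU

end CNEDRem
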