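import Pool.Agent.Work.MP_bb0df9_an.Basic

/-!
# MP_bb0df9_an : the initial weight
-/

open MeasureTheory Set Filter Topology
open scoped ENNReal NNReal ContDiff

namespace CNEDRem

variable {n : ℕ}

theorem Init_lpn_mono_set {U V' : Set (V n)} (h : U ⊆ V') (g : V n → ℝ≥0∞) :
    lpn U g ≤ lpn V' g := by
  unfold lpn
  exact ENNReal.rpow_le_rpow (lintegral_mono_set h) (by positivity)

theorem Init_lpn_congr {U : Set (V n)} (hU : MeasurableSet U) {g g' : V n → ℝ≥0∞}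
    (h : ∀ x ∈ U, g x = g' x) : lpn U g = lpn U g' := by
  unfold lpn
  congr 1
  exact setLIntegral_congr_fun hU fun x hx => by rw [h x hx]

theorem Init_kappa (N : ℝ≥0∞) (hN : N ≠ ⊤) (ε : ℝ) (h0 : 0 < ε) (h1 : ε < 1) :
    ∃ κ : ℝ, 0 < κ ∧ κ < 1 ∧ ENNReal.ofReal (1 - κ)⁻¹ * N ≤ N + ENNReal.ofReal (ε / 4) ∧
      (1 - ε) * (1 + κ) ≤ 1 := by
  lift N to ℝ≥0 using hN
  set M : ℝ := (N : ℝ) with hM
  have hM0 : 0 ≤ M := N.2
  have hp : 0 < M + 1 + ε / 4 := by positivity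
  refine ⟨(ε / 4) / (M + 1 + ε / 4), by positivity, ?_, ?_, ?_⟩
  · rw [div_lt_one hp]
    linarith
  · have e1 : 1 - (ε / 4) / (M + 1 + ε / 4) = (M + 1) / (M + 1 + ε / 4) := by
      field_simp
      ring
    rw [e1, inv_div]
    have e2 : (N : ℝ≥0∞) = ENNReal.ofReal M := by
      rw [hM, ENNReal.ofReal_coe_nnreal]
    rw [e2, ← ENNReal.ofReal_mul (by positivity), ← ENNReal.ofReal_add hM0 (by positivity)]
    apply ENNReal.ofReal_le_ofReal
    rw [div_mul_eq_mul_div, div_le_iff₀ (by positivity)]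
    nlinarith
  · have h2 : (ε / 4) / (M + 1 + ε / 4) ≤ ε := by
      rw [div_le_iff₀ hp]
      nlinarith
    nlinarith

theorem Init_delta {U : Set (V n)} (hn : 1 ≤ n) (hU : volume U ≠ ⊤) (ε : ℝ) (h0 : 0 < ε) :
    ∃ δ : ℝ≥0∞, δ ≠ 0 ∧ δ ≠ ⊤ ∧ lpn U (fun _ => δ) ≤ ENNReal.ofReal ε := by
  have hn' : (n : ℝ) ≠ 0 := by positivity
  set W : ℝ≥0∞ := volume U ^ (1 / (n : ℝ)) with hW
  have hWt : W ≠ ⊤ := by
    rw [hW]
    exact ENNReal.rpow_ne_top_of_nonneg (by positivity) hU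
  refine ⟨ENNReal.ofReal (ε / (W.toReal + 1)), ?_, ENNReal.ofReal_ne_top, ?_⟩
  · have : 0 < ε / (W.toReal + 1) := by positivity
    simpa using this
  · unfold lpn
    rw [setLIntegral_const, ENNReal.mul_rpow_of_nonneg _ _ (by positivity), ← ENNReal.rpow_mul,
      mul_one_div_cancel hn', ENNReal.rpow_one, ← hW, ← ENNReal.ofReal_toReal hWt,
      ← ENNReal.ofReal_mul (by positivity)]
    apply ENNReal.ofReal_le_ofReal
    rw [ENNReal.toReal_ofReal ENNReal.toReal_nonneg, div_mul_eq_mul_div,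
      div_le_iff₀ (by positivity)]
    nlinarith [ENNReal.toReal_nonneg (a := W)]

/-- The averaging step. -/
theorem Init_avg {Z : Set (V n)} {κ : ℝ} {ρ : V n → ℝ≥0∞} (hρ : Measurable ρ)
    {γ : ℝ → V n} (hγ : Continuous γ) (L : ℝ) (Λ : ℝ≥0∞)
    (h : ∀ z ∈ Metric.closedBall (0 : V n) 1, 1 ≤ Λ * ∫⁻ t in Icc 0 L, ρ (tz Z κ z (γ t))) :
    1 ≤ Λ * ∫⁻ t in Icc 0 L, sg Z κ ρ (γ t) := by
  set B : Set (V n) := Metric.closedBall (0 : V n) 1 with hB
  have hv0 : volume B ≠ 0 := by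
    have : 0 < volume B := Metric.measure_closedBall_pos _ _ one_pos
    exact this.ne'
  have hvt : volume B ≠ ⊤ := measure_closedBall_lt_top.ne
  have hcont : Continuous fun p : V n × ℝ => tz Z κ p.1 (γ p.2) := by
    unfold tz
    have : Continuous fun x : V n => Metric.infDist x Z := Metric.continuous_infDist_pt Z
    fun_prop
  have hmeas : Measurable fun p : V n × ℝ => ρ (tz Z κ p.1 (γ p.2)) := hρ.comp hcont.measurable
  have h1 : volume B ≤ ∫⁻ z in B, Λ * ∫⁻ t in Icc 0 L, ρ (tz Z κ z (γ t)) := by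
    calc volume B = ∫⁻ _ in B, 1 := by rw [setLIntegral_one]
      _ ≤ _ := setLIntegral_mono' Metric.isClosed_closedBall.measurableSet h
  have hm1 : Measurable fun z : V n => ∫⁻ t in Icc 0 L, ρ (tz Z κ z (γ t)) :=
    hmeas.lintegral_prod_right'
  rw [lintegral_const_mul _ hm1] at h1
  rw [lintegral_lintegral_swap hmeas.aemeasurable] at h1
  have hm2 : Measurable fun t : ℝ => ∫⁻ z in B, ρ (tz Z κ z (γ t)) := by
    have : Measurable fun p : ℝ × V n => ρ (tz Z κ p.2 (γ p.1)) := hmeas.comp measurable_swap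
    exact this.lintegral_prod_right'
  have h2 : ∫⁻ t in Icc 0 L, sg Z κ ρ (γ t) =
      (volume B)⁻¹ * ∫⁻ t in Icc 0 L, ∫⁻ z in B, ρ (tz Z κ z (γ t)) := by
    unfold sg
    rw [← hB, lintegral_const_mul _ hm2]
  rw [h2, ← mul_assoc, mul_comm Λ, mul_assoc]
  calc (1 : ℝ≥0∞) = (volume B)⁻¹ * volume B := (ENNReal.inv_mul_cancel hv0 hvt).symm
    _ ≤ _ := mul_le_mul_right h1 _

/-- Curves ending in the second set. -/
theorem Init_cross (hArc : StmtArc) (hTz : StmtTz) {E F₁ F₂ Z : Set (V n)} {κ : ℝ}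
    {ρ : V n → ℝ≥0∞} (hρ : Admissible (joining F₁ F₂ ∩ Fsigma E) ρ) (hZ : IsClosed Z)
    (hE : E ⊆ Z) (hF₁ : F₁ ⊆ Z) (hF₂ : F₂ ⊆ Z) (hκ : 0 < κ) (hκ1 : κ < 1) {a b : V n}
    (ha : a ∈ F₁) (hb : b ∈ F₂) {L : ℝ} {γ : ℝ → V n} (h : IsP Zᶜ a b L γ) :
    1 ≤ (Real.toNNReal (1 + κ) : ℝ≥0∞) * ∫⁻ t in Icc 0 L, sg Z κ ρ (γ t) := by
  refine Init_avg hρ.1 h.lip.continuous L _ fun z hz => ?_
  have hz' : ‖z‖ ≤ 1 := by simpa using hz
  obtain ⟨hl, -, hfix, hout⟩ := hTz n Z κ hZ ⟨a, hF₁ ha⟩ hκ hκ1 z hz'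
  have hlip : LipschitzWith (Real.toNNReal (1 + κ)) (fun t => tz Z κ z (γ t)) := by
    have := hl.comp h.lip
    rw [mul_one] at this
    exact this
  refine le_trans ?_ (hArc n ρ hρ.1 L _ _ h.nonneg hlip)
  refine hρ.2 _ ⟨⟨?_, ?_, ?_⟩, ?_⟩
  · have hc := hlip.continuous
    exact (hc.comp (by fun_prop : Continuous fun t : ℝ => L * t)).continuousOn
  · simp only [mul_zero]
    rw [h.left, hfix a (hF₁ ha)]
    exact ha
  · simp only [mul_one]
    rw [h.right, hfix b (hF₂ hb)]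
    exact hb
  · refine h.countable.mono ?_
    rintro _ ⟨hy, ⟨t, ht, rfl⟩⟩
    simp only at hy ⊢
    have hin : γ (L * t) ∈ Z := by
      by_contra hc
      exact hout _ hc (hE hy)
    rw [hfix _ hin]
    refine ⟨⟨L * t, ⟨mul_nonneg h.nonneg ht.1, ?_⟩, rfl⟩, by simpa using hin⟩
    have := mul_le_mul_of_nonneg_left ht.2 h.nonneg
    simpa using this

theorem thmInit (hArc : StmtArc) (hTz : StmtTz) (hSg : StmtSg) (hCut : StmtCutoff) :
    StmtInit := by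
  classical
  intro n hn E F₁ F₂ hE hF₁ hF₂ hn₁ hn₂ hdis ρ hρ hfin ε h0 h1
  obtain ⟨κ, hκ0, hκ1, hκN, hκε⟩ := Init_kappa _ hfin ε h0 h1
  obtain ⟨R₀, hR₀, hR⟩ : ∃ R₀ : ℝ, 0 < R₀ ∧ F₁ ∪ F₂ ⊆ Metric.closedBall 0 R₀ := by
    obtain ⟨R, hR⟩ := ((hF₁.union hF₂).isBounded).subset_closedBall (0 : V n)
    exact ⟨max R 1, lt_max_of_lt_right one_pos,
      hR.trans (Metric.closedBall_subset_closedBall (le_max_left _ _))⟩
  obtain ⟨R₁, hR₁, χ, hχc, hχt, hχn, hχ⟩ := hCut n hn R₀ (ENNReal.ofReal (ε / 4)) hR₀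
    (by simpa using by positivity)
  have hnorm : ∀ x ∈ F₁ ∪ F₂, ‖x‖ ≤ R₀ := fun x hx => by simpa using hR hx
  have hball : ∀ x ∈ F₁ ∪ F₂, x ∈ Metric.ball (0 : V n) R₁ := fun x hx => by
    simpa using (hnorm x hx).trans_lt hR₁
  refine ⟨R₁, hR₀.trans hR₁, fun x hx => hball x (Or.inl hx), fun x hx => hball x (Or.inr hx), ?_⟩
  set Z : Set (V n) := E ∪ F₁ ∪ F₂ ∪ (Metric.ball 0 R₁)ᶜ with hZdef
  have hZ : IsClosed Z := ((hE.union hF₁.isClosed).union hF₂.isClosed).union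
    Metric.isOpen_ball.isClosed_compl
  have hEZ : E ⊆ Z := fun x hx => Or.inl (Or.inl (Or.inl hx))
  have hF₁Z : F₁ ⊆ Z := fun x hx => Or.inl (Or.inl (Or.inr hx))
  have hF₂Z : F₂ ⊆ Z := fun x hx => Or.inl (Or.inr hx)
  have hZne : Z.Nonempty := hn₁.mono hF₁Z
  have hU : MeasurableSet Zᶜ := hZ.measurableSet.compl
  have hUb : Zᶜ ⊆ Metric.ball (0 : V n) R₁ := by
    intro x hx
    by_contra hc
    exact hx (Or.inr hc)
  have hvol : volume Zᶜ ≠ ⊤ := ((measure_mono hUb).trans_lt measure_ball_lt_top).ne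
  have hρZ : lpn Zᶜ ρ ≤ lpn univ ρ := Init_lpn_mono_set (subset_univ _) ρ
  obtain ⟨hσm, hσt, hσc, hσn⟩ := hSg n (by omega) Z κ hZ hZne hκ0 hκ1 ρ hρ.1
    (ne_top_of_le_ne_top hfin hρZ)
  obtain ⟨δ, hδ0, hδt, hδn⟩ := Init_delta (n := n) (by omega) hvol (ε / 4) (by positivity)
  set s : V n → ℝ≥0∞ := fun x => sg Z κ ρ x + χ x + δ with hs
  set w : V n → ℝ≥0∞ := fun x => if x ∈ Z then ⊤ else s x with hw
  have hsm : Measurable s := (hσm.add hχc.measurable).add_const δ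
  have hws : ∀ x, s x ≤ w x := by
    intro x
    simp only [hw]
    split_ifs
    · exact le_top
    · exact le_rfl
  have hwU : ∀ x ∈ Zᶜ, w x = s x := by
    intro x hx
    simp only [hw]
    rw [if_neg hx]
  refine ⟨w, δ, hδ0, ⟨?_, ?_, ?_, ?_, ?_⟩, ?_, ?_⟩
  · exact Measurable.ite hZ.measurableSet measurable_const hsm
  · exact fun x => le_trans (by simp only [hs]; exact le_add_self) (hws x)
  · intro x hx
    simp only [hw]
    rw [if_pos (by simpa using hx)]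
  · intro x hx
    rw [hwU x hx]
    simp only [hs]
    exact ENNReal.add_ne_top.mpr ⟨ENNReal.add_ne_top.mpr ⟨hσt x hx, hχt x⟩, hδt⟩
  · refine ContinuousOn.congr ?_ hwU
    exact (hσc.add hχc.continuousOn).add continuousOn_const
  · rw [Init_lpn_congr hU hwU]
    have a1 : lpn Zᶜ s ≤ lpn Zᶜ (fun x => sg Z κ ρ x + χ x) + lpn Zᶜ (fun _ => δ) :=
      thmLpnAdd n (by omega) Zᶜ _ _ (hσm.add hχc.measurable) measurable_const
    have a2 : lpn Zᶜ (fun x => sg Z κ ρ x + χ x) ≤ lpn Zᶜ (sg Z κ ρ) + lpn Zᶜ χ :=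
      thmLpnAdd n (by omega) Zᶜ _ _ hσm hχc.measurable
    have a3 : lpn Zᶜ (sg Z κ ρ) ≤ lpn univ ρ + ENNReal.ofReal (ε / 4) :=
      hσn.trans ((mul_le_mul_right hρZ _).trans hκN)
    have a4 : lpn Zᶜ χ ≤ ENNReal.ofReal (ε / 4) := (Init_lpn_mono_set hUb χ).trans hχn
    have a5 : ENNReal.ofReal (ε / 4) + ENNReal.ofReal (ε / 4) + ENNReal.ofReal (ε / 4) ≤
        ENNReal.ofReal ε := by
      rw [← ENNReal.ofReal_add (by positivity) (by positivity),
        ← ENNReal.ofReal_add (by positivity) (by positivity)]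
      exact ENNReal.ofReal_le_ofReal (by linarith)
    calc lpn Zᶜ s ≤ (lpn univ ρ + ENNReal.ofReal (ε / 4)) + ENNReal.ofReal (ε / 4) +
          ENNReal.ofReal (ε / 4) := a1.trans (add_le_add (a2.trans (add_le_add a3 a4)) hδn)
      _ = lpn univ ρ + (ENNReal.ofReal (ε / 4) + ENNReal.ofReal (ε / 4) +
          ENNReal.ofReal (ε / 4)) := by ring
      _ ≤ _ := add_le_add_right a5 _
  · refine le_sd fun a ha b hb => le_iInf fun L => le_iInf fun γ => le_iInf fun h => ?_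
    rcases hb with hb | hb
    · have c1 := Init_cross hArc hTz hρ hZ hEZ hF₁Z hF₂Z hκ0 hκ1 ha hb h
      have c2 : ∫⁻ t in Icc 0 L, sg Z κ ρ (γ t) ≤ cost w L γ := by
        refine lintegral_mono fun t => le_trans ?_ (hws (γ t))
        simp only [hs]
        rw [add_assoc]
        exact le_self_add
      have c3 : ENNReal.ofReal (1 - ε) * (Real.toNNReal (1 + κ) : ℝ≥0∞) ≤ 1 := by
        have : (Real.toNNReal (1 + κ) : ℝ≥0∞) = ENNReal.ofReal (1 + κ) := rfl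
        rw [this, ← ENNReal.ofReal_mul (by linarith)]
        exact ENNReal.ofReal_le_one.mpr hκε
      calc ENNReal.ofReal (1 - ε) = ENNReal.ofReal (1 - ε) * 1 := (mul_one _).symm
        _ ≤ ENNReal.ofReal (1 - ε) * ((Real.toNNReal (1 + κ) : ℝ≥0∞) *
            ∫⁻ t in Icc 0 L, sg Z κ ρ (γ t)) := mul_le_mul_right c1 _
        _ = (ENNReal.ofReal (1 - ε) * (Real.toNNReal (1 + κ) : ℝ≥0∞)) *
            ∫⁻ t in Icc 0 L, sg Z κ ρ (γ t) := (mul_assoc _ _ _).symm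
        _ ≤ 1 * cost w L γ := mul_le_mul' c3 c2
        _ = cost w L γ := one_mul _
    · have hb' : R₁ ≤ ‖b‖ := by simpa using hb
      have c1 := hχ L γ h.nonneg h.lip (by rw [h.left]; exact hnorm a (Or.inl ha))
        (by rw [h.right]; exact hb')
      have c2 : ∫⁻ t in Icc 0 L, χ (γ t) ≤ cost w L γ := by
        refine lintegral_mono fun t => le_trans ?_ (hws (γ t))
        simp only [hs]
        exact le_add_self.trans le_self_add
      refine le_trans ?_ (c1.trans c2)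
      exact ENNReal.ofReal_le_one.mpr (by linarith)

end CNEDRem
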