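import Pool.Agent.Work.MP_bb0df9_an.Basic

/-!
# MP_bb0df9_an : the Urysohn function as a uniform limit
-/

open MeasureTheory Set Filter Topology
open scoped ENNReal NNReal ContDiff

namespace CNEDRem

variable {n : ℕ} {U : Set (V n)} {w : V n → ℝ≥0∞} {A B : Set (V n)}

section chain

variable {N : ℕ} {t : ℝ≥0∞} {O : ℕ → Set (V n)}

theorem Lim_step (h : IsChainO U w A B N t O) {j : ℕ} (hj : j < N) :
    A ∪ closure (O j) ⊆ O (j + 1) := by
  intro x hx
  by_contra hxn
  obtain ⟨r, hr, hgap⟩ := h.gap j hj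
  have := hgap x hx x hxn
  rw [dist_self] at this
  linarith

theorem Lim_mono (h : IsChainO U w A B N t O) {i j : ℕ} (hij : i ≤ j) (hj : j ≤ N) :
    O i ⊆ O j := by
  induction j, hij using Nat.le_induction with
  | base => exact le_rfl
  | succ j hij ih =>
    exact (ih (by omega)).trans ((subset_closure.trans subset_union_right).trans
      (Lim_step h (by omega)))

open Classical in
/-- The level of a point. -/
noncomputable def Lim_v (O : ℕ → Set (V n)) (N : ℕ) (x : V n) : ℕ :=
  Nat.findGreatest (fun j => x ∉ O j) N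

theorem Lim_v_le (x : V n) : Lim_v O N x ≤ N := by
  classical
  exact Nat.findGreatest_le N

theorem Lim_v_iff (h : IsChainO U w A B N t O) (x : V n) {j : ℕ} (hj : j ≤ N) :
    x ∉ O j ↔ j ≤ Lim_v O N x := by
  classical
  constructor
  · intro hx
    exact Nat.le_findGreatest hj hx
  · intro hle hx
    have h0 : x ∉ O 0 := by rw [h.zero]; exact notMem_empty x
    have h1 : x ∉ O (Lim_v O N x) :=
      Nat.findGreatest_spec (P := fun j => x ∉ O j) (Nat.zero_le N) h0
    exact h1 (Lim_mono h hle (Lim_v_le x) hx)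

theorem Lim_v_A (h : IsChainO U w A B N t O) {x : V n} (hx : x ∈ A) : Lim_v O N x = 0 := by
  by_contra hne
  have h1 : 1 ≤ Lim_v O N x := Nat.one_le_iff_ne_zero.2 hne
  have h2 : 1 ≤ N := h1.trans (Lim_v_le x)
  have h3 : x ∉ O 1 := (Lim_v_iff h x h2).2 h1
  exact h3 (Lim_step h (by omega) (Or.inl hx))

theorem Lim_v_B (h : IsChainO U w A B N t O) {x : V n} (hx : x ∈ B) : Lim_v O N x = N := by
  apply le_antisymm (Lim_v_le x)
  rw [← Lim_v_iff h x le_rfl, h.last]
  exact fun hc => hc hx

theorem Lim_gap (h : IsChainO U w A B N t O) :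
    ∃ r : ℝ, 0 < r ∧ ∀ x y : V n, dist x y < r → Lim_v O N y ≤ Lim_v O N x + 1 := by
  have hr : ∀ j : ℕ, ∃ r : ℝ, 0 < r ∧ (j < N → ∀ a ∈ A ∪ closure (O j), ∀ b, b ∉ O (j + 1) →
      r ≤ dist a b) := by
    intro j
    by_cases hj : j < N
    · obtain ⟨r, hr, hg⟩ := h.gap j hj
      exact ⟨r, hr, fun _ => hg⟩
    · exact ⟨1, one_pos, fun hc => absurd hc hj⟩
  choose r hr hg using hr
  obtain ⟨s, hs, hsr⟩ : ∃ s : ℝ, 0 < s ∧ ∀ j < N, s ≤ r j := by
    have : ∀ M : ℕ, ∃ s : ℝ, 0 < s ∧ ∀ j < M, s ≤ r j := by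
      intro M
      induction M with
      | zero => exact ⟨1, one_pos, fun j hj => absurd hj (Nat.not_lt_zero j)⟩
      | succ M ih =>
        obtain ⟨s, hs, h1⟩ := ih
        refine ⟨min s (r M), lt_min hs (hr M), fun j hj => ?_⟩
        rcases Nat.lt_succ_iff_lt_or_eq.1 hj with h2 | h2
        · exact (min_le_left _ _).trans (h1 j h2)
        · rw [h2]; exact min_le_right _ _
    exact this N
  refine ⟨s, hs, fun x y hxy => ?_⟩
  by_contra hc
  rw [not_le] at hc
  set j := Lim_v O N x + 1 with hj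
  have hyN : Lim_v O N y ≤ N := Lim_v_le y
  have hjN : j < N := by omega
  have hx : x ∈ O j := by
    by_contra hx
    have := (Lim_v_iff h x hjN.le).1 hx
    omega
  have hy : y ∉ O (j + 1) := (Lim_v_iff h y (by omega)).2 (by omega)
  have h1 := hg j hjN x (Or.inr (subset_closure hx)) y hy
  have h2 := hsr j hjN
  linarith

end chain

theorem thmLim (hCross : StmtCross) : StmtLim := by
  intro n U w A B D' O hD' hch href
  set v : ℕ → V n → ℕ := fun k x => Lim_v (O k) (2 ^ k) x with hv
  have hvle : ∀ k x, v k x ≤ 2 ^ k := fun k x => Lim_v_le x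
  have hviff : ∀ k x j, j ≤ 2 ^ k → (x ∉ O k j ↔ j ≤ v k x) := fun k x j hj =>
    Lim_v_iff (hch k) x hj
  have hlow : ∀ k x, 2 * v k x ≤ v (k + 1) x := by
    intro k x
    rw [← hviff (k + 1) x _ (by rw [pow_succ]; have := hvle k x; omega), href k _ (hvle k x),
      hviff k x _ (hvle k x)]
  have hup : ∀ k x, v (k + 1) x ≤ 2 * v k x + 1 := by
    intro k x
    by_contra hc
    rw [not_le] at hc
    have h1 : v (k + 1) x ≤ 2 * 2 ^ k := by have := hvle (k + 1) x; rw [pow_succ] at this; omega
    have h2 : v k x + 1 ≤ 2 ^ k := by omega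
    have h3 : x ∉ O (k + 1) (2 * (v k x + 1)) :=
      (hviff (k + 1) x _ (by rw [pow_succ]; omega)).2 (by omega)
    rw [href k _ h2, hviff k x _ h2] at h3
    omega
  set a : ℕ → V n → ℝ := fun k x => (v k x : ℝ) / 2 ^ k with ha
  have hpow : ∀ k : ℕ, (0 : ℝ) < 2 ^ k := fun k => by positivity
  have ha0 : ∀ k x, 0 ≤ a k x := fun k x => by positivity
  have ha1 : ∀ k x, a k x ≤ 1 := by
    intro k x
    rw [ha]
    simp only
    rw [div_le_one (hpow k)]
    exact_mod_cast hvle k x
  have hamono : ∀ k x, a k x ≤ a (k + 1) x := by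
    intro k x
    simp only [ha]
    rw [div_le_div_iff₀ (hpow k) (hpow (k + 1)), pow_succ]
    have : (2 * v k x : ℝ) ≤ v (k + 1) x := by exact_mod_cast hlow k x
    nlinarith [hpow k]
  have hastep : ∀ k x, a (k + 1) x ≤ a k x + (1 / 2 ^ k - 1 / 2 ^ (k + 1)) := by
    intro k x
    simp only [ha]
    have h1 : (v (k + 1) x : ℝ) ≤ 2 * v k x + 1 := by exact_mod_cast hup k x
    have h2 : (v k x : ℝ) / 2 ^ k + (1 / 2 ^ k - 1 / 2 ^ (k + 1)) =
        (2 * v k x + 1) / 2 ^ (k + 1) := by
      rw [pow_succ]; field_simp; ring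
    rw [h2]
    exact div_le_div_of_nonneg_right h1 (hpow _).le
  have hmono : ∀ x, Monotone (fun k => a k x) := fun x => monotone_nat_of_le_succ (hamono · x)
  have hfar : ∀ k m x, a m x ≤ a k x + 1 / 2 ^ k := by
    intro k m x
    rcases le_total m k with hmk | hkm
    · have h1 := hmono x hmk
      have h2 : (0 : ℝ) ≤ 1 / 2 ^ k := by positivity
      simp only at h1
      linarith
    · have h3 : a m x ≤ a k x + (1 / 2 ^ k - 1 / 2 ^ m) := by
        induction m, hkm using Nat.le_induction with
        | base => simp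
        | succ m hkm ih =>
          have := hastep m x
          linarith
      have h4 : (0 : ℝ) ≤ 1 / 2 ^ m := by positivity
      linarith
  set u : V n → ℝ := fun x => ⨆ k, a k x with hu
  have hbdd : ∀ x, BddAbove (range fun k => a k x) := fun x =>
    ⟨1, by rintro _ ⟨k, rfl⟩; exact ha1 k x⟩
  have hau : ∀ k x, a k x ≤ u x := fun k x => le_ciSup (hbdd x) k
  have hua : ∀ k x, u x ≤ a k x + 1 / 2 ^ k := fun k x => ciSup_le fun m => hfar k m x
  have hsmall : ∀ ε : ℝ, 0 < ε → ∃ k : ℕ, 1 / (2 : ℝ) ^ k < ε := by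
    intro ε hε
    obtain ⟨k, hk⟩ := exists_pow_lt_of_lt_one hε (by norm_num : (1 / 2 : ℝ) < 1)
    refine ⟨k, ?_⟩
    rwa [one_div_pow] at hk
  refine ⟨u, ?_, ?_, ?_, ?_, ?_⟩
  · -- continuity
    rw [Metric.continuous_iff]
    intro x ε hε
    obtain ⟨k, hk⟩ := hsmall (ε / 3) (by positivity)
    obtain ⟨r, hr, hgap⟩ := Lim_gap (hch k)
    refine ⟨r, hr, fun y hy => ?_⟩
    have h1 : (v k y : ℝ) ≤ v k x + 1 := by exact_mod_cast hgap x y (by rwa [dist_comm])
    have h2 : (v k x : ℝ) ≤ v k y + 1 := by exact_mod_cast hgap y x hy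
    have h3 : a k y ≤ a k x + 1 / 2 ^ k := by
      simp only [ha]
      rw [← add_div]
      exact div_le_div_of_nonneg_right h1 (hpow _).le
    have h4 : a k x ≤ a k y + 1 / 2 ^ k := by
      simp only [ha]
      rw [← add_div]
      exact div_le_div_of_nonneg_right h2 (hpow _).le
    rw [Real.dist_eq, abs_lt]
    have h5 := hau k x
    have h6 := hua k x
    have h7 := hau k y
    have h8 := hua k y
    constructor <;> linarith
  · intro x
    exact ⟨(ha0 0 x).trans (hau 0 x), ciSup_le fun k => ha1 k x⟩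
  · intro x hx
    have h0 : ∀ k, a k x = 0 := by
      intro k
      simp only [ha, hv]
      rw [Lim_v_A (hch k) hx]
      simp
    simp only [hu, h0]
    simp
  · intro x hx
    have h0 : ∀ k, a k x = 1 := by
      intro k
      simp only [ha, hv]
      rw [Lim_v_B (hch k) hx]
      push_cast
      exact div_self (hpow k).ne'
    simp only [hu, h0]
    simp
  · intro x y L γ hP
    by_cases htop : cost w L γ = ⊤
    · rw [htop]; exact le_top
    have hk : ∀ k : ℕ, ENNReal.ofReal (D' * (u y - u x)) ≤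
        cost w L γ + ENNReal.ofReal (2 * D' * (1 / 2 ^ k)) := by
      intro k
      have h1 : D' * (u y - u x) ≤ D' * (a k y - a k x) + D' * (1 / 2 ^ k) := by
        have h2 := hua k y
        have h3 := hau k x
        have h4 : D' * (u y - u x) ≤ D' * (a k y + 1 / 2 ^ k - a k x) :=
          mul_le_mul_of_nonneg_left (by linarith) hD'.le
        linarith
      rcases Nat.lt_or_ge (v k x) (v k y) with hlt | hge
      · have hxi : x ∈ O k (v k x + 1) := by
          by_contra hx
          have := (hviff k x _ (by have := hvle k y; omega)).1 hx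
          omega
        obtain ⟨q, hq⟩ : ∃ q, v k y = v k x + 1 + q := ⟨v k y - (v k x + 1), by omega⟩
        have hyq : y ∉ O k (v k x + 1 + q) := by
          rw [← hq]
          exact (hviff k y _ (hvle k y)).2 le_rfl
        have hcr := hCross n U w A B (2 ^ k) _ (O k) (hch k) x y L γ hP (v k x + 1) q
          (by rw [← hq]; exact hvle k y) (Or.inr (subset_closure hxi)) hyq
        have h5 : ENNReal.ofReal (q * (D' / 2 ^ k)) ≤ cost w L γ := by
          rw [ENNReal.ofReal_mul (Nat.cast_nonneg q), ENNReal.ofReal_natCast]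
          exact hcr
        have h6 : D' * (a k y - a k x) = q * (D' / 2 ^ k) + D' * (1 / 2 ^ k) := by
          simp only [ha]
          have h7 : (v k y : ℝ) = v k x + 1 + q := by rw [hq]; push_cast; ring
          rw [h7]
          field_simp
          ring
        calc ENNReal.ofReal (D' * (u y - u x))
            ≤ ENNReal.ofReal (q * (D' / 2 ^ k) + 2 * D' * (1 / 2 ^ k)) :=
              ENNReal.ofReal_le_ofReal (by linarith)
          _ = ENNReal.ofReal (q * (D' / 2 ^ k)) + ENNReal.ofReal (2 * D' * (1 / 2 ^ k)) :=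
              ENNReal.ofReal_add (by positivity) (by positivity)
          _ ≤ _ := by gcongr
      · have h8 : a k y ≤ a k x := by
          simp only [ha]
          apply div_le_div_of_nonneg_right _ (hpow _).le
          exact_mod_cast hge
        have h9 : D' * (a k y - a k x) ≤ 0 := by
          apply mul_nonpos_of_nonneg_of_nonpos hD'.le
          linarith
        have h10 : (0 : ℝ) ≤ D' * (1 / 2 ^ k) := by positivity
        calc ENNReal.ofReal (D' * (u y - u x)) ≤ ENNReal.ofReal (2 * D' * (1 / 2 ^ k)) :=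
              ENNReal.ofReal_le_ofReal (by linarith)
          _ ≤ _ := le_add_self
    have hlim : Tendsto (fun k : ℕ => cost w L γ + ENNReal.ofReal (2 * D' * (1 / 2 ^ k)))
        atTop (𝓝 (cost w L γ + ENNReal.ofReal (2 * D' * 0))) := by
      apply Tendsto.const_add
      apply ENNReal.tendsto_ofReal
      apply Tendsto.const_mul
      have h11 : (fun k : ℕ => 1 / (2 : ℝ) ^ k) = fun k : ℕ => (1 / 2 : ℝ) ^ k := by
        funext k; rw [one_div_pow]
      rw [h11]
      exact tendsto_pow_atTop_nhds_zero_of_lt_one (by norm_num) (by norm_num)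
    have h12 := ge_of_tendsto hlim (Eventually.of_forall hk)
    simpa using h12

end CNEDRem
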