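import Pool.Agent.Work.MP_bb0df9_an.Basic

/-!
# MP_bb0df9_an : locally Lipschitz functions have a weak gradient
-/

open MeasureTheory Set Filter Topology
open scoped ENNReal NNReal ContDiff

namespace CNEDRem

variable {n : ℕ}

theorem Loc_gradient_apply (f : V n → ℝ) (x : V n) (i : Fin n) :
    gradient f x i = fderiv ℝ f x (EuclideanSpace.single i 1) := by
  have h : inner ℝ (gradient f x) (EuclideanSpace.single i (1 : ℝ)) =
      fderiv ℝ f x (EuclideanSpace.single i 1) := by
    rw [gradient, InnerProductSpace.toDual_symm_apply]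
  rw [← h, EuclideanSpace.inner_single_right]
  simp

/-- On a compact neighbourhood a locally Lipschitz function coincides with a Lipschitz one. -/
theorem Loc_extend {Ω K : Set (V n)} {f : V n → ℝ} (hΩ : IsOpen Ω)
    (hf : ∀ x ∈ Ω, ∃ r : ℝ, 0 < r ∧ ∃ K : ℝ≥0, LipschitzOnWith K f (Metric.ball x r))
    (hK : IsCompact K) (hKΩ : K ⊆ Ω) :
    ∃ (C : ℝ≥0) (f' : V n → ℝ), LipschitzWith C f' ∧ ∃ L : Set (V n), K ⊆ interior L ∧ L ⊆ Ω ∧
      EqOn f f' L := by
  obtain ⟨L, hL, hKL, hLΩ⟩ := exists_compact_between hK hΩ hKΩ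
  have hloc : LocallyLipschitzOn L f := by
    intro x hx
    obtain ⟨r, hr, C, hC⟩ := hf x (hLΩ hx)
    exact ⟨C, Metric.ball x r, mem_nhdsWithin_of_mem_nhds (Metric.ball_mem_nhds x hr), hC⟩
  obtain ⟨C, hC⟩ := hloc.exists_lipschitzOnWith_of_compact hL
  obtain ⟨f', hf', hff'⟩ := hC.extend_real
  exact ⟨C, f', hf', L, hKL, hLΩ, hff'⟩

theorem thmLoc : StmtLoc := by
  intro n Ω f hΩ hf φ hφ hφc hφΩ i
  obtain ⟨C, f', hf', L, hKL, hLΩ, hff'⟩ := Loc_extend hΩ hf hφc hφΩ
  obtain ⟨D, hD⟩ := ContDiff.lipschitzWith_of_hasCompactSupport hφc hφ (by simp)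
  set v : V n := EuclideanSpace.single i 1 with hv
  have hφd : Differentiable ℝ φ := hφ.differentiable (by simp)
  have hkey := LipschitzWith.integral_lineDeriv_mul_eq (μ := (volume : Measure (V n))) hf' hD hφc v
  have hφ0 : ∀ x, x ∉ tsupport φ → φ x = 0 := fun x hx => image_eq_zero_of_notMem_tsupport hx
  have hdφ0 : ∀ x, x ∉ tsupport φ → fderiv ℝ φ x = 0 := fun x hx => by
    by_contra h
    exact hx (support_fderiv_subset ℝ h)
  -- left side
  have h1 : ∫ x in Ω, f x * fderiv ℝ φ x v = ∫ x, f' x * fderiv ℝ φ x v := by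
    have h2 : ∫ x in Ω, f x * fderiv ℝ φ x v = ∫ x, f x * fderiv ℝ φ x v := by
      refine setIntegral_eq_integral_of_forall_compl_eq_zero ?_
      intro x hx
      rw [hdφ0 x (fun h => hx (hφΩ h))]
      simp
    rw [h2]
    refine integral_congr_ae (Eventually.of_forall fun x => ?_)
    show f x * fderiv ℝ φ x v = f' x * fderiv ℝ φ x v
    by_cases hx : x ∈ tsupport φ
    · rw [hff' (interior_subset (hKL hx))]
    · rw [hdφ0 x hx]; simp
  -- right side
  have h3 : ∫ x in Ω, gradient f x i * φ x = ∫ x, lineDeriv ℝ f' x v * φ x := by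
    have h4 : ∫ x in Ω, gradient f x i * φ x = ∫ x, gradient f x i * φ x := by
      refine setIntegral_eq_integral_of_forall_compl_eq_zero ?_
      intro x hx
      rw [hφ0 x (fun h => hx (hφΩ h))]
      simp
    rw [h4]
    refine integral_congr_ae ?_
    filter_upwards [hf'.ae_differentiableAt] with x hxd
    by_cases hx : x ∈ tsupport φ
    · have heq : f =ᶠ[𝓝 x] f' := by
        filter_upwards [mem_interior_iff_mem_nhds.1 (hKL hx)] with y hy using hff' hy
      rw [Loc_gradient_apply, heq.fderiv_eq, hxd.lineDeriv_eq_fderiv]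
    · rw [hφ0 x hx]; simp
  rw [h1, h3, hkey]
  rw [← integral_neg]
  refine integral_congr_ae (Eventually.of_forall fun x => ?_)
  show f' x * fderiv ℝ φ x v = -(lineDeriv ℝ φ x (-v) * f' x)
  rw [(hφd x).lineDeriv_eq_fderiv, map_neg]
  ring

end CNEDRem
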