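import Pool.Agent.Work.MP_bb0df9_an.Basic

/-!
# Item MVI: mean value inequality along a curve
-/

open MeasureTheory Set Filter Topology
open scoped ENNReal NNReal ContDiff

namespace CNEDRem

theorem MVI_aux {n : ℕ} {U : Set (V n)} {v : V n → ℝ} {h : V n → ℝ≥0∞}
    (hv : Continuous v) (hh : ContinuousOn h U) (hfin : ∀ x ∈ U, h x ≠ ⊤)
    (hloc : ∀ x ∈ U, ∀ M : ℝ≥0∞, h x < M →
      ∀ᶠ y in 𝓝 x, ENNReal.ofReal |v y - v x| ≤ M * ENNReal.ofReal (dist y x))
    {a b : ℝ} {γ : ℝ → V n} (hab : a ≤ b) (hγ : LipschitzWith 1 γ)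
    (hU : ∀ t ∈ Icc a b, γ t ∈ U) {σ : ℝ} (hσ : |σ| = 1) :
    σ * (v (γ b) - v (γ a)) ≤ (∫⁻ t in Icc a b, h (γ t)).toReal ∧
      (∫⁻ t in Icc a b, h (γ t)) ≠ ⊤ := by
  have hγc : Continuous γ := hγ.continuous
  have hHc : ContinuousOn (fun t => (h (γ t)).toReal) (Icc a b) := by
    have h1 : ContinuousOn (fun t => h (γ t)) (Icc a b) :=
      hh.comp hγc.continuousOn (fun t ht => hU t ht)
    refine ENNReal.continuousOn_toReal.comp h1 (fun t ht => ?_)
    exact hfin _ (hU t ht)
  set H : ℝ → ℝ := IccExtend hab (fun t : Icc a b => (h (γ t)).toReal) with hH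
  have hHcont : Continuous H := by
    apply Continuous.Icc_extend'
    exact hHc.domRestrict
  have hHe : ∀ t ∈ Icc a b, H t = (h (γ t)).toReal := fun t ht => by
    rw [hH, IccExtend_of_mem hab _ ht]
  have hHnn : ∀ t ∈ Icc a b, 0 ≤ H t := fun t ht => by
    rw [hHe t ht]
    exact ENNReal.toReal_nonneg
  have hlin : ∫⁻ t in Icc a b, h (γ t) = ENNReal.ofReal (∫ t in a..b, H t) := by
    rw [intervalIntegral.integral_of_le hab, ← integral_Icc_eq_integral_Ioc,
      ofReal_integral_eq_lintegral_ofReal (hHcont.integrableOn_Icc)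
        ((ae_restrict_iff' measurableSet_Icc).2 (ae_of_all _ hHnn))]
    refine setLIntegral_congr_fun measurableSet_Icc (fun t ht => ?_)

    rw [hHe t ht, ENNReal.ofReal_toReal (hfin _ (hU t ht))]
  refine ⟨?_, by rw [hlin]; exact ENNReal.ofReal_ne_top⟩
  have hBnn : 0 ≤ ∫ t in a..b, H t :=
    intervalIntegral.integral_nonneg hab hHnn
  rw [hlin, ENNReal.toReal_ofReal hBnn]
  have key := image_le_of_liminf_slope_right_le_deriv_boundary
    (f := fun t => σ * (v (γ t) - v (γ a))) (a := a) (b := b)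
    (B := fun t => ∫ s in a..t, H s) (B' := H) (by fun_prop) (by simp)
    (by
      apply Continuous.continuousOn
      exact intervalIntegral.continuous_primitive (fun _ _ => hHcont.intervalIntegrable _ _) a)
    (fun x _ => (intervalIntegral.integral_hasDerivAt_right (hHcont.intervalIntegrable _ _)
      (hHcont.stronglyMeasurableAtFilter _ _) hHcont.continuousAt).hasDerivWithinAt)
    (by
      intro x hx r hr
      have hxI : x ∈ Icc a b := Ico_subset_Icc_self hx
      obtain ⟨r', hr1, hr2⟩ := exists_between hr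
      have hr'0 : 0 < r' := lt_of_le_of_lt (hHnn x hxI) hr1
      have hlt : h (γ x) < ENNReal.ofReal r' := by
        rw [ENNReal.lt_ofReal_iff_toReal_lt (hfin _ (hU x hxI)), ← hHe x hxI]
        exact hr1
      have hev := hloc _ (hU x hxI) _ hlt
      have hev2 : ∀ᶠ z in 𝓝 x, ENNReal.ofReal |v (γ z) - v (γ x)| ≤
          ENNReal.ofReal r' * ENNReal.ofReal (dist (γ z) (γ x)) :=
        (hγc.tendsto x).eventually hev
      have hev3 : ∀ᶠ z in 𝓝[>] x, slope (fun t => σ * (v (γ t) - v (γ a))) x z < r := by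
        filter_upwards [nhdsWithin_le_nhds hev2, self_mem_nhdsWithin] with z hz hzx
        have hzx' : 0 < z - x := sub_pos.2 hzx
        rw [← ENNReal.ofReal_mul hr'0.le,
          ENNReal.ofReal_le_ofReal_iff (mul_nonneg hr'0.le dist_nonneg)] at hz
        have hd : dist (γ z) (γ x) ≤ z - x := by
          have := hγ.dist_le_mul z x
          rw [NNReal.coe_one, one_mul, Real.dist_eq, abs_of_pos hzx'] at this
          exact this
        have hle : σ * (v (γ z) - v (γ x)) ≤ r' * (z - x) := by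
          calc σ * (v (γ z) - v (γ x)) ≤ |σ * (v (γ z) - v (γ x))| := le_abs_self _
            _ = |v (γ z) - v (γ x)| := by rw [abs_mul, hσ, one_mul]
            _ ≤ r' * dist (γ z) (γ x) := hz
            _ ≤ r' * (z - x) := by gcongr
        rw [slope_def_field]
        have he : σ * (v (γ z) - v (γ a)) - σ * (v (γ x) - v (γ a)) =
            σ * (v (γ z) - v (γ x)) := by ring
        rw [he]
        calc σ * (v (γ z) - v (γ x)) / (z - x) ≤ r' := by
              rw [div_le_iff₀ hzx']
              exact hle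
          _ < r := hr2
      exact hev3.frequently)
  exact key (right_mem_Icc.2 hab)

theorem thmMVI : StmtMVI := by
  intro n U v h _ hv hh hfin hloc a b γ hab hγ hU
  obtain ⟨h1, h3⟩ := MVI_aux hv hh hfin hloc hab hγ hU (σ := 1) (by simp)
  obtain ⟨h2, _⟩ := MVI_aux hv hh hfin hloc hab hγ hU (σ := -1) (by simp)
  rw [ENNReal.ofReal_le_iff_le_toReal h3, abs_le]
  constructor <;> linarith

end CNEDRem
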