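import Pool.Agent.Work.MP_bb0df9_an.Basic

/-!
MP_bb0df9_an, item Moll: mollification, and admissibility for all curves.
-/

open MeasureTheory Set Filter Topology Convolution ContinuousLinearMap
open scoped ENNReal NNReal ContDiff

namespace CNEDRem

/-- The bump function used for the mollification. -/
noncomputable def Moll_phi (n : ℕ) (r : ℝ) (hr : 0 < r) : ContDiffBump (0 : V n) :=
  ⟨r / 4, r / 2, by positivity, by linarith⟩

/-- The mollification kernel. -/
noncomputable def Moll_psi (n : ℕ) (r : ℝ) (hr : 0 < r) : V n → ℝ :=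
  (Moll_phi n r hr).normed volume

/-- The mollified function. -/
noncomputable def Moll_f (n : ℕ) (r : ℝ) (hr : 0 < r) (f : V n → ℝ) : V n → ℝ :=
  (Moll_psi n r hr) ⋆[lsmul ℝ ℝ, volume] f

/-- The mollified gradient. -/
noncomputable def Moll_g (n : ℕ) (r : ℝ) (hr : 0 < r) (g : V n → V n) (x : V n) : V n :=
  ∫ y, Moll_psi n r hr (x - y) • g y

variable {n : ℕ} {r : ℝ} (hr : 0 < r)

theorem Moll_psi_smooth : ContDiff ℝ ∞ (Moll_psi n r hr) := (Moll_phi n r hr).contDiff_normed

theorem Moll_psi_cpt : HasCompactSupport (Moll_psi n r hr) :=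
  (Moll_phi n r hr).hasCompactSupport_normed

theorem Moll_test_smooth (x : V n) : ContDiff ℝ ∞ (fun y => Moll_psi n r hr (x - y)) :=
  (Moll_psi_smooth hr).comp (contDiff_const.sub contDiff_id)

theorem Moll_test_cpt (x : V n) : HasCompactSupport (fun y => Moll_psi n r hr (x - y)) :=
  (Moll_psi_cpt hr).comp_homeomorph (Homeomorph.subLeft x)

theorem Moll_test_fderiv (x y v : V n) :
    fderiv ℝ (fun y => Moll_psi n r hr (x - y)) y v = - fderiv ℝ (Moll_psi n r hr) (x - y) v := by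
  have h1 : HasFDerivAt (Moll_psi n r hr) (fderiv ℝ (Moll_psi n r hr) (x - y)) (x - y) :=
    ((Moll_psi_smooth hr).differentiable (by simp) (x - y)).hasFDerivAt
  have h2 : HasFDerivAt (fun y : V n => x - y) (-(ContinuousLinearMap.id ℝ (V n))) y :=
    (hasFDerivAt_id y).const_sub x
  have h3 := h1.comp y h2
  have h4 : HasFDerivAt (fun y => Moll_psi n r hr (x - y))
    ((fderiv ℝ (Moll_psi n r hr) (x - y)).comp (-(ContinuousLinearMap.id ℝ (V n)))) y := h3
  rw [h4.fderiv]
  simp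

theorem Moll_hasFDerivAt {f : V n → ℝ} (hf : Continuous f) (x : V n) :
    HasFDerivAt (Moll_f n r hr f)
      (∫ y, (precompL (V n) (lsmul ℝ ℝ)) (fderiv ℝ (Moll_psi n r hr) (x - y)) (f y)) x := by
  have h := (Moll_psi_cpt hr).hasFDerivAt_convolution_left (lsmul ℝ ℝ)
    ((Moll_psi_smooth hr).of_le (by simp)) hf.locallyIntegrable (μ := volume) x
  rw [convolution_eq_swap] at h
  exact h

theorem Moll_fderiv {f : V n → ℝ} {g : V n → V n} (hn : 1 ≤ n) (hf : Continuous f)
    (hfc : HasCompactSupport f) (hg : MemLp g n volume) (hw : IsWeakGrad univ f g) (x : V n) :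
    HasFDerivAt (Moll_f n r hr f) (innerSL ℝ (Moll_g n r hr g x)) x := by
  have h1 := Moll_hasFDerivAt hr hf x
  have hgl : LocallyIntegrable g volume := hg.locallyIntegrable (by exact_mod_cast hn)
  have hψc : Continuous (fun y => Moll_psi n r hr (x - y)) := (Moll_test_smooth hr x).continuous
  have hgi : Integrable (fun y => Moll_psi n r hr (x - y) • g y) volume :=
    hgl.integrable_smul_left_of_hasCompactSupport hψc (Moll_test_cpt hr x)
  have hDc : Continuous (fun y => fderiv ℝ (Moll_psi n r hr) (x - y)) :=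
    ((Moll_psi_smooth hr).continuous_fderiv (by simp)).comp (continuous_const.sub continuous_id)
  have hint : Integrable (fun y =>
      (precompL (V n) (lsmul ℝ ℝ)) (fderiv ℝ (Moll_psi n r hr) (x - y)) (f y)) volume := by
    apply Continuous.integrable_of_hasCompactSupport
    · exact ((precompL (V n) (lsmul ℝ ℝ (E := ℝ))).continuous.comp hDc).clm_apply hf
    · apply hfc.mono
      intro y hy
      contrapose! hy
      simp only [Function.mem_support, ne_eq, not_not] at hy ⊢
      rw [hy, map_zero]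
  have key : (∫ y, (precompL (V n) (lsmul ℝ ℝ)) (fderiv ℝ (Moll_psi n r hr) (x - y)) (f y)) =
      innerSL ℝ (Moll_g n r hr g x) := by
    apply ContinuousLinearMap.coe_injective
    refine (EuclideanSpace.basisFun (Fin n) ℝ).toBasis.ext (fun i => ?_)
    rw [OrthonormalBasis.coe_toBasis, EuclideanSpace.basisFun_apply]
    change (∫ y, (precompL (V n) (lsmul ℝ ℝ)) (fderiv ℝ (Moll_psi n r hr) (x - y)) (f y))
      (EuclideanSpace.single i 1) = innerSL ℝ (Moll_g n r hr g x) (EuclideanSpace.single i 1)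
    rw [ContinuousLinearMap.integral_apply hint]
    have h2 := hw (fun y => Moll_psi n r hr (x - y)) (Moll_test_smooth hr x) (Moll_test_cpt hr x)
      (subset_univ _) i
    simp only [Moll_test_fderiv hr, Measure.restrict_univ] at h2
    have h3 : ∫ y, (precompL (V n) (lsmul ℝ ℝ)) (fderiv ℝ (Moll_psi n r hr) (x - y)) (f y)
        (EuclideanSpace.single i 1) = ∫ y, g y i * Moll_psi n r hr (x - y) := by
      have h4 : ∫ y, g y i * Moll_psi n r hr (x - y) =
        -∫ y, f y * -fderiv ℝ (Moll_psi n r hr) (x - y) (EuclideanSpace.single i 1) := by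
        rw [h2, neg_neg]
      rw [h4, ← integral_neg]
      refine integral_congr_ae (Eventually.of_forall (fun y => ?_))
      simp only [precompL_apply, lsmul_apply, smul_eq_mul]
      ring
    rw [h3]
    have h5 : innerSL ℝ (Moll_g n r hr g x) (EuclideanSpace.single i 1) = Moll_g n r hr g x i := by
      rw [innerSL_apply_apply, EuclideanSpace.inner_single_right]
      simp
    rw [h5]
    have h6 : Moll_g n r hr g x i = ∫ y, (Moll_psi n r hr (x - y) • g y) i := by
      have := ContinuousLinearMap.integral_comp_comm (EuclideanSpace.proj (𝕜 := ℝ) i) hgi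
      exact this.symm
    rw [h6]
    refine integral_congr_ae (Eventually.of_forall (fun y => ?_))
    simp only [PiLp.smul_apply, smul_eq_mul]
    ring
  rw [key] at h1
  exact h1

theorem Moll_psi_nonneg (x : V n) : 0 ≤ Moll_psi n r hr x := (Moll_phi n r hr).nonneg_normed x

theorem Moll_psi_lint : ∫⁻ y, ‖Moll_psi n r hr y‖ₑ = 1 := by
  have h1 : Integrable (Moll_psi n r hr) volume :=
    (Moll_psi_smooth hr).continuous.integrable_of_hasCompactSupport (Moll_psi_cpt hr)
  have h2 : ∫ y, Moll_psi n r hr y = 1 := (Moll_phi n r hr).integral_normed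
  have h3 : ∀ y, ‖Moll_psi n r hr y‖ₑ = ENNReal.ofReal (Moll_psi n r hr y) := fun y =>
    Real.enorm_eq_ofReal (Moll_psi_nonneg hr y)
  simp only [h3]
  rw [← ofReal_integral_eq_lintegral_ofReal h1 (Eventually.of_forall (Moll_psi_nonneg hr)), h2,
    ENNReal.ofReal_one]

/-- The probability measure `psi (x - y) dy`. -/
noncomputable def Moll_mu (n : ℕ) (r : ℝ) (hr : 0 < r) (x : V n) : Measure (V n) :=
  volume.withDensity (fun y => ‖Moll_psi n r hr (x - y)‖ₑ)

theorem Moll_meas (x : V n) : Measurable (fun y => ‖Moll_psi n r hr (x - y)‖ₑ) :=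
  (Moll_test_smooth hr x).continuous.enorm.measurable

theorem Moll_mu_prob (x : V n) : IsProbabilityMeasure (Moll_mu n r hr x) := by
  constructor
  rw [Moll_mu, withDensity_apply _ MeasurableSet.univ, Measure.restrict_univ,
    lintegral_sub_left_eq_self (fun y => ‖Moll_psi n r hr y‖ₑ) x, Moll_psi_lint]

/-- Jensen. -/
theorem Moll_jensen {g : V n → V n} (hn : 1 ≤ n) (hg : AEStronglyMeasurable g volume) (x : V n) :
    ‖Moll_g n r hr g x‖ₑ ^ n ≤ ∫⁻ y, ‖Moll_psi n r hr (x - y)‖ₑ * ‖g y‖ₑ ^ n := by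
  have hprob := Moll_mu_prob hr x
  have hn0 : (0 : ℝ) < n := by exact_mod_cast hn
  have h1 : ‖Moll_g n r hr g x‖ₑ ≤ ∫⁻ y, ‖Moll_psi n r hr (x - y)‖ₑ * ‖g y‖ₑ := by
    refine (enorm_integral_le_lintegral_enorm _).trans (le_of_eq ?_)
    simp only [enorm_smul]
  have h2 : ∫⁻ y, ‖Moll_psi n r hr (x - y)‖ₑ * ‖g y‖ₑ = ∫⁻ y, ‖g y‖ₑ ∂(Moll_mu n r hr x) := by
    rw [Moll_mu, lintegral_withDensity_eq_lintegral_mul₀ (Moll_meas hr x).aemeasurable hg.enorm]
    rfl
  have h3 : ∫⁻ y, ‖Moll_psi n r hr (x - y)‖ₑ * ‖g y‖ₑ ^ n =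
      ∫⁻ y, ‖g y‖ₑ ^ n ∂(Moll_mu n r hr x) := by
    rw [Moll_mu, lintegral_withDensity_eq_lintegral_mul₀ (Moll_meas hr x).aemeasurable
      (hg.enorm.pow_const n)]
    rfl
  have h4 : eLpNorm' g 1 (Moll_mu n r hr x) ≤ eLpNorm' g n (Moll_mu n r hr x) :=
    eLpNorm'_le_eLpNorm'_of_exponent_le zero_lt_one (by exact_mod_cast hn) _
      (hg.mono_ac (withDensity_absolutelyContinuous _ _))
  simp only [eLpNorm', ENNReal.rpow_one, ENNReal.rpow_natCast, div_one] at h4
  rw [h3]
  rw [h2] at h1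
  calc ‖Moll_g n r hr g x‖ₑ ^ n ≤ ((∫⁻ y, ‖g y‖ₑ ^ n ∂(Moll_mu n r hr x)) ^ (1 / (n : ℝ))) ^ n :=
        pow_le_pow_left' (h1.trans h4) n
    _ = ∫⁻ y, ‖g y‖ₑ ^ n ∂(Moll_mu n r hr x) := by
        rw [← ENNReal.rpow_natCast, ← ENNReal.rpow_mul, one_div_mul_cancel hn0.ne',
          ENNReal.rpow_one]

/-- The energy of the mollified gradient. -/
theorem Moll_energy {g : V n → V n} (hn : 1 ≤ n) (hg : AEStronglyMeasurable g volume) :
    ∫⁻ x, ‖Moll_g n r hr g x‖ₑ ^ n ≤ ∫⁻ y, ‖g y‖ₑ ^ n := by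
  calc ∫⁻ x, ‖Moll_g n r hr g x‖ₑ ^ n
      ≤ ∫⁻ x, ∫⁻ y, ‖Moll_psi n r hr (x - y)‖ₑ * ‖g y‖ₑ ^ n :=
        lintegral_mono (fun x => Moll_jensen hr hn hg x)
    _ = ∫⁻ y, ∫⁻ x, ‖Moll_psi n r hr (x - y)‖ₑ * ‖g y‖ₑ ^ n := by
        apply lintegral_lintegral_swap
        have hc : Continuous (fun p : V n × V n => ‖Moll_psi n r hr (p.1 - p.2)‖ₑ) :=
          ((Moll_psi_smooth hr).continuous.comp (continuous_fst.sub continuous_snd)).enorm
        have hc2 : AEMeasurable (fun p : V n × V n => ‖g p.2‖ₑ ^ n) (volume.prod volume) :=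
          (hg.enorm.pow_const n).comp_snd
        exact hc.measurable.aemeasurable.mul hc2
    _ = ∫⁻ y, ‖g y‖ₑ ^ n := by
        refine lintegral_congr (fun y => ?_)
        have hm : Measurable (fun x => ‖Moll_psi n r hr (x - y)‖ₑ) :=
          ((Moll_psi_smooth hr).continuous.comp
            (continuous_id.sub continuous_const)).enorm.measurable
        rw [lintegral_mul_const _ hm,
          lintegral_sub_right_eq_self (fun x => ‖Moll_psi n r hr x‖ₑ) y, Moll_psi_lint, one_mul]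

/-- The local bound of a differentiable function. -/
theorem Moll_local {v : V n → ℝ} {x : V n} {T : V n →L[ℝ] ℝ} (h : HasFDerivAt v T x) (M : ℝ≥0∞)
    (hM : ‖T‖ₑ < M) : ∀ᶠ y in 𝓝 x, ENNReal.ofReal |v y - v x| ≤ M * ENNReal.ofReal (dist y x) := by
  obtain ⟨M', h1, h2⟩ := ENNReal.lt_iff_exists_nnreal_btwn.mp hM
  have h1' : ‖T‖ < M' := by
    rw [enorm_eq_nnnorm, ENNReal.coe_lt_coe] at h1
    exact_mod_cast h1
  have h3 := (hasFDerivAt_iff_isLittleO.mp h).def (sub_pos.mpr h1')
  filter_upwards [h3] with y hy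
  have h4 : |v y - v x| ≤ M' * dist y x := by
    have e : v y - v x = (v y - v x - T (y - x)) + T (y - x) := by ring
    rw [e]
    refine (abs_add_le _ _).trans ?_
    have h5 : |T (y - x)| ≤ ‖T‖ * ‖y - x‖ := T.le_opNorm _
    rw [Real.norm_eq_abs] at hy
    rw [dist_eq_norm]
    linarith
  calc ENNReal.ofReal |v y - v x| ≤ ENNReal.ofReal (M' * dist y x) := ENNReal.ofReal_le_ofReal h4
    _ = (M' : ℝ≥0∞) * ENNReal.ofReal (dist y x) := by
        rw [ENNReal.ofReal_mul (by positivity), ENNReal.ofReal_coe_nnreal]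
    _ ≤ M * ENNReal.ofReal (dist y x) := mul_le_mul_left h2.le _

theorem thmMoll (hArc2 : StmtArc2) (hMVI : StmtMVI) : StmtMoll := by
  intro n hn f g hf hfc hg hw F₁ F₂ r hr hF₁ hF₂
  have hder := fun x => Moll_fderiv hr hn hf hfc hg hw x
  have hgl : LocallyIntegrable g volume := hg.locallyIntegrable (by exact_mod_cast hn)
  have hsmooth : ContDiff ℝ ∞ (Moll_f n r hr f) :=
    (Moll_psi_cpt hr).contDiff_convolution_left (lsmul ℝ ℝ) (Moll_psi_smooth hr)
      hf.locallyIntegrable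
  have hGc : Continuous (Moll_g n r hr g) := by
    have h1 : Continuous ((Moll_psi n r hr) ⋆[lsmul ℝ ℝ, volume] g) :=
      (Moll_psi_cpt hr).continuous_convolution_left (lsmul ℝ ℝ) (Moll_psi_smooth hr).continuous hgl
    have h2 : Moll_g n r hr g = (Moll_psi n r hr) ⋆[lsmul ℝ ℝ, volume] g := by
      funext x
      rw [convolution_eq_swap]
      rfl
    rw [h2]
    exact h1
  have hval : ∀ (x : V n) (c : ℝ), (∀ y, dist y x < r → f y = c) → Moll_f n r hr f x = c := by
    intro x c h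
    have h0 : f x = c := h x (by simpa using hr)
    have h1 : Moll_f n r hr f x = f x := by
      apply (Moll_phi n r hr).normed_convolution_eq_right
      intro y hy
      rw [h0]
      apply h y
      have h3 : dist y x < r / 2 := hy
      linarith
    rw [h1, h0]
  have hadm : Admissible (joining F₁ F₂) (fun x => ‖Moll_g n r hr g x‖ₑ) := by
    refine ⟨hGc.enorm.measurable, ?_⟩
    rintro γ ⟨hγc, hγ0, hγ1⟩
    by_cases hvar : eVariationOn γ (Icc 0 1) = ⊤
    · simp [lineInt, hvar]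
    · obtain ⟨L, β, hL, hβ, hβ0, hβL, _, hint⟩ := hArc2 n γ hγc hvar
      rw [hint]
      have h1 := hMVI n univ (Moll_f n r hr f) (fun x => ‖Moll_g n r hr g x‖ₑ) isOpen_univ
        hsmooth.continuous hGc.enorm.continuousOn (fun x _ => enorm_ne_top)
        (fun x _ M hM => Moll_local (hder x) M (by
          have h2 : ‖innerSL ℝ (Moll_g n r hr g x)‖ₑ = ‖Moll_g n r hr g x‖ₑ := by
            rw [← ofReal_norm, ← ofReal_norm, innerSL_apply_norm]
          rw [h2]
          exact hM)) 0 L β hL hβ (fun t _ => mem_univ _)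
      have e0 : Moll_f n r hr f (β 0) = 1 := by
        rw [hβ0]
        exact hval _ _ (fun y hy => hF₁ _ hγ0 y hy)
      have e1 : Moll_f n r hr f (β L) = 0 := by
        rw [hβL]
        exact hval _ _ (fun y hy => hF₂ _ hγ1 y hy)
      rw [e0, e1] at h1
      simpa using h1
  calc Modulus (joining F₁ F₂) ≤ ∫⁻ x, ‖Moll_g n r hr g x‖ₑ ^ n :=
        iInf_le_of_le (fun x => ‖Moll_g n r hr g x‖ₑ) (iInf_le_of_le hadm le_rfl)
    _ ≤ ∫⁻ x, ‖g x‖ₑ ^ n := Moll_energy hr hn hg.1

end CNEDRem
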