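import Pool.Agent.Work.MP_bb0df9_an.Loc

/-!
# MP_bb0df9_an : removable sets are null
-/

open MeasureTheory Set Filter Topology
open scoped ENNReal NNReal ContDiff

namespace CNEDRem

variable {n : ℕ}

/-! ### The zigzag function -/

/-- The zigzag of period `η`. -/
noncomputable def Null_zg (η s : ℝ) : ℝ := η * |s / η - round (s / η)|

theorem Null_zg_nonneg {η : ℝ} (hη : 0 < η) (s : ℝ) : 0 ≤ Null_zg η s := by
  unfold Null_zg; positivity

theorem Null_zg_le {η : ℝ} (hη : 0 < η) (s : ℝ) : Null_zg η s ≤ η / 2 := by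
  unfold Null_zg
  have := abs_sub_round (s / η)
  nlinarith

theorem Null_zg_lip {η : ℝ} (hη : 0 < η) (s t : ℝ) : |Null_zg η s - Null_zg η t| ≤ |s - t| := by
  have key : ∀ s t : ℝ, Null_zg η s - Null_zg η t ≤ |s - t| := by
    intro s t
    unfold Null_zg
    have h1 := round_le (s / η) (round (t / η))
    have h2 : |s / η - (round (t / η) : ℝ)| ≤ |s / η - t / η| + |t / η - (round (t / η) : ℝ)| :=
      abs_sub_le _ _ _
    have h3 : |s / η - t / η| = |s - t| / η := by
      rw [← sub_div, abs_div, abs_of_pos hη]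
    have h4 : |s / η - (round (s / η) : ℝ)| - |t / η - (round (t / η) : ℝ)| ≤ |s - t| / η := by
      rw [← h3]; linarith
    calc η * |s / η - (round (s / η) : ℝ)| - η * |t / η - (round (t / η) : ℝ)|
        = η * (|s / η - (round (s / η) : ℝ)| - |t / η - (round (t / η) : ℝ)|) := by ring
      _ ≤ η * (|s - t| / η) := mul_le_mul_of_nonneg_left h4 hη.le
      _ = |s - t| := by field_simp
  rw [abs_le]
  constructor
  · have := key t s
    rw [abs_sub_comm] at this
    linarith
  · exact key s t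

theorem Null_zg_deriv {η : ℝ} (hη : 0 < η) (s : ℝ) (hs : ∀ m : ℤ, s ≠ η * m / 2) :
    ∃ d : ℝ, |d| = 1 ∧ HasDerivAt (Null_zg η) d s := by
  set m := round (s / η) with hm
  have hle : |s / η - (m : ℝ)| ≤ 1 / 2 := abs_sub_round _
  have hs' : s / η * η = s := div_mul_cancel₀ s hη.ne'
  have hlt : |s / η - (m : ℝ)| < 1 / 2 := by
    refine lt_of_le_of_ne hle fun heq => ?_
    rcases (abs_eq (by norm_num)).1 heq with h | h
    · apply hs (2 * m + 1)
      push_cast
      have : s / η = m + 1 / 2 := by linarith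
      rw [← hs', this]; ring
    · apply hs (2 * m - 1)
      push_cast
      have : s / η = m - 1 / 2 := by linarith
      rw [← hs', this]; ring
  have hne : s - η * m ≠ 0 := by
    intro h
    apply hs (2 * m)
    push_cast
    linarith
  have hloc : Null_zg η =ᶠ[𝓝 s] fun t => |t - η * m| := by
    have hc : ContinuousAt (fun t : ℝ => |t / η - (m : ℝ)|) s := by fun_prop
    filter_upwards [hc.eventually (gt_mem_nhds hlt)] with t ht
    have hr : round (t / η) = m := by
      rw [round_eq, Int.floor_eq_iff]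
      rw [abs_lt] at ht
      constructor <;> linarith [ht.1, ht.2]
    unfold Null_zg
    rw [hr]
    rw [← abs_of_pos hη, ← abs_mul, abs_of_pos hη]
    congr 1
    field_simp
  rcases lt_or_gt_of_ne hne with h | h
  · refine ⟨-1, by norm_num, ?_⟩
    have h1 : HasDerivAt (fun t : ℝ => |t - η * m|) (-1) s := by
      have h2 := HasDerivAt.comp (h₂ := fun x : ℝ => |x|) (h := fun t : ℝ => t - η * m) s
        (hasDerivAt_abs_neg h) ((hasDerivAt_id' s).sub_const (η * m))
      simpa [Function.comp_def] using h2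
    exact h1.congr_of_eventuallyEq hloc
  · refine ⟨1, by norm_num, ?_⟩
    have h1 : HasDerivAt (fun t : ℝ => |t - η * m|) 1 s := by
      have h2 := HasDerivAt.comp (h₂ := fun x : ℝ => |x|) (h := fun t : ℝ => t - η * m) s
        (hasDerivAt_abs_pos h) ((hasDerivAt_id' s).sub_const (η * m))
      simpa [Function.comp_def] using h2
    exact h1.congr_of_eventuallyEq hloc

/-- Hyperplanes are null sets. -/
theorem Null_hyper (i : Fin n) (c : ℝ) : volume {x : V n | x i = c} = 0 := by
  have h := (EuclideanSpace.volume_preserving_symm_measurableEquiv_toLp (Fin n)).symm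
  have h1 : {x : V n | x i = c} =
      (MeasurableEquiv.toLp 2 (Fin n → ℝ)).symm ⁻¹' {f : Fin n → ℝ | f i = c} := by
    ext x; rfl
  rw [h1]
  have h2 := (EuclideanSpace.volume_preserving_symm_measurableEquiv_toLp (Fin n))
  rw [h2.measure_preimage_equiv]
  exact Measure.pi_hyperplane (μ := fun _ : Fin n => (volume : Measure ℝ)) i c

/-! ### The bumps -/

/-- A bump with large gradient on `K` and small sup norm. -/
noncomputable def Null_bump (i : Fin n) (K : Set (V n)) (c η δ : ℝ) (x : V n) : ℝ :=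
  c * min (Null_zg η (x i)) (max 0 (δ - Metric.infDist x K))

theorem Null_bump_nonneg {i : Fin n} {K : Set (V n)} {c η δ : ℝ} (hc : 0 < c) (hη : 0 < η)
    (x : V n) : 0 ≤ Null_bump i K c η δ x := by
  unfold Null_bump
  have h1 := Null_zg_nonneg hη (x i)
  have h2 : 0 ≤ max 0 (δ - Metric.infDist x K) := le_max_left _ _
  exact mul_nonneg hc.le (le_min h1 h2)

theorem Null_bump_le {i : Fin n} {K : Set (V n)} {c η δ : ℝ} (hc : 0 < c) (hη : 0 < η)
    (x : V n) : Null_bump i K c η δ x ≤ c * η := by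
  unfold Null_bump
  apply mul_le_mul_of_nonneg_left _ hc.le
  exact (min_le_left _ _).trans ((Null_zg_le hη _).trans (by linarith))

theorem Null_bump_zero {i : Fin n} {K : Set (V n)} {c η δ : ℝ} (hη : 0 < η) {x : V n}
    (hx : δ ≤ Metric.infDist x K) : Null_bump i K c η δ x = 0 := by
  unfold Null_bump
  rw [max_eq_left (by linarith), min_eq_right (Null_zg_nonneg hη _), mul_zero]

theorem Null_bump_lip {i : Fin n} {K : Set (V n)} {c η δ : ℝ} (hc : 0 < c) (hη : 0 < η) :
    LipschitzWith (Real.toNNReal c) (Null_bump i K c η δ) := by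
  apply LipschitzWith.of_dist_le_mul
  intro x y
  rw [Real.coe_toNNReal c hc.le, Real.dist_eq]
  unfold Null_bump
  rw [← mul_sub, abs_mul, abs_of_pos hc]
  apply mul_le_mul_of_nonneg_left _ hc.le
  refine (abs_min_sub_min_le_max _ _ _ _).trans (max_le ?_ ?_)
  · refine (Null_zg_lip hη _ _).trans ?_
    rw [dist_eq_norm]
    have := EuclideanSpace.norm_eq (x - y)
    have h1 : |(x - y) i| ≤ ‖x - y‖ := by
      rw [← Real.norm_eq_abs]
      exact PiLp.norm_apply_le (x - y) i
    simpa using h1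
  · refine (abs_max_sub_max_le_max _ _ _ _).trans (max_le (by simp) ?_)
    have h1 : δ - Metric.infDist x K - (δ - Metric.infDist y K) =
        Metric.infDist y K - Metric.infDist x K := by ring
    rw [h1, abs_sub_comm]
    have h2 := (Metric.lipschitz_infDist_pt K).dist_le_mul x y
    rw [Real.dist_eq] at h2
    simpa using h2

theorem Null_bump_fderiv {i : Fin n} {K : Set (V n)} {c η δ : ℝ} (hc : 0 < c) (hη : 0 < η)
    (hηδ : η ≤ δ) {x : V n} (hx : x ∈ K) (hs : ∀ m : ℤ, x i ≠ η * m / 2) :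
    |fderiv ℝ (Null_bump i K c η δ) x (EuclideanSpace.single i 1)| = c := by
  obtain ⟨d, hd1, hd⟩ := Null_zg_deriv hη (x i) hs
  have hδ : 0 < δ := hη.trans_le hηδ
  have hloc : Null_bump i K c η δ =ᶠ[𝓝 x] fun y => c * Null_zg η (y i) := by
    filter_upwards [Metric.ball_mem_nhds x (half_pos hδ)] with y hy
    unfold Null_bump
    have h1 : Metric.infDist y K ≤ dist y x := Metric.infDist_le_dist_of_mem hx
    have h2 : dist y x < δ / 2 := hy
    rw [max_eq_right (by linarith), min_eq_left]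
    have := Null_zg_le hη (y i)
    linarith
  have hp : HasFDerivAt (fun y : V n => y i) (EuclideanSpace.proj i : V n →L[ℝ] ℝ) x :=
    (EuclideanSpace.proj i : V n →L[ℝ] ℝ).hasFDerivAt
  have h3 : HasFDerivAt (fun y : V n => c * Null_zg η (y i))
      (c • (d • (EuclideanSpace.proj i : V n →L[ℝ] ℝ))) x := by
    have h4 := HasDerivAt.comp_hasFDerivAt (h₂ := Null_zg η) (f := fun y : V n => y i) x hd hp
    have h5 := h4.const_mul c
    simpa [Function.comp_def] using h5
  rw [hloc.fderiv_eq, h3.fderiv]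
  simp [abs_mul, hd1, abs_of_pos hc]

/-! ### Disjoint pieces of positive measure -/

theorem Null_singleton (hn : 1 ≤ n) (x : V n) : volume ({x} : Set (V n)) = 0 := by
  refine measure_mono_null ?_ (Null_hyper (⟨0, hn⟩ : Fin n) (x ⟨0, hn⟩))
  intro y hy
  rw [mem_singleton_iff.1 hy]
  rfl

theorem Null_split (hn : 1 ≤ n) {S W : Set (V n)} (hW : IsOpen W) (hpos : volume (S ∩ W) ≠ 0) :
    ∃ W₁ W₂ : Set (V n), IsOpen W₁ ∧ IsOpen W₂ ∧ W₁ ⊆ W ∧ W₂ ⊆ W ∧ Disjoint W₁ W₂ ∧
      volume (S ∩ W₁) ≠ 0 ∧ volume (S ∩ W₂) ≠ 0 := by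
  obtain ⟨x, -, hx⟩ := exists_mem_forall_mem_nhdsWithin_pos_measure hpos
  have hpos2 : volume ((S ∩ W) \ {x}) ≠ 0 := by
    rw [measure_sdiff_null (Null_singleton hn x)]
    exact hpos
  obtain ⟨y, hy1, hy⟩ := exists_mem_forall_mem_nhdsWithin_pos_measure hpos2
  have hxy : x ≠ y := fun h => hy1.2 (by rw [h]; rfl)
  obtain ⟨A, B, hA, hB, hxA, hyB, hAB⟩ := t2_separation hxy
  refine ⟨W ∩ A, W ∩ B, hW.inter hA, hW.inter hB, inter_subset_left, inter_subset_left,
    hAB.mono inter_subset_right inter_subset_right, ?_, ?_⟩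
  · have h1 : S ∩ (W ∩ A) ∈ 𝓝[S ∩ W] x := by
      rw [← inter_assoc]
      exact inter_mem self_mem_nhdsWithin (mem_nhdsWithin_of_mem_nhds (hA.mem_nhds hxA))
    exact (hx _ h1).ne'
  · have h1 : ((S ∩ W) \ {x}) ∩ B ∈ 𝓝[(S ∩ W) \ {x}] y :=
      inter_mem self_mem_nhdsWithin (mem_nhdsWithin_of_mem_nhds (hB.mem_nhds hyB))
    have h2 : ((S ∩ W) \ {x}) ∩ B ⊆ S ∩ (W ∩ B) := by
      rintro z ⟨⟨⟨h3, h4⟩, -⟩, h5⟩
      exact ⟨h3, h4, h5⟩
    exact ((hy _ h1).trans_le (measure_mono h2)).ne'

theorem Null_seq (hn : 1 ≤ n) {S : Set (V n)} (hpos : volume S ≠ 0) :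
    ∃ W : ℕ → Set (V n), (∀ k, IsOpen (W k)) ∧ (∀ j k, j < k → Disjoint (W j) (W k)) ∧
      ∀ k, volume (S ∩ W k) ≠ 0 := by
  have hstep : ∀ R : {R : Set (V n) // IsOpen R ∧ volume (S ∩ R) ≠ 0},
      ∃ Q : {R : Set (V n) // IsOpen R ∧ volume (S ∩ R) ≠ 0} ×
        {R : Set (V n) // IsOpen R ∧ volume (S ∩ R) ≠ 0},
        Q.1.1 ⊆ R.1 ∧ Q.2.1 ⊆ R.1 ∧ Disjoint Q.1.1 Q.2.1 := by
    rintro ⟨R, hR, hRpos⟩
    obtain ⟨W₁, W₂, h1, h2, h3, h4, h5, h6, h7⟩ := Null_split hn hR hRpos
    exact ⟨(⟨W₁, h1, h6⟩, ⟨W₂, h2, h7⟩), h3, h4, h5⟩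
  choose F hF1 hF2 hF3 using hstep
  let R : ℕ → {R : Set (V n) // IsOpen R ∧ volume (S ∩ R) ≠ 0} := fun k =>
    Nat.rec ⟨univ, isOpen_univ, by rwa [inter_univ]⟩ (fun _ R => (F R).2) k
  have hR : ∀ k, R (k + 1) = (F (R k)).2 := fun k => rfl
  have hanti : ∀ j k, j ≤ k → (R k).1 ⊆ (R j).1 := by
    intro j k hjk
    induction k, hjk using Nat.le_induction with
    | base => exact le_rfl
    | succ k hjk ih =>
      rw [hR]
      exact (hF2 _).trans ih
  refine ⟨fun k => (F (R k)).1.1, fun k => (F (R k)).1.2.1, ?_, fun k => (F (R k)).1.2.2⟩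
  intro j k hjk
  have h1 : (F (R k)).1.1 ⊆ (R (j + 1)).1 := (hF1 _).trans (hanti (j + 1) k hjk)
  rw [hR] at h1
  exact (hF3 (R j)).mono_right h1

theorem Null_data (hn : 1 ≤ n) {S W : Set (V n)} (hS : MeasurableSet S) (hW : IsOpen W)
    (hpos : volume (S ∩ W) ≠ 0) {θ : ℝ} (hθ : 0 < θ) :
    ∃ (K : Set (V n)) (c η δ : ℝ), IsCompact K ∧ K ⊆ S ∧ K.Nonempty ∧ 0 < c ∧ 0 < η ∧ η ≤ δ ∧
      δ ≤ θ ∧ c * η ≤ θ ∧ Metric.thickening δ K ⊆ W ∧ 1 ≤ ENNReal.ofReal c ^ n * volume K ∧
      ENNReal.ofReal c ^ n * volume (Metric.thickening δ K \ K) ≤ ENNReal.ofReal θ := by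
  obtain ⟨K, hKs, hK, hKpos⟩ :=
    (hS.inter hW.measurableSet).exists_lt_isCompact (pos_iff_ne_zero.2 hpos)
  have hKtop : volume K ≠ ⊤ := hK.measure_lt_top.ne
  have hKne : K.Nonempty := by
    rw [nonempty_iff_ne_empty]
    rintro rfl
    simp at hKpos
  set a := (volume K).toReal with ha
  have ha0 : 0 < a := ENNReal.toReal_pos hKpos.ne' hKtop
  set c := max 1 a⁻¹ with hc
  have hc1 : 1 ≤ c := le_max_left _ _
  have hc0 : 0 < c := one_pos.trans_le hc1
  have hcn : ENNReal.ofReal c ≤ ENNReal.ofReal c ^ n := by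
    apply le_self_pow₀ _ (by omega)
    rw [ENNReal.one_le_ofReal]
    exact hc1
  have h1 : 1 ≤ ENNReal.ofReal c ^ n * volume K := by
    calc (1 : ℝ≥0∞) = ENNReal.ofReal a⁻¹ * ENNReal.ofReal a := by
          rw [← ENNReal.ofReal_mul (inv_nonneg.2 ha0.le), inv_mul_cancel₀ ha0.ne',
            ENNReal.ofReal_one]
      _ = ENNReal.ofReal a⁻¹ * volume K := by rw [ha, ENNReal.ofReal_toReal hKtop]
      _ ≤ ENNReal.ofReal c ^ n * volume K := by
          gcongr
          exact (ENNReal.ofReal_le_ofReal (le_max_right _ _)).trans hcn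
  have hcn0 : ENNReal.ofReal c ^ n ≠ 0 := pow_ne_zero _ (ENNReal.ofReal_pos.2 hc0).ne'
  have hcnt : ENNReal.ofReal c ^ n ≠ ⊤ := ENNReal.pow_ne_top ENNReal.ofReal_ne_top
  set ε := ENNReal.ofReal θ / ENNReal.ofReal c ^ n with hε
  have hε0 : ε ≠ 0 := (ENNReal.div_pos (ENNReal.ofReal_pos.2 hθ).ne' hcnt).ne'
  obtain ⟨U, hKU, hU, hUlt⟩ := K.exists_isOpen_lt_add hKtop hε0
  obtain ⟨δ₀, hδ₀, hth⟩ := hK.exists_thickening_subset_open (hU.inter hW)
    (subset_inter hKU (hKs.trans inter_subset_right))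
  refine ⟨K, c, min (min δ₀ θ) (θ / c), min δ₀ θ, hK, hKs.trans inter_subset_left, hKne, hc0,
    lt_min (lt_min hδ₀ hθ) (div_pos hθ hc0), min_le_left _ _, min_le_right _ _, ?_, ?_, h1, ?_⟩
  · calc c * min (min δ₀ θ) (θ / c) ≤ c * (θ / c) :=
          mul_le_mul_of_nonneg_left (min_le_right _ _) hc0.le
      _ = θ := mul_div_cancel₀ θ hc0.ne'
  · exact ((Metric.thickening_mono (min_le_left _ _) K).trans hth).trans inter_subset_right
  · have h2 : volume (Metric.thickening (min δ₀ θ) K \ K) ≤ ε := by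
      calc volume (Metric.thickening (min δ₀ θ) K \ K) ≤ volume (U \ K) :=
            measure_mono (sdiff_subset_sdiff_left
              (((Metric.thickening_mono (min_le_left _ _) K).trans hth).trans inter_subset_left))
        _ = volume U - volume K := measure_sdiff hKU hK.measurableSet.nullMeasurableSet hKtop
        _ ≤ ε := by
            rw [tsub_le_iff_left]
            exact hUlt.le
    calc ENNReal.ofReal c ^ n * volume (Metric.thickening (min δ₀ θ) K \ K)
        ≤ ENNReal.ofReal c ^ n * ε := by gcongr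
      _ ≤ ENNReal.ofReal θ := ENNReal.mul_div_le

/-! ### The main argument -/

theorem Null_gradient_congr {f g : V n → ℝ} {x : V n} (h : f =ᶠ[𝓝 x] g) :
    gradient f x = gradient g x := by
  unfold gradient
  rw [h.fderiv_eq]

theorem Null_norm_gradient (f : V n → ℝ) (x : V n) : ‖gradient f x‖ = ‖fderiv ℝ f x‖ := by
  unfold gradient
  rw [LinearIsometryEquiv.norm_map]

theorem Null_measurable_gradient (f : V n → ℝ) : Measurable (gradient f) := by
  unfold gradient
  exact (LinearIsometryEquiv.continuous _).measurable.comp (measurable_fderiv ℝ f)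

theorem thmNull : StmtNull := by
  intro n hn E hE hrem
  by_contra hEpos
  -- a bounded piece of positive measure
  obtain ⟨R, hRpos⟩ : ∃ R : ℕ, volume (E ∩ Metric.closedBall (0 : V n) R) ≠ 0 := by
    by_contra hc
    push Not at hc
    apply hEpos
    have h1 : E ⊆ ⋃ R : ℕ, E ∩ Metric.closedBall (0 : V n) R := by
      intro x hx
      obtain ⟨R, hR⟩ := exists_nat_ge ‖x‖
      exact mem_iUnion.2 ⟨R, hx, by simpa using hR⟩
    exact measure_mono_null h1 (measure_iUnion_null hc)
  set S := E ∩ Metric.closedBall (0 : V n) R with hS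
  have hSm : MeasurableSet S := hE.measurableSet.inter measurableSet_closedBall
  obtain ⟨W, hWo, hWd, hWpos⟩ := Null_seq hn hRpos
  have hθ : ∀ k : ℕ, (0 : ℝ) < (1 / 2) ^ k := fun k => by positivity
  choose K c η δ hK hKS hKne hc0 hη hηδ hδθ hcη hth hbig hsmall using
    fun k => Null_data hn hSm (hWo k) (hWpos k) (hθ k)
  set i0 : Fin n := ⟨0, hn⟩ with hi0
  set v : ℕ → V n → ℝ := fun k => Null_bump i0 (K k) (c k) (η k) (δ k) with hv
  set O : ℕ → Set (V n) := fun k => Metric.thickening (δ k) (K k) with hO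
  have hOo : ∀ k, IsOpen (O k) := fun k => Metric.isOpen_thickening
  have hKE : ∀ k, K k ⊆ E := fun k => (hKS k).trans inter_subset_left
  have hKO : ∀ k, K k ⊆ O k := fun k =>
    Metric.self_subset_thickening ((hη k).trans_le (hηδ k)) _
  have hOd : ∀ j k, j ≠ k → Disjoint (O j) (O k) := by
    intro j k hjk
    rcases lt_or_gt_of_ne hjk with h | h
    · exact (hWd j k h).mono (hth j) (hth k)
    · exact ((hWd k j h).mono (hth k) (hth j)).symm
  have hv0 : ∀ k x, x ∉ O k → v k x = 0 := by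
    intro k x hx
    apply Null_bump_zero (hη k)
    rw [← not_lt, ← Metric.mem_thickening_iff_infDist_lt (hKne k)]
    exact hx
  have hvnn : ∀ k x, 0 ≤ v k x := fun k x => Null_bump_nonneg (hc0 k) (hη k) x
  have hvle : ∀ k x, v k x ≤ (1 / 2) ^ k := fun k x =>
    (Null_bump_le (hc0 k) (hη k) x).trans (hcη k)
  have hvlip : ∀ k, LipschitzWith (Real.toNNReal (c k)) (v k) := fun k =>
    Null_bump_lip (hc0 k) (hη k)
  set u : V n → ℝ := fun x => ∑' k, v k x with hu
  have huO : ∀ k, ∀ x ∈ O k, u x = v k x := by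
    intro k x hx
    apply tsum_eq_single k
    intro j hj
    exact hv0 j x (fun h => (hOd j k hj).le_bot ⟨h, hx⟩)
  have hu0 : ∀ x, (∀ k, x ∉ O k) → u x = 0 := by
    intro x hx
    simp only [hu]
    rw [tsum_congr (fun k => hv0 k x (hx k)), tsum_zero]
  have hunn : ∀ x, 0 ≤ u x := fun x => tsum_nonneg fun k => hvnn k x
  have hucont : Continuous u := by
    refine continuous_tsum (fun k => (hvlip k).continuous) summable_geometric_two ?_
    intro k x
    rw [Real.norm_eq_abs, abs_of_nonneg (hvnn k x)]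
    exact hvle k x
  have hOball : ∀ k, O k ⊆ Metric.closedBall (0 : V n) (R + 1) := by
    intro k x hx
    obtain ⟨y, hy, hxy⟩ := Metric.mem_thickening_iff.1 hx
    have h1 : ‖y‖ ≤ R := by simpa using (hKS k hy).2
    have h2 : δ k ≤ 1 := (hδθ k).trans (pow_le_one₀ (by norm_num) (by norm_num))
    rw [mem_closedBall_zero_iff]
    have h3 : ‖x‖ ≤ ‖x - y‖ + ‖y‖ := by
      calc ‖x‖ = ‖(x - y) + y‖ := by congr 1; abel
        _ ≤ _ := norm_add_le _ _
    rw [dist_eq_norm] at hxy
    linarith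
  have hucs : HasCompactSupport u := by
    apply HasCompactSupport.intro (isCompact_closedBall (0 : V n) (R + 1))
    intro x hx
    exact hu0 x fun k hk => hx (hOball k hk)
  have hEne : E.Nonempty := (hKne 0).mono (hKE 0)
  -- local Lipschitz property
  have hulip : ∀ x ∈ Eᶜ, ∃ r : ℝ, 0 < r ∧ ∃ C : ℝ≥0, LipschitzOnWith C u (Metric.ball x r) := by
    intro x hx
    have hd : 0 < Metric.infDist x E := (hE.notMem_iff_infDist_pos hEne).1 hx
    obtain ⟨N, hN⟩ := exists_pow_lt_of_lt_one (half_pos hd) (by norm_num : (1 / 2 : ℝ) < 1)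
    refine ⟨Metric.infDist x E / 2, half_pos hd, ∑ k ∈ Finset.range N, Real.toNNReal (c k), ?_⟩
    have hfar : ∀ y ∈ Metric.ball x (Metric.infDist x E / 2), ∀ k, N ≤ k → y ∉ O k := by
      intro y hy k hk hyO
      obtain ⟨z, hz, hyz⟩ := Metric.mem_thickening_iff.1 hyO
      have h1 : Metric.infDist x E ≤ dist x z := Metric.infDist_le_dist_of_mem (hKE k hz)
      have h2 : dist x z ≤ dist x y + dist y z := dist_triangle _ _ _
      have h3 : dist x y < Metric.infDist x E / 2 := by rw [dist_comm]; exact hy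
      have h4 : δ k ≤ (1 / 2) ^ N :=
        (hδθ k).trans (pow_le_pow_of_le_one (by norm_num) (by norm_num) hk)
      linarith
    have hsum : ∀ y ∈ Metric.ball x (Metric.infDist x E / 2),
        u y = ∑ k ∈ Finset.range N, v k y := by
      intro y hy
      apply tsum_eq_sum
      intro k hk
      rw [Finset.mem_range, not_lt] at hk
      exact hv0 k y (hfar y hy k hk)
    apply LipschitzOnWith.of_dist_le_mul
    intro y hy z hz
    rw [hsum y hy, hsum z hz, Real.dist_eq, ← Finset.sum_sub_distrib, NNReal.coe_sum,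
      Finset.sum_mul]
    refine (Finset.abs_sum_le_sum_abs _ _).trans (Finset.sum_le_sum fun k _ => ?_)
    rw [← Real.dist_eq]
    exact (hvlip k).dist_le_mul y z
  have hgradO : ∀ k, ∀ x ∈ O k, gradient u x = gradient (v k) x := by
    intro k x hx
    apply Null_gradient_congr
    filter_upwards [(hOo k).mem_nhds hx] with y hy using huO k y hy
  have hgradle : ∀ k, ∀ x ∈ O k, ‖gradient u x‖ ≤ c k := by
    intro k x hx
    rw [hgradO k x hx, Null_norm_gradient]
    have := norm_fderiv_le_of_lipschitz ℝ (x₀ := x) (hvlip k)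
    rwa [Real.coe_toNNReal _ (hc0 k).le] at this
  have hgrad0 : ∀ x, (∀ k, x ∉ O k) → gradient u x = 0 := by
    intro x hx
    have hmin : IsLocalMin u x := Eventually.of_forall fun y => by rw [hu0 x hx]; exact hunn y
    unfold gradient
    rw [hmin.fderiv_eq_zero, map_zero]
  have hgm : Measurable (gradient u) := Null_measurable_gradient u
  have hn0 : n ≠ 0 := by omega
  have hnE0 : (n : ℝ≥0∞) ≠ 0 := by exact_mod_cast hn0
  have hnEt : (n : ℝ≥0∞) ≠ ⊤ := ENNReal.natCast_ne_top n
  -- energy off `E`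
  have henergy : ∫⁻ x in Eᶜ, ‖gradient u x‖ₑ ^ n < ⊤ := by
    have h1 : ∀ x, ‖gradient u x‖ₑ ^ n ≤
        ∑' k, (O k).indicator (fun _ => ENNReal.ofReal (c k) ^ n) x := by
      intro x
      by_cases hx : ∃ k, x ∈ O k
      · obtain ⟨k, hk⟩ := hx
        calc ‖gradient u x‖ₑ ^ n ≤ ENNReal.ofReal (c k) ^ n := by
              gcongr
              rw [← ofReal_norm]
              exact ENNReal.ofReal_le_ofReal (hgradle k x hk)
          _ = (O k).indicator (fun _ => ENNReal.ofReal (c k) ^ n) x := by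
              rw [indicator_of_mem hk]
          _ ≤ _ := ENNReal.le_tsum k
      · push Not at hx
        rw [hgrad0 x hx]
        simp [hn0]
    calc ∫⁻ x in Eᶜ, ‖gradient u x‖ₑ ^ n
        ≤ ∫⁻ x in Eᶜ, ∑' k, (O k).indicator (fun _ => ENNReal.ofReal (c k) ^ n) x :=
          lintegral_mono fun x => h1 x
      _ = ∑' k, ∫⁻ x in Eᶜ, (O k).indicator (fun _ => ENNReal.ofReal (c k) ^ n) x := by
          rw [lintegral_tsum]
          intro k
          exact (measurable_const.indicator (hOo k).measurableSet).aemeasurable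
      _ ≤ ∑' k : ℕ, ENNReal.ofReal ((1 / 2) ^ k) := by
          apply ENNReal.tsum_le_tsum
          intro k
          rw [lintegral_indicator (hOo k).measurableSet, lintegral_const,
            Measure.restrict_apply_univ, Measure.restrict_apply (hOo k).measurableSet]
          refine le_trans ?_ (hsmall k)
          gcongr
          intro x hx
          exact ⟨hx.1, fun h => hx.2 (hKE k h)⟩
      _ < ⊤ := by
          rw [← ENNReal.ofReal_tsum_of_nonneg (fun k => (hθ k).le) summable_geometric_two]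
          exact ENNReal.ofReal_lt_top
  have hmem : MemW1 Eᶜ u := by
    refine ⟨(hucont.memLp_of_hasCompactSupport hucs).restrict _, gradient u, ?_,
      thmLoc n Eᶜ u hE.isOpen_compl hulip⟩
    refine ⟨hgm.aestronglyMeasurable, ?_⟩
    rw [eLpNorm_lt_top_iff_lintegral_rpow_enorm_lt_top hnE0 hnEt]
    simpa using henergy
  obtain ⟨-, G, hGm, hG⟩ := hrem u hucont hmem
  rw [Measure.restrict_univ] at hGm
  have hGfin : ∫⁻ x, ‖G x‖ₑ ^ n < ⊤ := by
    have h1 := hGm.2
    rw [eLpNorm_lt_top_iff_lintegral_rpow_enorm_lt_top hnE0 hnEt] at h1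
    simpa using h1
  -- coordinates
  have hGi : MemLp (fun x => G x i0) n volume :=
    (EuclideanSpace.proj i0 : V n →L[ℝ] ℝ).comp_memLp' hGm
  have hGiloc : LocallyIntegrable (fun x => G x i0) volume :=
    hGi.locallyIntegrable (by exact_mod_cast hn)
  have hgim : Measurable (fun x => gradient u x i0) :=
    (EuclideanSpace.proj i0 : V n →L[ℝ] ℝ).continuous.measurable.comp hgm
  have hgile : ∀ k, ∀ x ∈ O k, |gradient u x i0| ≤ c k := by
    intro k x hx
    rw [← Real.norm_eq_abs]
    exact (PiLp.norm_apply_le _ i0).trans (hgradle k x hx)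
  have hae : ∀ k, ∀ᵐ x, x ∈ O k → G x i0 - gradient u x i0 = 0 := by
    intro k
    have hgiint : IntegrableOn (fun x => gradient u x i0) (O k) volume := by
      refine IntegrableOn.of_bound (((Metric.isBounded_closedBall).subset
        (hOball k)).measure_lt_top) hgim.aestronglyMeasurable (c k) ?_
      filter_upwards [ae_restrict_mem (hOo k).measurableSet] with x hx using hgile k x hx
    apply (hOo k).ae_eq_zero_of_integral_contDiff_smul_eq_zero
    · exact (hGiloc.locallyIntegrableOn (O k)).sub hgiint.locallyIntegrableOn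
    · intro φ hφ hφc hφO
      have hφ0 : ∀ x, x ∉ O k → φ x = 0 := fun x hx =>
        image_eq_zero_of_notMem_tsupport fun h => hx (hφO h)
      have hdφ0 : ∀ x, x ∉ O k → fderiv ℝ φ x = 0 := fun x hx => by
        by_contra h
        exact hx (hφO (support_fderiv_subset ℝ h))
      have e1 := hG φ hφ hφc (subset_univ _) i0
      have hlipO : ∀ x ∈ O k, ∃ r : ℝ, 0 < r ∧ ∃ C : ℝ≥0,
          LipschitzOnWith C u (Metric.ball x r) := by
        intro x hx
        obtain ⟨r, hr, hball⟩ := Metric.isOpen_iff.1 (hOo k) x hx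
        refine ⟨r, hr, Real.toNNReal (c k), ?_⟩
        intro y hy z hz
        rw [huO k y (hball hy), huO k z (hball hz)]
        exact hvlip k y z
      have e2 := thmLoc n (O k) u (hOo k) hlipO φ hφ hφc hφO i0
      have e3 : ∫ x in O k, u x * fderiv ℝ φ x (EuclideanSpace.single i0 1) =
          ∫ x, u x * fderiv ℝ φ x (EuclideanSpace.single i0 1) := by
        apply setIntegral_eq_integral_of_forall_compl_eq_zero
        intro x hx
        rw [hdφ0 x hx]; simp
      have e4 : ∫ x in O k, gradient u x i0 * φ x = ∫ x, gradient u x i0 * φ x := by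
        apply setIntegral_eq_integral_of_forall_compl_eq_zero
        intro x hx
        rw [hφ0 x hx]; simp
      rw [setIntegral_univ, setIntegral_univ] at e1
      rw [e3, e4, e1] at e2
      have i1 : Integrable (fun x => φ x * G x i0) := by
        have := hGiloc.integrable_smul_left_of_hasCompactSupport hφ.continuous hφc
        simpa only [smul_eq_mul] using this
      have i2 : Integrable (fun x => φ x * gradient u x i0) := by
        refine ((hφ.continuous.integrable_of_hasCompactSupport hφc).norm.mul_const (c k)).mono'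
          (hφ.continuous.measurable.aestronglyMeasurable.mul hgim.aestronglyMeasurable) ?_
        refine Eventually.of_forall fun x => ?_
        by_cases hx : x ∈ O k
        · rw [norm_mul]
          exact mul_le_mul_of_nonneg_left (hgile k x hx) (norm_nonneg _)
        · rw [hφ0 x hx]; simp
      have e5 : ∫ x, φ x * (G x i0 - gradient u x i0) =
          (∫ x, φ x * G x i0) - ∫ x, φ x * gradient u x i0 := by
        rw [← integral_sub i1 i2]
        congr 1
        funext x
        ring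
      have e6 : ∫ x, φ x * G x i0 = ∫ x, G x i0 * φ x := by
        congr 1; funext x; rw [mul_comm]
      have e7 : ∫ x, φ x * gradient u x i0 = ∫ x, gradient u x i0 * φ x := by
        congr 1; funext x; rw [mul_comm]
      have e8 : ∫ x, φ x * (G x i0 - gradient u x i0) = 0 := by
        rw [e5, e6, e7]
        linarith
      simpa only [smul_eq_mul] using e8
  -- lower bound on the pieces
  have hlow : ∀ k, 1 ≤ ∫⁻ x in K k, ‖G x‖ₑ ^ n := by
    intro k
    refine (hbig k).trans ?_
    have h1 : ∫⁻ _ in K k, ENNReal.ofReal (c k) ^ n = ENNReal.ofReal (c k) ^ n * volume (K k) := by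
      rw [lintegral_const, Measure.restrict_apply_univ]
    rw [← h1]
    apply lintegral_mono_ae
    have hhyp : ∀ᵐ x : V n, ∀ m : ℤ, x i0 ≠ η k * m / 2 := by
      rw [ae_all_iff]
      intro m
      rw [ae_iff]
      simp only [not_not]
      exact Null_hyper i0 _
    filter_upwards [ae_restrict_mem (hK k).measurableSet, ae_restrict_of_ae (hae k),
      ae_restrict_of_ae hhyp] with x hx h2 h3
    have h4 : G x i0 = gradient u x i0 := sub_eq_zero.1 (h2 (hKO k hx))
    have h5 : |gradient u x i0| = c k := by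
      rw [hgradO k x (hKO k hx), Loc_gradient_apply]
      exact Null_bump_fderiv (hc0 k) (hη k) (hηδ k) hx h3
    gcongr
    rw [← ofReal_norm]
    apply ENNReal.ofReal_le_ofReal
    calc c k = |G x i0| := by rw [h4, h5]
      _ = ‖G x i0‖ := (Real.norm_eq_abs _).symm
      _ ≤ ‖G x‖ := PiLp.norm_apply_le _ i0
  have hsum : ∑' k : ℕ, ∫⁻ x in K k, ‖G x‖ₑ ^ n ≤ ∫⁻ x, ‖G x‖ₑ ^ n := by
    rw [← lintegral_iUnion (fun k => (hK k).measurableSet)]
    · exact setLIntegral_le_lintegral _ _
    · intro j k hjk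
      exact (hOd j k hjk).mono (hKO j) (hKO k)
  have htop : (⊤ : ℝ≥0∞) ≤ ∑' k : ℕ, ∫⁻ x in K k, ‖G x‖ₑ ^ n := by
    rw [← ENNReal.tsum_const_eq_top_of_ne_zero (α := ℕ) (c := 1) one_ne_zero]
    exact ENNReal.tsum_le_tsum hlow
  exact absurd (htop.trans hsum) (not_le.2 hGfin)

end CNEDRem
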