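import Pool.Agent.Work.MP_bb0df9_an.Basic

/-!
# MP_bb0df9_an : the one-jump lemma
-/

open MeasureTheory Set Filter Topology
open scoped ENNReal NNReal ContDiff

namespace CNEDRem

theorem OneJump_seq {α : Type*} (G : ℕ → α → Prop) (R : ℕ → α → α → Prop)
    (h : ∀ i a, G i a → ∃ b, G (i + 1) b ∧ R i a b) (a₀ : α) (h₀ : G 0 a₀) :
    ∃ s : ℕ → α, s 0 = a₀ ∧ ∀ i, G i (s i) ∧ R i (s i) (s (i + 1)) := by
  choose f hf using h
  let s : (i : ℕ) → {a // G i a} := fun i => Nat.rec (motive := fun i => {a // G i a}) ⟨a₀, h₀⟩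
    (fun i x => ⟨f i x.1 x.2, (hf i x.1 x.2).1⟩) i
  exact ⟨fun i => (s i).1, rfl, fun i => ⟨(s i).2, (hf i (s i).1 (s i).2).2⟩⟩

section

variable {n : ℕ} {U : Set (V n)} {w : V n → ℝ≥0∞}

theorem OneJump_sd_symm (hS : StmtWdSymm) (A B : Set (V n)) : sd U w A B = sd U w B A := by
  apply le_antisymm
  · exact le_sd fun b hb a ha => by rw [hS]; exact sd_le ha hb
  · exact le_sd fun a ha b hb => by rw [hS]; exact sd_le hb ha

theorem OneJump_tri_left (hT : StmtWdTri) (A : Set (V n)) (x y : V n) :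
    sd U w A {y} ≤ sd U w A {x} + wd U w x y := by
  refine ENNReal.le_of_forall_pos_le_add fun ε hε hfin => ?_
  have h1 : sd U w A {x} ≠ ⊤ := ne_top_of_le_ne_top hfin.ne le_self_add
  have h2 : sd U w A {x} < sd U w A {x} + ε :=
    ENNReal.lt_add_right h1 (by exact_mod_cast hε.ne')
  obtain ⟨a, ha, b, hb, h3⟩ := exists_of_sd_lt h2
  rw [mem_singleton_iff] at hb
  subst hb
  calc sd U w A {y} ≤ wd U w a y := sd_le ha (mem_singleton y)
    _ ≤ wd U w a b + wd U w b y := hT n U w a b y
    _ ≤ (sd U w A {b} + ε) + wd U w b y := add_le_add h3.le le_rfl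
    _ = _ := by rw [add_right_comm]

theorem OneJump_tri (hT : StmtWdTri) (A B : Set (V n)) (x : V n) :
    sd U w A B ≤ sd U w A {x} + sd U w {x} B := by
  refine ENNReal.le_of_forall_pos_le_add fun ε hε hfin => ?_
  have h1 : sd U w {x} B ≠ ⊤ := ne_top_of_le_ne_top hfin.ne le_add_self
  have h2 : sd U w {x} B < sd U w {x} B + ε :=
    ENNReal.lt_add_right h1 (by exact_mod_cast hε.ne')
  obtain ⟨a, ha, b, hb, h3⟩ := exists_of_sd_lt h2
  rw [mem_singleton_iff] at ha
  subst ha
  calc sd U w A B ≤ sd U w A {b} := sd_anti le_rfl (singleton_subset_iff.mpr hb)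
    _ ≤ sd U w A {a} + wd U w a b := OneJump_tri_left hT A a b
    _ ≤ sd U w A {a} + (sd U w {a} B + ε) := add_le_add le_rfl h3.le
    _ = _ := by rw [add_assoc]

theorem OneJump_side (hC : StmtConcat) (hT : StmtWdTri) {δ : ℝ≥0∞} (hδ : δ ≠ 0)
    (hw : Measurable w) (hlb : ∀ x, δ ≤ w x) (A : Set (V n)) (P : ℕ → Set (V n)) (h0 : P 0 = A)
    (hP : ∀ i, P (i + 1) = P i ∨ ∃ x, P (i + 1) = {x})
    (hfin : (∑' i, sd U w (P i) (P (i + 1))) ≠ ⊤) :
    (∀ i, P i = A) ∨ ∃ xb : V n, sd U w A {xb} ≤ ∑' i, sd U w (P i) (P (i + 1)) ∧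
      ∃ (x : ℕ → V n) (N : ℕ), (∀ i, N ≤ i → P i = {x i}) ∧ Tendsto x atTop (𝓝 xb) := by
  classical
  by_cases hall : ∀ i, P i = A
  · exact Or.inl hall
  refine Or.inr ?_
  push Not at hall
  set i₁ := Nat.find hall with hi₁
  have hne : P i₁ ≠ A := Nat.find_spec hall
  have hlt : ∀ j, j < i₁ → P j = A := fun j hj => by
    by_contra hc
    exact Nat.find_min hall hj hc
  obtain ⟨j, hj⟩ : ∃ j, i₁ = j + 1 := by
    rcases Nat.eq_zero_or_pos i₁ with h | h
    · exact absurd (h ▸ h0) hne
    · exact ⟨i₁ - 1, by omega⟩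
  have hjA : P j = A := hlt j (by omega)
  have hsing : ∀ k, ∃ x, P (j + 1 + k) = {x} := by
    intro k
    induction k with
    | zero =>
      rcases hP j with h | h
      · exact absurd ((congrArg P hj).trans (h.trans hjA)) hne
      · exact h
    | succ k ih =>
      rcases hP (j + 1 + k) with h | h
      · obtain ⟨x, hx⟩ := ih
        exact ⟨x, h.trans hx⟩
      · exact h
  choose y hy using hsing
  let f : ℕ → ℝ≥0∞ := fun i => sd U w (P i) (P (i + 1))
  have hf : ∀ k, wd U w (y k) (y (k + 1)) = f (j + 1 + k) := by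
    intro k
    show _ = sd U w (P (j + 1 + k)) (P (j + 1 + k + 1))
    rw [hy k, show j + 1 + k + 1 = j + 1 + (k + 1) from rfl, hy (k + 1), sd_singleton]
  have hsum : f j + ∑' k, f (j + 1 + k) ≤ ∑' i, f i := by
    have e1 : ∑' k, f (j + k) = f j + ∑' k, f (j + 1 + k) := by
      rw [tsum_eq_zero_add' ENNReal.summable]
      congr 1
      refine tsum_congr fun k => ?_
      congr 1
      omega
    rw [← e1]
    exact ENNReal.tsum_comp_le_tsum_of_injective (add_right_injective j) f
  have hfin' : (∑' k, wd U w (y k) (y (k + 1))) ≠ ⊤ := by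
    simp only [hf]
    exact ne_top_of_le_ne_top hfin (le_add_self.trans hsum)
  obtain ⟨xb, hx1, hx2⟩ := hC n U δ w hδ hw hlb y hfin'
  refine ⟨xb, ?_, fun i => y (i - (j + 1)), j + 1, fun i hi => ?_, ?_⟩
  · calc sd U w A {xb} ≤ sd U w A {y 0} + wd U w (y 0) xb := OneJump_tri_left hT A (y 0) xb
      _ ≤ f j + ∑' k, f (j + 1 + k) := by
        refine add_le_add ?_ ?_
        · show _ ≤ sd U w (P j) (P (j + 1))
          rw [hjA]
          have := hy 0
          rw [Nat.add_zero] at this
          rw [this]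
        · simp only [hf] at hx2
          exact hx2
      _ ≤ _ := hsum
  · have := hy (i - (j + 1))
    rw [show j + 1 + (i - (j + 1)) = i by omega] at this
    exact this
  · exact hx1.comp (tendsto_sub_atTop_nat (j + 1))

end

theorem thmOneJump (hA : StmtClaimA) (hC : StmtConcat) (hT : StmtWdTri) (hS : StmtWdSymm) :
    StmtOneJump := by
  intro n U δ w hU hw hδ A B hAc hBc hr hRob
  obtain ⟨r, hr0, hr⟩ := hr
  rcases le_or_gt 1 (psi U w A B) with h1 | h1
  · exact (min_le_right _ _).trans h1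
  refine (min_le_left _ _).trans ?_
  -- it suffices to bound by `psi + ε` for small `ε`
  have key : ∀ ε : ℝ≥0∞, 0 < ε → psi U w A B + ε < 1 → sd U w A B ≤ psi U w A B + ε := by
    intro ε hε hε1
    have hε2 : ε / 2 ≠ 0 := (ENNReal.half_pos hε.ne').ne'
    obtain ⟨d, hd0, hd⟩ := ENNReal.exists_pos_sum_of_countable hε2 ℕ
    have hε3 : ε < 1 := lt_of_le_of_lt le_add_self hε1
    have hd1 : ∀ i, (d i : ℝ≥0∞) < ε / 2 := fun i => lt_of_le_of_lt (ENNReal.le_tsum i) hd
    let τ : ℕ → ℝ := fun i => min (d i : ℝ) (r / 2)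
    have hτ0 : ∀ i, 0 < τ i := fun i => lt_min (by exact_mod_cast hd0 i) (by linarith)
    have hτd : ∀ i, ENNReal.ofReal (τ i) ≤ d i := fun i => by
      refine (ENNReal.ofReal_le_ofReal (min_le_left _ _)).trans ?_
      rw [ENNReal.ofReal_coe_nnreal]
    have hτr : ∀ i, τ i < r := fun i => lt_of_le_of_lt (min_le_right _ _) (by linarith)
    have hdd : ∀ i, (d i : ℝ≥0∞) + d (i + 1) < 1 := fun i => by
      calc (d i : ℝ≥0∞) + d (i + 1) < ε / 2 + ε / 2 := ENNReal.add_lt_add (hd1 _) (hd1 _)
        _ = ε := ENNReal.add_halves ε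
        _ < 1 := hε3
    have hdlim : Tendsto (fun i => (d i : ℝ≥0∞)) atTop (𝓝 0) :=
      ENNReal.tendsto_atTop_zero_of_tsum_ne_top (ne_top_of_lt hd)
    have hτlim : Tendsto τ atTop (𝓝 0) := by
      have h2 : Tendsto (fun i => (d i : ℝ)) atTop (𝓝 0) := by
        have h3 : Tendsto d atTop (𝓝 0) := by
          rw [← ENNReal.tendsto_coe, ENNReal.coe_zero]
          exact hdlim
        have h4 := NNReal.tendsto_coe.mpr h3
        rw [NNReal.coe_zero] at h4
        exact h4
      exact squeeze_zero (fun i => (hτ0 i).le) (fun i => min_le_left _ _) h2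
    -- the construction
    obtain ⟨s, hs0, hs⟩ := OneJump_seq
      (G := fun i (z : Set (V n) × Set (V n)) => Src U A z.1 ∧ Src U B z.2 ∧
        psi U w z.1 z.2 + d i < 1)
      (R := fun i z z' => (z'.1 = z.1 ∨ ∃ x ∈ U, z'.1 = {x}) ∧ (z'.2 = z.2 ∨ ∃ x ∈ U, z'.2 = {x}) ∧
        sd U w z.1 z'.1 + sd U w z'.2 z.2 ≤ psi U w z.1 z.2 + d i ∧
        psi U w z'.1 z'.2 ≤ ENNReal.ofReal (τ i) ∧
        ∃ a ∈ z'.1, ∃ b ∈ z'.2, dist a b ≤ τ i)
      (by
        rintro i ⟨P, Q⟩ ⟨hP, hQ, hlt⟩
        obtain ⟨P', Q', h2, h3, h4, h5, h6⟩ := hA n U δ w hU hw hδ A B hRob P Q hP hQ (d i)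
          (by exact_mod_cast hd0 i) hlt (τ i) (hτ0 i)
        refine ⟨(P', Q'), ⟨?_, ?_, ?_⟩, h2, h3, h4, h5, h6⟩
        · rcases h2 with h2 | h2
          · show Src U A P'
            rw [h2]
            exact hP
          · exact Or.inr h2
        · rcases h3 with h3 | h3
          · show Src U B Q'
            rw [h3]
            exact hQ
          · exact Or.inr h3
        · exact lt_of_le_of_lt (add_le_add (h5.trans (hτd i)) le_rfl) (hdd i))
      (A, B) ⟨Or.inl rfl, Or.inl rfl, by
        refine lt_of_le_of_lt (add_le_add le_rfl ?_) hε1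
        exact (hd1 0).le.trans ENNReal.half_le_self⟩
    let P : ℕ → Set (V n) := fun i => (s i).1
    let Q : ℕ → Set (V n) := fun i => (s i).2
    have hP0 : P 0 = A := by show (s 0).1 = A; rw [hs0]
    have hQ0 : Q 0 = B := by show (s 0).2 = B; rw [hs0]
    have hPs : ∀ i, P (i + 1) = P i ∨ ∃ x, P (i + 1) = {x} := fun i => by
      rcases (hs i).2.1 with h | ⟨x, -, h⟩
      · exact Or.inl h
      · exact Or.inr ⟨x, h⟩
    have hQs : ∀ i, Q (i + 1) = Q i ∨ ∃ x, Q (i + 1) = {x} := fun i => by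
      rcases (hs i).2.2.1 with h | ⟨x, -, h⟩
      · exact Or.inl h
      · exact Or.inr ⟨x, h⟩
    have hcost : ∀ i, sd U w (P i) (P (i + 1)) + sd U w (Q i) (Q (i + 1))
        ≤ psi U w (P i) (Q i) + d i := fun i => by
      rw [OneJump_sd_symm hS (Q i) (Q (i + 1))]
      exact (hs i).2.2.2.1
    have hpsi : ∀ i, psi U w (P (i + 1)) (Q (i + 1)) ≤ d i := fun i =>
      (hs i).2.2.2.2.1.trans (hτd i)
    have hnear : ∀ i, ∃ a ∈ P (i + 1), ∃ b ∈ Q (i + 1), dist a b ≤ τ i := fun i =>
      (hs i).2.2.2.2.2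
    have htot : (∑' i, sd U w (P i) (P (i + 1))) + (∑' i, sd U w (Q i) (Q (i + 1)))
        ≤ psi U w A B + ε := by
      rw [← ENNReal.tsum_add]
      calc (∑' i, (sd U w (P i) (P (i + 1)) + sd U w (Q i) (Q (i + 1))))
          ≤ ∑' i, (psi U w (P i) (Q i) + d i) := ENNReal.tsum_le_tsum hcost
        _ = (∑' i, psi U w (P i) (Q i)) + ∑' i, (d i : ℝ≥0∞) := ENNReal.tsum_add
        _ = (psi U w (P 0) (Q 0) + ∑' i, psi U w (P (i + 1)) (Q (i + 1))) +
            ∑' i, (d i : ℝ≥0∞) := by rw [tsum_eq_zero_add' ENNReal.summable]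
        _ ≤ (psi U w A B + ∑' i, (d i : ℝ≥0∞)) + ∑' i, (d i : ℝ≥0∞) := by
            rw [hP0, hQ0]
            exact add_le_add (add_le_add le_rfl (ENNReal.tsum_le_tsum hpsi)) le_rfl
        _ ≤ (psi U w A B + ε / 2) + ε / 2 := add_le_add (add_le_add le_rfl hd.le) hd.le
        _ = psi U w A B + ε := by rw [add_assoc, ENNReal.add_halves]
    have hne : psi U w A B + ε ≠ ⊤ := (hε1.trans ENNReal.one_lt_top).ne
    have hfP : (∑' i, sd U w (P i) (P (i + 1))) ≠ ⊤ :=
      ne_top_of_le_ne_top hne (le_self_add.trans htot)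
    have hfQ : (∑' i, sd U w (Q i) (Q (i + 1))) ≠ ⊤ :=
      ne_top_of_le_ne_top hne (le_add_self.trans htot)
    have hsP := OneJump_side hC hT hδ hw.meas hw.lb A P hP0 hPs hfP
    have hsQ := OneJump_side hC hT hδ hw.meas hw.lb B Q hQ0 hQs hfQ
    rcases hsP with hcP | ⟨xb, hx1, x, N, hx2, hx3⟩
    · rcases hsQ with hcQ | ⟨yb, hy1, y, N', hy2, hy3⟩
      · obtain ⟨a, ha, b, hb, hab⟩ := hnear 0
        rw [hcP] at ha
        rw [hcQ] at hb
        exact absurd (hr a ha b hb) (not_le.mpr (lt_of_le_of_lt hab (hτr 0)))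
      · have hyA : yb ∈ A := by
          have hcl : ∀ i, ∃ a ∈ A, N' ≤ i + 1 → dist a (y (i + 1)) ≤ τ i := fun i => by
            obtain ⟨a, ha, b, hb, hab⟩ := hnear i
            rw [hcP] at ha
            refine ⟨a, ha, fun hi => ?_⟩
            rw [hy2 (i + 1) hi, mem_singleton_iff] at hb
            rw [← hb]
            exact hab
          choose a ha1 ha2 using hcl
          have hlim : Tendsto a atTop (𝓝 yb) := by
            rw [tendsto_iff_dist_tendsto_zero]
            have h3 : Tendsto (fun i => τ i + dist (y (i + 1)) yb) atTop (𝓝 (0 + 0)) := by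
              refine hτlim.add ?_
              have := (tendsto_iff_dist_tendsto_zero.mp hy3).comp (tendsto_add_atTop_nat 1)
              exact this
            rw [add_zero] at h3
            refine squeeze_zero' (Eventually.of_forall fun i => dist_nonneg) ?_ h3
            filter_upwards [eventually_ge_atTop N'] with i hi
            exact (dist_triangle _ _ _).trans (add_le_add (ha2 i (by omega)) le_rfl)
          exact hAc.mem_of_tendsto hlim (Eventually.of_forall ha1)
        calc sd U w A B ≤ sd U w {yb} B := sd_anti (singleton_subset_iff.mpr hyA) le_rfl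
          _ = sd U w B {yb} := OneJump_sd_symm hS _ _
          _ ≤ _ := hy1
          _ ≤ _ := le_add_self.trans htot
    · rcases hsQ with hcQ | ⟨yb, hy1, y, N', hy2, hy3⟩
      · have hxB : xb ∈ B := by
          have hcl : ∀ i, ∃ a ∈ B, N ≤ i + 1 → dist a (x (i + 1)) ≤ τ i := fun i => by
            obtain ⟨a, ha, b, hb, hab⟩ := hnear i
            rw [hcQ] at hb
            refine ⟨b, hb, fun hi => ?_⟩
            rw [hx2 (i + 1) hi, mem_singleton_iff] at ha
            rw [← ha, dist_comm]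
            exact hab
          choose a ha1 ha2 using hcl
          have hlim : Tendsto a atTop (𝓝 xb) := by
            rw [tendsto_iff_dist_tendsto_zero]
            have h3 : Tendsto (fun i => τ i + dist (x (i + 1)) xb) atTop (𝓝 (0 + 0)) := by
              refine hτlim.add ?_
              have := (tendsto_iff_dist_tendsto_zero.mp hx3).comp (tendsto_add_atTop_nat 1)
              exact this
            rw [add_zero] at h3
            refine squeeze_zero' (Eventually.of_forall fun i => dist_nonneg) ?_ h3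
            filter_upwards [eventually_ge_atTop N] with i hi
            exact (dist_triangle _ _ _).trans (add_le_add (ha2 i (by omega)) le_rfl)
          exact hBc.mem_of_tendsto hlim (Eventually.of_forall ha1)
        calc sd U w A B ≤ sd U w A {xb} := sd_anti le_rfl (singleton_subset_iff.mpr hxB)
          _ ≤ _ := hx1
          _ ≤ _ := le_self_add.trans htot
      · have hxy : xb = yb := by
          refine tendsto_nhds_unique (f := fun i => x (i + 1)) (l := atTop)
            (hx3.comp (tendsto_add_atTop_nat 1)) ?_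
          rw [tendsto_iff_dist_tendsto_zero]
          have h3 : Tendsto (fun i => τ i + dist (y (i + 1)) yb) atTop (𝓝 (0 + 0)) := by
            refine hτlim.add ?_
            have := (tendsto_iff_dist_tendsto_zero.mp hy3).comp (tendsto_add_atTop_nat 1)
            exact this
          rw [add_zero] at h3
          refine squeeze_zero' (Eventually.of_forall fun i => dist_nonneg) ?_ h3
          filter_upwards [eventually_ge_atTop N, eventually_ge_atTop N'] with i hi hi'
          obtain ⟨a, ha, b, hb, hab⟩ := hnear i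
          rw [hx2 (i + 1) (by omega), mem_singleton_iff] at ha
          rw [hy2 (i + 1) (by omega), mem_singleton_iff] at hb
          rw [ha, hb] at hab
          exact (dist_triangle _ _ _).trans (add_le_add hab le_rfl)
        calc sd U w A B ≤ sd U w A {xb} + sd U w {xb} B := OneJump_tri hT A B xb
          _ ≤ _ := by
            refine (add_le_add hx1 ?_).trans htot
            rw [OneJump_sd_symm hS, hxy]
            exact hy1
  -- let `ε` tend to zero
  obtain ⟨η, hη0, hη⟩ : ∃ η : ℝ≥0∞, 0 < η ∧ psi U w A B + η < 1 := by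
    obtain ⟨c, hc1, hc2⟩ := exists_between h1
    refine ⟨c - psi U w A B, tsub_pos_of_lt hc1, ?_⟩
    rw [add_tsub_cancel_of_le hc1.le]
    exact hc2
  refine ENNReal.le_of_forall_pos_le_add fun ε hε _ => ?_
  have h2 : 0 < min (ε : ℝ≥0∞) η := lt_min (by exact_mod_cast hε) hη0
  refine (key (min ε η) h2 (lt_of_le_of_lt (add_le_add le_rfl (min_le_right _ _)) hη)).trans ?_
  exact add_le_add le_rfl (min_le_left _ _)

end CNEDRem
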