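import Pool.Agent.Work.MP_bb0df9_an.Basic

/-!
# MP_bb0df9_an : exhaustions and locally finite sums of perturbations
-/

open MeasureTheory Set Filter Topology
open scoped ENNReal NNReal ContDiff

namespace CNEDRem

theorem thmExh : StmtExh := by
  intro n U hU
  refine ⟨fun m => Metric.closedBall 0 m ∩
    {x | ENNReal.ofReal (1 / ((m : ℝ) + 1)) ≤ Metric.infEDist x Uᶜ}, ?_, ?_, ?_, ?_⟩
  · intro m
    exact (isCompact_closedBall _ _).inter_right
      (isClosed_le continuous_const Metric.continuous_infEDist)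
  · intro m x hx
    by_contra hxU
    have h0 : Metric.infEDist x Uᶜ = 0 := Metric.infEDist_zero_of_mem hxU
    have h1 : ENNReal.ofReal (1 / ((m : ℝ) + 1)) ≤ Metric.infEDist x Uᶜ := hx.2
    rw [h0] at h1
    have h2 : 0 < ENNReal.ofReal (1 / ((m : ℝ) + 1)) := ENNReal.ofReal_pos.2 (by positivity)
    exact absurd h1 (not_le.2 h2)
  · intro m
    have ho : IsOpen (Metric.ball (0 : V n) ((m : ℝ) + 1) ∩
        {x | ENNReal.ofReal (1 / ((m : ℝ) + 1 + 1)) < Metric.infEDist x Uᶜ}) :=
      Metric.isOpen_ball.inter (isOpen_lt continuous_const Metric.continuous_infEDist)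
    refine Subset.trans ?_ (interior_maximal ?_ ho)
    · rintro x ⟨hx1, hx2⟩
      refine ⟨?_, ?_⟩
      · rw [Metric.mem_closedBall] at hx1
        rw [Metric.mem_ball]
        linarith
      · have h3 : ENNReal.ofReal (1 / ((m : ℝ) + 1)) ≤ Metric.infEDist x Uᶜ := hx2
        refine lt_of_lt_of_le ?_ h3
        rw [ENNReal.ofReal_lt_ofReal_iff (by positivity)]
        apply one_div_lt_one_div_of_lt <;> [positivity; linarith]
    · rintro x ⟨hx1, hx2⟩
      refine ⟨?_, ?_⟩
      · rw [Metric.mem_ball] at hx1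
        rw [Metric.mem_closedBall]
        push_cast
        exact hx1.le
      · have h3 : ENNReal.ofReal (1 / ((m : ℝ) + 1 + 1)) ≤ Metric.infEDist x Uᶜ := le_of_lt hx2
        simpa using h3
  · intro x hx
    have hpos : 0 < Metric.infEDist x Uᶜ := by
      rw [pos_iff_ne_zero]
      intro h0
      have := (Metric.mem_iff_infEDist_zero_of_closed (isClosed_compl_iff.2 hU)).2 h0
      exact this hx
    obtain ⟨ε, hε0, hε⟩ : ∃ ε : ℝ, 0 < ε ∧ ENNReal.ofReal ε ≤ Metric.infEDist x Uᶜ := by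
      rcases eq_or_ne (Metric.infEDist x Uᶜ) ⊤ with h | h
      · exact ⟨1, one_pos, by simp [h]⟩
      · exact ⟨(Metric.infEDist x Uᶜ).toReal, ENNReal.toReal_pos hpos.ne' h,
          (ENNReal.ofReal_toReal h).le⟩
    obtain ⟨m1, hm1⟩ := exists_nat_one_div_lt hε0
    obtain ⟨m2, hm2⟩ := exists_nat_ge (dist x 0)
    rw [mem_iUnion]
    refine ⟨max m1 m2, ?_, ?_⟩
    · rw [Metric.mem_closedBall]
      refine hm2.trans ?_
      exact_mod_cast le_max_right m1 m2
    · refine le_trans (ENNReal.ofReal_le_ofReal ?_) hε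
      refine le_trans ?_ hm1.le
      apply one_div_le_one_div_of_le (by positivity)
      have : (m1 : ℝ) ≤ ((max m1 m2 : ℕ) : ℝ) := by exact_mod_cast le_max_left m1 m2
      linarith

theorem PtSum_mono {n : ℕ} {U : Set (V n)} {C : ℕ → Set (V n)} (hC : IsExh U C) :
    Monotone C :=
  monotone_nat_of_le_succ fun m => (hC.int m).trans interior_subset

theorem PtSum_norm {n : ℕ} (hn : 1 ≤ n) (U : Set (V n)) (g : ℕ → V n → ℝ≥0∞)
    (hg : ∀ j, Measurable (g j)) :
    lpn U (fun x => ∑' j, g j x) ≤ ∑' j, lpn U (g j) := by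
  have hn0 : (0 : ℝ) < n := by exact_mod_cast hn
  -- finite sums
  have hfin : ∀ N : ℕ, lpn U (fun x => ∑ j ∈ Finset.range N, g j x) ≤
      ∑ j ∈ Finset.range N, lpn U (g j) := by
    intro N
    induction N with
    | zero =>
      simp only [Finset.range_zero, Finset.sum_empty]
      have : lpn U (fun _ : V n => (0 : ℝ≥0∞)) = 0 := by
        unfold lpn
        simp [ENNReal.zero_rpow_of_pos hn0, ENNReal.zero_rpow_of_pos (inv_pos.2 hn0)]
      rw [this]
    | succ N ih =>
      rw [Finset.sum_range_succ]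
      have h1 : (fun x => ∑ j ∈ Finset.range (N + 1), g j x) =
          (fun x => ∑ j ∈ Finset.range N, g j x) + g N := by
        funext x
        rw [Finset.sum_range_succ]
        rfl
      rw [h1]
      refine (thmLpnAdd n hn U _ _ ?_ (hg N)).trans (add_le_add ih le_rfl)
      exact Finset.measurable_fun_sum _ fun j _ => hg j
  set K : ℝ≥0∞ := ∑' j, lpn U (g j) with hK
  have h2 : ∀ N : ℕ, ∫⁻ x in U, (∑ j ∈ Finset.range N, g j x) ^ (n : ℝ) ≤ K ^ (n : ℝ) := by
    intro N
    have h3 : lpn U (fun x => ∑ j ∈ Finset.range N, g j x) ≤ K :=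
      (hfin N).trans (ENNReal.sum_le_tsum _)
    unfold lpn at h3
    have h4 := ENNReal.rpow_le_rpow h3 hn0.le
    rwa [← ENNReal.rpow_mul, one_div, inv_mul_cancel₀ hn0.ne', ENNReal.rpow_one] at h4
  have h5 : ∫⁻ x in U, (∑' j, g j x) ^ (n : ℝ) ≤ K ^ (n : ℝ) := by
    have h6 : ∀ x, (∑' j, g j x) ^ (n : ℝ) = ⨆ N : ℕ, (∑ j ∈ Finset.range N, g j x) ^ (n : ℝ) := by
      intro x
      rw [ENNReal.tsum_eq_iSup_nat]
      have h7 := (ENNReal.orderIsoRpow (n : ℝ) hn0).map_iSup
        (fun N => ∑ j ∈ Finset.range N, g j x)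
      simpa only [ENNReal.orderIsoRpow_apply] using h7
    simp_rw [h6]
    rw [lintegral_iSup]
    · exact iSup_le h2
    · intro N
      exact (Finset.measurable_fun_sum _ fun j _ => hg j).pow_const _
    · intro N M hNM x
      refine ENNReal.rpow_le_rpow ?_ hn0.le
      exact Finset.sum_le_sum_of_subset (Finset.range_mono hNM)
  unfold lpn
  have h8 := ENNReal.rpow_le_rpow h5 (z := 1 / (n : ℝ)) (by positivity)
  rwa [← ENNReal.rpow_mul, mul_one_div, div_self hn0.ne', ENNReal.rpow_one] at h8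

theorem thmPtSum : StmtPtSum := by
  intro n hn U C hC g κ m hm hg m₀ hm₀
  have hmono := PtSum_mono hC
  -- local finiteness
  have hloc : ∀ k : ℕ, ∀ y ∈ C k, ∑' j, g j y = ∑ j ∈ Finset.range k, g j y := by
    intro k y hy
    refine tsum_eq_sum fun j hj => ?_
    rw [Finset.mem_range, not_lt] at hj
    exact (hg j).zero y (hmono (hj.trans (hm j)) hy)
  refine ⟨Measurable.tsum fun j => (hg j).meas, ?_, ?_, ?_, ?_⟩
  · intro x hx
    obtain ⟨k, hk⟩ := mem_iUnion.1 (hC.cover hx)
    show ∑' j, g j x ≠ ⊤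
    rw [hloc k x hk]
    exact ENNReal.sum_ne_top.2 fun j _ => (hg j).fin x hx
  · intro x hx
    obtain ⟨k, hk⟩ := mem_iUnion.1 (hC.cover hx)
    have hc : ContinuousWithinAt (fun y => ∑ j ∈ Finset.range (k + 1), g j y) U x := by
      exact (continuousOn_finsetSum (Finset.range (k + 1)) (fun j _ => (hg j).cont)) x hx
    refine hc.congr_of_eventuallyEq ?_ ?_
    · have h1 : C (k + 1) ∈ 𝓝 x := mem_interior_iff_mem_nhds.1 (hC.int k hk)
      filter_upwards [mem_nhdsWithin_of_mem_nhds h1] with y hy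
      exact hloc (k + 1) y hy
    · exact hloc (k + 1) x (hmono (Nat.le_succ k) hk)
  · intro x hx
    show ∑' j, g j x = 0
    rw [ENNReal.tsum_eq_zero]
    intro j
    exact (hg j).zero x (hmono (hm₀ j) hx)
  · refine (PtSum_norm hn U g fun j => (hg j).meas).trans ?_
    exact ENNReal.tsum_le_tsum fun j => (hg j).norm

end CNEDRem
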