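import Pool.Agent.Work.MP_bb0df9_an.Basic

/-!
# MP_bb0df9_an : refinement of chains
-/

open MeasureTheory Set Filter Topology
open scoped ENNReal NNReal ContDiff

namespace CNEDRem

theorem Refine_chain_mono {n : ℕ} {U : Set (V n)} {w w' : V n → ℝ≥0∞} {A B : Set (V n)} {N : ℕ}
    {t t' : ℝ≥0∞} {O : ℕ → Set (V n)} (h : IsChainO U w A B N t O) (hw : ∀ x, w x ≤ w' x)
    (ht : t' ≤ t) : IsChainO U w' A B N t' O :=
  ⟨h.zero, h.last, h.op, h.gap, fun j hj => (ht.trans (h.far j hj)).trans (sd_mono hw _ _)⟩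

theorem Refine_pt_mono {n : ℕ} {U C : Set (V n)} {κ κ' : ℝ≥0∞} {g : V n → ℝ≥0∞}
    (h : IsPt U C κ g) (hκ : κ ≤ κ') : IsPt U C κ' g :=
  ⟨h.meas, h.fin, h.cont, h.zero, h.norm.trans hκ⟩

/-- The interleaved sequence of sets. -/
def Refine_mix {n : ℕ} (O O' : ℕ → Set (V n)) (k : ℕ) : Set (V n) :=
  if k % 2 = 0 then O (k / 2) else O' (k / 2)

theorem Refine_mix_even {n : ℕ} (O O' : ℕ → Set (V n)) (j : ℕ) :
    Refine_mix O O' (2 * j) = O j := by
  unfold Refine_mix
  rw [if_pos (by omega), show 2 * j / 2 = j by omega]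

theorem Refine_mix_odd {n : ℕ} (O O' : ℕ → Set (V n)) (j : ℕ) :
    Refine_mix O O' (2 * j + 1) = O' j := by
  unfold Refine_mix
  rw [if_neg (by omega), show (2 * j + 1) / 2 = j by omega]

theorem thmRefine (hM : StmtMulti) : StmtRefine := by
  intro n hn U C δ w hU hE hw hδ hwn A B hA hB N t ε O hO htt hε hεt κ m hκ
  obtain ⟨g, hg, O', hO'⟩ := hM n hn U C δ w hU hE hw hδ hwn N (fun j => A ∪ closure (O j))
    (fun j => (O (j + 1))ᶜ) (fun j _ => hA.union isClosed_closure)
    (fun j hj => (hO.op (j + 1) (by omega)).isClosed_compl)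
    (fun j hj => by
      obtain ⟨r, hr, h⟩ := hO.gap j hj
      exact ⟨r, hr, fun a ha b hb => h a ha b hb⟩)
    t t ε hε hεt htt (fun j hj => hO.far j hj) κ m hκ
  refine ⟨g, hg, Refine_mix O O', ⟨?_, ?_, ?_, ?_, ?_⟩, fun j _ => Refine_mix_even O O' j⟩
  · have := Refine_mix_even O O' 0
    rw [mul_zero] at this
    rw [this]
    exact hO.zero
  · rw [Refine_mix_even]
    exact hO.last
  · intro j hj
    rcases Nat.even_or_odd' j with ⟨i, hi | hi⟩
    · rw [hi, Refine_mix_even]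
      exact hO.op i (by omega)
    · rw [hi, Refine_mix_odd]
      exact (hO' i (by omega)).1
  · intro j hj
    rcases Nat.even_or_odd' j with ⟨i, hi | hi⟩
    · rw [hi, Refine_mix_even, Refine_mix_odd]
      exact (hO' i (by omega)).2.1
    · rw [hi, Refine_mix_odd, show 2 * i + 1 + 1 = 2 * (i + 1) by ring, Refine_mix_even]
      obtain ⟨r1, hr1, h1⟩ := hO.gap i (by omega)
      obtain ⟨r2, hr2, h2⟩ := (hO' i (by omega)).2.2.1
      refine ⟨min r1 r2, lt_min hr1 hr2, fun a ha b hb => ?_⟩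
      rcases ha with ha | ha
      · exact (min_le_left _ _).trans (h1 a (Or.inl ha) b hb)
      · exact (min_le_right _ _).trans (h2 a ha b hb)
  · intro j hj
    rcases Nat.even_or_odd' j with ⟨i, hi | hi⟩
    · rw [hi, Refine_mix_even, Refine_mix_odd]
      exact (hO' i (by omega)).2.2.2.1
    · rw [hi, Refine_mix_odd, show 2 * i + 1 + 1 = 2 * (i + 1) by ring, Refine_mix_even,
        sd_union_left]
      refine le_min ?_ ?_
      · have h1 : t + t ≤ sd U w (A ∪ closure (O i)) (O (i + 1))ᶜ := hO.far i (by omega)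
        calc t - ε ≤ t := tsub_le_self
          _ ≤ t + t := le_self_add
          _ ≤ sd U w (A ∪ closure (O i)) (O (i + 1))ᶜ := h1
          _ ≤ sd U w A (O (i + 1))ᶜ := sd_anti subset_union_left le_rfl
          _ ≤ sd U (w + g) A (O (i + 1))ᶜ := sd_mono (fun x => le_self_add) _ _
      · exact tsub_le_self.trans (hO' i (by omega)).2.2.2.2

/-- The constants of the chains. -/
noncomputable def Refine_c (D D' : ℝ) (k : ℕ) : ℝ := D' + (D - D') / 2 ^ k

theorem thmSeq (hR : StmtRefine) (hP : StmtPtSum) : StmtSeq := by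
  intro n hn U C δ w hU hE hw hδ hwn A B hA hB hAB D D' hD' hDD hD1 hDs κ m hκ
  obtain ⟨κ', hκ'pos, hκ'sum⟩ := ENNReal.exists_pos_sum_of_countable' hκ ℕ
  have hκ'top : ∀ k, κ' k ≠ ⊤ := fun k =>
    ((ENNReal.le_tsum k).trans_lt (hκ'sum.trans_le le_top)).ne
  set c := Refine_c D D' with hc
  have hcdef : ∀ k, c k = D' + (D - D') / 2 ^ k := fun k => rfl
  have hDp : 0 < D - D' := by linarith
  have hcpos : ∀ k, D' < c k := fun k => by
    rw [hcdef]
    have : 0 < (D - D') / 2 ^ k := by positivity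
    linarith
  have hcle : ∀ k, c k ≤ D := fun k => by
    rw [hcdef]
    have : (D - D') / 2 ^ k ≤ D - D' := div_le_self hDp.le (one_le_pow₀ (by norm_num))
    linarith
  have hcdec : ∀ k, c (k + 1) < c k := fun k => by
    rw [hcdef, hcdef]
    have : (D - D') / 2 ^ (k + 1) < (D - D') / 2 ^ k := by
      apply div_lt_div_of_pos_left hDp (by positivity)
      exact pow_lt_pow_right₀ (by norm_num) (Nat.lt_succ_self k)
    linarith
  let St : ℕ → (V n → ℝ≥0∞) × (ℕ → Set (V n)) → Prop := fun k p =>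
    IsWt U δ p.1 ∧ lpn U p.1 ≠ ⊤ ∧
      IsChainO U p.1 A B (2 ^ k) (ENNReal.ofReal (c k / 2 ^ k)) p.2
  have step : ∀ (k : ℕ) (p : (V n → ℝ≥0∞) × (ℕ → Set (V n))), St k p →
      ∃ p' : (V n → ℝ≥0∞) × (ℕ → Set (V n)), St (k + 1) p' ∧
        (∃ g : V n → ℝ≥0∞, IsPt U (C (m + k)) (κ' k) g ∧ p'.1 = p.1 + g) ∧
        ∀ j ≤ 2 ^ k, p'.2 (2 * j) = p.2 j := by
    rintro k ⟨v, O⟩ ⟨hv, hvn, hch⟩
    have hcp : 0 < c k := hD'.trans (hcpos k)
    have hcp1 : 0 < c (k + 1) := hD'.trans (hcpos (k + 1))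
    have htt : ENNReal.ofReal (c k / 2 ^ (k + 1)) + ENNReal.ofReal (c k / 2 ^ (k + 1)) =
        ENNReal.ofReal (c k / 2 ^ k) := by
      rw [← ENNReal.ofReal_add (by positivity) (by positivity)]
      congr 1
      rw [pow_succ]
      ring
    have hch' : IsChainO U v A B (2 ^ k)
        (ENNReal.ofReal (c k / 2 ^ (k + 1)) + ENNReal.ofReal (c k / 2 ^ (k + 1))) O := by
      rw [htt]
      exact hch
    have hle1 : ENNReal.ofReal (c k / 2 ^ (k + 1)) + ENNReal.ofReal (c k / 2 ^ (k + 1)) ≤ 1 := by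
      rw [htt]
      apply ENNReal.ofReal_le_one.mpr
      calc c k / 2 ^ k ≤ c k := div_le_self hcp.le (one_le_pow₀ (by norm_num))
        _ ≤ 1 := (hcle k).trans hD1
    have hεpos : 0 < ENNReal.ofReal ((c k - c (k + 1)) / 2 ^ (k + 1)) := by
      apply ENNReal.ofReal_pos.mpr
      have := hcdec k
      apply div_pos (by linarith) (by positivity)
    have hεlt : ENNReal.ofReal ((c k - c (k + 1)) / 2 ^ (k + 1)) <
        ENNReal.ofReal (c k / 2 ^ (k + 1)) := by
      apply (ENNReal.ofReal_lt_ofReal_iff (by positivity)).mpr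
      apply div_lt_div_of_pos_right (by linarith) (by positivity)
    obtain ⟨g, hg, O', hO', hOO'⟩ := hR n hn U C δ v hU hE hv hδ hvn A B hA hB (2 ^ k)
      (ENNReal.ofReal (c k / 2 ^ (k + 1))) (ENNReal.ofReal ((c k - c (k + 1)) / 2 ^ (k + 1)))
      O hch' hle1 hεpos hεlt (κ' k) (m + k) (hκ'pos k).ne'
    refine ⟨⟨v + g, O'⟩, ⟨?_, ?_, ?_⟩, ⟨g, hg, rfl⟩, hOO'⟩
    · exact thmWtAdd n U (C (m + k)) δ (κ' k) v g hv hg
    · have h1 := thmLpnAdd n hn U v g hv.meas hg.meas
      refine (h1.trans_lt (ENNReal.add_lt_top.mpr ⟨hvn.lt_top, ?_⟩)).ne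
      exact hg.norm.trans_lt (hκ'top k).lt_top
    · have h1 : ENNReal.ofReal (c k / 2 ^ (k + 1)) -
          ENNReal.ofReal ((c k - c (k + 1)) / 2 ^ (k + 1)) =
          ENNReal.ofReal (c (k + 1) / 2 ^ (k + 1)) := by
        rw [← ENNReal.ofReal_sub]
        · congr 1
          ring
        · have := hcdec k
          apply div_nonneg (by linarith) (by positivity)
      rw [h1] at hO'
      have h2 : 2 ^ (k + 1) = 2 * 2 ^ k := pow_succ' _ _
      show IsChainO U (v + g) A B (2 ^ (k + 1)) (ENNReal.ofReal (c (k + 1) / 2 ^ (k + 1))) O'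
      rw [show (2 : ℕ) ^ (k + 1) = 2 * 2 ^ k from h2]
      exact hO'
  choose! f hf using step
  have h0 : St 0 ⟨w, fun j => if j = 0 then ∅ else Bᶜ⟩ := by
    refine ⟨hw, hwn, ?_⟩
    have hc0 : c 0 / 2 ^ 0 = D := by
      rw [hcdef]
      norm_num
    rw [hc0]
    refine ⟨by simp, by simp, ?_, ?_, ?_⟩
    · intro j _
      by_cases hj : j = 0
      · simp [hj]
      · simpa [hj] using hB
    · intro j hj
      have hj0 : j = 0 := by
        rw [pow_zero] at hj
        omega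
      subst hj0
      obtain ⟨r, hr, h⟩ := hAB
      refine ⟨r, hr, fun a ha b hb => h a ?_ b ?_⟩
      · simpa using ha
      · simpa using hb
    · intro j hj
      have hj0 : j = 0 := by
        rw [pow_zero] at hj
        omega
      subst hj0
      simpa using hDs
  let seq : (k : ℕ) → {p : (V n → ℝ≥0∞) × (ℕ → Set (V n)) // St k p} := fun k =>
    Nat.rec (motive := fun k => {p : (V n → ℝ≥0∞) × (ℕ → Set (V n)) // St k p})
      ⟨⟨w, fun j => if j = 0 then ∅ else Bᶜ⟩, h0⟩ (fun k q => ⟨f k q.1, (hf k q.1 q.2).1⟩) k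
  have hseq : ∀ k, (seq (k + 1)).1 = f k (seq k).1 := fun k => rfl
  have hg : ∀ k, ∃ g : V n → ℝ≥0∞, IsPt U (C (m + k)) (κ' k) g ∧
      (seq (k + 1)).1.1 = (seq k).1.1 + g := fun k => by
    rw [hseq]
    exact (hf k (seq k).1 (seq k).2).2.1
  choose g hgp hgs using hg
  have hsum : ∀ k x, (seq k).1.1 x = w x + ∑ j ∈ Finset.range k, g j x := by
    intro k
    induction k with
    | zero =>
      intro x
      rw [Finset.range_zero, Finset.sum_empty, add_zero]
      rfl
    | succ k ih =>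
      intro x
      rw [hgs k, Pi.add_apply, ih x, Finset.sum_range_succ, add_assoc]
  have hfin := hP n hn U C hE g κ' (fun j => m + j) (fun j => Nat.le_add_left j m) hgp m
    (fun j => Nat.le_add_right m j)
  refine ⟨fun x => ∑' j, g j x, Refine_pt_mono hfin hκ'sum.le, fun k => (seq k).1.2, ?_, ?_⟩
  · intro k
    refine Refine_chain_mono (seq k).2.2.2 (fun x => ?_) ?_
    · rw [hsum k x]
      exact add_le_add le_rfl (ENNReal.sum_le_tsum _)
    · apply ENNReal.ofReal_le_ofReal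
      exact div_le_div_of_nonneg_right (hcpos k).le (by positivity)
  · intro k j hj
    have := (hf k (seq k).1 (seq k).2).2.2 j hj
    rw [← hseq] at this
    exact this

end CNEDRem
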