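import Pool.Agent.Work.MP_bb0df9_an.Basic

/-!
# MP_bb0df9_an : the modulus of a ring
-/

open MeasureTheory Set Filter Topology
open scoped ENNReal NNReal ContDiff

namespace CNEDRem

variable {n : ℕ}

/-- Polar coordinates. -/
theorem Ring_polar (hn : 1 ≤ n) (f : V n → ℝ≥0∞) (hf : Measurable f) :
    ∫⁻ x, f x = ∫⁻ θ : Metric.sphere (0 : V n) 1,
      (∫⁻ r in Ioi (0 : ℝ), ENNReal.ofReal (r ^ (n - 1)) * f (r • (θ : V n)))
        ∂(volume : Measure (V n)).toSphere := by
  have : Nontrivial (V n) := by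
    apply Module.nontrivial_of_finrank_pos (R := ℝ)
    rw [finrank_euclideanSpace_fin]
    omega
  have hd : Module.finrank ℝ (V n) = n := finrank_euclideanSpace_fin
  have h1 : ∫⁻ x, f x = ∫⁻ x in ({0}ᶜ : Set (V n)), f x := by
    rw [restrict_compl_singleton]
  rw [h1, ← lintegral_subtype_comap (measurableSet_singleton _).compl f]
  have hp := (volume : Measure (V n)).measurePreserving_homeomorphUnitSphereProd
  have h2 := hp.lintegral_comp_emb (Homeomorph.measurableEmbedding _)
    (fun p => f ((homeomorphUnitSphereProd (V n)).symm p : ({0}ᶜ : Set (V n))))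
  simp only [Homeomorph.symm_apply_apply] at h2
  rw [h2]
  have hm : Measurable (fun p : Metric.sphere (0 : V n) 1 × Ioi (0 : ℝ) =>
      f ((homeomorphUnitSphereProd (V n)).symm p : ({0}ᶜ : Set (V n)))) :=
    hf.comp (measurable_subtype_coe.comp (homeomorphUnitSphereProd (V n)).symm.measurable)
  rw [lintegral_prod _ hm.aemeasurable]
  refine lintegral_congr (fun θ => ?_)
  rw [Measure.volumeIoiPow, hd]
  rw [lintegral_withDensity_eq_lintegral_mul _ (by fun_prop) (by fun_prop)]
  rw [← lintegral_subtype_comap measurableSet_Ioi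
    (fun r : ℝ => ENNReal.ofReal (r ^ (n - 1)) * f (r • (θ : V n)))]
  refine lintegral_congr (fun r => ?_)
  simp

theorem Ring_polar_center (hn : 1 ≤ n) (x₀ : V n) (f : V n → ℝ≥0∞) (hf : Measurable f) :
    ∫⁻ x, f x = ∫⁻ θ : Metric.sphere (0 : V n) 1,
      (∫⁻ r in Ioi (0 : ℝ), ENNReal.ofReal (r ^ (n - 1)) * f (x₀ + r • (θ : V n)))
        ∂(volume : Measure (V n)).toSphere := by
  rw [← lintegral_add_left_eq_self f x₀]
  exact Ring_polar hn (fun x => f (x₀ + x)) (hf.comp (measurable_const_add x₀))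

/-- Polar coordinates in a ring. -/
theorem Ring_polar_ring (hn : 1 ≤ n) (x₀ : V n) {a b : ℝ} (ha : 0 < a) (f : V n → ℝ≥0∞)
    (hf : Measurable f) :
    ∫⁻ x in {x | a < dist x x₀ ∧ dist x x₀ < b}, f x = ∫⁻ θ : Metric.sphere (0 : V n) 1,
      (∫⁻ r in Ioo a b, ENNReal.ofReal (r ^ (n - 1)) * f (x₀ + r • (θ : V n)))
        ∂(volume : Measure (V n)).toSphere := by
  have hR : MeasurableSet {x : V n | a < dist x x₀ ∧ dist x x₀ < b} := by
    apply MeasurableSet.inter
    · exact (isOpen_lt continuous_const (continuous_id.dist continuous_const)).measurableSet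
    · exact (isOpen_lt (continuous_id.dist continuous_const) continuous_const).measurableSet
  rw [← lintegral_indicator hR, Ring_polar_center hn x₀ _ (hf.indicator hR)]
  refine lintegral_congr (fun θ => ?_)
  have h1 : ∀ r : ℝ, r ∈ Ioi (0 : ℝ) → ENNReal.ofReal (r ^ (n - 1)) *
      ({x : V n | a < dist x x₀ ∧ dist x x₀ < b}.indicator f (x₀ + r • (θ : V n))) =
      (Ioo a b).indicator (fun r : ℝ => ENNReal.ofReal (r ^ (n - 1)) * f (x₀ + r • (θ : V n))) r := by
    intro r hr
    have hr' : (0 : ℝ) < r := hr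
    have hd : dist (x₀ + r • (θ : V n)) x₀ = r := by
      rw [dist_eq_norm, add_sub_cancel_left, norm_smul, Real.norm_of_nonneg hr'.le,
        norm_eq_of_mem_sphere, mul_one]
    by_cases h : r ∈ Ioo a b
    · rw [indicator_of_mem h, indicator_of_mem]
      show a < dist _ _ ∧ dist _ _ < b
      rw [hd]
      exact h
    · rw [indicator_of_notMem h, indicator_of_notMem, mul_zero]
      intro h2
      apply h
      have h3 : a < dist (x₀ + r • (θ : V n)) x₀ ∧ dist (x₀ + r • (θ : V n)) x₀ < b := h2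
      rw [hd] at h3
      exact h3
  rw [setLIntegral_congr_fun measurableSet_Ioi h1, lintegral_indicator measurableSet_Ioo,
    Measure.restrict_restrict measurableSet_Ioo]
  congr 2
  exact inter_eq_left.2 (fun r hr => lt_trans ha hr.1)

/-- The integral of `c / r` over `(a, b)` for `c = 1 / log (b / a)`. -/
theorem Ring_log {a b : ℝ} (ha : 0 < a) (hab : a < b) :
    ∫⁻ r in Ioo a b, ENNReal.ofReal (1 / (r * Real.log (b / a))) = 1 := by
  have hlog : 0 < Real.log (b / a) := Real.log_pos ((one_lt_div ha).2 hab)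
  have h1 : ∫ r in Ioo a b, 1 / (r * Real.log (b / a)) = 1 := by
    rw [← integral_Ioc_eq_integral_Ioo, ← intervalIntegral.integral_of_le hab.le]
    have h2 : (fun r : ℝ => 1 / (r * Real.log (b / a))) =
        fun r : ℝ => (Real.log (b / a))⁻¹ * r⁻¹ := by
      funext r
      rw [one_div, mul_inv, mul_comm]
    rw [h2, intervalIntegral.integral_const_mul, integral_inv_of_pos ha (ha.trans hab)]
    exact inv_mul_cancel₀ hlog.ne'
  have hcont : ContinuousOn (fun r : ℝ => 1 / (r * Real.log (b / a))) (Icc a b) := by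
    apply ContinuousOn.div continuousOn_const (by fun_prop)
    intro r hr
    exact mul_ne_zero (ha.trans_le hr.1).ne' hlog.ne'
  rw [← ofReal_integral_eq_lintegral_ofReal, h1, ENNReal.ofReal_one]
  · exact (hcont.integrableOn_Icc).mono_set Ioo_subset_Icc_self
  · filter_upwards [ae_restrict_mem measurableSet_Ioo] with r hr
    have : 0 < r := ha.trans hr.1
    positivity

theorem Ring_ray (hArc : StmtArc) (x₀ : V n) {a b : ℝ} (ha : 0 < a) (hab : a < b)
    {ρ : V n → ℝ≥0∞}
    (hρ : Admissible (joining (Metric.closedBall x₀ a) (Metric.sphere x₀ b)) ρ)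
    (θ : Metric.sphere (0 : V n) 1) : 1 ≤ ∫⁻ r in Ioo a b, ρ (x₀ + r • (θ : V n)) := by
  have hθ : ‖(θ : V n)‖ = 1 := norm_eq_of_mem_sphere θ
  let β : ℝ → V n := fun s => x₀ + (a + s) • (θ : V n)
  have hβ : LipschitzWith 1 β := by
    apply LipschitzWith.of_dist_le_mul
    intro s t
    have h1 : β s - β t = (s - t) • (θ : V n) := by
      show (x₀ + (a + s) • (θ : V n)) - (x₀ + (a + t) • (θ : V n)) = _
      rw [add_sub_add_left_eq_sub, ← sub_smul, add_sub_add_left_eq_sub]
    rw [dist_eq_norm, h1, norm_smul, hθ, mul_one, NNReal.coe_one, one_mul, Real.dist_eq,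
      Real.norm_eq_abs]
  have h0 : ∀ s : ℝ, 0 ≤ a + s → dist (β s) x₀ = a + s := by
    intro s hs
    show dist (x₀ + (a + s) • (θ : V n)) x₀ = _
    rw [dist_eq_norm, add_sub_cancel_left, norm_smul, hθ, mul_one, Real.norm_of_nonneg hs]
  have h1 := hArc n ρ hρ.1 (b - a) 1 β (by linarith) hβ
  have h2 : (fun t => β ((b - a) * t)) ∈
      joining (Metric.closedBall x₀ a) (Metric.sphere x₀ b) := by
    refine ⟨?_, ?_, ?_⟩
    · exact (hβ.continuous.comp (continuous_const.mul continuous_id)).continuousOn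
    · show dist (β ((b - a) * 0)) x₀ ≤ a
      rw [mul_zero, h0 0 (by linarith), add_zero]
    · show dist (β ((b - a) * 1)) x₀ = b
      rw [mul_one, h0 (b - a) (by linarith)]
      ring
  have h3 := (hρ.2 _ h2).trans h1
  rw [ENNReal.coe_one, one_mul] at h3
  refine h3.trans (le_of_eq ?_)
  rw [Measure.restrict_congr_set (Ioo_ae_eq_Icc (a := a) (b := b)), ← lintegral_indicator measurableSet_Icc,
    ← lintegral_indicator measurableSet_Icc, ← lintegral_add_left_eq_self
      ((Icc a b).indicator fun r => ρ (x₀ + r • (θ : V n))) a]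
  refine lintegral_congr (fun t => ?_)
  by_cases h : t ∈ Icc 0 (b - a)
  · rw [indicator_of_mem h, indicator_of_mem]
    exact ⟨by linarith [h.1], by linarith [h.2]⟩
  · rw [indicator_of_notMem h, indicator_of_notMem]
    intro h4
    exact h ⟨by linarith [h4.1], by linarith [h4.2]⟩

theorem Ring_pow {a b r : ℝ} (ha : 0 < a) (hab : a < b) (hr : 0 < r) (k : ℕ) :
    ENNReal.ofReal (r ^ k) * ENNReal.ofReal (1 / (r * Real.log (b / a))) ^ k =
      ENNReal.ofReal (1 / Real.log (b / a)) ^ k := by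
  have hlog : 0 < Real.log (b / a) := Real.log_pos ((one_lt_div ha).2 hab)
  rw [ENNReal.ofReal_pow hr.le, ← mul_pow, ← ENNReal.ofReal_mul hr.le]
  congr 2
  field_simp

theorem thmRing (hArc : StmtArc) : StmtRing := by
  intro n hn x₀ a b ha hab
  have hn1 : 1 ≤ n := by omega
  have hlog : 0 < Real.log (b / a) := Real.log_pos ((one_lt_div ha).2 hab)
  refine le_iInf (fun ρ => le_iInf (fun hρ => ?_))
  set R : Set (V n) := {x | a < dist x x₀ ∧ dist x x₀ < b} with hR
  set η : V n → ℝ≥0∞ := fun x => ENNReal.ofReal (1 / (dist x x₀ * Real.log (b / a))) with hη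
  set c : ℝ≥0∞ := ENNReal.ofReal (1 / Real.log (b / a)) ^ (n - 1) with hc
  set S : ℝ≥0∞ := (volume : Measure (V n)).toSphere univ with hS
  have hηm : Measurable η := by
    apply Measurable.ennreal_ofReal
    exact measurable_const.div ((measurable_id.dist measurable_const).mul measurable_const)
  have hηd : ∀ (θ : Metric.sphere (0 : V n) 1) (r : ℝ), r ∈ Ioo a b →
      η (x₀ + r • (θ : V n)) = ENNReal.ofReal (1 / (r * Real.log (b / a))) := by
    intro θ r hr
    have hr' : 0 < r := ha.trans hr.1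
    have hd : dist (x₀ + r • (θ : V n)) x₀ = r := by
      rw [dist_eq_norm, add_sub_cancel_left, norm_smul, Real.norm_of_nonneg hr'.le,
        norm_eq_of_mem_sphere, mul_one]
    simp only [hη, hd]
  have hcne : c ≠ ⊤ := ENNReal.pow_ne_top ENNReal.ofReal_ne_top
  have hSne : S ≠ ⊤ := measure_ne_top _ _
  -- the integral of `η ^ n`
  have hI : ∫⁻ x in R, η x ^ n = c * S := by
    rw [hR, Ring_polar_ring hn1 x₀ ha _ (hηm.pow_const n)]
    have h1 : ∀ θ : Metric.sphere (0 : V n) 1, ∫⁻ r in Ioo a b, ENNReal.ofReal (r ^ (n - 1)) *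
        η (x₀ + r • (θ : V n)) ^ n = c := by
      intro θ
      have h2 : ∀ r : ℝ, r ∈ Ioo a b → ENNReal.ofReal (r ^ (n - 1)) *
          η (x₀ + r • (θ : V n)) ^ n = c * ENNReal.ofReal (1 / (r * Real.log (b / a))) := by
        intro r hr
        rw [hηd θ r hr]
        obtain ⟨k, hk⟩ : ∃ k, n = k + 1 := ⟨n - 1, by omega⟩
        have hk' : n - 1 = k := by omega
        rw [hc, hk', hk, pow_succ, ← mul_assoc, Ring_pow ha hab (ha.trans hr.1)]
      rw [setLIntegral_congr_fun measurableSet_Ioo h2, lintegral_const_mul _ (by fun_prop),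
        Ring_log ha hab, mul_one]
    rw [lintegral_congr h1, lintegral_const]
  -- the integral of `ρ η ^ (n - 1)`
  have hJ : c * S ≤ ∫⁻ x in R, ρ x * η x ^ (n - 1) := by
    rw [hR, Ring_polar_ring hn1 x₀ ha (fun x => ρ x * η x ^ (n - 1))
      (hρ.1.mul (hηm.pow_const (n - 1)))]
    have h1 : ∀ θ : Metric.sphere (0 : V n) 1, c ≤ ∫⁻ r in Ioo a b,
        ENNReal.ofReal (r ^ (n - 1)) * (ρ (x₀ + r • (θ : V n)) *
          η (x₀ + r • (θ : V n)) ^ (n - 1)) := by
      intro θ
      have h2 : ∀ r : ℝ, r ∈ Ioo a b → ENNReal.ofReal (r ^ (n - 1)) *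
          (ρ (x₀ + r • (θ : V n)) * η (x₀ + r • (θ : V n)) ^ (n - 1)) =
            c * ρ (x₀ + r • (θ : V n)) := by
        intro r hr
        rw [hηd θ r hr, mul_left_comm, Ring_pow ha hab (ha.trans hr.1), mul_comm, hc]
      have h3 : Measurable (fun r : ℝ => ρ (x₀ + r • (θ : V n))) :=
        hρ.1.comp (by fun_prop)
      rw [setLIntegral_congr_fun measurableSet_Ioo h2, lintegral_const_mul _ h3]
      calc c = c * 1 := (mul_one c).symm
        _ ≤ _ := mul_le_mul_right (Ring_ray hArc x₀ ha hab hρ θ) c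
    calc c * S = ∫⁻ _θ : Metric.sphere (0 : V n) 1, c ∂(volume : Measure (V n)).toSphere := by
          rw [lintegral_const]
      _ ≤ _ := lintegral_mono h1
  -- Hoelder
  have hn0 : (0 : ℝ) < n := by exact_mod_cast (by omega : 0 < n)
  have hn2 : (1 : ℝ) < n := by exact_mod_cast (by omega : 1 < n)
  have hpq : (n : ℝ).HolderConjugate (Real.conjExponent n) := Real.HolderConjugate.conjExponent hn2
  have hH := ENNReal.lintegral_mul_le_Lp_mul_Lq (volume.restrict R) hpq hρ.1.aemeasurable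
    (hηm.pow_const (n - 1)).aemeasurable
  have e1 : ∫⁻ x in R, (η x ^ (n - 1)) ^ (Real.conjExponent n) = ∫⁻ x in R, η x ^ n := by
    refine lintegral_congr (fun x => ?_)
    rw [← ENNReal.rpow_natCast, ← ENNReal.rpow_mul, ← ENNReal.rpow_natCast]
    congr 1
    rw [Real.conjExponent, Nat.cast_sub hn1, Nat.cast_one]
    field_simp [(sub_pos.2 hn2).ne']
  have e2 : ∫⁻ x in R, ρ x ^ (n : ℝ) ≤ ∫⁻ x, ρ x ^ n := by
    simp only [ENNReal.rpow_natCast]
    exact setLIntegral_le_lintegral _ _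
  have hI2 : (∫⁻ x in R, η x ^ n) ≠ ⊤ := by
    rw [hI]
    exact ENNReal.mul_ne_top hcne hSne
  set I : ℝ≥0∞ := ∫⁻ x in R, η x ^ n with hIdef
  have h4 : I ≤ (∫⁻ x, ρ x ^ n) ^ (1 / (n : ℝ)) * I ^ (1 / Real.conjExponent n) := by
    calc I = c * S := hI
      _ ≤ ∫⁻ x in R, ρ x * η x ^ (n - 1) := hJ
      _ ≤ (∫⁻ x in R, ρ x ^ (n : ℝ)) ^ (1 / (n : ℝ)) *
          (∫⁻ x in R, (η x ^ (n - 1)) ^ (Real.conjExponent n)) ^ (1 / Real.conjExponent n) := hH
      _ ≤ _ := by
        rw [e1]
        exact mul_le_mul_left (ENNReal.rpow_le_rpow e2 (by positivity)) _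
  by_cases hI0 : I = 0
  · rw [hI0]
    exact zero_le
  have hq0 : 0 < Real.conjExponent n := hpq.symm.pos
  have h5 : I = I ^ (1 / (n : ℝ)) * I ^ (1 / Real.conjExponent n) := by
    rw [← ENNReal.rpow_add _ _ hI0 hI2, one_div, one_div, hpq.inv_add_inv_eq_one,
      ENNReal.rpow_one]
  have h6 : I ^ (1 / (n : ℝ)) ≤ (∫⁻ x, ρ x ^ n) ^ (1 / (n : ℝ)) := by
    have h7 : I ^ (1 / Real.conjExponent n) ≠ 0 := by
      simp [ENNReal.rpow_eq_zero_iff, hI0, hI2]
    have h8 : I ^ (1 / Real.conjExponent n) ≠ ⊤ :=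
      ENNReal.rpow_ne_top_of_nonneg (by positivity) hI2
    rw [← ENNReal.mul_le_mul_iff_left h7 h8, ← h5]
    exact h4
  exact (ENNReal.rpow_le_rpow_iff (by positivity)).1 h6

end CNEDRem
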