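import Pool.Agent.Work.MP_bb0df9_an.Basic

/-!
# MP_bb0df9_an : abstract greedy robustification
-/

open MeasureTheory Set Filter Topology
open scoped ENNReal NNReal ContDiff

namespace CNEDRem

variable {n : ℕ} {U : Set (V n)}

theorem Rob1_exh_mono {C : ℕ → Set (V n)} (hC : IsExh U C) : Monotone C :=
  monotone_nat_of_le_succ fun m => (hC.int m).trans interior_subset

theorem Rob1_anti {C : Set (V n)} {C' : Set (V n)} {κ κ' : ℝ≥0∞} {g : V n → ℝ≥0∞} (h : C ⊆ C')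
    (hκ : κ' ≤ κ) (hg : IsPt U C' κ' g) : IsPt U C κ g :=
  ⟨hg.meas, hg.fin, hg.cont, fun x hx => hg.zero x (h hx), hg.norm.trans hκ⟩

theorem Rob1_zero (hn : 1 ≤ n) (C : Set (V n)) (κ : ℝ≥0∞) : IsPt U C κ (0 : V n → ℝ≥0∞) := by
  refine ⟨measurable_const, fun x _ => by simp, continuousOn_const, fun x _ => rfl, ?_⟩
  have hn0 : (0 : ℝ) < n := by exact_mod_cast hn
  have : lpn U (0 : V n → ℝ≥0∞) = 0 := by
    unfold lpn
    simp [hn0]
    omega
  rw [this]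
  exact bot_le

theorem Rob1_add (hn : 1 ≤ n) {C : Set (V n)} {κ κ' : ℝ≥0∞} {f g : V n → ℝ≥0∞}
    (hf : IsPt U C κ f) (hg : IsPt U C κ' g) : IsPt U C (κ + κ') (f + g) := by
  refine ⟨hf.meas.add hg.meas, fun x hx => ?_, hf.cont.add hg.cont, fun x hx => ?_, ?_⟩
  · simpa using ⟨hf.fin x hx, hg.fin x hx⟩
  · simp [hf.zero x hx, hg.zero x hx]
  · exact (thmLpnAdd n hn U f g hf.meas hg.meas).trans (add_le_add hf.norm hg.norm)

/-- The supremum over a class of perturbations. -/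
noncomputable def Rob1S (U : Set (V n)) (C : ℕ → Set (V n)) (J : (V n → ℝ≥0∞) → ℝ≥0∞)
    (B : V n → ℝ≥0∞) (k : ℝ≥0∞) (m : ℕ) : ℝ≥0∞ :=
  ⨆ (g : V n → ℝ≥0∞) (_ : IsPt U (C m) k g), J (B + g)

theorem Rob1_step (hn : 1 ≤ n) {C : ℕ → Set (V n)} (hC : IsExh U C)
    {J : (V n → ℝ≥0∞) → ℝ≥0∞} (hJ1 : ∀ w, J w ≤ 1) (B : V n → ℝ≥0∞)
    (kb : ℝ≥0∞) (mb : ℕ) (hkb : kb ≠ 0) (e : ℝ≥0∞) (he : 0 < e) :
    ∃ (k : ℝ≥0∞) (m : ℕ) (g : V n → ℝ≥0∞), 0 < k ∧ k ≤ kb ∧ mb ≤ m ∧ IsPt U (C m) (k / 4) g ∧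
      ∀ g', IsPt U (C m) k g' → J (B + g') ≤ J (B + g) + e := by
  have hSle : ∀ k m, Rob1S U C J B k m ≤ 1 := fun k m => iSup_le fun g => iSup_le fun _ => hJ1 _
  set S0 : ℝ≥0∞ := ⨅ (k : ℝ≥0∞) (_ : 0 < k) (m : ℕ), Rob1S U C J B k m with hS0
  have hS0le : ∀ k, 0 < k → ∀ m, S0 ≤ Rob1S U C J B k m := fun k hk m =>
    iInf_le_of_le k (iInf_le_of_le hk (iInf_le _ m))
  have he2 : 0 < e / 2 := ENNReal.half_pos he.ne'
  have hS0top : S0 ≠ ⊤ := ne_top_of_le_ne_top ENNReal.one_ne_top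
    ((hS0le 1 one_pos 0).trans (hSle _ _))
  have hlt : S0 < S0 + e / 2 := ENNReal.lt_add_right hS0top he2.ne'
  obtain ⟨k1, hk1, m1, h1⟩ : ∃ k1, 0 < k1 ∧ ∃ m1, Rob1S U C J B k1 m1 < S0 + e / 2 := by
    have h := hlt
    nth_rewrite 1 [hS0] at h
    simp only [iInf_lt_iff] at h
    obtain ⟨k, hk, m, h⟩ := h
    exact ⟨k, hk, m, h⟩
  set k := min k1 kb with hk
  set m := max m1 mb with hm
  have hk0 : 0 < k := lt_min hk1 (pos_iff_ne_zero.2 hkb)
  have hmono := Rob1_exh_mono hC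
  have h2 : Rob1S U C J B k m ≤ S0 + e / 2 := by
    refine le_trans ?_ h1.le
    refine iSup_le fun g => iSup_le fun hg => ?_
    exact le_iSup_of_le g (le_iSup_of_le
      (Rob1_anti (hmono (le_max_left _ _)) (min_le_left _ _) hg) le_rfl)
  have hk4 : 0 < k / 4 := ENNReal.div_pos hk0.ne' (by norm_num)
  obtain ⟨g, hg, h3⟩ : ∃ g, IsPt U (C m) (k / 4) g ∧
      Rob1S U C J B (k / 4) m ≤ J (B + g) + e / 2 := by
    by_contra hcon
    push Not at hcon
    set S := Rob1S U C J B (k / 4) m with hS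
    have h5 : S ≤ S - e / 2 := by
      refine iSup_le fun g => iSup_le fun hg => ?_
      exact ENNReal.le_sub_of_add_le_right
        (ne_top_of_le_ne_top (ne_top_of_le_ne_top ENNReal.one_ne_top (hSle _ _))
          ((le_add_self).trans (hcon g hg).le)) (hcon g hg).le
    have h6 := hcon 0 (Rob1_zero hn _ _)
    have hSt : S ≠ ⊤ := ne_top_of_le_ne_top ENNReal.one_ne_top (hSle _ _)
    have hS0' : S ≠ 0 := (lt_of_le_of_lt bot_le h6).ne'
    exact absurd h5 (not_le.2 (ENNReal.sub_lt_self hSt hS0' he2.ne'))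
  refine ⟨k, m, g, hk0, min_le_right _ _, le_max_right _ _, hg, fun g' hg' => ?_⟩
  calc J (B + g') ≤ Rob1S U C J B k m := le_iSup_of_le g' (le_iSup_of_le hg' le_rfl)
    _ ≤ S0 + e / 2 := h2
    _ ≤ Rob1S U C J B (k / 4) m + e / 2 := by gcongr; exact hS0le _ hk4 _
    _ ≤ J (B + g) + e / 2 + e / 2 := by gcongr
    _ = J (B + g) + e := by rw [add_assoc, ENNReal.add_halves]

theorem thmRob1 (hsum : StmtPtSum) : StmtRob1 := by
  intro n hn U C hC J hJ hJ1 w κ m hκ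
  have hstep : ∀ (B : V n → ℝ≥0∞) (kb : ℝ≥0∞) (mb : ℕ) (j : ℕ),
      ∃ (k : ℝ≥0∞) (m : ℕ) (g : V n → ℝ≥0∞), kb ≠ 0 → 0 < k ∧ k ≤ kb ∧ mb ≤ m ∧
        IsPt U (C m) (k / 4) g ∧
        ∀ g', IsPt U (C m) k g' → J (B + g') ≤ J (B + g) + 2⁻¹ ^ j := by
    intro B kb mb j
    by_cases hkb : kb = 0
    · exact ⟨0, 0, 0, fun h => absurd hkb h⟩
    · obtain ⟨k, m, g, h⟩ := Rob1_step hn hC hJ1 B kb mb hkb (2⁻¹ ^ j)
        (by simp [pos_iff_ne_zero])
      exact ⟨k, m, g, fun _ => h⟩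
  choose K Mf G hKMG using hstep
  let st : ℕ → (V n → ℝ≥0∞) × ℝ≥0∞ × ℕ := fun j => Nat.rec (w, κ, m) (fun j s =>
    (s.1 + G s.1 s.2.1 s.2.2 j, K s.1 s.2.1 s.2.2 j / 4, max (Mf s.1 s.2.1 s.2.2 j) (j + 1))) j
  set kk : ℕ → ℝ≥0∞ := fun j => K (st j).1 (st j).2.1 (st j).2.2 j with hkk
  set mm : ℕ → ℕ := fun j => Mf (st j).1 (st j).2.1 (st j).2.2 j with hmm
  set gg : ℕ → V n → ℝ≥0∞ := fun j => G (st j).1 (st j).2.1 (st j).2.2 j with hgg
  have hst0 : st 0 = (w, κ, m) := rfl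
  have hst1 : ∀ j, st (j + 1) = ((st j).1 + gg j, kk j / 4, max (mm j) (j + 1)) := fun j => rfl
  have hne : ∀ j, (st j).2.1 ≠ 0 := by
    intro j
    induction j with
    | zero => exact hκ
    | succ j ih =>
      rw [hst1]
      exact (ENNReal.div_pos (hKMG _ _ _ j ih).1.ne' (by norm_num)).ne'
  have hP := fun j => hKMG (st j).1 (st j).2.1 (st j).2.2 j (hne j)
  have hk1 : ∀ j, kk (j + 1) ≤ kk j / 4 := fun j => by
    have := (hP (j + 1)).2.1
    rw [hst1] at this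
    exact this
  have hm1 : ∀ j, max (mm j) (j + 1) ≤ mm (j + 1) := fun j => by
    have := (hP (j + 1)).2.2.1
    rw [hst1] at this
    exact this
  have hmm_mono : Monotone mm := monotone_nat_of_le_succ fun j => (le_max_left _ _).trans (hm1 j)
  have hmm_ge : ∀ j, j ≤ mm j := by
    intro j
    cases j with
    | zero => exact Nat.zero_le _
    | succ j => exact (le_max_right _ _).trans (hm1 j)
  have hmm_m : ∀ j, m ≤ mm j := fun j => ((hP 0).2.2.1).trans (hmm_mono (Nat.zero_le j))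
  have hk0 : kk 0 ≤ κ := (hP 0).2.1
  have hkgeo : ∀ j i, kk (i + j) ≤ kk j * 2⁻¹ ^ i := by
    intro j i
    induction i with
    | zero => simp
    | succ i ih =>
      have h1 : kk (i + 1 + j) ≤ kk (i + j) / 4 := by
        have := hk1 (i + j)
        rwa [show i + j + 1 = i + 1 + j by omega] at this
      refine h1.trans ?_
      rw [pow_succ, ← mul_assoc, ← div_eq_mul_inv]
      exact ENNReal.div_le_div ih (by norm_num)
  have hsumk : ∀ j, ∑' i, kk (i + j) / 4 ≤ kk j / 2 := by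
    intro j
    have h1 : ∑' i, kk (i + j) / 4 ≤ ∑' i : ℕ, (kk j / 4) * 2⁻¹ ^ i := by
      refine ENNReal.tsum_le_tsum fun i => ?_
      rw [div_eq_mul_inv, div_eq_mul_inv, mul_right_comm]
      exact mul_le_mul_left (hkgeo j i) _
    refine h1.trans (le_of_eq ?_)
    rw [ENNReal.tsum_mul_left, ENNReal.tsum_geometric, ENNReal.one_sub_inv_two, inv_inv,
      div_eq_mul_inv, div_eq_mul_inv, mul_assoc]
    congr 1
    rw [show (4 : ℝ≥0∞) = 2 * 2 by norm_num, ENNReal.mul_inv (by norm_num) (by norm_num),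
      mul_assoc, ENNReal.inv_mul_cancel (by norm_num) (by norm_num), mul_one]
  -- the tails
  set tl : ℕ → V n → ℝ≥0∞ := fun j x => ∑' i, gg (i + j) x with htl
  have htlPt : ∀ j, IsPt U (C (mm j)) (kk j / 2) (tl j) := by
    intro j
    have h1 := hsum n hn U C hC (fun i => gg (i + j)) (fun i => kk (i + j) / 4)
      (fun i => mm (i + j)) (fun i => (Nat.le_add_right i j).trans (hmm_ge _))
      (fun i => (hP (i + j)).2.2.2.1) (mm j) (fun i => hmm_mono (Nat.le_add_left j i))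
    exact Rob1_anti le_rfl (hsumk j) h1
  have hdec : ∀ j, w + tl 0 = (st j).1 + tl j := by
    intro j
    induction j with
    | zero => rfl
    | succ j ih =>
      rw [ih, hst1]
      funext x
      simp only [Pi.add_apply, htl]
      rw [add_assoc]
      congr 1
      have h3 : ∑' i, gg (i + j) x = gg j x + ∑' i, gg (i + 1 + j) x := by
        rw [tsum_eq_zero_add' ENNReal.summable]
        simp
      rw [h3]
      congr 2
      funext i
      rw [show i + 1 + j = i + (j + 1) by omega]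
  refine ⟨tl 0, Rob1_anti (Rob1_exh_mono hC (hmm_m 0)) ?_ (htlPt 0), fun ε hε => ?_⟩
  · exact (ENNReal.half_le_self).trans hk0
  · obtain ⟨j, hj⟩ := ENNReal.exists_inv_two_pow_lt hε.ne'
    refine ⟨kk j / 2, ENNReal.half_pos (hP j).1.ne', mm j, fun g' hg' => ?_⟩
    have h1 : IsPt U (C (mm j)) (kk j) (tl j + g') := by
      have := Rob1_add hn (htlPt j) hg'
      rwa [ENNReal.add_halves] at this
    have h2 := (hP j).2.2.2.2 _ h1
    rw [hdec j, add_assoc]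
    refine h2.trans (add_le_add ?_ hj.le)
    rw [← hdec j, hdec (j + 1), hst1]
    exact hJ (le_self_add)

end CNEDRem
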