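import Pool.Agent.Work.MP_bb0df9_an.WdLoc

/-!
# MP_bb0df9_an : robustification of a weight
-/

open MeasureTheory Set Filter Topology
open scoped ENNReal NNReal ContDiff

namespace CNEDRem

variable {n : ℕ} {U : Set (V n)}

theorem Robust_local {W W' : V n → ℝ≥0∞} {x : V n} {r : ℝ} (hU : Metric.ball x r ⊆ U)
    {K : ℝ≥0∞} (hK : ∀ y ∈ Metric.ball x r, W y ≤ K) (hW : ∀ y ∈ Metric.ball x r, W' y = W y)
    {y z : V n} (hy : y ∈ Metric.ball x r) (hz : z ∈ Metric.ball x r) :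
    wd U W' y z ≤ K * ENNReal.ofReal (dist y z) := by
  rcases (dist_nonneg (x := y) (y := z)).eq_or_lt with h | h
  · rw [eq_of_dist_eq_zero h.symm, wd_self]
    exact bot_le
  · obtain ⟨γ, hγ, hγb⟩ := WdLoc_path hU hy hz h
    refine (wd_le_cost hγ).trans ?_
    unfold cost
    calc ∫⁻ t in Icc 0 (dist y z), W' (γ t) ≤ ∫⁻ _ in Icc 0 (dist y z), K :=
          lintegral_mono fun t => by rw [hW _ (hγb t)]; exact hK _ (hγb t)
      _ = K * ENNReal.ofReal (dist y z) := by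
          rw [setLIntegral_const, Real.volume_Icc, sub_zero]

theorem Robust_psi_left (hTri : StmtWdTri) (w : V n → ℝ≥0∞) (x x' : V n) (Q : Set (V n)) :
    psi U w {x} Q ≤ wd U w x x' + psi U w {x'} Q := by
  refine psi_le fun s hs => ?_
  refine le_trans ?_ (add_le_add_right (ps_le_psi hs) _)
  rw [← tsub_le_iff_left]
  refine le_ps fun a b hab => ?_
  rw [tsub_le_iff_left]
  refine (ps_le hab).trans ?_
  rw [← add_assoc]
  refine add_le_add ?_ le_rfl
  rw [sd_singleton, sd_singleton]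
  exact hTri n U w x x' a

theorem Robust_psi_right (hTri : StmtWdTri) (w : V n → ℝ≥0∞) (y y' : V n) (P : Set (V n)) :
    psi U w P {y} ≤ wd U w y' y + psi U w P {y'} := by
  refine psi_le fun s hs => ?_
  refine le_trans ?_ (add_le_add_right (ps_le_psi hs) _)
  rw [← tsub_le_iff_left]
  refine le_ps fun a b hab => ?_
  rw [tsub_le_iff_left]
  refine (ps_le hab).trans ?_
  have h : sd U w {b} {y} ≤ wd U w y' y + sd U w {b} {y'} := by
    rw [sd_singleton, sd_singleton, add_comm]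
    exact hTri n U w b y' y
  calc sd U w P {a} + sd U w {b} {y} ≤ sd U w P {a} + (wd U w y' y + sd U w {b} {y'}) :=
        add_le_add le_rfl h
    _ = _ := by rw [← add_assoc, add_comm (sd U w P {a}), add_assoc]

/-- Points near a source. -/
theorem Robust_near {C : ℕ → Set (V n)} (hC : IsExh U C) (hU : IsOpen U) {δ : ℝ≥0∞}
    {W : V n → ℝ≥0∞} (hW : IsWt U δ W) {D : Set (V n)} (hD : U ⊆ closure D)
    {A P : Set (V n)} (hP : Src U A P) {ε : ℝ≥0∞} (hε : 0 < ε) :
    ∃ P0, Src D A P0 ∧ ∃ m1, ∀ m ≥ m1, ∀ W' : V n → ℝ≥0∞, (∀ x ∈ C m, W' x = W x) →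
      (P = P0 ∨ ∃ x x0, P = {x} ∧ P0 = {x0} ∧ wd U W' x x0 ≤ ε ∧ wd U W' x0 x ≤ ε) := by
  rcases hP with rfl | ⟨x, hx, rfl⟩
  · exact ⟨P, Or.inl rfl, 0, fun _ _ _ _ => Or.inl rfl⟩
  · obtain ⟨k, hk⟩ := mem_iUnion.1 (hC.cover hx)
    have hmono : Monotone C := monotone_nat_of_le_succ fun i =>
      (hC.int i).trans interior_subset
    have hk1 : x ∈ interior (C (k + 1)) := hC.int k hk
    obtain ⟨r1, hr1, hb1⟩ := Metric.isOpen_iff.1 isOpen_interior x hk1
    -- a finite bound near x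
    set K : ℝ≥0∞ := W x + 1 with hKdef
    have hKtop : K ≠ ⊤ := ENNReal.add_ne_top.2 ⟨hW.fin x hx, ENNReal.one_ne_top⟩
    have hK0 : K ≠ 0 := by simp [hKdef]
    have hlt : W x < K := ENNReal.lt_add_right (hW.fin x hx) one_ne_zero
    have ho : IsOpen (U ∩ W ⁻¹' Iio K) := hW.cont.isOpen_inter_preimage hU isOpen_Iio
    obtain ⟨r2, hr2, hb2⟩ := Metric.isOpen_iff.1 ho x ⟨hx, hlt⟩
    set r := min r1 r2 with hr
    have hrpos : 0 < r := lt_min hr1 hr2
    -- choose the radius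
    have : ∃ r3 : ℝ, 0 < r3 ∧ K * ENNReal.ofReal r3 ≤ ε := by
      by_cases hεt : ε = ⊤
      · exact ⟨1, one_pos, by simp [hεt]⟩
      · refine ⟨(ε / K).toReal, ENNReal.toReal_pos (ENNReal.div_pos hε.ne' hKtop).ne'
          (ENNReal.div_lt_top hεt hK0).ne, ?_⟩
        rw [ENNReal.ofReal_toReal (ENNReal.div_lt_top hεt hK0).ne]
        exact ENNReal.mul_div_le
    obtain ⟨r3, hr3, hr3'⟩ := this
    obtain ⟨x0, hx0, hx0d⟩ := Metric.mem_closure_iff.1 (hD hx) (min r r3) (lt_min hrpos hr3)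
    refine ⟨{x0}, Or.inr ⟨x0, hx0, rfl⟩, k + 1, fun m hm W' hW' => Or.inr ⟨x, x0, rfl, rfl, ?_⟩⟩
    have hbU : Metric.ball x r ⊆ U := fun y hy =>
      (hb2 (Metric.ball_subset_ball (min_le_right _ _) hy)).1
    have hbK : ∀ y ∈ Metric.ball x r, W y ≤ K := fun y hy =>
      (hb2 (Metric.ball_subset_ball (min_le_right _ _) hy)).2.le
    have hbW : ∀ y ∈ Metric.ball x r, W' y = W y := fun y hy =>
      hW' y (hmono hm (interior_subset (hb1 (Metric.ball_subset_ball (min_le_left _ _) hy))))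
    have hxb : x ∈ Metric.ball x r := Metric.mem_ball_self hrpos
    have hx0b : x0 ∈ Metric.ball x r := by
      rw [Metric.mem_ball, dist_comm]; exact lt_of_lt_of_le hx0d (min_le_left _ _)
    constructor
    · refine (Robust_local hbU hbK hbW hxb hx0b).trans (le_trans ?_ hr3')
      gcongr
      exact (lt_of_lt_of_le hx0d (min_le_right _ _)).le
    · refine (Robust_local hbU hbK hbW hx0b hxb).trans (le_trans ?_ hr3')
      gcongr
      rw [dist_comm]
      exact (lt_of_lt_of_le hx0d (min_le_right _ _)).le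

theorem Robust_compare (hTri : StmtWdTri) {W' : V n → ℝ≥0∞} {P P0 Q Q0 : Set (V n)} {ε : ℝ≥0∞}
    (hP : P = P0 ∨ ∃ x x0, P = {x} ∧ P0 = {x0} ∧ wd U W' x x0 ≤ ε ∧ wd U W' x0 x ≤ ε)
    (hQ : Q = Q0 ∨ ∃ x x0, Q = {x} ∧ Q0 = {x0} ∧ wd U W' x x0 ≤ ε ∧ wd U W' x0 x ≤ ε) :
    psi U W' P Q ≤ psi U W' P0 Q0 + 2 * ε ∧ psi U W' P0 Q0 ≤ psi U W' P Q + 2 * ε := by
  have h1 : psi U W' P Q ≤ psi U W' P0 Q + ε ∧ psi U W' P0 Q ≤ psi U W' P Q + ε := by
    rcases hP with rfl | ⟨x, x0, rfl, rfl, h1, h2⟩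
    · exact ⟨le_self_add, le_self_add⟩
    · constructor
      · refine (Robust_psi_left hTri W' x x0 Q).trans ?_
        rw [add_comm]; exact add_le_add le_rfl h1
      · refine (Robust_psi_left hTri W' x0 x Q).trans ?_
        rw [add_comm]; exact add_le_add le_rfl h2
  have h2 : psi U W' P0 Q ≤ psi U W' P0 Q0 + ε ∧ psi U W' P0 Q0 ≤ psi U W' P0 Q + ε := by
    rcases hQ with rfl | ⟨x, x0, rfl, rfl, h1, h2⟩
    · exact ⟨le_self_add, le_self_add⟩
    · constructor
      · refine (Robust_psi_right hTri W' x x0 P0).trans ?_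
        rw [add_comm]; exact add_le_add le_rfl h2
      · refine (Robust_psi_right hTri W' x0 x P0).trans ?_
        rw [add_comm]; exact add_le_add le_rfl h1
  constructor
  · calc psi U W' P Q ≤ psi U W' P0 Q + ε := h1.1
      _ ≤ psi U W' P0 Q0 + ε + ε := by gcongr; exact h2.1
      _ = _ := by rw [add_assoc, two_mul]
  · calc psi U W' P0 Q0 ≤ psi U W' P0 Q + ε := h2.2
      _ ≤ psi U W' P Q + ε + ε := by gcongr; exact h1.2
      _ = _ := by rw [add_assoc, two_mul]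

/-- The penalisation has small norm. -/
theorem Robust_pert (hn : 1 ≤ n) {C : ℕ → Set (V n)} (hC : IsExh U C) (hU : IsOpen U) {δ : ℝ≥0∞}
    {W : V n → ℝ≥0∞} (hW : IsWt U δ W) (hfin : lpn U W ≠ ⊤) (M : ℕ) {κ : ℝ≥0∞} (hκ : 0 < κ)
    (m0 : ℕ) : ∃ m ≥ m0, ∃ g : V n → ℝ≥0∞, IsPt U (C m) κ g ∧
      ∀ x, x ∉ C (m + 1) → (M : ℝ≥0∞) * W x ≤ g x := by
  have hn0 : (0 : ℝ) < n := by exact_mod_cast hn
  have hmono : Monotone C := monotone_nat_of_le_succ fun i => (hC.int i).trans interior_subset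
  -- cut-off functions
  have hθ : ∀ m, ∃ θ : C(V n, ℝ), EqOn θ 1 (C m) ∧ EqOn θ 0 (interior (C (m + 1)))ᶜ ∧
      HasCompactSupport θ ∧ ∀ x, θ x ∈ Icc (0 : ℝ) 1 := fun m =>
    exists_continuous_one_zero_of_isCompact (hC.compact m) isOpen_interior.isClosed_compl
      (Set.disjoint_compl_right_iff_subset.2 (hC.int m))
  choose θ h1 h0 hsupp h01 using hθ
  -- the tails of the norm
  set ν : Measure (V n) := (volume.restrict U).withDensity (fun x => W x ^ (n : ℝ)) with hν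
  have hWm : Measurable fun x => W x ^ (n : ℝ) := hW.meas.pow_const _
  have hIfin : ∫⁻ x in U, W x ^ (n : ℝ) ≠ ⊤ := by
    intro h
    apply hfin
    unfold lpn
    rw [h, ENNReal.top_rpow_of_pos (by positivity)]
  have hνuniv : ν univ ≠ ⊤ := by
    rw [hν, withDensity_apply _ MeasurableSet.univ]
    simpa using hIfin
  have hνU : ν Uᶜ = 0 := by
    rw [hν, withDensity_apply _ hU.measurableSet.compl, Measure.restrict_restrict
      hU.measurableSet.compl]
    simp
  have hlim : Tendsto (fun m => ν (C m)ᶜ) atTop (𝓝 0) := by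
    have h := tendsto_measure_iInter_atTop (μ := ν) (s := fun m => (C m)ᶜ)
      (fun i => ((hC.compact i).isClosed.measurableSet.compl).nullMeasurableSet)
      (fun i j hij => compl_subset_compl.2 (hmono hij)) ⟨0, ne_top_of_le_ne_top hνuniv
        (measure_mono (subset_univ _))⟩
    have h2 : ν (⋂ m, (C m)ᶜ) = 0 := by
      refine measure_mono_null ?_ hνU
      intro x hx hxU
      obtain ⟨k, hk⟩ := mem_iUnion.1 (hC.cover hxU)
      exact (mem_iInter.1 hx k) hk
    rw [h2] at h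
    exact h
  have hlim2 : Tendsto (fun m => ((M : ℝ≥0∞) ^ (n : ℝ) * ν (C m)ᶜ) ^ (1 / (n : ℝ))) atTop
      (𝓝 0) := by
    have h3 : Tendsto (fun m => (M : ℝ≥0∞) ^ (n : ℝ) * ν (C m)ᶜ) atTop (𝓝 0) := by
      have := ENNReal.Tendsto.const_mul (a := (M : ℝ≥0∞) ^ (n : ℝ)) hlim
        (Or.inr (ENNReal.rpow_ne_top_of_nonneg hn0.le (ENNReal.natCast_ne_top M)))
      simpa using this
    have h4 := (ENNReal.continuous_rpow_const (y := 1 / (n : ℝ))).tendsto 0
    rw [ENNReal.zero_rpow_of_pos (by positivity)] at h4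
    exact h4.comp h3
  obtain ⟨m, hm1, hm2⟩ := ((hlim2.eventually (gt_mem_nhds hκ)).and
    (eventually_ge_atTop m0)).exists
  refine ⟨m, hm2, fun x => M * W x * ENNReal.ofReal (1 - θ m x), ⟨?_, ?_, ?_, ?_, ?_⟩, ?_⟩
  · exact (hW.meas.const_mul _).mul (ENNReal.measurable_ofReal.comp
      (measurable_const.sub (θ m).continuous.measurable))
  · intro x hx
    exact ENNReal.mul_ne_top (ENNReal.mul_ne_top (ENNReal.natCast_ne_top M) (hW.fin x hx))
      ENNReal.ofReal_ne_top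
  · intro x hx
    refine ENNReal.Tendsto.mul (ENNReal.Tendsto.const_mul (hW.cont x hx)
      (Or.inr (ENNReal.natCast_ne_top M))) (Or.inr ENNReal.ofReal_ne_top) ?_
      (Or.inr (ENNReal.mul_ne_top (ENNReal.natCast_ne_top M) (hW.fin x hx)))
    exact ((ENNReal.continuous_ofReal.comp
      (continuous_const.sub (θ m).continuous)).continuousAt).continuousWithinAt
  · intro x hx
    have : θ m x = 1 := h1 m hx
    simp [this]
  · refine le_trans ?_ hm1.le
    unfold lpn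
    refine ENNReal.rpow_le_rpow ?_ (by positivity)
    have hle : ∀ x, (M * W x * ENNReal.ofReal (1 - θ m x)) ^ (n : ℝ) ≤
        (M : ℝ≥0∞) ^ (n : ℝ) * (C m)ᶜ.indicator (fun x => W x ^ (n : ℝ)) x := by
      intro x
      by_cases hx : x ∈ C m
      · have : θ m x = 1 := h1 m hx
        simp [this, ENNReal.zero_rpow_of_pos hn0]
      · rw [indicator_of_mem (by exact hx), ← ENNReal.mul_rpow_of_nonneg _ _ hn0.le]
        refine ENNReal.rpow_le_rpow ?_ hn0.le
        calc (M : ℝ≥0∞) * W x * ENNReal.ofReal (1 - θ m x) ≤ M * W x * 1 := by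
              gcongr
              rw [ENNReal.ofReal_le_one]
              linarith [(h01 m x).1]
          _ = _ := mul_one _
    calc ∫⁻ x in U, (M * W x * ENNReal.ofReal (1 - θ m x)) ^ (n : ℝ)
        ≤ ∫⁻ x in U, (M : ℝ≥0∞) ^ (n : ℝ) * (C m)ᶜ.indicator (fun x => W x ^ (n : ℝ)) x :=
          lintegral_mono fun x => hle x
      _ = (M : ℝ≥0∞) ^ (n : ℝ) * ν (C m)ᶜ := by
          rw [lintegral_const_mul _ (hWm.indicator (hC.compact m).isClosed.measurableSet.compl),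
            lintegral_indicator (hC.compact m).isClosed.measurableSet.compl, hν,
            withDensity_apply _ (hC.compact m).isClosed.measurableSet.compl]
  · intro x hx
    have : θ m x = 0 := h0 m fun h => hx (interior_subset h)
    simp [this]

open Classical in
theorem Robust_term {ι : Type} {a b : ι → ℝ≥0∞} {e : ℝ≥0∞} (hab : ∀ i, a i ≤ b i)
    (hb : ∑' i, b i ≠ ⊤) (h : ∑' i, b i ≤ (∑' i, a i) + e) (i : ι) : b i ≤ a i + e := by
  have e1 := ENNReal.tsum_eq_add_tsum_ite (f := b) i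
  have e2 := ENNReal.tsum_eq_add_tsum_ite (f := a) i
  have hr : (∑' x, ite (x = i) 0 (a x)) ≤ ∑' x, ite (x = i) 0 (b x) := by
    refine ENNReal.tsum_le_tsum fun x => ?_
    split_ifs
    · exact le_rfl
    · exact hab x
  have hfin' : (∑' x, ite (x = i) 0 (b x)) ≠ ⊤ := by
    refine ne_top_of_le_ne_top hb ?_
    rw [e1]
    exact le_add_left le_rfl
  rw [e1, e2] at h
  have h5 := h.trans (add_le_add (add_le_add le_rfl hr) le_rfl)
  rw [add_right_comm] at h5
  exact (ENNReal.add_le_add_iff_right hfin').1 h5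

theorem thmRobust (hRob1 : StmtRob1) (hTri : StmtWdTri) : StmtRobust := by
  intro n hn U C δ w hU hC hw hfin A B κ m hκ
  have hmono : Monotone C := monotone_nat_of_le_succ fun i => (hC.int i).trans interior_subset
  obtain ⟨D, hDU, hDc, hD⟩ :=
    (TopologicalSpace.IsSeparable.of_separableSpace U).exists_countable_dense_subset
  -- enumerate the pairs
  have hcount : (({P | Src D A P} : Set (Set (V n))) ×ˢ {Q | Src D B Q}).Countable := by
    have h : ∀ A : Set (V n), ({P | Src D A P} : Set (Set (V n))).Countable := by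
      intro A
      have : ({P | Src D A P} : Set (Set (V n))) = {A} ∪ (fun x => ({x} : Set (V n))) '' D := by
        ext P
        simp only [Src, mem_ofPred_eq, mem_union, mem_singleton_iff, mem_image]
        constructor
        · rintro (h | ⟨x, hx, rfl⟩)
          · exact Or.inl h
          · exact Or.inr ⟨x, hx, rfl⟩
        · rintro (h | ⟨x, hx, rfl⟩)
          · exact Or.inl h
          · exact Or.inr ⟨x, hx, rfl⟩
      rw [this]
      exact (countable_singleton A).union (hDc.image _)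
    exact (h A).prod (h B)
  have hne : (({P | Src D A P} : Set (Set (V n))) ×ˢ {Q | Src D B Q}).Nonempty :=
    ⟨(A, B), Or.inl rfl, Or.inl rfl⟩
  obtain ⟨f, hf⟩ := hcount.exists_eq_range hne
  set J : (V n → ℝ≥0∞) → ℝ≥0∞ := fun v =>
    ∑' i, (2⁻¹ : ℝ≥0∞) ^ (i + 1) * min (psi U v (f i).1 (f i).2) 1 with hJ
  have hJmono : Monotone J := by
    intro v v' hvv
    refine ENNReal.tsum_le_tsum fun i => ?_
    gcongr
    exact psi_mono hvv _ _
  have hJ1 : ∀ v, J v ≤ 1 := by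
    intro v
    calc J v ≤ ∑' i : ℕ, (2⁻¹ : ℝ≥0∞) ^ (i + 1) := by
          refine ENNReal.tsum_le_tsum fun i => ?_
          calc (2⁻¹ : ℝ≥0∞) ^ (i + 1) * min (psi U v (f i).1 (f i).2) 1
              ≤ (2⁻¹ : ℝ≥0∞) ^ (i + 1) * 1 := by gcongr; exact min_le_right _ _
            _ = _ := mul_one _
      _ = 1 := by
          rw [ENNReal.tsum_geometric_add_one, ENNReal.one_sub_inv_two, inv_inv,
            ENNReal.inv_mul_cancel two_ne_zero ENNReal.ofNat_ne_top]
  obtain ⟨g, hg, hprop⟩ := hRob1 n hn U C hC J hJmono hJ1 w (min κ 1) m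
    (by simp [min_eq_iff, hκ])
  refine ⟨g, ⟨hg.meas, hg.fin, hg.cont, hg.zero, hg.norm.trans (min_le_left _ _)⟩, ?_⟩
  set W := w + g with hWdef
  have hWt : IsWt U δ W := thmWtAdd n U (C m) δ _ w g hw hg
  have hWfin : lpn U W ≠ ⊤ := by
    refine ne_top_of_le_ne_top ?_ (thmLpnAdd n hn U w g hw.meas hg.meas)
    exact ENNReal.add_ne_top.2 ⟨hfin, ne_top_of_le_ne_top ENNReal.one_ne_top
      (hg.norm.trans (min_le_right _ _))⟩
  intro P Q hP hQ M ε hε
  -- the small number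
  obtain ⟨ε1, hε1, hε1t, hε15⟩ : ∃ ε1 : ℝ≥0∞, 0 < ε1 ∧ ε1 ≠ ⊤ ∧ 5 * ε1 ≤ ε := by
    refine ⟨min ε 1 / 5, ENNReal.div_pos (lt_min hε one_pos).ne' (by norm_num), ?_, ?_⟩
    · exact (ENNReal.div_lt_top (ne_top_of_le_ne_top ENNReal.one_ne_top (min_le_right _ _))
        (by norm_num)).ne
    · exact ENNReal.mul_div_le.trans (min_le_left _ _)
  obtain ⟨P0, hP0, mP, hPm⟩ := Robust_near hC hU hWt hD hP hε1
  obtain ⟨Q0, hQ0, mQ, hQm⟩ := Robust_near hC hU hWt hD hQ hε1
  obtain ⟨i, hi⟩ : ∃ i, f i = (P0, Q0) := by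
    have : (P0, Q0) ∈ range f := by rw [← hf]; exact ⟨hP0, hQ0⟩
    exact this
  obtain ⟨κ', hκ', m', hm'⟩ := hprop ((2⁻¹ : ℝ≥0∞) ^ (i + 1) * ε1)
    (by
      refine ENNReal.mul_pos ?_ hε1.ne'
      exact pow_ne_zero _ (ENNReal.inv_ne_zero.2 ENNReal.ofNat_ne_top))
  obtain ⟨m2, hm2, g', hg', hM⟩ := Robust_pert hn hC hU hWt hWfin M hκ' (max m' (max mP mQ))
  have hm2' : m' ≤ m2 := (le_max_left _ _).trans hm2
  have hm2P : mP ≤ m2 := ((le_max_left _ _).trans (le_max_right _ _)).trans hm2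
  have hm2Q : mQ ≤ m2 := ((le_max_right _ _).trans (le_max_right _ _)).trans hm2
  have hW' : ∀ x ∈ C m2, (W + g') x = W x := fun x hx => by simp [hg'.zero x hx]
  refine ⟨C (m2 + 1), hC.compact _, hC.sub _, W + g', hWt.meas.add hg'.meas,
    fun x => le_self_add, ?_, ?_⟩
  · intro x hx
    rw [add_mul, one_mul]
    exact add_le_add le_rfl (hM x hx)
  -- comparison of the two functionals
  have hJle := hm' g' ⟨hg'.meas, hg'.fin, hg'.cont, fun x hx => hg'.zero x (hmono hm2' hx),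
    hg'.norm⟩
  have hterm : min (psi U (W + g') P0 Q0) 1 ≤ min (psi U W P0 Q0) 1 + ε1 := by
    have h3 : (2⁻¹ : ℝ≥0∞) ^ (i + 1) * min (psi U (W + g') (f i).1 (f i).2) 1 ≤
        (2⁻¹ : ℝ≥0∞) ^ (i + 1) * min (psi U W (f i).1 (f i).2) 1 +
          (2⁻¹ : ℝ≥0∞) ^ (i + 1) * ε1 := by
      refine Robust_term (a := fun i => (2⁻¹ : ℝ≥0∞) ^ (i + 1) *
        min (psi U W (f i).1 (f i).2) 1) (b := fun i => (2⁻¹ : ℝ≥0∞) ^ (i + 1) *
        min (psi U (W + g') (f i).1 (f i).2) 1) ?_ ?_ hJle i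
      · intro x
        have : psi U W (f x).1 (f x).2 ≤ psi U (W + g') (f x).1 (f x).2 :=
          psi_mono (fun x => le_self_add) _ _
        show (2⁻¹ : ℝ≥0∞) ^ (x + 1) * min (psi U W (f x).1 (f x).2) 1 ≤ _
        gcongr
      · exact ne_top_of_le_ne_top ENNReal.one_ne_top (hJ1 (W + g'))
    rw [← mul_add, hi] at h3
    have h2 : (2⁻¹ : ℝ≥0∞) ^ (i + 1) ≠ 0 := pow_ne_zero _ (ENNReal.inv_ne_zero.2
      ENNReal.ofNat_ne_top)
    have h2' : (2⁻¹ : ℝ≥0∞) ^ (i + 1) ≠ ⊤ := ENNReal.pow_ne_top (by simp)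
    exact (ENNReal.mul_le_mul_iff_right h2 h2').1 h3
  have hc1 := (Robust_compare hTri (U := U) (W' := W + g') (ε := ε1)
    (hPm m2 hm2P _ hW') (hQm m2 hm2Q _ hW')).1
  have hc2 := (Robust_compare hTri (U := U) (W' := W) (ε := ε1)
    (hPm m2 hm2P W fun _ _ => rfl) (hQm m2 hm2Q W fun _ _ => rfl)).2
  have hmin : ∀ a b c : ℝ≥0∞, a ≤ b + c → min a 1 ≤ min b 1 + c := by
    intro a b c h
    rcases le_total b 1 with hb | hb
    · rw [min_eq_left hb]; exact (min_le_left _ _).trans h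
    · rw [min_eq_right hb]; exact (min_le_right _ _).trans le_self_add
  calc min (psi U (W + g') P Q) 1 ≤ min (psi U (W + g') P0 Q0) 1 + 2 * ε1 := hmin _ _ _ hc1
    _ ≤ (min (psi U W P0 Q0) 1 + ε1) + 2 * ε1 := by gcongr
    _ ≤ ((min (psi U W P Q) 1 + 2 * ε1) + ε1) + 2 * ε1 := by
        gcongr
        exact hmin _ _ _ hc2
    _ = min (psi U W P Q) 1 + 5 * ε1 := by ring
    _ ≤ min (psi U W P Q) 1 + ε := by gcongr

end CNEDRem
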