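import Pool.Agent.Work.MP_bb0df9_an.Basic

/-!
# MP_bb0df9_an : averages
-/

open MeasureTheory Set Filter Topology
open scoped ENNReal NNReal ContDiff

namespace CNEDRem

variable {n : ℕ}

theorem Sg_jensen {α : Type*} [MeasurableSpace α] {ν : Measure α} [IsProbabilityMeasure ν]
    {q : ℝ} (hq : 1 ≤ q) {f : α → ℝ≥0∞} (hf : Measurable f) :
    (∫⁻ a, f a ∂ν) ^ q ≤ ∫⁻ a, f a ^ q ∂ν := by
  have h := eLpNorm'_le_eLpNorm'_of_exponent_le (one_pos) hq ν hf.aestronglyMeasurable
  simp only [eLpNorm'_eq_lintegral_enorm, enorm_eq_self, ENNReal.rpow_one, div_one] at h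
  have hq0 : (0 : ℝ) < q := lt_of_lt_of_le one_pos hq
  calc (∫⁻ a, f a ∂ν) ^ q ≤ ((∫⁻ a, f a ^ q ∂ν) ^ (1 / q)) ^ q :=
        ENNReal.rpow_le_rpow h hq0.le
    _ = ∫⁻ a, f a ^ q ∂ν := by
        rw [← ENNReal.rpow_mul, one_div, inv_mul_cancel₀ hq0.ne', ENNReal.rpow_one]

/-- The volume of the unit ball. -/
noncomputable def Sg_c (n : ℕ) : ℝ≥0∞ := volume (Metric.closedBall (0 : V n) 1)

theorem Sg_c_ne_top : Sg_c n ≠ ⊤ := measure_closedBall_lt_top.ne

theorem Sg_c_ne_zero : Sg_c n ≠ 0 := (Metric.measure_closedBall_pos _ _ one_pos).ne'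

/-- The normalised measure on the unit ball. -/
noncomputable def Sg_nu (n : ℕ) : Measure (V n) :=
  (Sg_c n)⁻¹ • volume.restrict (Metric.closedBall (0 : V n) 1)

instance : IsProbabilityMeasure (Sg_nu n) := by
  refine ⟨?_⟩
  simp only [Sg_nu, Measure.smul_apply, smul_eq_mul, Measure.restrict_apply_univ]
  exact ENNReal.inv_mul_cancel Sg_c_ne_zero Sg_c_ne_top

theorem Sg_eq (Z : Set (V n)) (κ : ℝ) (ρ : V n → ℝ≥0∞) (x : V n) :
    sg Z κ ρ x = ∫⁻ z, ρ (tz Z κ z x) ∂(Sg_nu n) := by
  rw [Sg_nu, lintegral_smul_measure]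
  rfl

theorem Sg_tzCont (Z : Set (V n)) (κ : ℝ) : Continuous fun p : V n × V n => tz Z κ p.2 p.1 := by
  unfold tz
  exact continuous_fst.add ((continuous_const.mul
    ((Metric.continuous_infDist_pt Z).comp continuous_fst)).smul continuous_snd)

theorem Sg_meas (Z : Set (V n)) (κ : ℝ) {ρ : V n → ℝ≥0∞} (hρ : Measurable ρ) :
    Measurable (sg Z κ ρ) := by
  have h : sg Z κ ρ = fun x => ∫⁻ z, ρ (tz Z κ z x) ∂(Sg_nu n) := by
    funext x; exact Sg_eq Z κ ρ x
  rw [h]
  exact Measurable.lintegral_prod_right' (f := fun p : V n × V n => ρ (tz Z κ p.2 p.1))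
    (hρ.comp (Sg_tzCont Z κ).measurable)

theorem Sg_norm (hTz : StmtTz) (hAnti : StmtAnti) (hn : 1 ≤ n) {Z : Set (V n)} {κ : ℝ}
    (hZ : IsClosed Z) (hZ0 : Z.Nonempty) (hκ : 0 < κ) (hκ1 : κ < 1) {ρ : V n → ℝ≥0∞}
    (hρ : Measurable ρ) :
    ∫⁻ x in Zᶜ, (sg Z κ ρ x) ^ (n : ℝ) ≤
      (ENNReal.ofReal (1 - κ)⁻¹) ^ (n : ℝ) * ∫⁻ x in Zᶜ, ρ x ^ (n : ℝ) := by
  have hn' : (1 : ℝ) ≤ n := by exact_mod_cast hn
  have hpow : Measurable fun x => ρ x ^ (n : ℝ) := hρ.pow_const _
  have hjm : Measurable (fun p : V n × V n => ρ (tz Z κ p.2 p.1) ^ (n : ℝ)) :=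
    hpow.comp (Sg_tzCont Z κ).measurable
  calc ∫⁻ x in Zᶜ, (sg Z κ ρ x) ^ (n : ℝ)
      ≤ ∫⁻ x in Zᶜ, ∫⁻ z, ρ (tz Z κ z x) ^ (n : ℝ) ∂(Sg_nu n) := by
        refine lintegral_mono fun x => ?_
        rw [Sg_eq]
        refine Sg_jensen hn' ?_
        exact hρ.comp ((Sg_tzCont Z κ).comp (Continuous.prodMk_right x)).measurable
    _ = ∫⁻ z, (∫⁻ x in Zᶜ, ρ (tz Z κ z x) ^ (n : ℝ)) ∂(Sg_nu n) :=
        lintegral_lintegral_swap hjm.aemeasurable
    _ = (Sg_c n)⁻¹ * ∫⁻ z in Metric.closedBall (0 : V n) 1,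
          ∫⁻ x in Zᶜ, ρ (tz Z κ z x) ^ (n : ℝ) := by
        rw [Sg_nu, lintegral_smul_measure, smul_eq_mul]
    _ ≤ (Sg_c n)⁻¹ * ∫⁻ _z in Metric.closedBall (0 : V n) 1,
          (ENNReal.ofReal (1 - κ)⁻¹) ^ (n : ℝ) * ∫⁻ x in Zᶜ, ρ x ^ (n : ℝ) := by
        refine mul_le_mul_right (setLIntegral_mono' measurableSet_closedBall fun z hz => ?_) _
        have hz1 : ‖z‖ ≤ 1 := by simpa using hz
        obtain ⟨hL, hA, -, hout⟩ := hTz n Z κ hZ hZ0 hκ hκ1 z hz1
        have h1 := hAnti n (tz Z κ z) _ hA hL.continuous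
          (Zᶜ.indicator fun x => ρ x ^ (n : ℝ)) (hpow.indicator hZ.measurableSet.compl)
        rw [lintegral_indicator hZ.measurableSet.compl] at h1
        have h2 : ∫⁻ x in Zᶜ, ρ (tz Z κ z x) ^ (n : ℝ) ≤
            ∫⁻ x, (Zᶜ.indicator fun x => ρ x ^ (n : ℝ)) (tz Z κ z x) := by
          rw [← lintegral_indicator hZ.measurableSet.compl]
          refine lintegral_mono fun x => ?_
          by_cases hx : x ∈ Zᶜ
          · rw [indicator_of_mem hx, indicator_of_mem (hout x hx)]
          · rw [indicator_of_notMem hx]; exact bot_le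
        refine (h2.trans h1).trans (le_of_eq ?_)
        rw [ENNReal.rpow_natCast]
        rfl
    _ = (ENNReal.ofReal (1 - κ)⁻¹) ^ (n : ℝ) * ∫⁻ x in Zᶜ, ρ x ^ (n : ℝ) := by
        rw [setLIntegral_const, mul_comm _ (volume _), ← mul_assoc]
        change (Sg_c n)⁻¹ * Sg_c n * _ = _
        rw [ENNReal.inv_mul_cancel Sg_c_ne_zero Sg_c_ne_top, one_mul]

theorem Sg_change (Z : Set (V n)) (κ : ℝ) {ρ : V n → ℝ≥0∞} (hρ : Measurable ρ) {x : V n}
    (hr : 0 < κ * Metric.infDist x Z) :
    sg Z κ ρ x = (Sg_c n)⁻¹ * (ENNReal.ofReal ((κ * Metric.infDist x Z) ^ n)⁻¹ *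
      ∫⁻ y, (Metric.closedBall x (κ * Metric.infDist x Z)).indicator ρ y) := by
  set r := κ * Metric.infDist x Z with hrdef
  have h1 : sg Z κ ρ x = (Sg_c n)⁻¹ *
      ∫⁻ z, (Metric.closedBall x r).indicator ρ (x + r • z) := by
    unfold sg
    congr 1
    rw [← lintegral_indicator measurableSet_closedBall]
    refine lintegral_congr fun z => ?_
    by_cases hz : z ∈ Metric.closedBall (0 : V n) 1
    · have hz' : x + r • z ∈ Metric.closedBall x r := by
        rw [mem_closedBall_zero_iff] at hz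
        rw [Metric.mem_closedBall, dist_self_add_left, norm_smul, Real.norm_of_nonneg hr.le]
        nlinarith
      rw [indicator_of_mem hz, indicator_of_mem hz']
      rfl
    · have hz' : x + r • z ∉ Metric.closedBall x r := by
        rw [mem_closedBall_zero_iff, not_le] at hz
        rw [Metric.mem_closedBall, dist_self_add_left, norm_smul, Real.norm_of_nonneg hr.le,
          not_le]
        nlinarith
      rw [indicator_of_notMem hz, indicator_of_notMem hz']
  rw [h1]
  congr 1
  have h2 := Measure.map_addHaar_smul (volume : Measure (V n)) hr.ne'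
  have h3 : ∫⁻ z, (Metric.closedBall x r).indicator ρ (x + r • z) =
      ∫⁻ z, (Metric.closedBall x r).indicator ρ (x + z) ∂(Measure.map (r • ·) volume) := by
    exact (lintegral_map (μ := (volume : Measure (V n)))
      (f := fun z => (Metric.closedBall x r).indicator ρ (x + z))
      ((hρ.indicator measurableSet_closedBall).comp (measurable_const_add x))
      (measurable_const_smul r)).symm
  rw [h3, h2, lintegral_smul_measure, lintegral_add_left_eq_self, smul_eq_mul]
  congr 2
  rw [finrank_euclideanSpace, Fintype.card_fin, abs_of_pos]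
  positivity

theorem Sg_intFin (hn : 1 ≤ n) {Z K : Set (V n)} (hKZ : K ⊆ Zᶜ) (hKv : volume K ≠ ⊤)
    (hK : MeasurableSet K) {ρ : V n → ℝ≥0∞} (hρl : lpn Zᶜ ρ ≠ ⊤) :
    ∫⁻ y, K.indicator ρ y ≠ ⊤ := by
  have hn' : (1 : ℝ) ≤ n := by exact_mod_cast hn
  have hn0 : (0 : ℝ) < n := lt_of_lt_of_le one_pos hn'
  have hfin : ∫⁻ x in Zᶜ, ρ x ^ (n : ℝ) ≠ ⊤ := by
    intro h
    apply hρl
    rw [lpn, h, ENNReal.top_rpow_of_pos (by positivity)]
  rw [lintegral_indicator hK]
  have hle : ∀ y, ρ y ≤ 1 + ρ y ^ (n : ℝ) := by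
    intro y
    rcases le_total (ρ y) 1 with h | h
    · exact h.trans le_self_add
    · refine le_trans ?_ le_add_self
      calc ρ y = ρ y ^ (1 : ℝ) := (ENNReal.rpow_one _).symm
        _ ≤ ρ y ^ (n : ℝ) := ENNReal.rpow_le_rpow_of_exponent_le h hn'
  refine ne_top_of_le_ne_top ?_ (lintegral_mono hle)
  rw [lintegral_add_left measurable_const, setLIntegral_const, one_mul]
  refine ENNReal.add_ne_top.2 ⟨hKv, ne_top_of_le_ne_top hfin (lintegral_mono_set hKZ)⟩

theorem Sg_infDist_pos {Z : Set (V n)} (hZ : IsClosed Z) (hZ0 : Z.Nonempty) {x : V n}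
    (hx : x ∉ Z) : 0 < Metric.infDist x Z := by
  rcases (Metric.infDist_nonneg (x := x) (s := Z)).lt_or_eq with h | h
  · exact h
  · exact absurd ((hZ.mem_iff_infDist_zero hZ0).2 h.symm) hx

theorem Sg_ballSub {Z : Set (V n)} {x : V n} {R : ℝ}
    (hR : R < Metric.infDist x Z) : Metric.closedBall x R ⊆ Zᶜ := by
  intro y hy hyZ
  have := Metric.infDist_le_dist_of_mem (x := x) hyZ
  rw [Metric.mem_closedBall, dist_comm] at hy
  linarith

theorem thmSg (hTz : StmtTz) (hAnti : StmtAnti) : StmtSg := by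
  intro n hn Z κ hZ hZ0 hκ hκ1 ρ hρ hρl
  have hn' : (1 : ℝ) ≤ n := by exact_mod_cast hn
  have hn0 : (0 : ℝ) < n := lt_of_lt_of_le one_pos hn'
  have hpos : ∀ x, x ∉ Z → 0 < κ * Metric.infDist x Z := fun x hx =>
    mul_pos hκ (Sg_infDist_pos hZ hZ0 hx)
  have hballfin : ∀ x, x ∉ Z →
      ∫⁻ y, (Metric.closedBall x (κ * Metric.infDist x Z)).indicator ρ y ≠ ⊤ := by
    intro x hx
    have h0 := Sg_infDist_pos hZ hZ0 hx
    refine Sg_intFin hn (Sg_ballSub ?_) measure_closedBall_lt_top.ne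
      measurableSet_closedBall hρl
    nlinarith
  refine ⟨Sg_meas Z κ hρ, ?_, ?_, ?_⟩
  · intro x hx
    rw [Sg_change Z κ hρ (hpos x hx)]
    exact ENNReal.mul_ne_top (ENNReal.inv_ne_top.2 Sg_c_ne_zero)
      (ENNReal.mul_ne_top ENNReal.ofReal_ne_top (hballfin x hx))
  · intro x hx
    have hx' : x ∉ Z := hx
    have hd := Sg_infDist_pos hZ hZ0 hx'
    apply ContinuousAt.continuousWithinAt
    have hcont : Continuous fun y : V n => κ * Metric.infDist y Z :=
      continuous_const.mul (Metric.continuous_infDist_pt Z)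
    -- the integral over balls is continuous
    have hφ : Tendsto (fun x' => ∫⁻ y, (Metric.closedBall x'
        (κ * Metric.infDist x' Z)).indicator ρ y) (𝓝 x)
        (𝓝 (∫⁻ y, (Metric.closedBall x (κ * Metric.infDist x Z)).indicator ρ y)) := by
      set R : ℝ := (κ * Metric.infDist x Z + Metric.infDist x Z) / 2 with hR
      have hR1 : κ * Metric.infDist x Z < R := by rw [hR]; nlinarith
      have hR2 : R < Metric.infDist x Z := by rw [hR]; nlinarith
      refine tendsto_lintegral_filter_of_dominated_convergence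
        ((Metric.closedBall x R).indicator ρ) ?_ ?_ ?_ ?_
      · exact Eventually.of_forall fun x' => hρ.indicator measurableSet_closedBall
      · have h1 : Tendsto (fun x' : V n => dist x' x + κ * Metric.infDist x' Z) (𝓝 x)
            (𝓝 (dist x x + κ * Metric.infDist x Z)) :=
          ((continuous_id.dist continuous_const).add hcont).tendsto x
        rw [dist_self, zero_add] at h1
        filter_upwards [h1.eventually_lt_const hR1] with x' hx''
        refine Eventually.of_forall fun y => ?_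
        refine indicator_le_indicator_of_subset (Metric.closedBall_subset_closedBall' ?_)
          (fun _ => bot_le) y
        linarith
      · exact Sg_intFin hn (Sg_ballSub hR2) measure_closedBall_lt_top.ne
          measurableSet_closedBall hρl
      · have hsph : volume (Metric.sphere x (κ * Metric.infDist x Z)) = 0 :=
          Measure.addHaar_sphere_of_ne_zero _ _ (hpos x hx').ne'
        have hae : ∀ᵐ y ∂(volume : Measure (V n)),
            y ∉ Metric.sphere x (κ * Metric.infDist x Z) := by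
          exact measure_eq_zero_iff_ae_notMem.1 hsph
        filter_upwards [hae] with y hy
        rw [Metric.mem_sphere] at hy
        have hc1 : Tendsto (fun x' : V n => dist y x' - κ * Metric.infDist x' Z) (𝓝 x)
            (𝓝 (dist y x - κ * Metric.infDist x Z)) :=
          ((continuous_const.dist continuous_id).sub hcont).tendsto x
        rcases lt_or_gt_of_ne hy with h | h
        · have h2 := hc1.eventually_lt_const (show dist y x - κ * Metric.infDist x Z < 0 by linarith)
          refine tendsto_const_nhds.congr' ?_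
          filter_upwards [h2] with x' hx''
          rw [indicator_of_mem (show y ∈ Metric.closedBall x (κ * Metric.infDist x Z) from h.le),
            indicator_of_mem (show y ∈ Metric.closedBall x' (κ * Metric.infDist x' Z) from
              (by rw [Metric.mem_closedBall]; linarith))]
        · have h2 := hc1.eventually_const_lt (show 0 < dist y x - κ * Metric.infDist x Z by linarith)
          refine tendsto_const_nhds.congr' ?_
          filter_upwards [h2] with x' hx''
          rw [indicator_of_notMem (show y ∉ Metric.closedBall x (κ * Metric.infDist x Z) from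
              (by rw [Metric.mem_closedBall]; linarith)),
            indicator_of_notMem (show y ∉ Metric.closedBall x' (κ * Metric.infDist x' Z) from
              (by rw [Metric.mem_closedBall]; linarith))]
    have hcoef : Tendsto (fun x' : V n => ENNReal.ofReal ((κ * Metric.infDist x' Z) ^ n)⁻¹) (𝓝 x)
        (𝓝 (ENNReal.ofReal ((κ * Metric.infDist x Z) ^ n)⁻¹)) := by
      refine ENNReal.tendsto_ofReal ?_
      refine Tendsto.inv₀ ((hcont.pow n).tendsto x) ?_
      exact (pow_pos (hpos x hx') n).ne'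
    have hcoef0 : ENNReal.ofReal ((κ * Metric.infDist x Z) ^ n)⁻¹ ≠ 0 := by
      have := pow_pos (hpos x hx') n
      simp only [ne_eq, ENNReal.ofReal_eq_zero, not_le]
      positivity
    have hprod := ENNReal.Tendsto.const_mul (a := (Sg_c n)⁻¹)
      (ENNReal.Tendsto.mul hcoef (Or.inl hcoef0) hφ (Or.inr ENNReal.ofReal_ne_top))
      (Or.inr (ENNReal.inv_ne_top.2 Sg_c_ne_zero))
    rw [← Sg_change Z κ hρ (hpos x hx')] at hprod
    refine hprod.congr' ?_
    filter_upwards [hZ.isOpen_compl.mem_nhds hx] with x' hx''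
    rw [Sg_change Z κ hρ (hpos x' hx'')]
  · unfold lpn
    have h := Sg_norm hTz hAnti hn hZ hZ0 hκ hκ1 hρ
    refine (ENNReal.rpow_le_rpow h (by positivity)).trans (le_of_eq ?_)
    rw [ENNReal.mul_rpow_of_nonneg _ _ (by positivity), ← ENNReal.rpow_mul,
      mul_one_div_cancel hn0.ne', ENNReal.rpow_one]

end CNEDRem
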