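import Pool.Agent.Work.MP_bb0df9_an.Basic

/-!
# MP_bb0df9_an : splitting
-/

open MeasureTheory Set Filter Topology
open scoped ENNReal NNReal ContDiff

namespace CNEDRem

theorem Split_lpn_zero {n : ℕ} (hn : 1 ≤ n) (U : Set (V n)) :
    lpn U (fun _ => (0 : ℝ≥0∞)) = 0 := by
  have hn' : (0 : ℝ) < n := by exact_mod_cast hn
  unfold lpn
  simp only [ENNReal.zero_rpow_of_pos hn', lintegral_zero]
  exact ENNReal.zero_rpow_of_pos (by positivity)

theorem Split_pt_zero {n : ℕ} (hn : 1 ≤ n) (U C : Set (V n)) (κ : ℝ≥0∞) :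
    IsPt U C κ (fun _ => (0 : ℝ≥0∞)) :=
  ⟨measurable_const, fun _ _ => ENNReal.zero_ne_top, continuousOn_const, fun _ _ => rfl,
    by rw [Split_lpn_zero hn]; exact bot_le⟩

theorem Split_pt_mono {n : ℕ} {U C : Set (V n)} {κ κ' : ℝ≥0∞} {g : V n → ℝ≥0∞}
    (h : κ ≤ κ') (hg : IsPt U C κ g) : IsPt U C κ' g :=
  ⟨hg.meas, hg.fin, hg.cont, hg.zero, hg.norm.trans h⟩

theorem Split_pt_add {n : ℕ} (hn : 1 ≤ n) {U C : Set (V n)} {κ κ' : ℝ≥0∞}
    {g g' : V n → ℝ≥0∞} (hg : IsPt U C κ g) (hg' : IsPt U C κ' g') :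
    IsPt U C (κ + κ') (g + g') := by
  refine ⟨hg.meas.add hg'.meas, fun x hx => ?_, hg.cont.add hg'.cont, fun x hx => ?_, ?_⟩
  · exact ENNReal.add_ne_top.mpr ⟨hg.fin x hx, hg'.fin x hx⟩
  · show g x + g' x = 0
    rw [hg.zero x hx, hg'.zero x hx, add_zero]
  · exact (thmLpnAdd n hn U g g' hg.meas hg'.meas).trans (add_le_add hg.norm hg'.norm)

theorem Split_lpn_ne_top {n : ℕ} (hn : 1 ≤ n) {U C : Set (V n)} {δ κ : ℝ≥0∞}
    {w g : V n → ℝ≥0∞} (hw : IsWt U δ w) (h : lpn U w ≠ ⊤) (hκ : κ ≠ ⊤) (hg : IsPt U C κ g) :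
    lpn U (w + g) ≠ ⊤ :=
  ne_top_of_le_ne_top (ENNReal.add_ne_top.mpr ⟨h, ne_top_of_le_ne_top hκ hg.norm⟩)
    (thmLpnAdd n hn U w g hw.meas hg.meas)

theorem thmSplit (hJ : StmtOneJump) (hR : StmtRobust) : StmtSplit := by
  intro n hn U C δ w hU hC hw hδ hfin A B hA hB hr t t' ε hε hεt ht1 hsd κ m hκ
  obtain ⟨g, hg, hrob⟩ := hR n hn U C δ w hU hC hw hfin A B κ m hκ
  have hW : IsWt U δ (w + g) := thmWtAdd n U (C m) δ κ w g hw hg
  have hmono : ∀ x, w x ≤ (w + g) x := fun x => le_self_add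
  have hsd' : t + t' ≤ sd U (w + g) A B := hsd.trans (sd_mono hmono A B)
  have hpsi : t + t' ≤ psi U (w + g) A B :=
    (le_min hsd' ht1).trans (hJ n U δ (w + g) hU hW hδ A B hA hB hr hrob)
  have htt : t + t' ≠ ⊤ := ne_top_of_le_ne_top ENNReal.one_ne_top ht1
  have htt0 : t + t' ≠ 0 := by
    have h0 : 0 < t + t' := lt_of_lt_of_le (bot_le.trans_lt hεt) le_self_add
    exact h0.ne'
  have hlt : t + t' - ε < psi U (w + g) A B :=
    lt_of_lt_of_le (ENNReal.sub_lt_self htt htt0 hε.ne') hpsi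
  obtain ⟨s, hs0, hs⟩ := exists_of_lt_psi hlt
  have hsub : t + t' - ε = (t - ε) + t' := (ENNReal.sub_add_eq_add_sub hεt.le (ne_top_of_lt hεt)).symm
  let S : Set (V n) := {x | sd U (w + g) A {x} < t - ε}
  have hSA : A ⊆ S := fun a ha => by
    show sd U (w + g) A {a} < t - ε
    rw [sd_self ha (mem_singleton a)]
    exact tsub_pos_of_lt hεt
  have hnear : ∀ y ∈ closure (Metric.thickening (s / 2) S), ∃ x ∈ S, dist x y < 3 * s / 4 := by
    intro y hy
    obtain ⟨o, ho, hyo⟩ := Metric.mem_closure_iff.mp hy (s / 4) (by positivity)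
    obtain ⟨x, hx, hox⟩ := Metric.mem_thickening_iff.mp ho
    refine ⟨x, hx, ?_⟩
    calc dist x y ≤ dist x o + dist o y := dist_triangle _ _ _
      _ < s / 2 + s / 4 := by
        rw [dist_comm x o, dist_comm o y]
        exact add_lt_add hox hyo
      _ = 3 * s / 4 := by ring
  refine ⟨g, hg, Metric.thickening (s / 2) S, Metric.isOpen_thickening, ⟨s / 2, by positivity, ?_⟩,
    ⟨s / 4, by positivity, ?_⟩, ?_, ?_⟩
  · intro a ha b hb
    by_contra hc
    push Not at hc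
    exact hb (Metric.mem_thickening_iff.mpr ⟨a, hSA ha, by rw [dist_comm]; exact hc⟩)
  · intro y hy b hb
    by_contra hc
    push Not at hc
    obtain ⟨x, hx, hxy⟩ := hnear y hy
    have hxb : dist x b ≤ s := by
      have := dist_triangle x y b
      linarith
    have h1 : ps U (w + g) s A B ≤ sd U (w + g) A {x} + sd U (w + g) {b} B := ps_le hxb
    rw [sd_self (mem_singleton b) hb, add_zero] at h1
    have h2 : sd U (w + g) A {x} < t - ε := hx
    have h3 : t - ε ≤ t + t' - ε := by rw [hsub]; exact le_self_add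
    exact absurd (hs.trans_le (h1.trans (h2.le.trans h3))) (lt_irrefl _)
  · refine le_sd fun a ha b hb => ?_
    have hbS : b ∉ S := fun h => hb (Metric.self_subset_thickening (by positivity) S h)
    have h1 : t - ε ≤ sd U (w + g) A {b} := not_lt.mp hbS
    exact h1.trans (sd_le ha (mem_singleton b))
  · refine le_sd fun y hy b hb => ?_
    obtain ⟨x, hx, hxy⟩ := hnear y hy
    by_contra hc
    push Not at hc
    have h1 : ps U (w + g) s A B ≤ sd U (w + g) A {x} + sd U (w + g) {y} B :=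
      ps_le (by linarith)
    have h2 : sd U (w + g) {y} B < t' := lt_of_le_of_lt (sd_le (mem_singleton y) hb) hc
    have h3 : sd U (w + g) A {x} < t - ε := hx
    have h4 : sd U (w + g) A {x} + sd U (w + g) {y} B < (t - ε) + t' := ENNReal.add_lt_add h3 h2
    rw [← hsub] at h4
    exact absurd (hs.trans_le (h1.trans h4.le)) (lt_irrefl _)

theorem thmMulti (hS : StmtSplit) : StmtMulti := by
  intro n hn U C δ w hU hC hw hδ hfin N
  induction N with
  | zero =>
    intro A B _ _ _ t t' ε _ _ _ _ κ m _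
    exact ⟨fun _ => 0, Split_pt_zero hn U (C m) κ, fun _ => ∅, fun j hj => absurd hj (by omega)⟩
  | succ N ih =>
    intro A B hA hB hr t t' ε hε hεt ht1 hsd κ m hκ
    -- reduce to finite `κ`
    obtain ⟨κ', hκ'0, hκ't, hκ'⟩ : ∃ κ' : ℝ≥0∞, κ' ≠ 0 ∧ κ' ≠ ⊤ ∧ κ' ≤ κ := by
      rcases eq_or_ne κ ⊤ with h | h
      · exact ⟨1, one_ne_zero, ENNReal.one_ne_top, by rw [h]; exact le_top⟩
      · exact ⟨κ, hκ, h, le_rfl⟩
    have hh0 : κ' / 2 ≠ 0 := (ENNReal.half_pos hκ'0).ne'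
    have hht : κ' / 2 ≠ ⊤ := ne_top_of_le_ne_top hκ't ENNReal.half_le_self
    obtain ⟨g₁, hg₁, O₁, hO₁⟩ := ih A B (fun j hj => hA j (by omega)) (fun j hj => hB j (by omega))
      (fun j hj => hr j (by omega)) t t' ε hε hεt ht1 (fun j hj => hsd j (by omega)) (κ' / 2) m hh0
    have hW : IsWt U δ (w + g₁) := thmWtAdd n U (C m) δ (κ' / 2) w g₁ hw hg₁
    have hmono : ∀ x, w x ≤ (w + g₁) x := fun x => le_self_add
    obtain ⟨g₂, hg₂, O₂, hO₂⟩ := hS n hn U C δ (w + g₁) hU hC hW hδ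
      (Split_lpn_ne_top hn hw hfin hht hg₁) (A N) (B N) (hA N (by omega)) (hB N (by omega))
      (hr N (by omega)) t t' ε hε hεt ht1
      ((hsd N (by omega)).trans (sd_mono hmono _ _)) (κ' / 2) m hh0
    have hmono' : ∀ x, (w + g₁) x ≤ (w + g₁ + g₂) x := fun x => le_self_add
    refine ⟨g₁ + g₂, ?_, fun j => if j = N then O₂ else O₁ j, ?_⟩
    · have h := Split_pt_add hn hg₁ hg₂
      rw [ENNReal.add_halves] at h
      exact Split_pt_mono hκ' h
    · intro j hj
      rw [← add_assoc]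
      by_cases hjN : j = N
      · subst hjN
        simp only [if_true]
        exact hO₂
      · simp only [hjN, if_false]
        obtain ⟨h1, h2, h3, h4, h5⟩ := hO₁ j (by omega)
        exact ⟨h1, h2, h3, h4.trans (sd_mono hmono' _ _), h5.trans (sd_mono hmono' _ _)⟩

end CNEDRem
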