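import Pool.Agent.Work.MP_bb0df9_an.Basic

/-!
# The maps `tz` and change of variables for antilipschitz maps
-/

open MeasureTheory Set Filter Topology
open scoped ENNReal NNReal ContDiff

namespace CNEDRem

theorem thmTz : StmtTz := by
  intro n Z κ hZ hZn hκ hκ1 z hz
  have key : ∀ x y : V n, |κ * Metric.infDist x Z - κ * Metric.infDist y Z| ≤ κ * dist x y := by
    intro x y
    have h1 := (Metric.lipschitz_infDist_pt Z).dist_le_mul x y
    rw [Real.dist_eq] at h1
    rw [← mul_sub, abs_mul, abs_of_pos hκ]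
    exact mul_le_mul_of_nonneg_left (by simpa using h1) hκ.le
  have key2 : ∀ x y : V n, ‖(κ * Metric.infDist x Z - κ * Metric.infDist y Z) • z‖ ≤
      κ * dist x y := by
    intro x y
    rw [norm_smul, Real.norm_eq_abs]
    calc _ ≤ κ * dist x y * 1 := mul_le_mul (key x y) hz (norm_nonneg _) (by positivity)
      _ = _ := mul_one _
  have e : ∀ x y : V n, tz Z κ z x - tz Z κ z y =
      (x - y) + (κ * Metric.infDist x Z - κ * Metric.infDist y Z) • z := by
    intro x y
    simp only [tz, sub_smul]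
    abel
  refine ⟨?_, ?_, ?_, ?_⟩
  · refine LipschitzWith.of_dist_le_mul fun x y => ?_
    rw [Real.coe_toNNReal _ (by linarith), dist_eq_norm, e]
    calc ‖(x - y) + (κ * Metric.infDist x Z - κ * Metric.infDist y Z) • z‖
        ≤ ‖x - y‖ + ‖(κ * Metric.infDist x Z - κ * Metric.infDist y Z) • z‖ := norm_add_le _ _
      _ ≤ dist x y + κ * dist x y := add_le_add (dist_eq_norm x y).ge (key2 x y)
      _ = (1 + κ) * dist x y := by ring
  · have h1 : 0 < 1 - κ := by linarith
    rw [antilipschitzWith_iff_le_mul_dist]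
    intro x y
    rw [Real.coe_toNNReal _ (inv_pos.mpr h1).le, inv_mul_eq_div, le_div_iff₀ h1]
    have h2 : dist x y ≤ dist (tz Z κ z x) (tz Z κ z y) + κ * dist x y := by
      have h3 : x - y = (tz Z κ z x - tz Z κ z y) -
          (κ * Metric.infDist x Z - κ * Metric.infDist y Z) • z := by rw [e]; abel
      rw [dist_eq_norm x y, h3]
      refine (norm_sub_le _ _).trans ?_
      rw [← dist_eq_norm, ← h3, ← dist_eq_norm]
      linarith [key2 x y]
    linarith
  · intro x hx
    simp [tz, Metric.infDist_zero_of_mem hx]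
  · intro x hx hcon
    have h1 : 0 < Metric.infDist x Z := (hZ.notMem_iff_infDist_pos hZn).mp hx
    have h2 : Metric.infDist x Z ≤ dist x (tz Z κ z x) := Metric.infDist_le_dist_of_mem hcon
    have h3 : dist x (tz Z κ z x) ≤ κ * Metric.infDist x Z := by
      rw [dist_comm, dist_eq_norm]
      have : tz Z κ z x - x = (κ * Metric.infDist x Z) • z := by simp [tz]
      rw [this, norm_smul, Real.norm_eq_abs, abs_of_pos (mul_pos hκ h1)]
      calc _ ≤ κ * Metric.infDist x Z * 1 := mul_le_mul_of_nonneg_left hz (by positivity)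
        _ = _ := mul_one _
    nlinarith

/-- A nonnegative multiple of a Hausdorff measure. -/
lemma Tz_volume (n : ℕ) : ∃ c : ℝ≥0, (volume : Measure (V n)) = c • μH[(n : ℝ)] := by
  have h : (μH[(n : ℝ)] : Measure (V n)).IsAddHaarMeasure := by
    simpa using MeasureTheory.isAddHaarMeasure_hausdorffMeasure (E := EuclideanSpace ℝ (Fin n))
  exact ⟨_, Measure.isAddLeftInvariant_eq_smul _ _⟩

theorem thmAnti : StmtAnti := by
  intro n T K hT hTc h hh
  obtain ⟨c, hc⟩ := Tz_volume n
  have h1 : Measure.map T (volume : Measure (V n)) ≤ ((K : ℝ≥0∞) ^ n) • (volume : Measure (V n)) := by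
    rw [Measure.le_iff]
    intro s hs
    rw [Measure.map_apply hTc.measurable hs, Measure.smul_apply, hc, Measure.smul_apply,
      Measure.smul_apply]
    have h2 := hT.hausdorffMeasure_preimage_le (d := (n : ℝ)) (by positivity) s
    rw [ENNReal.rpow_natCast] at h2
    calc c • μH[(n : ℝ)] (T ⁻¹' s) = (c : ℝ≥0∞) * μH[(n : ℝ)] (T ⁻¹' s) := rfl
      _ ≤ (c : ℝ≥0∞) * ((K : ℝ≥0∞) ^ n * μH[(n : ℝ)] s) := by gcongr
      _ = (K : ℝ≥0∞) ^ n * ((c : ℝ≥0∞) * μH[(n : ℝ)] s) := by ring
      _ = _ := rfl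
  calc ∫⁻ x, h (T x) = ∫⁻ x, h x ∂(Measure.map T volume) :=
        (lintegral_map hh hTc.measurable).symm
    _ ≤ ∫⁻ x, h x ∂(((K : ℝ≥0∞) ^ n) • (volume : Measure (V n))) := lintegral_mono' h1 le_rfl
    _ = (K : ℝ≥0∞) ^ n * ∫⁻ x, h x := by rw [lintegral_smul_measure]; rfl

end CNEDRem
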