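import Pool.Agent.Work.MP_bb0df9_an.Basic

/-!
# MP_bb0df9_an, item Up: from the Urysohn function to the bound of the modulus
-/

open MeasureTheory Set Filter Topology
open scoped ENNReal NNReal ContDiff

namespace CNEDRem

/-- Clamping to `[0,1]`. -/
noncomputable def Up_cl (t : ℝ) : ℝ := max 0 (min 1 t)

theorem Up_cl_cont : Continuous Up_cl := by unfold Up_cl; fun_prop

theorem Up_cl_zero (t : ℝ) (h : t ≤ 0) : Up_cl t = 0 := by
  unfold Up_cl; rw [min_eq_right (by linarith), max_eq_left h]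

theorem Up_cl_one (t : ℝ) (h : 1 ≤ t) : Up_cl t = 1 := by
  unfold Up_cl; rw [min_eq_left h, max_eq_right zero_le_one]

theorem Up_cl_mono {s t : ℝ} (h : s ≤ t) : Up_cl s ≤ Up_cl t :=
  max_le_max le_rfl (min_le_min le_rfl h)

theorem Up_cl_lip {s t : ℝ} (h : s ≤ t) : Up_cl t - Up_cl s ≤ t - s := by
  unfold Up_cl
  rcases le_total t 1 with h1 | h1 <;> rcases le_total s 1 with h2 | h2 <;>
  rcases le_total t 0 with h3 | h3 <;> rcases le_total s 0 with h4 | h4 <;>
  simp only [min_eq_left, min_eq_right, max_eq_left, max_eq_right, h1, h2, h3, h4, zero_le_one] <;>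
  linarith

variable {n : ℕ}

/-- Uniqueness of weak gradients. -/
theorem Up_unique (hn : 1 ≤ n) (Ω : Set (V n)) (hΩ : IsOpen Ω) (f : V n → ℝ) (g h : V n → V n)
    (hg : MemLp g n volume) (hh : MemLp h n (volume.restrict Ω))
    (h1 : IsWeakGrad univ f g) (h2 : IsWeakGrad Ω f h) :
    ∀ᵐ x, x ∈ Ω → g x = h x := by
  have hn1 : (1 : ℝ≥0∞) ≤ n := by exact_mod_cast hn
  have hgl : LocallyIntegrable g volume := hg.locallyIntegrable hn1
  have hhl : LocallyIntegrableOn h Ω volume := by
    intro x hx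
    obtain ⟨ε, hε, hb⟩ := Metric.isOpen_iff.1 hΩ x hx
    refine ⟨Metric.ball x ε, mem_nhdsWithin_of_mem_nhds (Metric.ball_mem_nhds x hε), ?_⟩
    have h3 : MemLp h n (volume.restrict (Metric.ball x ε)) :=
      hh.mono_measure (Measure.restrict_mono hb le_rfl)
    have : IsFiniteMeasure (volume.restrict (Metric.ball x ε)) :=
      ⟨by rw [Measure.restrict_apply_univ]; exact measure_ball_lt_top⟩
    exact h3.integrable hn1
  have key : ∀ i : Fin n, ∀ᵐ x, x ∈ Ω → g x i - h x i = 0 := by
    intro i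
    have hgli : LocallyIntegrable (fun x => g x i) volume := by
      intro x
      obtain ⟨s, hs, hsi⟩ := hgl x
      exact ⟨s, hs, (EuclideanSpace.proj (𝕜 := ℝ) i).integrable_comp hsi⟩
    have hhli : LocallyIntegrableOn (fun x => h x i) Ω volume := by
      intro x hx
      obtain ⟨s, hs, hsi⟩ := hhl x hx
      exact ⟨s, hs, (EuclideanSpace.proj (𝕜 := ℝ) i).integrable_comp hsi⟩
    have hli : LocallyIntegrableOn (fun x => g x i - h x i) Ω volume :=
      (hgli.locallyIntegrableOn Ω).sub hhli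
    apply hΩ.ae_eq_zero_of_integral_contDiff_smul_eq_zero hli
    intro φ hφ hφc hφs
    have e1 := h1 φ hφ hφc (subset_univ _) i
    have e2 := h2 φ hφ hφc hφs i
    have hz : ∀ x, x ∉ Ω → φ x = 0 := fun x hx =>
      image_eq_zero_of_notMem_tsupport fun h => hx (hφs h)
    have hz' : ∀ x, x ∉ Ω → fderiv ℝ φ x = 0 := by
      intro x hx
      by_contra h
      exact hx (hφs (support_fderiv_subset ℝ h))
    have e3 : ∫ x in Ω, f x * fderiv ℝ φ x (EuclideanSpace.single i 1) =
        ∫ x, f x * fderiv ℝ φ x (EuclideanSpace.single i 1) := by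
      apply setIntegral_eq_integral_of_forall_compl_eq_zero
      intro x hx
      rw [hz' x hx]; simp
    have e4 : ∫ x in Ω, h x i * φ x = ∫ x, h x i * φ x := by
      apply setIntegral_eq_integral_of_forall_compl_eq_zero
      intro x hx
      rw [hz x hx]; simp
    rw [e3, e4] at e2
    rw [setIntegral_univ, setIntegral_univ] at e1
    have i1 : Integrable (fun x => φ x * g x i) := by
      simpa [smul_eq_mul] using hgli.integrable_smul_left_of_hasCompactSupport hφ.continuous hφc
    have i2 : Integrable (fun x => φ x * h x i) := by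
      have h5 : IntegrableOn (fun x => φ x * h x i) (tsupport φ) :=
        (hhli.integrableOn_compact_subset hφs hφc.isCompact).continuousOn_mul
          hφ.continuous.continuousOn hφc.isCompact
      rwa [integrableOn_iff_integrable_of_support_subset] at h5
      intro x hx
      apply subset_tsupport φ
      intro h0
      apply hx
      simp only [h0, zero_mul]
    have e5 : ∫ x, φ x • (g x i - h x i) = (∫ x, φ x * g x i) - ∫ x, φ x * h x i := by
      refine Eq.trans ?_ (integral_sub i1 i2)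
      apply integral_congr_ae
      refine Filter.Eventually.of_forall fun x => ?_
      simp only [smul_eq_mul, mul_sub]
    have e6 : ∫ x, g x i * φ x = ∫ x, φ x * g x i := by simp only [mul_comm]
    have e7 : ∫ x, h x i * φ x = ∫ x, φ x * h x i := by simp only [mul_comm]
    rw [e5, ← e6, ← e7]
    linarith
  have := (ae_all_iff.2 key)
  filter_upwards [this] with x hx hxΩ
  ext i
  have := hx i hxΩ
  linarith

/-- From the Urysohn function to the bound of the modulus. -/
theorem thmUp (hGrad : StmtGrad) (hLoc : StmtLoc) (hNull : StmtNull) (hMoll : StmtMoll) :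
    StmtUp := by
  intro n hn2 E F₁ F₂ R₁ hE hF₁ hF₂ hF₁n hF₂n hdisj hrem hb₁ hb₂ w δ hw hwn u c η hc hη hη2 hu
    hu01 hu1 hu2 hUG
  have hn1 : 1 ≤ n := by omega
  have hn0 : n ≠ 0 := by omega
  set U : Set (V n) := (E ∪ F₁ ∪ F₂ ∪ (Metric.ball 0 R₁)ᶜ)ᶜ with hU
  have hUo : IsOpen U := by
    rw [hU, isOpen_compl_iff]
    exact ((hE.union hF₁.isClosed).union hF₂.isClosed).union Metric.isOpen_ball.isClosed_compl
  have hUE : U ⊆ Eᶜ := by
    rw [hU, compl_subset_compl]
    intro x hx
    exact Or.inl (Or.inl (Or.inl hx))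
  have h12 : 0 < 1 - 2 * η := by linarith
  set v : V n → ℝ := fun x => Up_cl ((u x - η) / (1 - 2 * η)) with hv
  set f : V n → ℝ := fun x => 1 - v x with hf
  have hvc : Continuous v := by
    have := Up_cl_cont
    fun_prop
  have hfc : Continuous f := continuous_const.sub hvc
  have hf1 : ∀ x, u x < η → f x = 1 := by
    intro x hx
    simp only [hf, hv]
    rw [Up_cl_zero, sub_zero]
    exact div_nonpos_of_nonpos_of_nonneg (by linarith) h12.le
  have hf0 : ∀ x, 1 - η < u x → f x = 0 := by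
    intro x hx
    simp only [hf, hv]
    rw [Up_cl_one, sub_self]
    rw [le_div_iff₀ h12]
    linarith
  have hfcs : HasCompactSupport f := by
    apply HasCompactSupport.intro (isCompact_closedBall (0 : V n) R₁)
    intro x hx
    apply hf0
    rw [hu2 x (Or.inr fun h => hx (Metric.ball_subset_closedBall h))]
    linarith
  -- the upper gradient inequality for `v`
  have hc' : 0 < c * (1 - 2 * η) := mul_pos hc h12
  have hUGv : UG U w (c * (1 - 2 * η)) v := by
    intro x y L γ hγ
    rcases le_total (u y) (u x) with h | h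
    · have h1 : v y ≤ v x := Up_cl_mono (div_le_div_of_nonneg_right (by linarith) h12.le)
      rw [ENNReal.ofReal_of_nonpos]
      · exact zero_le
      · exact mul_nonpos_of_nonneg_of_nonpos hc'.le (by linarith)
    · have h1 : v y - v x ≤ (u y - η) / (1 - 2 * η) - (u x - η) / (1 - 2 * η) :=
        Up_cl_lip (div_le_div_of_nonneg_right (by linarith) h12.le)
      refine le_trans (ENNReal.ofReal_le_ofReal ?_) (hUG x y L γ hγ)
      rw [← sub_div, le_div_iff₀ h12] at h1
      nlinarith
  obtain ⟨hlip, hgrad⟩ := hGrad n U δ w hUo hw (c * (1 - 2 * η)) v hc' hUGv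
  -- behaviour near the rest
  have hF1near : ∀ x, u x = 0 → ∀ᶠ y in 𝓝 x, f y = 1 := by
    intro x hx
    have : ∀ᶠ y in 𝓝 x, u y < η := hu.continuousAt.eventually_lt_const (by rw [hx]; exact hη)
    exact this.mono hf1
  have hF2near : ∀ x, u x = 1 → ∀ᶠ y in 𝓝 x, f y = 0 := by
    intro x hx
    have : ∀ᶠ y in 𝓝 x, 1 - η < u y := hu.continuousAt.eventually_const_lt (by rw [hx]; linarith)
    exact this.mono hf0
  have hnear : ∀ x ∈ Eᶜ, x ∉ U → ∃ a : ℝ, ∀ᶠ y in 𝓝 x, f y = a := by
    intro x hxE hxU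
    rw [hU, notMem_compl_iff] at hxU
    rcases hxU with ((h | h) | h) | h
    · exact absurd h hxE
    · exact ⟨1, hF1near x (hu1 x h)⟩
    · exact ⟨0, hF2near x (hu2 x (Or.inl h))⟩
    · exact ⟨0, hF2near x (hu2 x (Or.inr h))⟩
  have hflip : ∀ x ∈ Eᶜ, ∃ r : ℝ, 0 < r ∧ ∃ K : ℝ≥0, LipschitzOnWith K f (Metric.ball x r) := by
    intro x hx
    by_cases hxU : x ∈ U
    · obtain ⟨r, hr, K, hK⟩ := hlip x hxU
      refine ⟨r, hr, K, ?_⟩
      intro y hy z hz
      have := hK hy hz
      simp only [hf]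
      rwa [edist_sub_left]
    · obtain ⟨a, ha⟩ := hnear x hx hxU
      obtain ⟨r, hr, hra⟩ := Metric.eventually_nhds_iff_ball.1 ha
      refine ⟨r, hr, 0, ?_⟩
      intro y hy z hz
      rw [hra y hy, hra z hz, edist_self]
      exact zero_le
  have hwg := hLoc n Eᶜ f hE.isOpen_compl hflip
  -- the gradient
  have hgn : ∀ x, ‖gradient f x‖ = ‖fderiv ℝ f x‖ := by
    intro x
    rw [gradient, LinearIsometryEquiv.norm_map]
  have hgm : Measurable (gradient f) := by
    have h1 : Measurable (fderiv ℝ f) := measurable_fderiv ℝ f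
    exact ((InnerProductSpace.toDual ℝ (V n)).symm.continuous.measurable).comp h1
  have hfd : ∀ x, ‖fderiv ℝ f x‖ = ‖fderiv ℝ v x‖ := by
    intro x
    have : fderiv ℝ f x = - fderiv ℝ v x := by
      simp only [hf]
      rw [fderiv_const_sub]
    rw [this, norm_neg]
  set a : ℝ≥0∞ := ENNReal.ofReal (c * (1 - 2 * η))⁻¹ with ha
  have hgU : ∀ x ∈ U, ‖gradient f x‖ₑ ≤ a * w x := by
    intro x hx
    have h1 := hgrad x hx
    rw [← ofReal_norm, hgn, hfd]
    calc ENNReal.ofReal ‖fderiv ℝ v x‖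
        = a * ENNReal.ofReal (c * (1 - 2 * η) * ‖fderiv ℝ v x‖) := by
          rw [ha, ← ENNReal.ofReal_mul (by positivity)]
          congr 1
          field_simp
      _ ≤ a * w x := mul_le_mul_right h1 a
  have hgE : ∀ x ∈ Eᶜ, x ∉ U → ‖gradient f x‖ₑ = 0 := by
    intro x hxE hxU
    obtain ⟨b, hb⟩ := hnear x hxE hxU
    have h1 : fderiv ℝ f x = 0 := by
      have h2 : f =ᶠ[𝓝 x] fun _ => b := hb
      rw [h2.fderiv_eq]
      simp
    rw [← ofReal_norm, hgn, h1, norm_zero, ENNReal.ofReal_zero]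
  have hbound : ∫⁻ x in Eᶜ, ‖gradient f x‖ₑ ^ n ≤ (a * lpn U w) ^ n := by
    have h1 : (a * lpn U w) ^ n = ∫⁻ x in U, (a * w x) ^ n := by
      rw [mul_pow, lpn, ← ENNReal.rpow_natCast (_ ^ (1 / (n : ℝ))) n, ← ENNReal.rpow_mul,
        one_div_mul_cancel (by exact_mod_cast hn0), ENNReal.rpow_one]
      simp only [mul_pow, ENNReal.rpow_natCast]
      rw [lintegral_const_mul' _ _ (ENNReal.pow_ne_top ENNReal.ofReal_ne_top)]
    rw [h1]
    have h2 : ∫⁻ x in Eᶜ, ‖gradient f x‖ₑ ^ n = ∫⁻ x in U, ‖gradient f x‖ₑ ^ n := by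
      rw [← lintegral_indicator hE.isOpen_compl.measurableSet, ← lintegral_indicator hUo.measurableSet]
      apply lintegral_congr
      intro x
      by_cases hxU : x ∈ U
      · rw [indicator_of_mem hxU, indicator_of_mem (hUE hxU)]
      · rw [indicator_of_notMem hxU]
        by_cases hxE : x ∈ Eᶜ
        · rw [indicator_of_mem hxE, hgE x hxE hxU, zero_pow hn0]
        · rw [indicator_of_notMem hxE]
    rw [h2]
    apply setLIntegral_mono' hUo.measurableSet
    intro x hx
    exact pow_le_pow_left' (hgU x hx) n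
  have hgL : MemLp (gradient f) n (volume.restrict Eᶜ) := by
    refine ⟨hgm.aestronglyMeasurable, ?_⟩
    rw [eLpNorm_lt_top_iff_lintegral_rpow_enorm_lt_top (by exact_mod_cast hn0)
      (ENNReal.natCast_ne_top n)]
    simp only [ENNReal.toReal_natCast, ENNReal.rpow_natCast]
    refine lt_of_le_of_lt hbound ?_
    exact ENNReal.pow_lt_top (ENNReal.mul_lt_top ENNReal.ofReal_lt_top hwn.lt_top)
  have hfL : MemLp f n (volume.restrict Eᶜ) :=
    (hfc.memLp_of_hasCompactSupport hfcs).restrict _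
  obtain ⟨-, g, hgLp, hgw⟩ := hrem f hfc ⟨hfL, gradient f, hgL, hwg⟩
  rw [Measure.restrict_univ] at hgLp
  have hae := Up_unique hn1 Eᶜ hE.isOpen_compl f g (gradient f) hgLp hgL hgw hwg
  have hE0 := hNull n hn1 E hE hrem
  -- thickenings
  obtain ⟨r₁, hr₁, hs₁⟩ := hF₁.exists_thickening_subset_open (isOpen_lt hu continuous_const)
    (fun x hx => show u x < η by rw [hu1 x hx]; exact hη)
  obtain ⟨r₂, hr₂, hs₂⟩ := hF₂.exists_thickening_subset_open (isOpen_lt continuous_const hu)
    (fun x hx => show 1 - η < u x by rw [hu2 x (Or.inl hx)]; linarith)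
  have hM := hMoll n hn1 f g hfc hfcs hgLp hgw F₁ F₂ (min r₁ r₂) (lt_min hr₁ hr₂)
    (fun b hb x hx => hf1 x (hs₁ (Metric.mem_thickening_iff.2
      ⟨b, hb, lt_of_lt_of_le hx (min_le_left _ _)⟩)))
    (fun b hb x hx => hf0 x (hs₂ (Metric.mem_thickening_iff.2
      ⟨b, hb, lt_of_lt_of_le hx (min_le_right _ _)⟩)))
  refine hM.trans ?_
  refine le_trans (le_of_eq ?_) hbound
  have h3 : (volume.restrict Eᶜ : Measure (V n)) = volume := by
    apply Measure.restrict_eq_self_of_ae_mem
    rw [ae_iff]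
    simpa using hE0
  rw [h3]
  apply lintegral_congr_ae
  have hEae : ∀ᵐ x : V n, x ∈ Eᶜ := by
    rw [ae_iff]
    simpa using hE0
  filter_upwards [hae, hEae] with x h1 h2
  rw [h1 h2]

end CNEDRem
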