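import Pool.Agent.Work.MP_bb0df9_an.Basic

/-!
# MP_bb0df9_an : upper bound for the modulus of curves meeting `E` in countably many points
-/

open MeasureTheory Set Filter Topology
open scoped ENNReal NNReal ContDiff

namespace CNEDRem

theorem Upper_lpn_pow {n : ℕ} (hn : 1 ≤ n) (U : Set (V n)) (g : V n → ℝ≥0∞) :
    lpn U g ^ n = ∫⁻ x in U, g x ^ n := by
  unfold lpn
  have h0 : (n : ℝ) ≠ 0 := by positivity
  rw [← ENNReal.rpow_natCast, ← ENNReal.rpow_mul, one_div, inv_mul_cancel₀ h0,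
    ENNReal.rpow_one]
  simp only [ENNReal.rpow_natCast]

theorem Upper_lpn_ne_top {n : ℕ} (hn : 1 ≤ n) {U : Set (V n)} {g : V n → V n}
    (h : MemLp g n (volume.restrict U)) : lpn U (fun x => ‖g x‖ₑ) ≠ ⊤ := by
  have h1 := h.2
  have hn0 : ((n : ℕ) : ℝ≥0∞) ≠ 0 := by
    simp; omega
  rw [eLpNorm_eq_lintegral_rpow_enorm_toReal hn0 (ENNReal.natCast_ne_top n)] at h1
  simp only [ENNReal.toReal_natCast] at h1
  exact h1.ne

/-- The test function. -/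
noncomputable def Upper_h {n : ℕ} (Z : Set (V n)) (κ : ℝ) (g : V n → V n) (x : V n) : ℝ≥0∞ :=
  ENNReal.ofReal (1 + κ) * sg Z κ (fun y => ‖g y‖ₑ) x

theorem Upper_admissible (hArc2 : StmtArc2) (hAvg : StmtAvg) (hSg : StmtSg) (hMVI : StmtMVI)
    (hImg : StmtImg) {n : ℕ} (hn : 1 ≤ n) {E F₁ F₂ Z : Set (V n)} (hZ : IsClosed Z)
    (hZ0 : Z.Nonempty) (h1 : F₁ ⊆ Z) (h2 : F₂ ⊆ Z) {v : V n → ℝ} {g : V n → V n}
    (hv : Continuous v) (hc : (v '' (Z \ E)).Countable) (hv1 : ∀ x ∈ F₁, v x = 0)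
    (hv2 : ∀ x ∈ F₂, v x = 1) (hg : MemLp g n (volume.restrict Zᶜ)) (hgm : Measurable g)
    (hw : IsWeakGrad Zᶜ v g) {κ : ℝ} (hκ : 0 < κ) (hκ1 : κ < 1) :
    Admissible (joining F₁ F₂ ∩ Fsigma E) (Zᶜ.indicator (Upper_h Z κ g)) := by
  obtain ⟨s1, s2, s3, -⟩ := hSg n hn Z κ hZ hZ0 hκ hκ1 (fun y => ‖g y‖ₑ) hgm.enorm
    (Upper_lpn_ne_top hn hg)
  obtain ⟨a1, a2, a3⟩ := hAvg n hn Z κ hZ hZ0 hκ hκ1 v g hv hg hgm hw
  have hm : Measurable (Upper_h Z κ g) := s1.const_mul _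
  refine ⟨hm.indicator hZ.measurableSet.compl, ?_⟩
  rintro γ ⟨⟨c1, c2, c3⟩, c4⟩
  by_cases hr : eVariationOn γ (Icc 0 1) = ⊤
  · unfold lineInt
    rw [if_pos hr]
    exact le_top
  obtain ⟨L, β, hL, hβ, b0, bL, bi, bint⟩ := hArc2 n γ c1 hr
  rw [bint]
  have hK : IsClosed (β ⁻¹' Z) := hZ.preimage hβ.continuous
  have key := hImg L (fun t => sgr Z κ v (β t)) (β ⁻¹' Z) (fun t => Upper_h Z κ g (β t)) hL
    (a1.comp hβ.continuous) hK (hm.comp hβ.continuous.measurable) ?_ ?_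
  · have e1 : sgr Z κ v (β L) = 1 := by
      rw [bL, a2 _ (h2 c3), hv2 _ c3]
    have e0 : sgr Z κ v (β 0) = 0 := by
      rw [b0, a2 _ (h1 c2), hv1 _ c2]
    simp only [e1, e0] at key
    rw [sub_zero, abs_one, ENNReal.ofReal_one] at key
    refine key.trans (le_of_eq ?_)
    have e2 : ∀ t, Zᶜ.indicator (Upper_h Z κ g) (β t)
        = (β ⁻¹' Z)ᶜ.indicator (fun t => Upper_h Z κ g (β t)) t := fun t => rfl
    simp only [e2]
    rw [setLIntegral_indicator hK.measurableSet.compl]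
    congr 2
    ext t
    simp only [Set.mem_sdiff, mem_inter_iff, mem_compl_iff]
    tauto
  · -- countable image
    have hsub : (fun t => sgr Z κ v (β t)) '' (β ⁻¹' Z ∩ Icc 0 L)
        ⊆ v '' (Z \ E) ∪ v '' (E ∩ γ '' Icc 0 1) := by
      rintro _ ⟨t, ⟨ht, htI⟩, rfl⟩
      show sgr Z κ v (β t) ∈ _
      rw [a2 _ ht]
      by_cases hE : β t ∈ E
      · right
        refine ⟨β t, ⟨hE, ?_⟩, rfl⟩
        rw [← bi]
        exact ⟨t, htI, rfl⟩
      · left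
        exact ⟨β t, ⟨ht, hE⟩, rfl⟩
    exact (hc.union (c4.image v)).mono hsub
  · intro a b _ hab _ hdis
    refine hMVI n Zᶜ (sgr Z κ v) (Upper_h Z κ g) hZ.isOpen_compl a1 ?_ ?_ ?_ a b β hab hβ ?_
    · exact (ENNReal.continuous_const_mul ENNReal.ofReal_ne_top).comp_continuousOn s3
    · intro x hx
      exact ENNReal.mul_ne_top ENNReal.ofReal_ne_top (s2 x hx)
    · intro x hx M hM
      exact a3 x hx M hM
    · intro t ht hmem
      exact Set.disjoint_left.mp hdis ht hmem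

theorem thmUpper (hArc2 : StmtArc2) (hAvg : StmtAvg) (hSg : StmtSg) (hMVI : StmtMVI)
    (hImg : StmtImg) : StmtUpper := by
  intro n hn E F₁ F₂ Z hZ hZ0 _ h1 h2 v g hv hc hv1 hv2 hg hgm hw
  have step : ∀ κ : ℝ, 0 < κ → κ < 1 → Modulus (joining F₁ F₂ ∩ Fsigma E)
      ≤ ENNReal.ofReal (((1 + κ) * (1 - κ)⁻¹) ^ n) * ∫⁻ x in Zᶜ, ‖g x‖ₑ ^ n := by
    intro κ hκ hκ1
    have hadm := Upper_admissible hArc2 hAvg hSg hMVI hImg hn hZ hZ0 h1 h2 hv hc hv1 hv2 hg hgm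
      hw hκ hκ1
    obtain ⟨s1, -, -, s4⟩ := hSg n hn Z κ hZ hZ0 hκ hκ1 (fun y => ‖g y‖ₑ) hgm.enorm
      (Upper_lpn_ne_top hn hg)
    have hmod : Modulus (joining F₁ F₂ ∩ Fsigma E)
        ≤ ∫⁻ x, (Zᶜ.indicator (Upper_h Z κ g) x) ^ n :=
      iInf_le_of_le _ (iInf_le_of_le hadm le_rfl)
    refine hmod.trans ?_
    have e1 : ∫⁻ x, (Zᶜ.indicator (Upper_h Z κ g) x) ^ n
        = ∫⁻ x in Zᶜ, Upper_h Z κ g x ^ n := by
      rw [← lintegral_indicator hZ.measurableSet.compl]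
      apply lintegral_congr
      intro x
      by_cases hx : x ∈ Zᶜ
      · rw [indicator_of_mem hx, indicator_of_mem hx]
      · rw [indicator_of_notMem hx, indicator_of_notMem hx, zero_pow (by omega)]
    rw [e1]
    have e2 : ∫⁻ x in Zᶜ, Upper_h Z κ g x ^ n
        = ENNReal.ofReal (1 + κ) ^ n * ∫⁻ x in Zᶜ, sg Z κ (fun y => ‖g y‖ₑ) x ^ n := by
      rw [← lintegral_const_mul _ (s1.pow_const n)]
      apply lintegral_congr
      intro x
      unfold Upper_h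
      rw [mul_pow]
    rw [e2, ← Upper_lpn_pow hn, ← Upper_lpn_pow hn]
    have hpos : 0 ≤ 1 + κ := by linarith
    rw [ENNReal.ofReal_pow (by have : 0 < (1 - κ)⁻¹ := inv_pos.mpr (by linarith)
                               positivity), ENNReal.ofReal_mul hpos, mul_pow, mul_assoc]
    gcongr
    rw [← mul_pow]
    exact pow_le_pow_left' s4 n
  have hlim : Tendsto (fun κ : ℝ => ENNReal.ofReal (((1 + κ) * (1 - κ)⁻¹) ^ n)
      * ∫⁻ x in Zᶜ, ‖g x‖ₑ ^ n) (𝓝[>] 0) (𝓝 (1 * ∫⁻ x in Zᶜ, ‖g x‖ₑ ^ n)) := by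
    apply ENNReal.Tendsto.mul_const
    · have hc1 : ContinuousAt (fun κ : ℝ => ((1 + κ) * (1 - κ)⁻¹) ^ n) 0 := by
        apply ContinuousAt.pow
        apply ContinuousAt.mul (by fun_prop)
        apply ContinuousAt.inv₀ (by fun_prop)
        norm_num
      have hc2 := hc1.tendsto
      simp only [add_zero, sub_zero, inv_one, mul_one, one_pow] at hc2
      have hc3 := (ENNReal.tendsto_ofReal hc2).mono_left (nhdsWithin_le_nhds (s := Ioi (0 : ℝ)))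
      rwa [ENNReal.ofReal_one] at hc3
    · left
      exact one_ne_zero
  rw [one_mul] at hlim
  refine ge_of_tendsto hlim ?_
  filter_upwards [Ioo_mem_nhdsGT (show (0 : ℝ) < 1 by norm_num)] with κ hκ
  exact step κ hκ.1 hκ.2

end CNEDRem
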