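import Pool.Agent.Work.MP_bb0df9_an.Basic

/-!
# MP_bb0df9_an : first variation
-/

open MeasureTheory Set Filter Topology
open scoped ENNReal NNReal ContDiff

namespace CNEDRem

/-- Derivative of `t ↦ ‖a + t b‖ ^ n`. -/
theorem Var_deriv {n : ℕ} (hn : 2 ≤ n) (a b : V n) (t : ℝ) :
    HasDerivAt (fun t : ℝ => ‖a + t • b‖ ^ n)
      ((n : ℝ) * ‖a + t • b‖ ^ (n - 2) * inner ℝ (a + t • b) b) t := by
  have h1 : HasFDerivAt (fun x : V n => ‖x‖ ^ (n : ℝ))
      (((n : ℝ) * ‖a + t • b‖ ^ ((n : ℝ) - 2)) • innerSL ℝ (a + t • b)) (a + t • b) :=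
    hasFDerivAt_norm_rpow _ (by exact_mod_cast hn)
  have h2 : HasDerivAt (fun t : ℝ => a + t • b) b t := by
    simpa using ((hasDerivAt_id t).smul_const b).const_add a
  have h3 := h1.comp_hasDerivAt t h2
  have e : ((n : ℝ) - 2) = ((n - 2 : ℕ) : ℝ) := by
    rw [Nat.cast_sub hn]; norm_num
  have h4 : ((((n : ℝ) * ‖a + t • b‖ ^ ((n : ℝ) - 2)) • innerSL ℝ (a + t • b)) b) =
      (n : ℝ) * ‖a + t • b‖ ^ (n - 2) * inner ℝ (a + t • b) b := by
    rw [e, Real.rpow_natCast]
    rfl
  rw [h4] at h3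
  refine h3.congr_of_eventuallyEq (Eventually.of_forall fun s => ?_)
  simp only [Function.comp]
  rw [Real.rpow_natCast]

theorem thmVar : StmtVar := by
  intro n hn μ a b ha hb hmin
  have hn0 : n ≠ 0 := by omega
  have hint : ∀ f : V n → V n, MemLp f n μ → Integrable (fun x => ‖f x‖ ^ n) μ := by
    intro f hf
    have := hf.integrable_norm_pow (p := n) hn0
    exact this
  have hab : MemLp (fun x => ‖a x‖ + ‖b x‖) n μ := ha.norm.add hb.norm
  have hbound : Integrable (fun x => (n : ℝ) * (‖a x‖ + ‖b x‖) ^ n) μ := by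
    have := hab.integrable_norm_pow (p := n) hn0
    refine (this.congr (Eventually.of_forall fun x => ?_)).const_mul _
    simp only
    rw [Real.norm_of_nonneg (by positivity)]
  have key := hasDerivAt_integral_of_dominated_loc_of_deriv_le (μ := μ) (𝕜 := ℝ)
    (F := fun (t : ℝ) x => ‖a x + t • b x‖ ^ n)
    (F' := fun (t : ℝ) x => (n : ℝ) * ‖a x + t • b x‖ ^ (n - 2) * inner ℝ (a x + t • b x) (b x))
    (x₀ := 0) (s := Metric.ball 0 1) (bound := fun x => (n : ℝ) * (‖a x‖ + ‖b x‖) ^ n)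
    (Metric.ball_mem_nhds 0 one_pos)
    (Eventually.of_forall fun t => (hint _ (ha.add (hb.const_smul t))).aestronglyMeasurable)
    (hint _ (by simpa using ha))
    (by
      have h0 : AEStronglyMeasurable (fun x => (0 : ℝ) • b x) μ :=
        hb.aestronglyMeasurable.const_smul (0 : ℝ)
      have h1 : AEStronglyMeasurable (fun x => a x + (0 : ℝ) • b x) μ :=
        ha.aestronglyMeasurable.add h0
      exact ((h1.norm.pow _).const_mul _).mul (h1.inner hb.aestronglyMeasurable))
    (Eventually.of_forall fun x t ht => by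
      have ht1 : |t| < 1 := by simpa [Metric.mem_ball, Real.dist_eq] using ht
      have h1 : ‖a x + t • b x‖ ≤ ‖a x‖ + ‖b x‖ := by
        refine (norm_add_le _ _).trans ?_
        rw [norm_smul]
        have : ‖t‖ * ‖b x‖ ≤ 1 * ‖b x‖ := by
          gcongr
          exact ht1.le
        linarith
      have h2 : |inner ℝ (a x + t • b x) (b x)| ≤ ‖a x + t • b x‖ * ‖b x‖ :=
        abs_real_inner_le_norm _ _
      rw [Real.norm_eq_abs, abs_mul, abs_mul, abs_of_nonneg (by positivity : (0 : ℝ) ≤ n),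
        abs_of_nonneg (by positivity : (0 : ℝ) ≤ ‖a x + t • b x‖ ^ (n - 2)), mul_assoc]
      refine mul_le_mul_of_nonneg_left ?_ (by positivity)
      calc ‖a x + t • b x‖ ^ (n - 2) * |inner ℝ (a x + t • b x) (b x)|
          ≤ (‖a x‖ + ‖b x‖) ^ (n - 2) * ((‖a x‖ + ‖b x‖) * (‖a x‖ + ‖b x‖)) := by
            gcongr
            refine h2.trans ?_
            gcongr
            linarith [norm_nonneg (a x)]
        _ = (‖a x‖ + ‖b x‖) ^ n := by
            rw [← pow_two, ← pow_add]
            congr 1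
            omega)
    hbound
    (Eventually.of_forall fun x t _ => Var_deriv hn (a x) (b x) t)
  obtain ⟨-, key⟩ := key
  have hle : ∀ t : ℝ, ∫ x, ‖a x + (0 : ℝ) • b x‖ ^ n ∂μ ≤ ∫ x, ‖a x + t • b x‖ ^ n ∂μ := by
    intro t
    have conv : ∀ f : V n → V n, MemLp f n μ →
        ∫⁻ x, ‖f x‖ₑ ^ n ∂μ = ENNReal.ofReal (∫ x, ‖f x‖ ^ n ∂μ) := by
      intro f hf
      rw [ofReal_integral_eq_lintegral_ofReal (hint f hf)
        (Eventually.of_forall fun x => by positivity)]
      refine lintegral_congr fun x => ?_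
      rw [ENNReal.ofReal_pow (norm_nonneg _), ofReal_norm]
    have h := hmin t
    have h' : MemLp (fun x => a x + t • b x) n μ := ha.add (hb.const_smul t)
    rw [conv a ha, conv _ h'] at h
    have h2 := (ENNReal.ofReal_le_ofReal_iff (integral_nonneg fun x => by positivity)).1 h
    simpa using h2
  have hmin0 : IsLocalMin (fun t : ℝ => ∫ x, ‖a x + t • b x‖ ^ n ∂μ) 0 :=
    Eventually.of_forall fun t => hle t
  have hz := hmin0.hasDerivAt_eq_zero key
  have h3 : ∫ x, (n : ℝ) * ‖a x + (0 : ℝ) • b x‖ ^ (n - 2) * inner ℝ (a x + (0 : ℝ) • b x) (b x) ∂μ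
      = (n : ℝ) * ∫ x, ‖a x‖ ^ (n - 2) * inner ℝ (a x) (b x) ∂μ := by
    rw [← integral_const_mul]
    refine integral_congr_ae (Eventually.of_forall fun x => ?_)
    simp [mul_assoc]
  rw [h3] at hz
  rcases mul_eq_zero.1 hz with h | h
  · exact absurd h (by exact_mod_cast hn0)
  · exact h

end CNEDRem
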