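import Pool.Agent.Work.MP_bb0df9_an.Basic

/-!
# MP_bb0df9_an : local Lipschitz bound of the path distance
-/

set_option autoImplicit false

open MeasureTheory Set Filter Topology
open scoped ENNReal NNReal ContDiff

namespace CNEDRem

theorem WdLoc_clamp (L s t : ℝ) : |max 0 (min L s) - max 0 (min L t)| ≤ |s - t| := by
  have h1 := abs_max_sub_max_le_abs (min L s) (min L t) 0
  have h2 := abs_min_sub_min_le_max L s L t
  rw [sub_self, abs_zero, max_eq_right (abs_nonneg _)] at h2
  rw [max_comm 0, max_comm 0]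
  exact h1.trans h2

theorem WdLoc_path {n : ℕ} {U : Set (V n)} {x : V n} {r : ℝ} (hU : Metric.ball x r ⊆ U)
    {y z : V n} (hy : y ∈ Metric.ball x r) (hz : z ∈ Metric.ball x r) (hyz : 0 < dist y z) :
    ∃ γ : ℝ → V n, IsP U y z (dist y z) γ ∧ ∀ t, γ t ∈ Metric.ball x r := by
  set L := dist y z with hL
  have h0 : ∀ t, 0 ≤ max 0 (min L t) / L := fun t => div_nonneg (le_max_left _ _) hyz.le
  have h1 : ∀ t, max 0 (min L t) / L ≤ 1 := fun t =>
    (div_le_one hyz).2 (max_le hyz.le (min_le_left _ _))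
  have hb : ∀ t, AffineMap.lineMap y z (max 0 (min L t) / L) ∈ Metric.ball x r := fun t =>
    (convex_ball x r).lineMap_mem hy hz ⟨h0 t, h1 t⟩
  refine ⟨fun t => AffineMap.lineMap y z (max 0 (min L t) / L), ⟨hyz.le, ?_, ?_, ?_, ?_⟩, hb⟩
  · refine LipschitzWith.of_dist_le_mul fun s t => ?_
    rw [dist_lineMap_lineMap, ← hL, Real.dist_eq, ← sub_div, abs_div, abs_of_pos hyz,
      div_mul_cancel₀ _ hyz.ne', NNReal.coe_one, one_mul, Real.dist_eq]
    exact WdLoc_clamp L s t
  · have e : max 0 (min L 0) / L = 0 := by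
      rw [min_eq_right hyz.le, max_self, zero_div]
    simp only [e, AffineMap.lineMap_apply_zero]
  · have e : max 0 (min L L) / L = 1 := by
      rw [min_self, max_eq_right hyz.le, div_self hyz.ne']
    simp only [e, AffineMap.lineMap_apply_one]
  · have e : (fun t => AffineMap.lineMap y z (max 0 (min L t) / L)) '' Icc 0 L \ U = ∅ := by
      rw [sdiff_eq_empty]
      rintro _ ⟨t, -, rfl⟩
      exact hU (hb t)
    rw [e]
    exact countable_empty

theorem thmWdLoc : StmtWdLoc := by
  intro n U δ w hU hw x hx M hM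
  have ho : IsOpen (U ∩ w ⁻¹' Iio M) := hw.cont.isOpen_inter_preimage hU isOpen_Iio
  obtain ⟨r, hr, hb⟩ := Metric.isOpen_iff.1 ho x ⟨hx, hM⟩
  refine ⟨r, hr, fun y hy => (hb hy).1, fun y hy => (hb hy).2, fun y hy z hz => ?_⟩
  rcases (dist_nonneg (x := y) (y := z)).eq_or_lt with h | h
  · rw [eq_of_dist_eq_zero h.symm, wd_self]
    exact bot_le
  · obtain ⟨γ, hγ, hγb⟩ := WdLoc_path (fun y hy => (hb hy).1) hy hz h
    refine (wd_le_cost hγ).trans ?_
    unfold cost
    calc ∫⁻ t in Icc 0 (dist y z), w (γ t) ≤ ∫⁻ _ in Icc 0 (dist y z), M :=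
          lintegral_mono fun t => (hb (hγb t)).2.le
      _ = M * ENNReal.ofReal (dist y z) := by
          rw [setLIntegral_const, Real.volume_Icc, sub_zero]

end CNEDRem
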