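import Pool.Agent.Work.MP_bb0df9_an.Basic

/-!
# MP_bb0df9_an : basic properties of the path distance
-/

open MeasureTheory Set Filter Topology
open scoped ENNReal NNReal ContDiff

namespace CNEDRem

variable {n : ℕ} {U : Set (V n)} {w : V n → ℝ≥0∞}

theorem B1_shift (F : ℝ → ℝ≥0∞) (a b c : ℝ) :
    ∫⁻ t in Icc (a + c) (b + c), F (t - c) = ∫⁻ t in Icc a b, F t := by
  rw [← lintegral_indicator measurableSet_Icc, ← lintegral_indicator measurableSet_Icc,
    ← lintegral_sub_right_eq_self ((Icc a b).indicator F) c]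
  congr 1
  funext t
  simp only [indicator, mem_Icc]
  congr 1
  apply propext
  constructor
  · rintro ⟨h1, h2⟩
    constructor <;> linarith
  · rintro ⟨h1, h2⟩
    constructor <;> linarith

theorem B1_refl (F : ℝ → ℝ≥0∞) (L : ℝ) :
    ∫⁻ t in Icc 0 L, F (L - t) = ∫⁻ t in Icc 0 L, F t := by
  rw [← lintegral_indicator measurableSet_Icc, ← lintegral_indicator measurableSet_Icc,
    ← lintegral_sub_left_eq_self ((Icc 0 L).indicator F) L]
  congr 1
  funext t
  simp only [indicator, mem_Icc]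
  congr 1
  apply propext
  constructor
  · rintro ⟨h1, h2⟩
    constructor <;> linarith
  · rintro ⟨h1, h2⟩
    constructor <;> linarith

theorem B1_rev {x y : V n} {L : ℝ} {γ : ℝ → V n} (h : IsP U x y L γ) :
    IsP U y x L (fun t => γ (L - t)) where
  nonneg := h.nonneg
  lip := by
    refine LipschitzWith.of_dist_le_mul fun s t => ?_
    have := h.lip.dist_le_mul (L - s) (L - t)
    rw [Real.dist_eq] at this ⊢
    rw [show L - s - (L - t) = -(s - t) by ring, abs_neg] at this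
    exact this
  left := by simpa using h.right
  right := by simpa using h.left
  countable := by
    refine h.countable.mono ?_
    rintro _ ⟨⟨t, ht, rfl⟩, hU⟩
    exact ⟨⟨L - t, ⟨by linarith [ht.2], by linarith [ht.1]⟩, rfl⟩, hU⟩

theorem B1_symm_le (x y : V n) : wd U w x y ≤ wd U w y x :=
  le_iInf fun L => le_iInf fun γ => le_iInf fun h =>
    (wd_le_cost (B1_rev h)).trans (B1_refl (fun t => w (γ t)) L).le

theorem thmWdSymm : StmtWdSymm := fun _ _ _ x y => le_antisymm (B1_symm_le x y) (B1_symm_le y x)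

open Classical in
/-- Concatenation of two paths. -/
noncomputable def B1cat (L : ℝ) (γ₁ γ₂ : ℝ → V n) (t : ℝ) : V n :=
  if t ≤ L then γ₁ t else γ₂ (t - L)

theorem B1_cat_right {L : ℝ} {γ₁ γ₂ : ℝ → V n} (h : γ₁ L = γ₂ 0) {t : ℝ} (ht : L ≤ t) :
    B1cat L γ₁ γ₂ t = γ₂ (t - L) := by
  unfold B1cat
  split_ifs with h1
  · have : t = L := le_antisymm h1 ht
    subst this
    simpa using h
  · rfl

theorem B1_cat_left {L : ℝ} {γ₁ γ₂ : ℝ → V n} {t : ℝ} (ht : t ≤ L) :
    B1cat L γ₁ γ₂ t = γ₁ t := by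
  unfold B1cat
  rw [if_pos ht]

theorem B1_cat_lip_aux {L : ℝ} {γ₁ γ₂ : ℝ → V n} (h1 : LipschitzWith 1 γ₁)
    (h2 : LipschitzWith 1 γ₂) (h : γ₁ L = γ₂ 0) {s t : ℝ} (hst : s ≤ t) :
    dist (B1cat L γ₁ γ₂ s) (B1cat L γ₁ γ₂ t) ≤ t - s := by
  have e1 : ∀ s t : ℝ, s ≤ t → dist (γ₁ s) (γ₁ t) ≤ t - s := fun s t hst => by
    have := h1.dist_le_mul s t
    rw [Real.dist_eq, abs_sub_comm, abs_of_nonneg (sub_nonneg.mpr hst)] at this
    simpa using this
  have e2 : ∀ s t : ℝ, s ≤ t → dist (γ₂ s) (γ₂ t) ≤ t - s := fun s t hst => by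
    have := h2.dist_le_mul s t
    rw [Real.dist_eq, abs_sub_comm, abs_of_nonneg (sub_nonneg.mpr hst)] at this
    simpa using this
  rcases le_total t L with ht | ht
  · rw [B1_cat_left ht, B1_cat_left (hst.trans ht)]
    exact e1 s t hst
  · rcases le_total s L with hs | hs
    · rw [B1_cat_left hs, B1_cat_right h ht]
      calc dist (γ₁ s) (γ₂ (t - L)) ≤ dist (γ₁ s) (γ₁ L) + dist (γ₁ L) (γ₂ (t - L)) :=
            dist_triangle _ _ _
        _ ≤ (L - s) + ((t - L) - 0) := by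
            refine add_le_add (e1 s L hs) ?_
            rw [h]
            exact e2 0 (t - L) (by linarith)
        _ = t - s := by ring
    · rw [B1_cat_right h hs, B1_cat_right h ht]
      have := e2 (s - L) (t - L) (by linarith)
      linarith

theorem B1_cat_path {x y z : V n} {L₁ L₂ : ℝ} {γ₁ γ₂ : ℝ → V n} (h1 : IsP U x y L₁ γ₁)
    (h2 : IsP U y z L₂ γ₂) : IsP U x z (L₁ + L₂) (B1cat L₁ γ₁ γ₂) where
  nonneg := add_nonneg h1.nonneg h2.nonneg
  lip := by
    have h : γ₁ L₁ = γ₂ 0 := h1.right.trans h2.left.symm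
    refine LipschitzWith.of_dist_le_mul fun s t => ?_
    rw [Real.dist_eq]
    rcases le_total s t with hst | hst
    · have := B1_cat_lip_aux h1.lip h2.lip h hst
      rw [abs_sub_comm, abs_of_nonneg (sub_nonneg.mpr hst)]
      simpa using this
    · have := B1_cat_lip_aux h1.lip h2.lip h hst
      rw [abs_of_nonneg (sub_nonneg.mpr hst), dist_comm]
      simpa using this
  left := by rw [B1_cat_left h1.nonneg, h1.left]
  right := by
    rw [B1_cat_right (h1.right.trans h2.left.symm) (by linarith [h2.nonneg])]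
    rw [add_sub_cancel_left, h2.right]
  countable := by
    refine (h1.countable.union h2.countable).mono ?_
    rintro _ ⟨⟨t, ht, rfl⟩, hU⟩
    rcases le_total t L₁ with h | h
    · left
      rw [B1_cat_left h] at hU ⊢
      exact ⟨⟨t, ⟨ht.1, h⟩, rfl⟩, hU⟩
    · right
      rw [B1_cat_right (h1.right.trans h2.left.symm) h] at hU ⊢
      exact ⟨⟨t - L₁, ⟨by linarith, by linarith [ht.2]⟩, rfl⟩, hU⟩

theorem B1_cat_cost {x y z : V n} {L₁ L₂ : ℝ} {γ₁ γ₂ : ℝ → V n} (h1 : IsP U x y L₁ γ₁)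
    (h2 : IsP U y z L₂ γ₂) :
    cost w (L₁ + L₂) (B1cat L₁ γ₁ γ₂) ≤ cost w L₁ γ₁ + cost w L₂ γ₂ := by
  have hsub : Icc (0 : ℝ) (L₁ + L₂) ⊆ Icc 0 L₁ ∪ Icc (0 + L₁) (L₂ + L₁) := by
    intro t ht
    rcases le_total t L₁ with h | h
    · exact Or.inl ⟨ht.1, h⟩
    · exact Or.inr ⟨by linarith, by linarith [ht.2]⟩
  unfold cost
  refine (lintegral_mono_set hsub).trans ((lintegral_union_le _ _ _).trans ?_)
  refine add_le_add (le_of_eq ?_) (le_of_eq ?_)
  · refine setLIntegral_congr_fun measurableSet_Icc fun t ht => ?_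
    simp only [B1_cat_left ht.2]
  · rw [← B1_shift (fun t => w (γ₂ t)) 0 L₂ L₁]
    refine setLIntegral_congr_fun measurableSet_Icc fun t ht => ?_
    have ht' : L₁ ≤ t := by linarith [ht.1]
    simp only [B1_cat_right (h1.right.trans h2.left.symm) ht']

theorem thmWdTri : StmtWdTri := by
  intro n U w x y z
  have key : ∀ L₁ γ₁, IsP U x y L₁ γ₁ → ∀ L₂ γ₂, IsP U y z L₂ γ₂ →
      wd U w x z ≤ cost w L₁ γ₁ + cost w L₂ γ₂ := fun L₁ γ₁ h1 L₂ γ₂ h2 =>
    (wd_le_cost (B1_cat_path h1 h2)).trans (B1_cat_cost h1 h2)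
  have step : ∀ L₁ γ₁, IsP U x y L₁ γ₁ → wd U w x z ≤ cost w L₁ γ₁ + wd U w y z := by
    intro L₁ γ₁ h1
    have : cost w L₁ γ₁ + wd U w y z =
        ⨅ (L : ℝ) (γ : ℝ → V n) (_ : IsP U y z L γ), (cost w L₁ γ₁ + cost w L γ) := by
      simp only [wd, ENNReal.add_iInf]
    rw [this]
    exact le_iInf fun L => le_iInf fun γ => le_iInf fun h => key L₁ γ₁ h1 L γ h
  have : wd U w x y + wd U w y z =
      ⨅ (L : ℝ) (γ : ℝ → V n) (_ : IsP U x y L γ), (cost w L γ + wd U w y z) := by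
    rw [wd]
    simp only [ENNReal.iInf_add]
  rw [this]
  exact le_iInf fun L => le_iInf fun γ => le_iInf fun h => step L γ h

theorem B1_dist {x y : V n} {L : ℝ} {γ : ℝ → V n} (h : IsP U x y L γ) : dist x y ≤ L := by
  have h1 := h.lip.dist_le_mul 0 L
  rw [h.left, h.right, Real.dist_eq, zero_sub, abs_neg, abs_of_nonneg h.nonneg] at h1
  simpa using h1

theorem thmWdLb : StmtWdLb := by
  intro n U w δ hδ x y
  refine le_iInf fun L => le_iInf fun γ => le_iInf fun h => ?_
  calc δ * ENNReal.ofReal (dist x y) ≤ δ * ENNReal.ofReal L :=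
        mul_le_mul_right (ENNReal.ofReal_le_ofReal (B1_dist h)) _
    _ = ∫⁻ _ in Icc (0 : ℝ) L, δ := by
        rw [setLIntegral_const, Real.volume_Icc, sub_zero]
    _ ≤ cost w L γ := lintegral_mono fun _ => hδ _

theorem thmWdSub : StmtWdSub := by
  intro n U w x y L γ h a b ha hab hbL
  have h1 : IsP U (γ a) (γ b) (b - a) (fun t => γ (t + a)) := by
    refine ⟨by linarith, ?_, by simp, by simp, ?_⟩
    · refine LipschitzWith.of_dist_le_mul fun s t => ?_
      have := h.lip.dist_le_mul (s + a) (t + a)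
      rwa [dist_add_right] at this
    · refine h.countable.mono ?_
      rintro _ ⟨⟨t, ht, rfl⟩, hU⟩
      exact ⟨⟨t + a, ⟨by linarith [ht.1], by linarith [ht.2]⟩, rfl⟩, hU⟩
  refine (wd_le_cost h1).trans (le_of_eq ?_)
  unfold cost
  rw [← B1_shift (fun t => w (γ (t + a))) 0 (b - a) a]
  simp

end CNEDRem
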