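import Pool.Agent.Work.MP_bb0df9_an.Stmts

/-!
# MP_bb0df9_an : elementary facts
-/

open MeasureTheory Set Filter Topology
open scoped ENNReal NNReal ContDiff

namespace CNEDRem

variable {n : ℕ} {U : Set (V n)} {w w' : V n → ℝ≥0∞} {A B A' B' : Set (V n)}

theorem wd_le_cost {x y : V n} {L : ℝ} {γ : ℝ → V n} (h : IsP U x y L γ) :
    wd U w x y ≤ cost w L γ :=
  iInf_le_of_le L (iInf_le_of_le γ (iInf_le_of_le h le_rfl))

theorem exists_path_of_wd_lt {x y : V n} {c : ℝ≥0∞} (h : wd U w x y < c) :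
    ∃ L γ, IsP U x y L γ ∧ cost w L γ < c := by
  simp only [wd, iInf_lt_iff] at h
  obtain ⟨L, γ, h1, h2⟩ := h
  exact ⟨L, γ, h1, h2⟩

theorem cost_mono (h : ∀ x, w x ≤ w' x) (L : ℝ) (γ : ℝ → V n) : cost w L γ ≤ cost w' L γ :=
  lintegral_mono fun _ => h _

theorem wd_mono (h : ∀ x, w x ≤ w' x) (x y : V n) : wd U w x y ≤ wd U w' x y :=
  iInf_mono fun L => iInf_mono fun γ => iInf_mono fun _ => cost_mono h L γ

theorem sd_le {a b : V n} (ha : a ∈ A) (hb : b ∈ B) : sd U w A B ≤ wd U w a b :=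
  iInf_le_of_le a (iInf_le_of_le ha (iInf_le_of_le b (iInf_le_of_le hb le_rfl)))

theorem exists_of_sd_lt {c : ℝ≥0∞} (h : sd U w A B < c) :
    ∃ a ∈ A, ∃ b ∈ B, wd U w a b < c := by
  simp only [sd, iInf_lt_iff] at h
  obtain ⟨a, ha, b, hb, h⟩ := h
  exact ⟨a, ha, b, hb, h⟩

theorem le_sd {c : ℝ≥0∞} (h : ∀ a ∈ A, ∀ b ∈ B, c ≤ wd U w a b) : c ≤ sd U w A B :=
  le_iInf fun a => le_iInf fun ha => le_iInf fun b => le_iInf fun hb => h a ha b hb

theorem sd_mono (h : ∀ x, w x ≤ w' x) (A B : Set (V n)) : sd U w A B ≤ sd U w' A B :=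
  le_sd fun _ ha _ hb => (sd_le ha hb).trans (wd_mono h _ _)

theorem sd_anti (hA : A ⊆ A') (hB : B ⊆ B') : sd U w A' B' ≤ sd U w A B :=
  le_sd fun _ ha _ hb => sd_le (hA ha) (hB hb)

theorem sd_union_left (A A' B : Set (V n)) :
    sd U w (A ∪ A') B = min (sd U w A B) (sd U w A' B) := by
  apply le_antisymm
  · exact le_min (sd_anti subset_union_left le_rfl) (sd_anti subset_union_right le_rfl)
  · refine le_sd fun a ha b hb => ?_
    rcases ha with ha | ha
    · exact (min_le_left _ _).trans (sd_le ha hb)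
    · exact (min_le_right _ _).trans (sd_le ha hb)

@[simp] theorem sd_singleton (x y : V n) : sd U w {x} {y} = wd U w x y := by
  simp [sd]

theorem ps_le {s : ℝ} {x y : V n} (h : dist x y ≤ s) :
    ps U w s A B ≤ sd U w A {x} + sd U w {y} B :=
  iInf_le_of_le x (iInf_le_of_le y (iInf_le_of_le h le_rfl))

theorem exists_of_ps_lt {s : ℝ} {c : ℝ≥0∞} (h : ps U w s A B < c) :
    ∃ x y, dist x y ≤ s ∧ sd U w A {x} + sd U w {y} B < c := by
  simp only [ps, iInf_lt_iff] at h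
  obtain ⟨x, y, h1, h2⟩ := h
  exact ⟨x, y, h1, h2⟩

theorem le_ps {s : ℝ} {c : ℝ≥0∞}
    (h : ∀ x y, dist x y ≤ s → c ≤ sd U w A {x} + sd U w {y} B) : c ≤ ps U w s A B :=
  le_iInf fun x => le_iInf fun y => le_iInf fun hxy => h x y hxy

theorem ps_mono (h : ∀ x, w x ≤ w' x) (s : ℝ) (A B : Set (V n)) :
    ps U w s A B ≤ ps U w' s A B :=
  le_ps fun _ _ hxy => (ps_le hxy).trans (add_le_add (sd_mono h _ _) (sd_mono h _ _))

theorem ps_anti {s s' : ℝ} (h : s ≤ s') : ps U w s' A B ≤ ps U w s A B :=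
  le_ps fun _ _ hxy => ps_le (hxy.trans h)

theorem ps_le_psi {s : ℝ} (h : 0 < s) : ps U w s A B ≤ psi U w A B :=
  le_iSup_of_le s (le_iSup_of_le h le_rfl)

theorem psi_le {c : ℝ≥0∞} (h : ∀ s, 0 < s → ps U w s A B ≤ c) : psi U w A B ≤ c :=
  iSup_le fun s => iSup_le fun hs => h s hs

theorem exists_of_lt_psi {c : ℝ≥0∞} (h : c < psi U w A B) : ∃ s, 0 < s ∧ c < ps U w s A B := by
  simp only [psi, lt_iSup_iff] at h
  obtain ⟨s, hs, h⟩ := h
  exact ⟨s, hs, h⟩

theorem psi_mono (h : ∀ x, w x ≤ w' x) (A B : Set (V n)) : psi U w A B ≤ psi U w' A B :=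
  psi_le fun s hs => (ps_mono h s A B).trans (ps_le_psi hs)

theorem wd_self (x : V n) : wd U w x x = 0 := by
  have h : IsP U x x 0 (fun _ => x) :=
    ⟨le_rfl, LipschitzWith.const' x, rfl, rfl,
      ((Set.countable_singleton x).mono (by rintro _ ⟨⟨t, _, rfl⟩, _⟩; rfl))⟩
  have h2 := wd_le_cost (w := w) h
  have h3 : cost w 0 (fun _ => x) = 0 := by simp [cost]
  rw [h3] at h2
  exact le_antisymm h2 bot_le

theorem sd_self {a : V n} (ha : a ∈ A) (hb : a ∈ B) : sd U w A B = 0 :=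
  le_antisymm ((sd_le ha hb).trans (wd_self a).le) bot_le

theorem psi_le_sd (A B : Set (V n)) : psi U w A B ≤ sd U w A B := by
  refine psi_le fun s hs => le_sd fun a ha b hb => ?_
  refine (ps_le (x := a) (y := a) (by simpa using hs.le)).trans ?_
  rw [sd_self ha (mem_singleton a), zero_add]
  exact sd_le (mem_singleton a) hb

theorem thmWdSelf : StmtWdSelf := fun _ _ _ x => wd_self x

theorem thmWtAdd : StmtWtAdd := by
  intro n U C δ κ w g hw hg
  refine ⟨hw.meas.add hg.meas, fun x => (hw.lb x).trans le_self_add, fun x hx => ?_, fun x hx => ?_,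
    hw.cont.add hg.cont⟩
  · simp [hw.top x hx]
  · simpa using ⟨hw.fin x hx, hg.fin x hx⟩

theorem thmLpnAdd : StmtLpnAdd := by
  intro n hn U f g hf hg
  unfold lpn
  exact ENNReal.lintegral_Lp_add_le hf.aemeasurable hg.aemeasurable (by exact_mod_cast hn)

end CNEDRem
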