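import Pool.Agent.Work.MP_bb0df9_an.Basic

/-!
# MP_bb0df9_an : the crossing lemma
-/

open MeasureTheory Set Filter Topology
open scoped ENNReal NNReal ContDiff

namespace CNEDRem

/-- The initial part of a path. -/
theorem Cross_init {n : ℕ} {U : Set (V n)} {x y : V n} {L : ℝ} {γ : ℝ → V n}
    (h : IsP U x y L γ) {s : ℝ} (h0 : 0 ≤ s) (hs : s ≤ L) : IsP U x (γ s) s γ :=
  ⟨h0, h.lip, h.left, rfl, h.countable.mono
    (sdiff_subset_sdiff_left (image_mono (Icc_subset_Icc_right hs)))⟩

/-- The final part of a path. -/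
theorem Cross_fin {n : ℕ} {U : Set (V n)} {x y : V n} {L : ℝ} {γ : ℝ → V n}
    (h : IsP U x y L γ) {s : ℝ} (h0 : 0 ≤ s) (hs : s ≤ L) :
    IsP U (γ s) y (L - s) (fun t => γ (s + t)) := by
  refine ⟨by linarith, ?_, by simp, ?_, h.countable.mono (sdiff_subset_sdiff_left ?_)⟩
  · have h1 : LipschitzWith 1 (fun t : ℝ => s + t) :=
      LipschitzWith.of_dist_le_mul fun a b => by simp
    have h2 := h.lip.comp h1
    rw [mul_one] at h2
    exact h2
  · show γ (s + (L - s)) = y
    rw [add_sub_cancel]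
    exact h.right
  · rintro _ ⟨t, ht, rfl⟩
    exact ⟨s + t, ⟨by linarith [ht.1], by linarith [ht.2]⟩, rfl⟩

/-- The cost is additive. -/
theorem Cross_cost {n : ℕ} (w : V n → ℝ≥0∞) {L : ℝ} (γ : ℝ → V n) {s : ℝ} (h0 : 0 ≤ s)
    (hs : s ≤ L) : cost w s γ + cost w (L - s) (fun t => γ (s + t)) = cost w L γ := by
  have h1 : cost w (L - s) (fun t => γ (s + t)) = ∫⁻ t in Icc s L, w (γ t) := by
    have h2 := (measurePreserving_add_left volume s).setLIntegral_comp_preimage_emb
      (measurableEmbedding_addLeft s) (fun t => w (γ t)) (Icc s L)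
    rw [preimage_const_add_Icc, sub_self] at h2
    exact h2
  rw [h1]
  have h3 : ∫⁻ t in Icc s L, w (γ t) = ∫⁻ t in Ioc s L, w (γ t) :=
    setLIntegral_congr Ioc_ae_eq_Icc.symm
  rw [h3]
  unfold cost
  rw [← lintegral_union measurableSet_Ioc, Icc_union_Ioc_eq_Icc h0 hs]
  rw [Set.disjoint_left]
  rintro a ha hb
  exact absurd ha.2 (not_le.mpr hb.1)

theorem thmCross : StmtCross := by
  intro n U w A B N t O hO x y L γ hγ i q
  have hsub : ∀ j < N, A ∪ closure (O j) ⊆ O (j + 1) := by
    intro j hj a ha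
    by_contra hb
    obtain ⟨r, hr, h⟩ := hO.gap j hj
    have := h a ha a hb
    rw [dist_self] at this
    linarith
  have hmono : ∀ j < N, O j ⊆ O (j + 1) := fun j hj =>
    (subset_closure.trans subset_union_right).trans (hsub j hj)
  have hmono' : ∀ j p : ℕ, j + p ≤ N → O j ⊆ O (j + p) := by
    intro j p
    induction p with
    | zero => intro _; exact le_rfl
    | succ p ih =>
      intro h
      exact (ih (by omega)).trans (hmono (j + p) (by omega))
  induction q generalizing x L γ i with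
  | zero => intro _ _ _; simp
  | succ q ih =>
    intro hN hx hy
    have hiN : i < N := by omega
    have hy1 : y ∉ O (i + 1) := fun h => hy (by
      have := hmono' (i + 1) q (by omega) h
      rwa [show i + 1 + q = i + (q + 1) by omega] at this)
    have hx1 : x ∈ O (i + 1) := hsub i hiN hx
    have hop : IsOpen (O (i + 1)) := hO.op (i + 1) (by omega)
    have hγc : Continuous γ := hγ.lip.continuous
    set T : Set ℝ := Icc 0 L ∩ γ ⁻¹' (O (i + 1))ᶜ with hT
    have hTc : IsCompact T := isCompact_Icc.inter_right (hop.isClosed_compl.preimage hγc)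
    have hTn : T.Nonempty := ⟨L, ⟨hγ.nonneg, le_rfl⟩, by
      show γ L ∉ O (i + 1)
      rw [hγ.right]
      exact hy1⟩
    obtain ⟨s, hsT, hs⟩ := hTc.exists_isLeast hTn
    have hs0 : 0 ≤ s := hsT.1.1
    have hsL : s ≤ L := hsT.1.2
    have hsO : γ s ∉ O (i + 1) := hsT.2
    have hspos : 0 < s := by
      rcases hs0.lt_or_eq with h | h
      · exact h
      · exfalso
        rw [← h, hγ.left] at hsO
        exact hsO hx1
    have hscl : γ s ∈ closure (O (i + 1)) := by
      have h1 : s ∈ closure (Ico 0 s) := by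
        rw [closure_Ico hspos.ne]
        exact ⟨hs0, le_rfl⟩
      refine map_mem_closure hγc h1 fun r hr => ?_
      by_contra hrO
      have : s ≤ r := hs ⟨⟨hr.1, hr.2.le.trans hsL⟩, hrO⟩
      exact absurd hr.2 (not_lt.mpr this)
    have hc1 : t ≤ cost w s γ :=
      ((hO.far i hiN).trans (sd_le hx hsO)).trans (wd_le_cost (Cross_init hγ hs0 hsL))
    have hc2 : (q : ℝ≥0∞) * t ≤ cost w (L - s) (fun t => γ (s + t)) := by
      refine ih (γ s) (L - s) (fun t => γ (s + t)) (Cross_fin hγ hs0 hsL) (i + 1) (by omega)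
        (Or.inr hscl) ?_
      rwa [show i + 1 + q = i + (q + 1) by omega]
    rw [← Cross_cost w γ hs0 hsL]
    calc ((q + 1 : ℕ) : ℝ≥0∞) * t = t + (q : ℝ≥0∞) * t := by push_cast; ring
      _ ≤ _ := add_le_add hc1 hc2

end CNEDRem
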