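import Mathlib

/-!
# MP_bb0df9_an : definitions

`CNED` sets and sets removable for continuous `W^{1,n}` functions.
-/

open MeasureTheory Set Filter Topology
open scoped ENNReal NNReal ContDiff

namespace CNEDRem

/-- Euclidean space `ℝⁿ`. -/
abbrev V (n : ℕ) : Type := EuclideanSpace ℝ (Fin n)

variable {n : ℕ}

/-! ### Curves, line integrals, conformal modulus

A curve is a continuous map `γ : [0,1] → ℝⁿ`, represented by a function `γ : ℝ → V n`
of which only the restriction to `[0,1]` is used. -/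

/-- The line integral `∫_γ ρ ds`: the integral of `ρ` over the arc length parametrisation
`naturalParameterization γ [0,1] 0 : [0, length γ] → ℝⁿ` if `γ` is rectifiable, and `∞`
(so that `γ` imposes no condition on `ρ`) if `γ` is not rectifiable. -/
noncomputable def lineInt (ρ : V n → ℝ≥0∞) (γ : ℝ → V n) : ℝ≥0∞ :=
  open Classical in
  if eVariationOn γ (Icc 0 1) = ⊤ then ⊤
  else ∫⁻ s in Icc 0 (eVariationOn γ (Icc 0 1)).toReal,
    ρ (naturalParameterization γ (Icc 0 1) 0 s)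

/-- The curves joining `F₁` to `F₂`. -/
def joining (F₁ F₂ : Set (V n)) : Set (ℝ → V n) :=
  {γ | ContinuousOn γ (Icc 0 1) ∧ γ 0 ∈ F₁ ∧ γ 1 ∈ F₂}

/-- The curves that meet `E` in at most countably many points (multiplicity not counted). -/
def Fsigma (E : Set (V n)) : Set (ℝ → V n) :=
  {γ | (E ∩ γ '' Icc 0 1).Countable}

/-- `ρ` is admissible for the family `Γ`. -/
def Admissible (Γ : Set (ℝ → V n)) (ρ : V n → ℝ≥0∞) : Prop :=
  Measurable ρ ∧ ∀ γ ∈ Γ, 1 ≤ lineInt ρ γ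

/-- The conformal `n`-modulus of a family of curves of `ℝⁿ`. -/
noncomputable def Modulus (Γ : Set (ℝ → V n)) : ℝ≥0∞ :=
  ⨅ (ρ : V n → ℝ≥0∞) (_ : Admissible Γ ρ), ∫⁻ x, ρ x ^ n

/-- A (nonempty) continuum. -/
def IsContinuum (F : Set (V n)) : Prop := IsCompact F ∧ IsConnected F

/-- `E` is CNED. -/
def CNED (E : Set (V n)) : Prop :=
  ∀ F₁ F₂ : Set (V n), IsContinuum F₁ → IsContinuum F₂ → Disjoint F₁ F₂ →
    Modulus (joining F₁ F₂) = Modulus (joining F₁ F₂ ∩ Fsigma E)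

/-! ### The Sobolev space `W^{1,n}` -/

/-- `g` is the weak gradient of `u` in `Ω`. -/
def IsWeakGrad (Ω : Set (V n)) (u : V n → ℝ) (g : V n → V n) : Prop :=
  ∀ φ : V n → ℝ, ContDiff ℝ ∞ φ → HasCompactSupport φ → tsupport φ ⊆ Ω → ∀ i : Fin n,
    ∫ x in Ω, u x * fderiv ℝ φ x (EuclideanSpace.single i 1) = -∫ x in Ω, g x i * φ x

/-- `u ∈ W^{1,n}(Ω)`. -/
def MemW1 (Ω : Set (V n)) (u : V n → ℝ) : Prop :=
  MemLp u n (volume.restrict Ω) ∧
    ∃ g : V n → V n, MemLp g n (volume.restrict Ω) ∧ IsWeakGrad Ω u g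

/-- `E` is removable for continuous `W^{1,n}` functions. -/
def Removable (E : Set (V n)) : Prop :=
  ∀ u : V n → ℝ, Continuous u → MemW1 Eᶜ u → MemW1 univ u

/-- The final statement: for every `n ≥ 2`, a closed subset of `ℝⁿ` is removable for
continuous `W^{1,n}` functions if and only if it is CNED. -/
def StmtMain : Prop :=
  ∀ n : ℕ, 2 ≤ n → ∀ E : Set (V n), IsClosed E → (Removable E ↔ CNED E)

/-! ### Internal definitions: weighted path distances -/

/-- A 1-Lipschitz path `γ` on `[0,L]` from `x` to `y` that leaves `U` in at most countably many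
points. -/
structure IsP (U : Set (V n)) (x y : V n) (L : ℝ) (γ : ℝ → V n) : Prop where
  nonneg : 0 ≤ L
  lip : LipschitzWith 1 γ
  left : γ 0 = x
  right : γ L = y
  countable : (γ '' Icc 0 L \ U).Countable

/-- The cost of a path. -/
noncomputable def cost (w : V n → ℝ≥0∞) (L : ℝ) (γ : ℝ → V n) : ℝ≥0∞ :=
  ∫⁻ t in Icc 0 L, w (γ t)

/-- The path distance of the weight `w`. -/
noncomputable def wd (U : Set (V n)) (w : V n → ℝ≥0∞) (x y : V n) : ℝ≥0∞ :=
  ⨅ (L : ℝ) (γ : ℝ → V n) (_ : IsP U x y L γ), cost w L γ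

/-- The path distance of two sets. -/
noncomputable def sd (U : Set (V n)) (w : V n → ℝ≥0∞) (A B : Set (V n)) : ℝ≥0∞ :=
  ⨅ (a : V n) (_ : a ∈ A) (b : V n) (_ : b ∈ B), wd U w a b

/-- Distance of `A` and `B` if one free jump of size `≤ s` is allowed. -/
noncomputable def ps (U : Set (V n)) (w : V n → ℝ≥0∞) (s : ℝ) (A B : Set (V n)) : ℝ≥0∞ :=
  ⨅ (x : V n) (y : V n) (_ : dist x y ≤ s), sd U w A {x} + sd U w {y} B

/-- The limit of `ps` as `s → 0`. -/
noncomputable def psi (U : Set (V n)) (w : V n → ℝ≥0∞) (A B : Set (V n)) : ℝ≥0∞ :=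
  ⨆ (s : ℝ) (_ : 0 < s), ps U w s A B

/-- Weights on `U` with lower bound `δ`. -/
structure IsWt (U : Set (V n)) (δ : ℝ≥0∞) (w : V n → ℝ≥0∞) : Prop where
  meas : Measurable w
  lb : ∀ x, δ ≤ w x
  top : ∀ x, x ∉ U → w x = ⊤
  fin : ∀ x ∈ U, w x ≠ ⊤
  cont : ContinuousOn w U

/-- The `L^n(U)` norm of a nonnegative function. -/
noncomputable def lpn (U : Set (V n)) (g : V n → ℝ≥0∞) : ℝ≥0∞ :=
  (∫⁻ x in U, g x ^ (n : ℝ)) ^ (1 / (n : ℝ))

/-- Perturbations: continuous on `U`, zero on `C`, norm at most `κ`. -/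
structure IsPt (U C : Set (V n)) (κ : ℝ≥0∞) (g : V n → ℝ≥0∞) : Prop where
  meas : Measurable g
  fin : ∀ x ∈ U, g x ≠ ⊤
  cont : ContinuousOn g U
  zero : ∀ x ∈ C, g x = 0
  norm : lpn U g ≤ κ

/-- Exhaustion of `U` by compact sets. -/
structure IsExh (U : Set (V n)) (C : ℕ → Set (V n)) : Prop where
  compact : ∀ m, IsCompact (C m)
  sub : ∀ m, C m ⊆ U
  int : ∀ m, C m ⊆ interior (C (m + 1))
  cover : U ⊆ ⋃ m, C m

/-- `P` is `A` or a one point set `{x}`, `x ∈ U`. -/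
def Src (U A P : Set (V n)) : Prop := P = A ∨ ∃ x ∈ U, P = {x}

/-- Robust weights for the pair `A, B`. -/
def Robust (U : Set (V n)) (w : V n → ℝ≥0∞) (A B : Set (V n)) : Prop :=
  ∀ P Q : Set (V n), Src U A P → Src U B Q → ∀ M : ℕ, ∀ ε : ℝ≥0∞, 0 < ε →
    ∃ C : Set (V n), IsCompact C ∧ C ⊆ U ∧ ∃ w' : V n → ℝ≥0∞, Measurable w' ∧
      (∀ x, w x ≤ w' x) ∧ (∀ x, x ∉ C → (1 + M) * w x ≤ w' x) ∧
      min (psi U w' P Q) 1 ≤ min (psi U w P Q) 1 + ε

/-- Chains of open sets between `A` and `B`. -/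
structure IsChainO (U : Set (V n)) (w : V n → ℝ≥0∞) (A B : Set (V n)) (N : ℕ) (t : ℝ≥0∞)
    (O : ℕ → Set (V n)) : Prop where
  zero : O 0 = ∅
  last : O N = Bᶜ
  op : ∀ j ≤ N, IsOpen (O j)
  gap : ∀ j < N, ∃ r : ℝ, 0 < r ∧ ∀ a ∈ A ∪ closure (O j), ∀ b, b ∉ O (j + 1) → r ≤ dist a b
  far : ∀ j < N, t ≤ sd U w (A ∪ closure (O j)) (O (j + 1))ᶜ

/-- The upper gradient type inequality for `u` along all admissible paths, with constant `c`. -/
def UG (U : Set (V n)) (w : V n → ℝ≥0∞) (c : ℝ) (u : V n → ℝ) : Prop :=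
  ∀ (x y : V n) (L : ℝ) (γ : ℝ → V n), IsP U x y L γ →
    ENNReal.ofReal (c * (u y - u x)) ≤ cost w L γ

/-- `T_z(x) = x + κ dist(x, Z) z`. -/
noncomputable def tz (Z : Set (V n)) (κ : ℝ) (z x : V n) : V n :=
  x + (κ * Metric.infDist x Z) • z

/-- `σ(x)` = the average over `|z| ≤ 1` of `ρ(T_z x)`. -/
noncomputable def sg (Z : Set (V n)) (κ : ℝ) (ρ : V n → ℝ≥0∞) (x : V n) : ℝ≥0∞ :=
  (volume (Metric.closedBall (0 : V n) 1))⁻¹ *
    ∫⁻ z in Metric.closedBall (0 : V n) 1, ρ (tz Z κ z x)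

/-- The same average for real valued functions. -/
noncomputable def sgr (Z : Set (V n)) (κ : ℝ) (f : V n → ℝ) (x : V n) : ℝ :=
  (volume (Metric.closedBall (0 : V n) 1)).toReal⁻¹ *
    ∫ z in Metric.closedBall (0 : V n) 1, f (tz Z κ z x)

end CNEDRem
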