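import Pool.Agent.Work.MP_bb0df9_an.Basic

/-!
# MP_bb0df9_an : assembly of the first half
-/

open MeasureTheory Set Filter Topology
open scoped ENNReal NNReal ContDiff

namespace CNEDRem

theorem thmUrysohn (hSeq : StmtSeq) (hLim : StmtLim) : StmtUrysohn := by
  intro n hn U C δ w hU hC hw hδ hfin A B hA hB hr D D' hD' hDD hD1 hD κ m hκ
  obtain ⟨g, hg, O, hO, hO2⟩ := hSeq n hn U C δ w hU hC hw hδ hfin A B hA hB hr D D' hD' hDD hD1 hD
    κ m hκ
  obtain ⟨u, hu⟩ := hLim n U (w + g) A B D' O hD' hO hO2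
  exact ⟨g, hg, u, hu⟩

/-- Positive distance between a compact and a disjoint closed set. -/
theorem Half1_dist {n : ℕ} {A B : Set (V n)} (hA : IsCompact A) (hB : IsClosed B)
    (h : Disjoint A B) : ∃ r : ℝ, 0 < r ∧ ∀ a ∈ A, ∀ b ∈ B, r ≤ dist a b := by
  obtain ⟨r, hr, h1⟩ := h.exists_cthickenings hA hB
  refine ⟨r, hr, fun a ha b hb => ?_⟩
  by_contra hlt
  push Not at hlt
  refine Set.disjoint_left.1 h1 (Metric.mem_cthickening_of_dist_le b a r A ha ?_)
    (Metric.self_subset_cthickening B hb)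
  rw [dist_comm]; exact hlt.le

theorem thmHalf1 (hUry : StmtUrysohn) (hInit : StmtInit) (hUp : StmtUp) (hExh : StmtExh) :
    StmtHalf1 := by
  intro n hn E hE hRem F₁ F₂ hF1 hF2 hdisj
  have hn1 : 1 ≤ n := by omega
  apply le_antisymm
  swap
  · -- fewer curves, smaller modulus
    refine le_iInf fun ρ => le_iInf fun hρ => ?_
    exact iInf_le_of_le ρ (iInf_le_of_le ⟨hρ.1, fun γ hγ => hρ.2 γ hγ.1⟩ le_rfl)
  refine le_iInf fun ρ => le_iInf fun hρ => ?_
  by_cases hfin : lpn univ ρ = ⊤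
  · have : ∫⁻ x, ρ x ^ n = ⊤ := by
      unfold lpn at hfin
      rw [ENNReal.rpow_eq_top_iff] at hfin
      rcases hfin with h | h
      · have := h.2
        have h3 : (0 : ℝ) ≤ 1 / (n : ℝ) := by positivity
        exact absurd this (not_lt.2 h3)
      · simpa using h.1
    rw [this]; exact le_top
  -- the key estimate
  have key : ∀ ε : ℝ, 0 < ε → ε < 1 / 4 → Modulus (joining F₁ F₂) ≤
      (ENNReal.ofReal ((1 - 2 * ε) * (1 - 2 * ε))⁻¹ * (lpn univ ρ + ENNReal.ofReal (2 * ε))) ^ n := by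
    intro ε he he4
    obtain ⟨R₁, hR1, hsub1, hsub2, w, δ, hδ, hw, hnorm, hsd⟩ := hInit n hn E F₁ F₂ hE hF1.1 hF2.1
      hF1.2.nonempty hF2.2.nonempty hdisj ρ hρ hfin ε he (by linarith)
    set U : Set (V n) := (E ∪ F₁ ∪ F₂ ∪ (Metric.ball 0 R₁)ᶜ)ᶜ with hUdef
    have hU : IsOpen U := by
      rw [hUdef, isOpen_compl_iff]
      exact ((hE.union hF1.1.isClosed).union hF2.1.isClosed).union
        (isClosed_compl_iff.2 Metric.isOpen_ball)
    obtain ⟨C, hC⟩ := hExh n U hU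
    have hwfin : lpn U w ≠ ⊤ :=
      ne_top_of_le_ne_top (ENNReal.add_ne_top.2 ⟨hfin, ENNReal.ofReal_ne_top⟩) hnorm
    have hBcl : IsClosed (F₂ ∪ (Metric.ball (0 : V n) R₁)ᶜ) :=
      hF2.1.isClosed.union (isClosed_compl_iff.2 Metric.isOpen_ball)
    have hdj : Disjoint F₁ (F₂ ∪ (Metric.ball (0 : V n) R₁)ᶜ) := by
      rw [Set.disjoint_union_right]
      exact ⟨hdisj, Set.disjoint_compl_right_iff_subset.2 hsub1⟩
    obtain ⟨g, hg, u, hucont, hu01, huA, huB, hug⟩ := hUry n hn1 U C δ w hU hC hw hδ hwfin F₁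
      (F₂ ∪ (Metric.ball (0 : V n) R₁)ᶜ) hF1.1.isClosed hBcl (Half1_dist hF1.1 hBcl hdj)
      (1 - ε) (1 - 2 * ε) (by linarith) (by linarith) (by linarith) hsd (ENNReal.ofReal ε) 0
      (by simpa using he)
    have hwg : IsWt U δ (w + g) := thmWtAdd n U (C 0) δ _ w g hw hg
    have hnorm2 : lpn U (w + g) ≤ lpn univ ρ + ENNReal.ofReal (2 * ε) := by
      refine (thmLpnAdd n hn1 U w g hw.meas hg.meas).trans ?_
      refine (add_le_add hnorm hg.norm).trans ?_
      rw [add_assoc, ← ENNReal.ofReal_add he.le he.le]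
      exact le_of_eq (by congr 2; ring)
    have h := hUp n hn E F₁ F₂ R₁ hE hF1.1 hF2.1 hF1.2.nonempty hF2.2.nonempty hdisj hRem hsub1
      hsub2 (w + g) δ hwg (ne_top_of_le_ne_top (ENNReal.add_ne_top.2 ⟨hfin, ENNReal.ofReal_ne_top⟩)
        hnorm2) u (1 - 2 * ε) ε (by linarith) he (by linarith) hucont hu01 huA huB hug
    refine h.trans ?_
    gcongr
  -- let ε → 0
  have hlim : Tendsto (fun ε : ℝ => (ENNReal.ofReal ((1 - 2 * ε) * (1 - 2 * ε))⁻¹ *
      (lpn univ ρ + ENNReal.ofReal (2 * ε))) ^ n) (𝓝[>] 0) (𝓝 ((lpn univ ρ) ^ n)) := by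
    have h1 : Tendsto (fun ε : ℝ => ENNReal.ofReal ((1 - 2 * ε) * (1 - 2 * ε))⁻¹) (𝓝[>] 0)
        (𝓝 1) := by
      have : Tendsto (fun ε : ℝ => ((1 - 2 * ε) * (1 - 2 * ε))⁻¹) (𝓝[>] 0) (𝓝 1) := by
        have h2 : ContinuousAt (fun ε : ℝ => ((1 - 2 * ε) * (1 - 2 * ε))⁻¹) 0 := by
          apply ContinuousAt.inv₀ (by fun_prop)
          norm_num
        have h3 := h2.tendsto
        norm_num at h3
        refine (h3.mono_left nhdsWithin_le_nhds).congr fun x => ?_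
        norm_num
      have h2 := ENNReal.tendsto_ofReal this
      simpa using h2
    have h2 : Tendsto (fun ε : ℝ => lpn univ ρ + ENNReal.ofReal (2 * ε)) (𝓝[>] 0)
        (𝓝 (lpn univ ρ)) := by
      have : Tendsto (fun ε : ℝ => ENNReal.ofReal (2 * ε)) (𝓝[>] 0) (𝓝 0) := by
        have h3 : ContinuousAt (fun ε : ℝ => ENNReal.ofReal (2 * ε)) 0 :=
          (ENNReal.continuous_ofReal.comp (continuous_const.mul continuous_id)).continuousAt
        have h4 := h3.tendsto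
        simp only [mul_zero, ENNReal.ofReal_zero] at h4
        exact h4.mono_left nhdsWithin_le_nhds
      simpa using tendsto_const_nhds.add this
    have h3 := ENNReal.Tendsto.mul h1 (Or.inl one_ne_zero) h2 (Or.inr ENNReal.one_ne_top)
    rw [one_mul] at h3
    exact ((ENNReal.continuous_pow n).tendsto _).comp h3
  have hle : Modulus (joining F₁ F₂) ≤ (lpn univ ρ) ^ n := by
    refine ge_of_tendsto hlim ?_
    have : Set.Ioo (0 : ℝ) (1 / 4) ∈ 𝓝[>] (0 : ℝ) := Ioo_mem_nhdsGT (by norm_num)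
    filter_upwards [this] with ε he
    exact key ε he.1 he.2
  refine hle.trans (le_of_eq ?_)
  have hn0 : (n : ℝ) ≠ 0 := by positivity
  unfold lpn
  rw [← ENNReal.rpow_natCast, ← ENNReal.rpow_mul, one_div, inv_mul_cancel₀ hn0, ENNReal.rpow_one]
  simp

theorem thmMain (h1 : StmtHalf1) (h2 : StmtHalf2) : StmtMain := fun n hn E hE =>
  ⟨h1 n hn E hE, h2 n hn E hE⟩

end CNEDRem
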