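import Pool.Agent.Work.MP_bb0df9_an.Defs

/-!
# MP_bb0df9_an : statements of all lemmas of the project (each proved in its own file)
-/

open MeasureTheory Set Filter Topology
open scoped ENNReal NNReal ContDiff

namespace CNEDRem

/-! ## Part B: path distances -/

def StmtWdSelf : Prop := ∀ (n : ℕ) (U : Set (V n)) (w : V n → ℝ≥0∞) (x : V n), wd U w x x = 0

def StmtWdSymm : Prop := ∀ (n : ℕ) (U : Set (V n)) (w : V n → ℝ≥0∞) (x y : V n),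
  wd U w x y = wd U w y x

def StmtWdTri : Prop := ∀ (n : ℕ) (U : Set (V n)) (w : V n → ℝ≥0∞) (x y z : V n),
  wd U w x z ≤ wd U w x y + wd U w y z

def StmtWdLb : Prop := ∀ (n : ℕ) (U : Set (V n)) (w : V n → ℝ≥0∞) (δ : ℝ≥0∞),
  (∀ x, δ ≤ w x) → ∀ x y, δ * ENNReal.ofReal (dist x y) ≤ wd U w x y

def StmtWdLoc : Prop := ∀ (n : ℕ) (U : Set (V n)) (δ : ℝ≥0∞) (w : V n → ℝ≥0∞), IsOpen U →
  IsWt U δ w → ∀ x ∈ U, ∀ M : ℝ≥0∞, w x < M → ∃ r : ℝ, 0 < r ∧ Metric.ball x r ⊆ U ∧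
    (∀ y ∈ Metric.ball x r, w y < M) ∧
    ∀ y ∈ Metric.ball x r, ∀ z ∈ Metric.ball x r, wd U w y z ≤ M * ENNReal.ofReal (dist y z)

def StmtWdSub : Prop := ∀ (n : ℕ) (U : Set (V n)) (w : V n → ℝ≥0∞) (x y : V n) (L : ℝ)
  (γ : ℝ → V n), IsP U x y L γ → ∀ a b : ℝ, 0 ≤ a → a ≤ b → b ≤ L →
    wd U w (γ a) (γ b) ≤ ∫⁻ t in Icc a b, w (γ t)

def StmtConcat : Prop := ∀ (n : ℕ) (U : Set (V n)) (δ : ℝ≥0∞) (w : V n → ℝ≥0∞), δ ≠ 0 →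
  Measurable w → (∀ x, δ ≤ w x) → ∀ a : ℕ → V n, (∑' i, wd U w (a i) (a (i + 1))) ≠ ⊤ →
    ∃ x : V n, Tendsto a atTop (𝓝 x) ∧ wd U w (a 0) x ≤ ∑' i, wd U w (a i) (a (i + 1))

/-- Dini. -/
def StmtDini : Prop := ∀ (n : ℕ) (U : Set (V n)) (δ : ℝ≥0∞) (w : V n → ℝ≥0∞), IsOpen U →
  IsWt U δ w → ∀ A B C : Set (V n), IsCompact C → C ⊆ U → ∀ θ τ : ℝ≥0∞, θ < τ →
    ∃ s : ℝ, 0 < s ∧ ∀ P Q : Set (V n), Src C A P → Src C B Q → ps U w s P Q ≤ θ →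
      psi U w P Q ≤ τ

def StmtClaimA : Prop := ∀ (n : ℕ) (U : Set (V n)) (δ : ℝ≥0∞) (w : V n → ℝ≥0∞), IsOpen U →
  IsWt U δ w → δ ≠ 0 → ∀ A B : Set (V n), Robust U w A B → ∀ P Q : Set (V n), Src U A P →
    Src U B Q → ∀ ε : ℝ≥0∞, 0 < ε → psi U w P Q + ε < 1 → ∀ τ : ℝ, 0 < τ →
      ∃ P' Q' : Set (V n), (P' = P ∨ ∃ x ∈ U, P' = {x}) ∧ (Q' = Q ∨ ∃ y ∈ U, Q' = {y}) ∧
        sd U w P P' + sd U w Q' Q ≤ psi U w P Q + ε ∧ psi U w P' Q' ≤ ENNReal.ofReal τ ∧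
        ∃ a ∈ P', ∃ b ∈ Q', dist a b ≤ τ

/-- One-jump lemma. -/
def StmtOneJump : Prop := ∀ (n : ℕ) (U : Set (V n)) (δ : ℝ≥0∞) (w : V n → ℝ≥0∞), IsOpen U →
  IsWt U δ w → δ ≠ 0 → ∀ A B : Set (V n), IsClosed A → IsClosed B →
    (∃ r : ℝ, 0 < r ∧ ∀ a ∈ A, ∀ b ∈ B, r ≤ dist a b) → Robust U w A B →
      min (sd U w A B) 1 ≤ psi U w A B

/-! ## Part R: robustification -/

/-- Open sets have compact exhaustions. -/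
def StmtExh : Prop := ∀ (n : ℕ) (U : Set (V n)), IsOpen U → ∃ C : ℕ → Set (V n), IsExh U C

/-- Minkowski. -/
def StmtLpnAdd : Prop := ∀ (n : ℕ), 1 ≤ n → ∀ (U : Set (V n)) (f g : V n → ℝ≥0∞),
  Measurable f → Measurable g → lpn U (f + g) ≤ lpn U f + lpn U g

/-- Locally finite sums of perturbations are perturbations. -/
def StmtPtSum : Prop := ∀ (n : ℕ), 1 ≤ n → ∀ (U : Set (V n)) (C : ℕ → Set (V n)), IsExh U C →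
  ∀ (g : ℕ → V n → ℝ≥0∞) (κ : ℕ → ℝ≥0∞) (m : ℕ → ℕ), (∀ j, j ≤ m j) →
    (∀ j, IsPt U (C (m j)) (κ j) (g j)) → ∀ m₀ : ℕ, (∀ j, m₀ ≤ m j) →
      IsPt U (C m₀) (∑' j, κ j) (fun x => ∑' j, g j x)

def StmtWtAdd : Prop := ∀ (n : ℕ) (U C : Set (V n)) (δ κ : ℝ≥0∞) (w g : V n → ℝ≥0∞),
  IsWt U δ w → IsPt U C κ g → IsWt U δ (w + g)

/-- Abstract robustification. -/
def StmtRob1 : Prop := ∀ (n : ℕ), 1 ≤ n → ∀ (U : Set (V n)) (C : ℕ → Set (V n)), IsExh U C →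
  ∀ J : (V n → ℝ≥0∞) → ℝ≥0∞, Monotone J → (∀ w, J w ≤ 1) →
    ∀ (w : V n → ℝ≥0∞) (κ : ℝ≥0∞) (m : ℕ), κ ≠ 0 →
      ∃ g : V n → ℝ≥0∞, IsPt U (C m) κ g ∧ ∀ ε : ℝ≥0∞, 0 < ε →
        ∃ κ' : ℝ≥0∞, 0 < κ' ∧ ∃ m' : ℕ, ∀ g' : V n → ℝ≥0∞, IsPt U (C m') κ' g' →
          J (w + g + g') ≤ J (w + g) + ε

/-- Robustification. -/
def StmtRobust : Prop := ∀ (n : ℕ), 1 ≤ n → ∀ (U : Set (V n)) (C : ℕ → Set (V n)) (δ : ℝ≥0∞)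
  (w : V n → ℝ≥0∞), IsOpen U → IsExh U C → IsWt U δ w → lpn U w ≠ ⊤ → ∀ A B : Set (V n),
    ∀ (κ : ℝ≥0∞) (m : ℕ), κ ≠ 0 →
      ∃ g : V n → ℝ≥0∞, IsPt U (C m) κ g ∧ Robust U (w + g) A B

/-! ## Part C: splitting and the Urysohn function -/

def StmtSplit : Prop := ∀ (n : ℕ), 1 ≤ n → ∀ (U : Set (V n)) (C : ℕ → Set (V n)) (δ : ℝ≥0∞)
  (w : V n → ℝ≥0∞), IsOpen U → IsExh U C → IsWt U δ w → δ ≠ 0 → lpn U w ≠ ⊤ →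
    ∀ A B : Set (V n), IsClosed A → IsClosed B →
      (∃ r : ℝ, 0 < r ∧ ∀ a ∈ A, ∀ b ∈ B, r ≤ dist a b) →
      ∀ t t' ε : ℝ≥0∞, 0 < ε → ε < t → t + t' ≤ 1 → t + t' ≤ sd U w A B →
      ∀ (κ : ℝ≥0∞) (m : ℕ), κ ≠ 0 →
        ∃ g : V n → ℝ≥0∞, IsPt U (C m) κ g ∧ ∃ O : Set (V n), IsOpen O ∧
          (∃ r : ℝ, 0 < r ∧ ∀ a ∈ A, ∀ b, b ∉ O → r ≤ dist a b) ∧
          (∃ r : ℝ, 0 < r ∧ ∀ a ∈ closure O, ∀ b ∈ B, r ≤ dist a b) ∧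
          t - ε ≤ sd U (w + g) A Oᶜ ∧ t' ≤ sd U (w + g) (closure O) B

/-- Splitting of finitely many pairs. -/
def StmtMulti : Prop := ∀ (n : ℕ), 1 ≤ n → ∀ (U : Set (V n)) (C : ℕ → Set (V n)) (δ : ℝ≥0∞)
  (w : V n → ℝ≥0∞), IsOpen U → IsExh U C → IsWt U δ w → δ ≠ 0 → lpn U w ≠ ⊤ →
    ∀ (N : ℕ) (A B : ℕ → Set (V n)), (∀ j < N, IsClosed (A j)) → (∀ j < N, IsClosed (B j)) →
      (∀ j < N, ∃ r : ℝ, 0 < r ∧ ∀ a ∈ A j, ∀ b ∈ B j, r ≤ dist a b) →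
      ∀ t t' ε : ℝ≥0∞, 0 < ε → ε < t → t + t' ≤ 1 → (∀ j < N, t + t' ≤ sd U w (A j) (B j)) →
      ∀ (κ : ℝ≥0∞) (m : ℕ), κ ≠ 0 →
        ∃ g : V n → ℝ≥0∞, IsPt U (C m) κ g ∧ ∃ O : ℕ → Set (V n), ∀ j < N, IsOpen (O j) ∧
          (∃ r : ℝ, 0 < r ∧ ∀ a ∈ A j, ∀ b, b ∉ O j → r ≤ dist a b) ∧
          (∃ r : ℝ, 0 < r ∧ ∀ a ∈ closure (O j), ∀ b ∈ B j, r ≤ dist a b) ∧
          t - ε ≤ sd U (w + g) (A j) (O j)ᶜ ∧ t' ≤ sd U (w + g) (closure (O j)) (B j)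

/-- Refinement of a chain. -/
def StmtRefine : Prop := ∀ (n : ℕ), 1 ≤ n → ∀ (U : Set (V n)) (C : ℕ → Set (V n)) (δ : ℝ≥0∞)
  (w : V n → ℝ≥0∞), IsOpen U → IsExh U C → IsWt U δ w → δ ≠ 0 → lpn U w ≠ ⊤ →
    ∀ A B : Set (V n), IsClosed A → IsClosed B → ∀ (N : ℕ) (t ε : ℝ≥0∞) (O : ℕ → Set (V n)),
      IsChainO U w A B N (t + t) O → t + t ≤ 1 → 0 < ε → ε < t →
      ∀ (κ : ℝ≥0∞) (m : ℕ), κ ≠ 0 →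
        ∃ g : V n → ℝ≥0∞, IsPt U (C m) κ g ∧ ∃ O' : ℕ → Set (V n),
          IsChainO U (w + g) A B (2 * N) (t - ε) O' ∧ ∀ j ≤ N, O' (2 * j) = O j

/-- The whole sequence of chains. -/
def StmtSeq : Prop := ∀ (n : ℕ), 1 ≤ n → ∀ (U : Set (V n)) (C : ℕ → Set (V n)) (δ : ℝ≥0∞)
  (w : V n → ℝ≥0∞), IsOpen U → IsExh U C → IsWt U δ w → δ ≠ 0 → lpn U w ≠ ⊤ →
    ∀ A B : Set (V n), IsClosed A → IsClosed B →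
      (∃ r : ℝ, 0 < r ∧ ∀ a ∈ A, ∀ b ∈ B, r ≤ dist a b) →
      ∀ D D' : ℝ, 0 < D' → D' < D → D ≤ 1 → ENNReal.ofReal D ≤ sd U w A B →
      ∀ (κ : ℝ≥0∞) (m : ℕ), κ ≠ 0 →
        ∃ g : V n → ℝ≥0∞, IsPt U (C m) κ g ∧ ∃ O : ℕ → ℕ → Set (V n),
          (∀ k, IsChainO U (w + g) A B (2 ^ k) (ENNReal.ofReal (D' / 2 ^ k)) (O k)) ∧
          ∀ k, ∀ j ≤ 2 ^ k, O (k + 1) (2 * j) = O k j

/-- Crossing lemma. -/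
def StmtCross : Prop := ∀ (n : ℕ) (U : Set (V n)) (w : V n → ℝ≥0∞) (A B : Set (V n)) (N : ℕ)
  (t : ℝ≥0∞) (O : ℕ → Set (V n)), IsChainO U w A B N t O →
    ∀ (x y : V n) (L : ℝ) (γ : ℝ → V n), IsP U x y L γ → ∀ i q : ℕ, i + q ≤ N →
      x ∈ A ∪ closure (O i) → y ∉ O (i + q) → (q : ℝ≥0∞) * t ≤ cost w L γ

/-- From the sequence of chains to the Urysohn function. -/
def StmtLim : Prop := ∀ (n : ℕ) (U : Set (V n)) (w : V n → ℝ≥0∞) (A B : Set (V n)) (D' : ℝ)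
  (O : ℕ → ℕ → Set (V n)), 0 < D' →
    (∀ k, IsChainO U w A B (2 ^ k) (ENNReal.ofReal (D' / 2 ^ k)) (O k)) →
    (∀ k, ∀ j ≤ 2 ^ k, O (k + 1) (2 * j) = O k j) →
      ∃ u : V n → ℝ, Continuous u ∧ (∀ x, 0 ≤ u x ∧ u x ≤ 1) ∧ (∀ x ∈ A, u x = 0) ∧
        (∀ x ∈ B, u x = 1) ∧ UG U w D' u

/-- The Urysohn function. -/
def StmtUrysohn : Prop := ∀ (n : ℕ), 1 ≤ n → ∀ (U : Set (V n)) (C : ℕ → Set (V n)) (δ : ℝ≥0∞)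
  (w : V n → ℝ≥0∞), IsOpen U → IsExh U C → IsWt U δ w → δ ≠ 0 → lpn U w ≠ ⊤ →
    ∀ A B : Set (V n), IsClosed A → IsClosed B →
      (∃ r : ℝ, 0 < r ∧ ∀ a ∈ A, ∀ b ∈ B, r ≤ dist a b) →
      ∀ D D' : ℝ, 0 < D' → D' < D → D ≤ 1 → ENNReal.ofReal D ≤ sd U w A B →
      ∀ (κ : ℝ≥0∞) (m : ℕ), κ ≠ 0 →
        ∃ g : V n → ℝ≥0∞, IsPt U (C m) κ g ∧ ∃ u : V n → ℝ, Continuous u ∧
          (∀ x, 0 ≤ u x ∧ u x ≤ 1) ∧ (∀ x ∈ A, u x = 0) ∧ (∀ x ∈ B, u x = 1) ∧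
          UG U (w + g) D' u

/-! ## Part D: the initial weight -/

/-- Lipschitz curves have small line integral. -/
def StmtArc : Prop := ∀ (n : ℕ) (ρ : V n → ℝ≥0∞), Measurable ρ → ∀ (L : ℝ) (Λ : ℝ≥0)
  (β : ℝ → V n), 0 ≤ L → LipschitzWith Λ β →
    lineInt ρ (fun t => β (L * t)) ≤ Λ * ∫⁻ t in Icc 0 L, ρ (β t)

/-- Arc length parametrisation of a rectifiable curve. -/
def StmtArc2 : Prop := ∀ (n : ℕ) (γ : ℝ → V n), ContinuousOn γ (Icc 0 1) →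
  eVariationOn γ (Icc 0 1) ≠ ⊤ → ∃ (L : ℝ) (β : ℝ → V n), 0 ≤ L ∧ LipschitzWith 1 β ∧
    β 0 = γ 0 ∧ β L = γ 1 ∧ β '' Icc 0 L = γ '' Icc 0 1 ∧
    ∀ ρ : V n → ℝ≥0∞, lineInt ρ γ = ∫⁻ t in Icc 0 L, ρ (β t)

def StmtTz : Prop := ∀ (n : ℕ) (Z : Set (V n)) (κ : ℝ), IsClosed Z → Z.Nonempty → 0 < κ →
  κ < 1 → ∀ z : V n, ‖z‖ ≤ 1 → LipschitzWith (Real.toNNReal (1 + κ)) (tz Z κ z) ∧
    AntilipschitzWith (Real.toNNReal (1 - κ)⁻¹) (tz Z κ z) ∧ (∀ x ∈ Z, tz Z κ z x = x) ∧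
    ∀ x, x ∉ Z → tz Z κ z x ∉ Z

def StmtAnti : Prop := ∀ (n : ℕ) (T : V n → V n) (K : ℝ≥0), AntilipschitzWith K T →
  Continuous T → ∀ h : V n → ℝ≥0∞, Measurable h → ∫⁻ x, h (T x) ≤ (K : ℝ≥0∞) ^ n * ∫⁻ x, h x

/-- Properties of the averages. -/
def StmtSg : Prop := ∀ (n : ℕ), 1 ≤ n → ∀ (Z : Set (V n)) (κ : ℝ), IsClosed Z → Z.Nonempty →
  0 < κ → κ < 1 → ∀ ρ : V n → ℝ≥0∞, Measurable ρ → lpn Zᶜ ρ ≠ ⊤ →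
    Measurable (sg Z κ ρ) ∧ (∀ x, x ∉ Z → sg Z κ ρ x ≠ ⊤) ∧ ContinuousOn (sg Z κ ρ) Zᶜ ∧
    lpn Zᶜ (sg Z κ ρ) ≤ ENNReal.ofReal (1 - κ)⁻¹ * lpn Zᶜ ρ

/-- Logarithmic cutoff. -/
def StmtCutoff : Prop := ∀ (n : ℕ), 2 ≤ n → ∀ (R₀ : ℝ) (ε : ℝ≥0∞), 0 < R₀ → 0 < ε →
  ∃ R₁ : ℝ, R₀ < R₁ ∧ ∃ χ : V n → ℝ≥0∞, Continuous χ ∧ (∀ x, χ x ≠ ⊤) ∧
    lpn (Metric.ball 0 R₁) χ ≤ ε ∧
    ∀ (L : ℝ) (γ : ℝ → V n), 0 ≤ L → LipschitzWith 1 γ → ‖γ 0‖ ≤ R₀ → R₁ ≤ ‖γ L‖ →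
      1 ≤ ∫⁻ t in Icc 0 L, χ (γ t)

/-- The initial weight. -/
def StmtInit : Prop := ∀ (n : ℕ), 2 ≤ n → ∀ E F₁ F₂ : Set (V n), IsClosed E → IsCompact F₁ →
  IsCompact F₂ → F₁.Nonempty → F₂.Nonempty → Disjoint F₁ F₂ →
    ∀ ρ : V n → ℝ≥0∞, Admissible (joining F₁ F₂ ∩ Fsigma E) ρ → lpn univ ρ ≠ ⊤ →
    ∀ ε : ℝ, 0 < ε → ε < 1 → ∃ R₁ : ℝ, 0 < R₁ ∧ F₁ ⊆ Metric.ball 0 R₁ ∧ F₂ ⊆ Metric.ball 0 R₁ ∧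
      ∃ (w : V n → ℝ≥0∞) (δ : ℝ≥0∞), δ ≠ 0 ∧
        IsWt (E ∪ F₁ ∪ F₂ ∪ (Metric.ball 0 R₁)ᶜ)ᶜ δ w ∧
        lpn (E ∪ F₁ ∪ F₂ ∪ (Metric.ball 0 R₁)ᶜ)ᶜ w ≤ lpn univ ρ + ENNReal.ofReal ε ∧
        ENNReal.ofReal (1 - ε) ≤
          sd (E ∪ F₁ ∪ F₂ ∪ (Metric.ball 0 R₁)ᶜ)ᶜ w F₁ (F₂ ∪ (Metric.ball 0 R₁)ᶜ)

/-! ## Part E: removable implies CNED -/

/-- Functions with an upper gradient inequality along paths are locally Lipschitz. -/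
def StmtGrad : Prop := ∀ (n : ℕ) (U : Set (V n)) (δ : ℝ≥0∞) (w : V n → ℝ≥0∞), IsOpen U →
  IsWt U δ w → ∀ (c : ℝ) (u : V n → ℝ), 0 < c → UG U w c u →
    (∀ x ∈ U, ∃ r : ℝ, 0 < r ∧ ∃ K : ℝ≥0, LipschitzOnWith K u (Metric.ball x r)) ∧
    ∀ x ∈ U, ENNReal.ofReal (c * ‖fderiv ℝ u x‖) ≤ w x

/-- Locally Lipschitz functions have a weak gradient. -/
def StmtLoc : Prop := ∀ (n : ℕ) (Ω : Set (V n)) (f : V n → ℝ), IsOpen Ω →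
  (∀ x ∈ Ω, ∃ r : ℝ, 0 < r ∧ ∃ K : ℝ≥0, LipschitzOnWith K f (Metric.ball x r)) →
    IsWeakGrad Ω f (gradient f)

/-- Mean value inequality along Lipschitz curves. -/
def StmtMVI : Prop := ∀ (n : ℕ) (U : Set (V n)) (v : V n → ℝ) (h : V n → ℝ≥0∞), IsOpen U →
  Continuous v → ContinuousOn h U → (∀ x ∈ U, h x ≠ ⊤) →
  (∀ x ∈ U, ∀ M : ℝ≥0∞, h x < M →
    ∀ᶠ y in 𝓝 x, ENNReal.ofReal |v y - v x| ≤ M * ENNReal.ofReal (dist y x)) →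
  ∀ (a b : ℝ) (γ : ℝ → V n), a ≤ b → LipschitzWith 1 γ → (∀ t ∈ Icc a b, γ t ∈ U) →
    ENNReal.ofReal |v (γ b) - v (γ a)| ≤ ∫⁻ t in Icc a b, h (γ t)

/-- Mollification: a compactly supported continuous Sobolev function gives a modulus bound. -/
def StmtMoll : Prop := ∀ (n : ℕ), 1 ≤ n → ∀ (f : V n → ℝ) (g : V n → V n), Continuous f →
  HasCompactSupport f → MemLp g n volume → IsWeakGrad univ f g →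
  ∀ (F₁ F₂ : Set (V n)) (r : ℝ), 0 < r → (∀ a ∈ F₁, ∀ x, dist x a < r → f x = 1) →
    (∀ a ∈ F₂, ∀ x, dist x a < r → f x = 0) →
      Modulus (joining F₁ F₂) ≤ ∫⁻ x, ‖g x‖ₑ ^ n

/-- Removable sets are null. -/
def StmtNull : Prop := ∀ (n : ℕ), 1 ≤ n → ∀ E : Set (V n), IsClosed E → Removable E →
  volume E = 0

/-- From the Urysohn function to the bound of the modulus. -/
def StmtUp : Prop := ∀ (n : ℕ), 2 ≤ n → ∀ (E F₁ F₂ : Set (V n)) (R₁ : ℝ), IsClosed E →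
  IsCompact F₁ → IsCompact F₂ → F₁.Nonempty → F₂.Nonempty → Disjoint F₁ F₂ → Removable E →
  F₁ ⊆ Metric.ball 0 R₁ → F₂ ⊆ Metric.ball 0 R₁ → ∀ (w : V n → ℝ≥0∞) (δ : ℝ≥0∞),
    IsWt (E ∪ F₁ ∪ F₂ ∪ (Metric.ball 0 R₁)ᶜ)ᶜ δ w →
    lpn (E ∪ F₁ ∪ F₂ ∪ (Metric.ball 0 R₁)ᶜ)ᶜ w ≠ ⊤ →
    ∀ (u : V n → ℝ) (c η : ℝ), 0 < c → 0 < η → η < 1 / 2 → Continuous u →
      (∀ x, 0 ≤ u x ∧ u x ≤ 1) → (∀ x ∈ F₁, u x = 0) →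
      (∀ x ∈ F₂ ∪ (Metric.ball 0 R₁)ᶜ, u x = 1) →
      UG (E ∪ F₁ ∪ F₂ ∪ (Metric.ball 0 R₁)ᶜ)ᶜ w c u →
        Modulus (joining F₁ F₂) ≤ (ENNReal.ofReal (c * (1 - 2 * η))⁻¹ *
          lpn (E ∪ F₁ ∪ F₂ ∪ (Metric.ball 0 R₁)ᶜ)ᶜ w) ^ n

/-- First half of the main theorem. -/
def StmtHalf1 : Prop := ∀ (n : ℕ), 2 ≤ n → ∀ E : Set (V n), IsClosed E → Removable E → CNED E

/-! ## Part F: CNED implies removable -/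

/-- Ring modulus. -/
def StmtRing : Prop := ∀ (n : ℕ), 2 ≤ n → ∀ (x₀ : V n) (a b : ℝ), 0 < a → a < b →
  ∫⁻ x in {x | a < dist x x₀ ∧ dist x x₀ < b},
      ENNReal.ofReal (1 / (dist x x₀ * Real.log (b / a))) ^ n
    ≤ Modulus (joining (Metric.closedBall x₀ a) (Metric.sphere x₀ b))

/-- Variable scale averages of Sobolev functions. -/
def StmtAvg : Prop := ∀ (n : ℕ), 1 ≤ n → ∀ (Z : Set (V n)) (κ : ℝ), IsClosed Z → Z.Nonempty →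
  0 < κ → κ < 1 → ∀ (v : V n → ℝ) (g : V n → V n), Continuous v →
    MemLp g n (volume.restrict Zᶜ) → Measurable g → IsWeakGrad Zᶜ v g →
      Continuous (sgr Z κ v) ∧ (∀ x ∈ Z, sgr Z κ v x = v x) ∧
      ∀ x ∈ Zᶜ, ∀ M : ℝ≥0∞, ENNReal.ofReal (1 + κ) * sg Z κ (fun y => ‖g y‖ₑ) x < M →
        ∀ᶠ y in 𝓝 x, ENNReal.ofReal |sgr Z κ v y - sgr Z κ v x| ≤ M * ENNReal.ofReal (dist y x)

/-- A countable image contributes nothing. -/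
def StmtImg : Prop := ∀ (L : ℝ) (f : ℝ → ℝ) (K : Set ℝ) (k : ℝ → ℝ≥0∞), 0 ≤ L →
  Continuous f → IsClosed K → Measurable k → (f '' (K ∩ Icc 0 L)).Countable →
  (∀ a b : ℝ, 0 ≤ a → a ≤ b → b ≤ L → Disjoint (Icc a b) K →
    ENNReal.ofReal |f b - f a| ≤ ∫⁻ t in Icc a b, k t) →
    ENNReal.ofReal |f L - f 0| ≤ ∫⁻ t in Icc 0 L \ K, k t

/-- Upper bound for the modulus of curves meeting `E` in countably many points. -/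
def StmtUpper : Prop := ∀ (n : ℕ), 1 ≤ n → ∀ (E F₁ F₂ Z : Set (V n)), IsClosed Z →
  Z.Nonempty → E ⊆ Z → F₁ ⊆ Z → F₂ ⊆ Z → ∀ (v : V n → ℝ) (g : V n → V n), Continuous v →
    (v '' (Z \ E)).Countable → (∀ x ∈ F₁, v x = 0) → (∀ x ∈ F₂, v x = 1) →
    MemLp g n (volume.restrict Zᶜ) → Measurable g → IsWeakGrad Zᶜ v g →
      Modulus (joining F₁ F₂ ∩ Fsigma E) ≤ ∫⁻ x in Zᶜ, ‖g x‖ₑ ^ n

/-- Product rule for weak gradients. -/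
def StmtProd : Prop := ∀ (n : ℕ) (Ω : Set (V n)) (u φ : V n → ℝ) (g : V n → V n), 1 ≤ n →
  IsOpen Ω → Continuous u → MemLp g n (volume.restrict Ω) → IsWeakGrad Ω u g →
    ContDiff ℝ ∞ φ → HasCompactSupport φ →
      IsWeakGrad Ω (fun x => u x * φ x) (fun x => φ x • g x + u x • gradient φ x)

/-- First variation. -/
def StmtVar : Prop := ∀ (n : ℕ), 2 ≤ n → ∀ (μ : Measure (V n)) (a b : V n → V n),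
  MemLp a n μ → MemLp b n μ →
  (∀ t : ℝ, ∫⁻ x, ‖a x‖ₑ ^ n ∂μ ≤ ∫⁻ x, ‖a x + t • b x‖ₑ ^ n ∂μ) →
    ∫ x, ‖a x‖ ^ (n - 2) * inner ℝ (a x) (b x) ∂μ = 0

/-- Consequences of CNED for rings. -/
def StmtCnedRing : Prop := ∀ (n : ℕ), 2 ≤ n → ∀ E : Set (V n), IsClosed E → CNED E →
  volume E = 0 ∧ ∀ (u φ : V n → ℝ) (g : V n → V n), Continuous u →
    MemLp g n (volume.restrict Eᶜ) → Measurable g → IsWeakGrad Eᶜ u g → ContDiff ℝ ∞ φ →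
    HasCompactSupport φ → ∀ x₀ : V n, x₀ ∉ tsupport φ →
      ∫ x in Eᶜ, (‖x - x₀‖ ^ n)⁻¹ * inner ℝ (x - x₀) (φ x • g x + u x • gradient φ x) = 0

/-- Second half of the main theorem. -/
def StmtHalf2 : Prop := ∀ (n : ℕ), 2 ≤ n → ∀ E : Set (V n), IsClosed E → CNED E → Removable E

end CNEDRem
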